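import Mathlib

/-!
# MP_f406e2_lc Q5 (Lebesgue measurable 5-division): the coloured 5-regular tree, interface

The vertices of the 5-regular tree with properly coloured edges are the reduced words in the
colours `0..4` (`Wd`, `RedW`): the path from the root to the vertex, the LAST letter is the HEAD of
the list. `step z c` crosses the edge of colour `c` at `z`. A pair `(s, w)` (`s` a permutation of
the colours, `w` a reduced word) is the automorphism of the tree which maps the root to `w` and
permutes the colours by `s`; it maps the vertex `z` to `act s w z`.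

`orb` (module `Orb`) is the only result of the combinatorial block used elsewhere.
-/

set_option autoImplicit false

namespace Pool.Agent.MP_f406e2_lc_Q5

abbrev S5 : Type := Equiv.Perm (Fin 5)

/-- words in the colours -/
abbrev Wd : Type := List (Fin 5)

/-- reduced words -/
def RedW (z : Wd) : Prop := z.IsChain (· ≠ ·)

/-- cross the edge of colour `c` -/
def step (z : Wd) (c : Fin 5) : Wd :=
  match z with
  | [] => [c]
  | a :: z' => if a = c then z' else c :: a :: z'

/-- the action of the automorphism `(s, w)` on the vertices -/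
def act (s : S5) (w z : Wd) : Wd := z.foldr (fun c a => step a (s c)) w

/-- the product of automorphisms -/
def pmul (a b : S5 × Wd) : S5 × Wd := (a.1 * b.1, act a.1 a.2 b.2)

/-- the five permutations of the division: `sg i 0 = i`, `sg i 4 = 4, 2, 1, 0, 3`, signs `+ - - + +` -/
def sg : Fin 5 → S5 :=
  ![1,
    Equiv.swap 0 1 * (Equiv.swap 2 3 * Equiv.swap 3 4),
    Equiv.swap 0 2 * Equiv.swap 2 4 * Equiv.swap 4 1,
    Equiv.swap 0 3 * Equiv.swap 3 4,
    Equiv.swap 0 4 * Equiv.swap 4 3 * Equiv.swap 3 2 * Equiv.swap 2 1]

/-- the sign of `sg i` is `-1` exactly for `i = 1, 2` -/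
def od (i : Fin 5) : Bool := i = 1 ∨ i = 2

example : ∀ i, sg i 0 = i := by decide

example : ∀ i, sg i 4 = ![4, 2, 1, 0, 3] i := by decide

example : ∀ i, sg i 1 = ![1, 0, 0, 1, 0] i := by decide

example : ∀ i, sg i 2 = ![2, 3, 4, 2, 1] i := by decide

example : ∀ i, sg i 3 = ![3, 4, 3, 4, 2] i := by decide

lemma sign_sg (i : Fin 5) : Equiv.Perm.sign (sg i) = if od i then -1 else 1 := by
  revert i
  decide

/-- the vertex of the point number `i` in the equation at `(p, z)` -/
def nb (z : Wd) (p : S5) (i : Fin 5) : Wd := if od i then step z (p i) else z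

/-- the exact cover condition -/
def Ok (X : Wd → Fin 5 → Fin 5 → Prop) : Prop :=
  ∀ z, RedW z → ∀ p : S5, ∃! i : Fin 5, X (nb z p i) (p i) (p (sg i 4))

end Pool.Agent.MP_f406e2_lc_Q5
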