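import Mathlib
import Pool.Agent.Lib.MP_f406e2_lc_QD.Defs
import Pool.Agent.Lib.MP_f406e2_lc_Q5.Tree

/-!
# MP_f406e2_lc Q5: a Lebesgue measurable rotational 5-division of the sphere. Definitions

`C` is a rotation of order 5 of the icosahedral group, `F f` (`f` even) the rotation of the
icosahedral group which permutes the five letters (inscribed cubes) by `f`; letter `0` is the
standard cube, the letter `j = 1..4` corresponds to its diagonal `QD.u (j-1)` in the sense that
the rotations `F f` with `f 0 = 0`, `f j = j` are those about this diagonal. `h j` is the half-turn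
about `w j = C ^ j (1, 1, 0)`; it permutes the letters by the transposition `t j` and exchanges the
two ends of the edge of colour `j` at the root of the tree. Every relation below was checked by
exact computation in `ℚ(√5)`.
-/

set_option autoImplicit false

noncomputable section

namespace Pool.Agent.MP_f406e2_lc_Q5

open MeasureTheory Real
open Pool.Agent.MP_f406e2_lc_QD (E3 S2 O3 nu mat tr cr)
open scoped InnerProductSpace

/-- the half-turn about the line of `v` -/
def half (v : E3) : O3 := (Submodule.span ℝ {v}).reflection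

/-- a rotation of order 5 -/
def C : O3 := half !₂[goldenRatio - 1, 1, -goldenRatio] * half !₂[0, 0, 1]

/-- the five axes, of norm `√2` -/
def w : Fin 5 → E3 :=
  ![!₂[1, 1, 0],
    !₂[1 / 2, 1 - goldenRatio / 2, 1 / 2 + goldenRatio / 2],
    !₂[1 / 2 - goldenRatio / 2, 1 / 2 - goldenRatio, goldenRatio / 2],
    !₂[1 / 2 - goldenRatio / 2, 1 / 2 - goldenRatio, -(goldenRatio / 2)],
    !₂[1 / 2, 1 - goldenRatio / 2, -(1 / 2) - goldenRatio / 2]]

/-- the five half-turns -/
def h (j : Fin 5) : O3 := half (w j)

/-- the 5-cycle `0 → 1 → 2 → 3 → 4 → 0` -/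
def cyc : S5 := finRotate 5

/-- the permutation of the letters of `h j` -/
def t (j : Fin 5) : S5 := Equiv.swap (j + 1) (j - 1)

/-- a permutation which fixes `0`, as a permutation of four letters -/
def lo (a : S5) : Equiv.Perm (Fin 4) := (Equiv.Perm.decomposeFin a).2

/-- the rotation of the even permutation `f` -/
def F (f : S5) : O3 :=
  C ^ (f 0).val * Pool.Agent.MP_f406e2_lc_QD.F (lo ((cyc ^ (f 0).val)⁻¹ * f))

/-- the product of the half-turns named by a word -/
def wd (l : List (Fin 5)) : O3 := (l.map h).prod

@[simp] lemma wd_nil : wd [] = 1 := rfl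

@[simp] lemma wd_cons (j : Fin 5) (l : List (Fin 5)) : wd (j :: l) = h j * wd l := rfl

lemma wd_append (l m : List (Fin 5)) : wd (l ++ m) = wd l * wd m := by
  simp [wd]

/-- the coordinates in the tree of `(wd l)⁻¹`: its permutation of the colours and the image of the
root -/
def co : List (Fin 5) → S5 × Wd
  | [] => (1, [])
  | j :: l => ((co l).1 * t j, step (co l).2 ((co l).1 j))

/-- the coordinates in the tree of `(F f * wd l)⁻¹` -/
def pos (f : S5) (l : List (Fin 5)) : S5 × Wd := ((co l).1 * f⁻¹, (co l).2)

/-- the even permutations -/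
abbrev A5 : Subgroup S5 := alternatingGroup (Fin 5)

/-- the reduced words of length `n` -/
def W : ℕ → Finset (List (Fin 5))
  | 0 => {[]}
  | n + 1 => ((Finset.univ ×ˢ W n).filter fun p => p.2.head? ≠ some p.1).image
      fun p => p.1 :: p.2

/-- the five rotations of the division -/
def gam (i : Fin 5) : O3 := if od i then h i * F (t i * sg i) else F (sg i)

lemma half_apply (v : E3) (x : E3) : half v x = (2 * (⟪v, x⟫_ℝ / ‖v‖ ^ 2)) • v - x := by
  rw [half, Submodule.reflection_apply, Submodule.starProjection_singleton]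
  simp only [RCLike.ofReal_real_eq_id, id_eq]
  rw [← Nat.cast_smul_eq_nsmul ℝ, smul_smul]
  congr 2

/-- the inner products of the axes -/
lemma inner_w (i j : Fin 5) : ⟪w i, w j⟫_ℝ =
    if i = j then 2 else if i = j + 1 ∨ j = i + 1 then (3 - goldenRatio) / 2
      else 1 - 3 / 2 * goldenRatio := by
  have key : ∀ v w : E3, ⟪v, w⟫_ℝ = v 0 * w 0 + v 1 * w 1 + v 2 * w 2 := by
    intro v w
    rw [PiLp.inner_apply, Fin.sum_univ_three]
    simp only [RCLike.inner_apply, conj_trivial]
    ring
  rw [key]
  have h2 := goldenRatio_sq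
  fin_cases i <;> fin_cases j <;> simp [w] <;> nlinarith [h2]

lemma norm_w (j : Fin 5) : ‖w j‖ ^ 2 = 2 := by
  rw [← real_inner_self_eq_norm_sq, inner_w, if_pos rfl]

lemma h_apply (j : Fin 5) (x : E3) : h j x = ⟪w j, x⟫_ℝ • w j - x := by
  rw [h, half_apply, norm_w]
  congr 2
  ring

end Pool.Agent.MP_f406e2_lc_Q5
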