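import Mathlib
import Pool.Agent.Lib.MP_f406e2_lc_Q5.Defs
import Pool.Agent.Lib.MP_f406e2_lc_QD.Rel

/-!
# Q5, module Rel: the relations in the group

Checked by exact computation. `φ = goldenRatio`, `φ² = φ + 1` (`Real.goldenRatio_sq`).
* `h_mul_self`: `half v * half v = 1` (`Submodule.reflection_mul_reflection` or from `h_apply`).
* `C_apply`: from `half_apply` (the two axes have squared norms `4` and `1`).
* `C_w`: coordinates. `C_h`: `C (half v) C⁻¹ = half (C v)` (from `h_apply` and `C_w`).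
* `C_five`: from `C_apply` five times, or: `C_w` on the basis `w 0, w 1, w 2`.
* `lo_mul`, `lo_one`: a permutation which fixes `0` is determined by `lo`:
  `(lo a i).succ = a i.succ`; `lo_sign`: `Equiv.Perm.decomposeFin` / `sign`.
* `F_mul`: let `P g : ∀ f ∈ A5, F (g * f) = F g * F f`. `P` is closed under products. `P cyc` holds:
  `(cyc * f) 0 = f 0 + 1`, `C ^ 5 = 1`. For `a` even with `a 0 = 0`: `F a = QD.F (lo a)`, and for
  `f = cyc ^ k * b`, `b 0 = 0`, `F f = C ^ k * F b`, `F (g * b) = F g * F b` for all `g` if `b 0 = 0`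
  (by `lo_mul`). So `P a` follows from `F (a * cyc ^ k) = F a * C ^ k`, `k = 0..4`, which is a matrix
  identity. It is enough for `a = (1 2)(3 4)`, `F a = diag (1, -1, -1)`, because `cyc` and `a`
  generate `A5` (e.g. `decide` that every even permutation is one of a list of words; or check
  the identity for all twelve `a`).
* `h_F`: both sides for `(f, j)` follow from the case `(f * cyc ^ j, 0)` as `h j = C ^ j h 0 C ^ (-j)`,
  `t j = cyc ^ j * t 0 * (cyc ^ j)⁻¹`; and the case `(cyc ^ k * a, 0)` from `(a, 0)`, `a 0 = 0`. There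
  `h 0 = - QD.F (lo (t 0))` as isometries (`t 0 = swap 1 4`, `lo (t 0) = swap 0 3`), so
  `h 0 * F a = F (t 0 * a * t 0) * h 0` by `lo_mul`.
-/

set_option autoImplicit false

noncomputable section

namespace Pool.Agent.MP_f406e2_lc_Q5

open MeasureTheory Real
open Pool.Agent.MP_f406e2_lc_QD (E3 S2 O3 nu mat tr cr)
open scoped InnerProductSpace

lemma half_mul_self (v : E3) : half v * half v = 1 :=
  Submodule.reflection_mul_reflection _

lemma h_mul_self (j : Fin 5) : h j * h j = 1 := half_mul_self _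

lemma h_inv (j : Fin 5) : (h j)⁻¹ = h j := inv_eq_of_mul_eq_one_left (h_mul_self j)

lemma relInner (v w : E3) : ⟪v, w⟫_ℝ = v 0 * w 0 + v 1 * w 1 + v 2 * w 2 := by
  rw [PiLp.inner_apply, Fin.sum_univ_three]
  simp only [RCLike.inner_apply, conj_trivial]
  ring

lemma relNorm (v : E3) : ‖v‖ ^ 2 = v 0 * v 0 + v 1 * v 1 + v 2 * v 2 := by
  rw [← real_inner_self_eq_norm_sq, relInner]

lemma relExt {v w : E3} (h0 : v 0 = w 0) (h1 : v 1 = w 1) (h2 : v 2 = w 2) : v = w := by
  ext i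
  fin_cases i
  · exact h0
  · exact h1
  · exact h2

lemma relIsoExt {g g' : O3} (h : ∀ x, g x = g' x) : g = g' := LinearIsometryEquiv.ext h

lemma relMulApply (g g' : O3) (x : E3) : (g * g') x = g (g' x) := rfl

lemma C_apply (x : E3) : C x =
    !₂[goldenRatio / 2 * x 0 + (1 - goldenRatio) / 2 * x 1 - 1 / 2 * x 2,
      (1 - goldenRatio) / 2 * x 0 + 1 / 2 * x 1 - goldenRatio / 2 * x 2,
      1 / 2 * x 0 + goldenRatio / 2 * x 1 + (goldenRatio - 1) / 2 * x 2] := by
  have hg := Real.goldenRatio_sq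
  have hb : half !₂[0, 0, 1] x = !₂[-x 0, -x 1, x 2] := by
    rw [half_apply, relNorm, relInner]
    apply relExt
    · simp
    · simp
    · simp
      ring
  have ha : ∀ y : E3, half !₂[goldenRatio - 1, 1, -goldenRatio] y =
      (1 / 2 * ((goldenRatio - 1) * y 0 + y 1 - goldenRatio * y 2)) •
        (!₂[goldenRatio - 1, 1, -goldenRatio] : E3) - y := by
    intro y
    have h4 : ‖(!₂[goldenRatio - 1, 1, -goldenRatio] : E3)‖ ^ 2 = 4 := by
      rw [relNorm]
      simp
      linear_combination 2 * hg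
    rw [half_apply, h4, relInner]
    congr 2
    simp
    ring
  rw [C, relMulApply, hb, ha]
  apply relExt
  · simp
    linear_combination (-(1 / 2) * x 0 - 1 / 2 * x 2) * hg
  · simp
    ring
  · simp
    linear_combination (1 / 2 * x 0 + 1 / 2 * x 2) * hg

lemma C_w (j : Fin 5) : C (w j) = w (j + 1) := by
  have hg := Real.goldenRatio_sq
  rw [C_apply]
  fin_cases j <;> apply relExt <;> simp [w] <;> linarith

lemma relDecomp (x : E3) : x = x 0 • w 0 + ((x 1 - x 0) * -goldenRatio) • (w 1 + w 4 - w 0) +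
    (x 2 * (goldenRatio - 1)) • (w 2 - w 3) := by
  have hg := Real.goldenRatio_sq
  apply relExt
  · simp [w]
    right
    ring
  · simp [w]
    linear_combination (x 0 - x 1) * hg
  · simp [w]
    linear_combination -x 2 * hg

lemma C_five : C ^ 5 = 1 := by
  have h1 : ∀ j, (C ^ 5) (w j) = w j := by
    intro j
    rw [pow_succ, pow_succ, pow_succ, pow_succ, pow_one, relMulApply, relMulApply, relMulApply, relMulApply, C_w, C_w,
      C_w, C_w, C_w]
    congr 1
    revert j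
    decide
  apply relIsoExt
  intro x
  rw [relDecomp x]
  simp only [map_add, map_sub, map_smul, h1]
  rfl

lemma C_h (j : Fin 5) : C * h j = h (j + 1) * C := by
  apply relIsoExt
  intro x
  have h1 : ⟪w (j + 1), C x⟫_ℝ = ⟪w j, x⟫_ℝ := by
    rw [← C_w, C.inner_map_map]
  rw [relMulApply, relMulApply, h_apply, h_apply, map_sub, map_smul, C_w, h1]

lemma t_sq (j : Fin 5) : t j * t j = 1 := by
  revert j
  decide

lemma t_self (j : Fin 5) : t j j = j := by
  revert j
  decide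

lemma t_sign (j : Fin 5) : Equiv.Perm.sign (t j) = -1 := by
  revert j
  decide

lemma tft_mem (f : S5) (hf : f ∈ A5) (i j : Fin 5) : t i * f * t j ∈ A5 := by
  rw [Equiv.Perm.mem_alternatingGroup] at hf ⊢
  rw [map_mul, map_mul, hf, t_sign, t_sign]
  decide

lemma lo_succ (a : S5) (ha : a 0 = 0) (i : Fin 4) : (lo a i).succ = a i.succ := by
  obtain ⟨⟨p, e⟩, rfl⟩ := (Equiv.Perm.decomposeFin (n := 4)).symm.surjective a
  rw [Equiv.Perm.decomposeFin_symm_apply_zero] at ha
  subst ha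
  rw [lo, Equiv.apply_symm_apply, Equiv.Perm.decomposeFin_symm_apply_succ, Equiv.swap_self,
    Equiv.refl_apply]

lemma lo_mul (a b : S5) (ha : a 0 = 0) (hb : b 0 = 0) : lo (a * b) = lo a * lo b := by
  ext i
  have hab : (a * b) 0 = 0 := by rw [Equiv.Perm.mul_apply, hb, ha]
  have h1 : (lo (a * b) i).succ = ((lo a * lo b) i).succ := by
    rw [lo_succ _ hab, Equiv.Perm.mul_apply, Equiv.Perm.mul_apply, lo_succ a ha, lo_succ b hb]
  rw [Fin.succ_injective 4 h1]

lemma lo_sign (a : S5) (ha : a 0 = 0) : Equiv.Perm.sign (lo a) = Equiv.Perm.sign a := by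
  obtain ⟨⟨p, e⟩, rfl⟩ := (Equiv.Perm.decomposeFin (n := 4)).symm.surjective a
  rw [Equiv.Perm.decomposeFin_symm_apply_zero] at ha
  subst ha
  rw [lo, Equiv.apply_symm_apply, Equiv.Perm.decomposeFin.symm_sign, if_pos rfl, one_mul]

lemma lo_one : lo 1 = 1 := by
  ext i
  have h1 : (lo 1 i).succ = i.succ := lo_succ 1 rfl i
  rw [Fin.succ_injective 4 h1]
  rfl

lemma cyc_pow_zero (i : Fin 5) : (cyc ^ i.val) 0 = i := by
  revert i
  decide

lemma cyc_five : cyc ^ 5 = 1 := by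
  decide

lemma F_cyc_pow (m : ℕ) (hm : m < 5) (b : S5) (hb : b 0 = 0) :
    F (cyc ^ m * b) = C ^ m * Pool.Agent.MP_f406e2_lc_QD.F (lo b) := by
  have h1 : (cyc ^ m * b) 0 = (⟨m, hm⟩ : Fin 5) := by
    rw [Equiv.Perm.mul_apply, hb]
    exact cyc_pow_zero ⟨m, hm⟩
  rw [F, h1, inv_mul_cancel_left]

lemma F_stab (b : S5) (hb : b 0 = 0) : F b = Pool.Agent.MP_f406e2_lc_QD.F (lo b) := by
  have h1 := F_cyc_pow 0 (by norm_num) b hb
  rwa [pow_zero, pow_zero, one_mul, one_mul] at h1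

lemma rel_exists_cyc (f : S5) : ∃ m < 5, ∃ b : S5, b 0 = 0 ∧ f = cyc ^ m * b := by
  refine ⟨(f 0).val, (f 0).2, (cyc ^ (f 0).val)⁻¹ * f, ?_, (mul_inv_cancel_left _ _).symm⟩
  rw [Equiv.Perm.mul_apply, Equiv.Perm.inv_eq_iff_eq, cyc_pow_zero]

lemma F_one : F 1 = 1 := by
  rw [F_stab 1 rfl, lo_one, map_one]

lemma F_mul_stab (g c : S5) (hc : c 0 = 0) : F (g * c) = F g * F c := by
  obtain ⟨m, hm, b, hb, rfl⟩ := rel_exists_cyc g
  have hbc : (b * c) 0 = 0 := by rw [Equiv.Perm.mul_apply, hc, hb]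
  rw [mul_assoc, F_cyc_pow m hm _ hbc, F_cyc_pow m hm b hb, F_stab c hc, lo_mul b c hb hc, map_mul,
    mul_assoc]

lemma F_cyc_mul (f : S5) : F (cyc * f) = C * F f := by
  obtain ⟨m, hm, b, hb, rfl⟩ := rel_exists_cyc f
  rw [F_cyc_pow m hm b hb, ← mul_assoc, ← mul_assoc, ← pow_succ', ← pow_succ']
  by_cases h5 : m + 1 < 5
  · rw [F_cyc_pow _ h5 b hb]
  · have h6 : m + 1 = 5 := by omega
    rw [h6, cyc_five, one_mul, C_five, one_mul, F_stab b hb]

lemma F_cyc_pow_mul (m : ℕ) (f : S5) : F (cyc ^ m * f) = C ^ m * F f := by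
  induction m with
  | zero => rw [pow_zero, pow_zero, one_mul, one_mul]
  | succ m ih => rw [pow_succ', mul_assoc, F_cyc_mul, ih, pow_succ', mul_assoc]

/-- `(1 2)(3 4)` -/
def relA : S5 := Equiv.swap 1 2 * Equiv.swap 3 4

/-- `(0 3 2)` of four letters -/
def relE1 : Equiv.Perm (Fin 4) := Equiv.swap 0 3 * Equiv.swap 3 2

/-- `(0 3 1)` of four letters -/
def relE3 : Equiv.Perm (Fin 4) := Equiv.swap 0 3 * Equiv.swap 3 1

/-- `(0 1)(2 3)` of four letters -/
def relE0 : Equiv.Perm (Fin 4) := Equiv.swap 0 1 * Equiv.swap 2 3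

lemma FQ_relE0 (x : E3) : Pool.Agent.MP_f406e2_lc_QD.F relE0 x = !₂[x 0, -x 1, -x 2] := by
  have h0 : relE0 0 = 1 := by decide
  have h1 : relE0 1 = 0 := by decide
  have h2 : relE0 2 = 3 := by decide
  have h3 : relE0 3 = 2 := by decide
  rw [Pool.Agent.MP_f406e2_lc_QD.F_apply, Fin.sum_univ_four, h0, h1, h2, h3]
  simp only [relInner]
  apply relExt <;> simp [Pool.Agent.MP_f406e2_lc_QD.u] <;> ring

lemma FQ_relE1 (x : E3) : Pool.Agent.MP_f406e2_lc_QD.F relE1 x = !₂[-x 2, -x 0, x 1] := by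
  have h0 : relE1 0 = 3 := by decide
  have h1 : relE1 1 = 1 := by decide
  have h2 : relE1 2 = 0 := by decide
  have h3 : relE1 3 = 2 := by decide
  rw [Pool.Agent.MP_f406e2_lc_QD.F_apply, Fin.sum_univ_four, h0, h1, h2, h3]
  simp only [relInner]
  apply relExt <;> simp [Pool.Agent.MP_f406e2_lc_QD.u] <;> ring

lemma FQ_relE3 (x : E3) : Pool.Agent.MP_f406e2_lc_QD.F relE3 x = !₂[-x 1, -x 2, x 0] := by
  have h0 : relE3 0 = 3 := by decide
  have h1 : relE3 1 = 0 := by decide
  have h2 : relE3 2 = 2 := by decide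
  have h3 : relE3 3 = 1 := by decide
  rw [Pool.Agent.MP_f406e2_lc_QD.F_apply, Fin.sum_univ_four, h0, h1, h2, h3]
  simp only [relInner]
  apply relExt <;> simp [Pool.Agent.MP_f406e2_lc_QD.u] <;> ring

lemma C2_apply (x : E3) : C (C x) =
    !₂[1 / 2 * x 0 - goldenRatio / 2 * x 1 + (1 - goldenRatio) / 2 * x 2,
      -(goldenRatio / 2) * x 0 + (1 - goldenRatio) / 2 * x 1 - 1 / 2 * x 2,
      (goldenRatio - 1) / 2 * x 0 + 1 / 2 * x 1 - goldenRatio / 2 * x 2] := by
  have hg := Real.goldenRatio_sq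
  rw [C_apply (C x), C_apply x]
  apply relExt
  · simp
    linear_combination (1 / 2 * x 0 - 1 / 4 * x 1 + 1 / 4 * x 2) * hg
  · simp
    linear_combination (-(1 / 4) * x 0 - 1 / 4 * x 2) * hg
  · simp
    linear_combination (-(1 / 4) * x 0 + 1 / 4 * x 1) * hg

lemma rel_one : Pool.Agent.MP_f406e2_lc_QD.F relE0 * C = C ^ 2 * Pool.Agent.MP_f406e2_lc_QD.F relE1 := by
  apply relIsoExt
  intro x
  rw [pow_two, relMulApply, relMulApply, relMulApply, FQ_relE1, FQ_relE0, C2_apply, C_apply]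
  apply relExt <;> simp <;> ring

lemma rel_three : C * Pool.Agent.MP_f406e2_lc_QD.F relE0 =
    Pool.Agent.MP_f406e2_lc_QD.F relE3 * C ^ 2 := by
  apply relIsoExt
  intro x
  rw [pow_two, relMulApply, relMulApply, relMulApply, FQ_relE3, FQ_relE0, C2_apply, C_apply]
  apply relExt <;> simp <;> ring

lemma F_relA : F relA = Pool.Agent.MP_f406e2_lc_QD.F relE0 := by
  rw [F_stab relA (by decide)]
  congr 1
  decide

lemma relE0_sq : Pool.Agent.MP_f406e2_lc_QD.F relE0 * Pool.Agent.MP_f406e2_lc_QD.F relE0 = 1 := by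
  rw [← map_mul, show relE0 * relE0 = 1 by decide, map_one]

lemma F_relA_cyc (k : ℕ) (hk : k < 5) : F (relA * cyc ^ k) = F relA * C ^ k := by
  have r1 := rel_one
  have r3 := rel_three
  have r5 := C_five
  have r0 := relE0_sq
  rw [F_relA]
  interval_cases k
  · rw [pow_zero, pow_zero, mul_one, mul_one, F_relA]
  · have h1 : relA * cyc ^ 1 = cyc ^ 2 * ((cyc ^ 2)⁻¹ * (relA * cyc ^ 1)) := (mul_inv_cancel_left _ _).symm
    rw [h1, F_cyc_pow 2 (by norm_num) _ (by decide)]
    have h2 : lo ((cyc ^ 2)⁻¹ * (relA * cyc ^ 1)) = relE1 := by decide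
    rw [h2, pow_one, r1]
  · have h1 : relA * cyc ^ 2 = cyc ^ 1 * ((cyc ^ 1)⁻¹ * (relA * cyc ^ 2)) := (mul_inv_cancel_left _ _).symm
    rw [h1, F_cyc_pow 1 (by norm_num) _ (by decide)]
    have h2 : lo ((cyc ^ 1)⁻¹ * (relA * cyc ^ 2)) = relE1⁻¹ := by decide
    rw [h2, map_inv, pow_one, mul_inv_eq_iff_eq_mul, mul_assoc, ← r1, ← mul_assoc, r0, one_mul]
  · have h1 : relA * cyc ^ 3 = cyc ^ 4 * ((cyc ^ 4)⁻¹ * (relA * cyc ^ 3)) := (mul_inv_cancel_left _ _).symm
    rw [h1, F_cyc_pow 4 (by norm_num) _ (by decide)]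
    have h2 : lo ((cyc ^ 4)⁻¹ * (relA * cyc ^ 3)) = relE3 := by decide
    rw [h2]
    have h3 : Pool.Agent.MP_f406e2_lc_QD.F relE3 = C * Pool.Agent.MP_f406e2_lc_QD.F relE0 * C ^ 3 := by
      rw [r3, mul_assoc, ← pow_add, r5, mul_one]
    rw [h3, mul_assoc C, ← mul_assoc (C ^ 4), ← pow_succ, r5, one_mul]
  · have h1 : relA * cyc ^ 4 = cyc ^ 3 * ((cyc ^ 3)⁻¹ * (relA * cyc ^ 4)) := (mul_inv_cancel_left _ _).symm
    rw [h1, F_cyc_pow 3 (by norm_num) _ (by decide)]
    have h2 : lo ((cyc ^ 3)⁻¹ * (relA * cyc ^ 4)) = relE3⁻¹ := by decide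
    rw [h2, map_inv, mul_inv_eq_iff_eq_mul]
    have h3 : Pool.Agent.MP_f406e2_lc_QD.F relE3 = C * Pool.Agent.MP_f406e2_lc_QD.F relE0 * C ^ 3 := by
      rw [r3, mul_assoc, ← pow_add, r5, mul_one]
    rw [h3, ← mul_assoc, ← mul_assoc, mul_assoc _ (C ^ 4) C, ← pow_succ, r5, mul_one, r0, one_mul]

/-- left multiplication by `g` is respected -/
def RelP (g : S5) : Prop := ∀ f : S5, F (g * f) = F g * F f

lemma RelP_cyc : RelP cyc := by
  intro f
  have h1 : F cyc = C := by
    have h2 := F_cyc_mul 1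
    rwa [mul_one, F_one, mul_one] at h2
  rw [F_cyc_mul, h1]

lemma RelP_a : RelP relA := by
  intro f
  obtain ⟨m, hm, b, hb, rfl⟩ := rel_exists_cyc f
  rw [← mul_assoc, F_mul_stab _ b hb, F_relA_cyc m hm, F_cyc_pow_mul, mul_assoc]

lemma RelP_mul {g g' : S5} (h : RelP g) (h' : RelP g') : RelP (g * g') := by
  intro f
  rw [mul_assoc, h (g' * f), h' f, h g', mul_assoc]

lemma RelP_one : RelP 1 := by
  intro f
  rw [one_mul, F_one, one_mul]

/-- words in `cyc` and `relA` -/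
def relWord (l : List Bool) : S5 := (l.map fun x => if x then cyc else relA).prod

lemma RelP_word (l : List Bool) : RelP (relWord l) := by
  induction l with
  | nil => exact RelP_one
  | cons x l ih =>
    have h1 : relWord (x :: l) = (if x then cyc else relA) * relWord l := rfl
    rw [h1]
    cases x
    · exact RelP_mul RelP_a ih
    · exact RelP_mul RelP_cyc ih

/-- the words of the twelve even permutations which fix `0` -/
def relWords : List (List Bool) :=
  [[], [false], [true, false, true, true, true], [true, true, true, false, true],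
    [false, true, false, true, true, true], [false, true, true, true, false, true],
    [true, false, true, true, true, false], [true, true, true, false, true, false],
    [false, true, false, true, true, true, false], [false, true, true, true, false, true, false],
    [true, true, false, true, true, true, false, true, true],
    [false, true, true, false, true, true, true, false, true, true]]

lemma relWords_all : ∀ b : S5, b 0 = 0 → Equiv.Perm.sign b = 1 → ∃ l ∈ relWords, b = relWord l := by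
  decide +kernel

lemma RelP_A5 (f : S5) (hf : f ∈ A5) : RelP f := by
  obtain ⟨m, hm, b, hb, rfl⟩ := rel_exists_cyc f
  have h1 : RelP (cyc ^ m) := by
    clear hm hf
    induction m with
    | zero => exact RelP_one
    | succ m ih =>
      rw [pow_succ]
      exact RelP_mul ih RelP_cyc
  have h2 : Equiv.Perm.sign b = 1 := by
    rw [Equiv.Perm.mem_alternatingGroup, map_mul, map_pow, show Equiv.Perm.sign cyc = 1 by decide,
      one_pow, one_mul] at hf
    exact hf
  obtain ⟨l, -, rfl⟩ := relWords_all b hb h2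
  exact RelP_mul h1 (RelP_word l)

theorem F_mul (f g : S5) (hf : f ∈ A5) (hg : g ∈ A5) : F (f * g) = F f * F g := RelP_A5 f hf g

lemma F_inv (f : S5) (hf : f ∈ A5) : (F f)⁻¹ = F f⁻¹ := by
  apply inv_eq_of_mul_eq_one_left
  rw [← RelP_A5 f⁻¹ (inv_mem hf), inv_mul_cancel, F_one]

lemma t_conj (j : Fin 5) : t j = cyc ^ j.val * t 0 * (cyc ^ j.val)⁻¹ := by
  revert j
  decide

lemma h_conj (j : Fin 5) : h j * C ^ j.val = C ^ j.val * h 0 := by
  have key : ∀ m : ℕ, ∀ hm : m < 5, C ^ m * h 0 = h ⟨m, hm⟩ * C ^ m := by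
    intro m
    induction m with
    | zero =>
      intro hm
      rw [pow_zero, one_mul, mul_one]
      rfl
    | succ m ih =>
      intro hm
      have e : (⟨m, by omega⟩ : Fin 5) + 1 = ⟨m + 1, hm⟩ := by
        ext
        rw [Fin.val_add]
        show (m + 1) % 5 = m + 1
        exact Nat.mod_eq_of_lt hm
      rw [pow_succ', mul_assoc, ih (by omega), ← mul_assoc, C_h, mul_assoc, e]
  exact (key j.val j.2).symm

lemma h_zero : ∀ x : E3, h 0 x = -(Pool.Agent.MP_f406e2_lc_QD.F (Equiv.swap 0 3) x) := by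
  intro x
  have h0 : (Equiv.swap 0 3 : Equiv.Perm (Fin 4)) 0 = 3 := by decide
  have h1 : (Equiv.swap 0 3 : Equiv.Perm (Fin 4)) 1 = 1 := by decide
  have h2 : (Equiv.swap 0 3 : Equiv.Perm (Fin 4)) 2 = 2 := by decide
  have h3 : (Equiv.swap 0 3 : Equiv.Perm (Fin 4)) 3 = 0 := by decide
  rw [h_apply, Pool.Agent.MP_f406e2_lc_QD.F_apply, Fin.sum_univ_four, h0, h1, h2, h3]
  simp only [relInner]
  apply relExt <;> simp [Pool.Agent.MP_f406e2_lc_QD.u, w] <;> ring

lemma h_F_zero (a : S5) (ha : a 0 = 0) : h 0 * F a = F (t 0 * a * t 0) * h 0 := by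
  have ht : (t 0 : S5) 0 = 0 := by decide
  have hta : (t 0 * a) 0 = 0 := by rw [Equiv.Perm.mul_apply, ha, ht]
  have hl : lo (t 0) = Equiv.swap 0 3 := by decide
  have htat : (t 0 * a * t 0) 0 = 0 := by rw [Equiv.Perm.mul_apply, ht, hta]
  rw [F_stab a ha, F_stab _ htat, lo_mul _ _ hta ht, lo_mul _ _ ht ha, hl, map_mul, map_mul]
  apply relIsoExt
  intro x
  rw [relMulApply, relMulApply, relMulApply, relMulApply, h_zero, h_zero, map_neg, map_neg, map_neg,
    ← relMulApply (Pool.Agent.MP_f406e2_lc_QD.F (Equiv.swap 0 3))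
      (Pool.Agent.MP_f406e2_lc_QD.F (Equiv.swap 0 3)) x, ← map_mul, Equiv.swap_mul_self, map_one]
  rfl

theorem h_F (f : S5) (hf : f ∈ A5) (j : Fin 5) :
    h (f j) * F f = F (t (f j) * f * t j) * h j := by
  have hc : ∀ m : ℕ, cyc ^ m ∈ A5 := by
    intro m
    apply pow_mem
    rw [Equiv.Perm.mem_alternatingGroup]
    decide
  have hFc : ∀ m : ℕ, F (cyc ^ m) = C ^ m := by
    intro m
    have h1 := F_cyc_pow_mul m 1
    rwa [mul_one, F_one, mul_one] at h1
  set m := (f j).val with hm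
  set g : S5 := (cyc ^ m)⁻¹ * f * cyc ^ j.val with hg
  have hgA : g ∈ A5 := mul_mem (mul_mem (inv_mem (hc m)) hf) (hc _)
  have hg0 : g 0 = 0 := by
    rw [hg, Equiv.Perm.mul_apply, Equiv.Perm.mul_apply, cyc_pow_zero, Equiv.Perm.inv_eq_iff_eq, hm,
      cyc_pow_zero]
  have hfg : f = cyc ^ m * g * (cyc ^ j.val)⁻¹ := by
    rw [hg]
    group
  have htg : t 0 * g * t 0 ∈ A5 := tft_mem g hgA 0 0
  have hFf : F f = C ^ m * F g * (C ^ j.val)⁻¹ := by
    conv_lhs => rw [hfg]
    rw [F_mul _ _ (mul_mem (hc m) hgA) (inv_mem (hc _)), F_cyc_pow_mul, ← F_inv _ (hc _), hFc]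
  have htft : t (f j) * f * t j = cyc ^ m * (t 0 * g * t 0) * (cyc ^ j.val)⁻¹ := by
    rw [t_conj (f j), t_conj j, ← hm, hg]
    group
  have hFt : F (t (f j) * f * t j) = C ^ m * F (t 0 * g * t 0) * (C ^ j.val)⁻¹ := by
    rw [htft, F_mul _ _ (mul_mem (hc m) htg) (inv_mem (hc _)), F_cyc_pow_mul, ← F_inv _ (hc _),
      hFc]
  have h1 : h (f j) * C ^ m = C ^ m * h 0 := h_conj (f j)
  have h2 : (C ^ j.val)⁻¹ * h j = h 0 * (C ^ j.val)⁻¹ := by
    rw [inv_mul_eq_iff_eq_mul, ← mul_assoc, ← h_conj j, mul_assoc, mul_inv_cancel, mul_one]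
  have h3 := h_F_zero g hg0
  rw [hFf, hFt, mul_assoc (C ^ m * F (t 0 * g * t 0)), h2, ← mul_assoc, ← mul_assoc, h1,
    mul_assoc (C ^ m) (h 0), h3]
  simp only [mul_assoc]

end Pool.Agent.MP_f406e2_lc_Q5
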