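import Mathlib
import Pool.Agent.Lib.MP_f406e2_lc_Q5.PM

/-!
# Q5, module FlipP: alternating paths

As `QD.FlipP`.
-/

set_option autoImplicit false

noncomputable section

namespace Pool.Agent.MP_f406e2_lc_Q5

open MeasureTheory
open Pool.Agent.MP_f406e2_lc_QD (E3 S2 O3 nu mat tr cr)

/-- alternating paths which start with an edge outside the matching and end at an unmatched
point -/
def Aug (M : PM) : List (Fin 5) → S2 → Prop
  | [], _ => False
  | [j], x => M.m x ≠ some j ∧ M.m (h j • x) = none
  | j :: j' :: l, x => M.m x ≠ some j ∧ M.m (h j • x) = some j' ∧ Aug M l (h j' • h j • x)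

/-- the isometry which leads to the point number `t` of the path -/
def pth (l : List (Fin 5)) : ℕ → O3
  | 0 => 1
  | n + 1 => h (l.getD n 0) * pth l n

private lemma FlipP_cc (M : PM) (j j' : Fin 5) (l' : List (Fin 5)) (x : S2) :
    Aug M (j :: j' :: l') x ↔
      M.m x ≠ some j ∧ M.m (h j • x) = some j' ∧ Aug M l' (h j' • h j • x) := Iff.rfl

private lemma FlipP_pth (j j' : Fin 5) (l' : List (Fin 5)) (n : ℕ) :
    pth (j :: j' :: l') (n + 2) = pth l' n * (h j' * h j) := by
  induction n with
  | zero => simp [pth]
  | succ n ih =>
    have h1 : pth (j :: j' :: l') (n + 1 + 2) =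
        h ((j :: j' :: l').getD (n + 2) 0) * pth (j :: j' :: l') (n + 2) := rfl
    have h2 : pth l' (n + 1) = h (l'.getD n 0) * pth l' n := rfl
    rw [h1, h2, ih, mul_assoc]
    rfl

private lemma FlipP_pthx (j j' : Fin 5) (l' : List (Fin 5)) (n : ℕ) (x : S2) :
    pth (j :: j' :: l') (n + 2) • x = pth l' n • h j' • h j • x := by
  rw [FlipP_pth, mul_smul, mul_smul]

lemma meas_Aug (M : PM) (l : List (Fin 5)) : MeasurableSet {x | Aug M l x} := by
  induction l using List.twoStepInduction with
  | nil => exact MeasurableSet.empty
  | singleton j =>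
    have h1 : {x | Aug M [j] x} = (M.m ⁻¹' {some j})ᶜ ∩
        (fun x : S2 => h j • x) ⁻¹' (M.m ⁻¹' {none}) := rfl
    rw [h1]
    exact (M.meas _).compl.inter ((MP_f406e2_lc_QD.mp (h j)).measurable (M.meas _))
  | cons_cons j j' l' ih =>
    have h1 : {x | Aug M (j :: j' :: l') x} = (M.m ⁻¹' {some j})ᶜ ∩
        ((fun x : S2 => h j • x) ⁻¹' (M.m ⁻¹' {some j'}) ∩
          (fun x : S2 => h j • x) ⁻¹' ((fun x : S2 => h j' • x) ⁻¹' {x | Aug M l' x})) := rfl
    rw [h1]
    exact (M.meas _).compl.inter (((MP_f406e2_lc_QD.mp (h j)).measurable (M.meas _)).inter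
      ((MP_f406e2_lc_QD.mp (h j)).measurable ((MP_f406e2_lc_QD.mp (h j')).measurable ih)))

lemma path_odd (M : PM) (l : List (Fin 5)) (x : S2) (hx : Aug M l x) : Odd l.length := by
  induction l using List.twoStepInduction generalizing x with
  | nil => exact absurd hx id
  | singleton j => exact odd_one
  | cons_cons j j' l' ih =>
    have h1 := ih _ hx.2.2
    rw [List.length_cons, List.length_cons, add_assoc]
    exact h1.add_even even_two

lemma path_end (M : PM) (l : List (Fin 5)) (x : S2) (hx : Aug M l x) :
    M.m (pth l l.length • x) = none := by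
  induction l using List.twoStepInduction generalizing x with
  | nil => exact absurd hx id
  | singleton j =>
    have h1 : pth [j] [j].length = h j := by
      change h j * 1 = h j
      rw [mul_one]
    rw [h1]
    exact hx.2
  | cons_cons j j' l' ih =>
    have h1 := ih _ hx.2.2
    rw [List.length_cons, List.length_cons, add_assoc]
    change M.m (pth (j :: j' :: l') (l'.length + 2) • x) = none
    rw [FlipP_pthx]
    exact h1

theorem path_facts (M : PM) (l : List (Fin 5)) (x : S2) (hx : Aug M l x) (n : ℕ)
    (h0 : 0 < n) (hn : n < l.length) :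
    M.m (pth l n • x) = some (l.getD (if Odd n then n else n - 1) 0) := by
  induction l using List.twoStepInduction generalizing x n with
  | nil => exact absurd hx id
  | singleton j => simp at hn; omega
  | cons_cons j j' l' ih =>
    obtain ⟨h1, h2, h3⟩ := hx
    match n, h0, hn with
    | 1, _, _ =>
      have e1 : pth (j :: j' :: l') 1 = h j := by
        change h j * 1 = h j
        rw [mul_one]
      rw [e1, h2, if_pos odd_one]
      rfl
    | 2, _, _ =>
      have e1 : pth (j :: j' :: l') 2 • x = h j' • h j • x := by
        have := FlipP_pthx j j' l' 0 x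
        rw [this]
        change (1 : O3) • _ = _
        rw [one_smul]
      rw [e1, if_neg (by decide), M.sym _ _ h2]
      rfl
    | n + 3, _, hn =>
      have e1 : pth (j :: j' :: l') (n + 3) • x = pth l' (n + 1) • h j' • h j • x :=
        FlipP_pthx j j' l' (n + 1) x
      rw [e1, ih _ h3 (n + 1) (Nat.succ_pos _) (by
        simp only [List.length_cons] at hn
        omega)]
      by_cases ho : Odd (n + 1)
      · have ho' : Odd (n + 3) := by
          have := ho.add_even even_two
          rwa [add_assoc] at this
        rw [if_pos ho, if_pos ho']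
        rfl
      · have ho' : ¬ Odd (n + 3) := by
          intro h4
          apply ho
          rw [Nat.odd_iff] at h4 ⊢
          omega
        rw [if_neg ho, if_neg ho']
        have ht0 : 0 < n := by
          rcases Nat.eq_zero_or_pos n with rfl | h4
          · exact absurd odd_one ho
          · exact h4
        obtain ⟨s, rfl⟩ := Nat.exists_eq_add_of_lt ht0
        simp

private lemma FlipP_start (M : PM) (l : List (Fin 5)) (x : S2) (hx : Aug M l x) :
    M.m x ≠ some (l.getD 0 0) := by
  match l, hx with
  | [j], hx => exact hx.1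
  | j :: j' :: l', hx => exact hx.1

theorem path_letters (M : PM) (l : List (Fin 5)) (x : S2) (hx : Aug M l x) (n : ℕ)
    (hn : n + 1 < l.length) : l.getD n 0 ≠ l.getD (n + 1) 0 := by
  induction l using List.twoStepInduction generalizing x n with
  | nil => exact absurd hx id
  | singleton j => simp at hn
  | cons_cons j j' l' ih =>
    obtain ⟨h1, h2, h3⟩ := hx
    match n, hn with
    | 0, _ =>
      intro he
      have he' : j = j' := he
      subst he'
      apply h1
      have h4 := M.sym _ _ h2
      rwa [smul_smul, h_mul_self, one_smul] at h4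
    | 1, _ =>
      intro he
      have he' : j' = l'.getD 0 0 := he
      refine FlipP_start M l' _ h3 ?_
      rw [← he']
      exact M.sym _ _ h2
    | n + 2, hn =>
      exact ih _ h3 n (by
        simp only [List.length_cons] at hn
        omega)

end Pool.Agent.MP_f406e2_lc_Q5
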