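import Mathlib
import Pool.Agent.Lib.MP_f406e2_lc_Q5.Tree

/-!
# Q5, module TreeL: basic facts on the tree

All by cases on the list / induction. `act_step`: for a reduced word `z` (if `z = c :: z'` then
`step z c = z'`, `act s w z = step (act s w z') (s c)` and `step_step`).
`act_act`: induction on `z` with `act_step`.
-/

set_option autoImplicit false

namespace Pool.Agent.MP_f406e2_lc_Q5

lemma step_red (z : Wd) (hz : RedW z) (c : Fin 5) : RedW (step z c) := by
  cases z with
  | nil => exact List.isChain_singleton c
  | cons a t =>
    show RedW (if a = c then t else c :: a :: t)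
    split_ifs with h1
    · exact List.IsChain.tail hz
    · exact List.isChain_cons_cons.2 ⟨fun h2 => h1 h2.symm, hz⟩

lemma step_step (z : Wd) (hz : RedW z) (c : Fin 5) : step (step z c) c = z := by
  cases z with
  | nil =>
    show (if c = c then ([] : Wd) else c :: [c]) = []
    rw [if_pos rfl]
  | cons a t =>
    show step (if a = c then t else c :: a :: t) c = a :: t
    split_ifs with h1
    · subst h1
      cases t with
      | nil => rfl
      | cons b t =>
        have h2 := (List.isChain_cons_cons.1 hz).1
        show (if b = a then t else a :: b :: t) = a :: b :: t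
        rw [if_neg fun h3 => h2 h3.symm]
    · show (if c = c then a :: t else c :: c :: a :: t) = a :: t
      rw [if_pos rfl]

lemma step_length (z : Wd) (c : Fin 5) : (step z c).length % 2 = (z.length + 1) % 2 := by
  cases z with
  | nil => rfl
  | cons a t =>
    show (if a = c then t else c :: a :: t).length % 2 = _
    split_ifs with h1
    · rw [List.length_cons]
      omega
    · rw [List.length_cons]

lemma act_nil (s : S5) (w : Wd) : act s w [] = w := rfl

lemma act_cons (s : S5) (w : Wd) (c : Fin 5) (z : Wd) :
    act s w (c :: z) = step (act s w z) (s c) := rfl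

lemma step_of_red (c : Fin 5) (z : Wd) (h : RedW (c :: z)) : step z c = c :: z := by
  cases z with
  | nil => rfl
  | cons b t =>
    have h2 := (List.isChain_cons_cons.1 h).1
    show (if b = c then t else c :: b :: t) = c :: b :: t
    rw [if_neg fun h3 => h2 h3.symm]

lemma act_one (z : Wd) (hz : RedW z) : act 1 [] z = z := by
  induction z with
  | nil => rfl
  | cons c z ih =>
    rw [act_cons, ih (List.IsChain.tail hz), Equiv.Perm.one_apply, step_of_red c z hz]

lemma act_red (s : S5) (w z : Wd) (hw : RedW w) : RedW (act s w z) := by
  induction z with
  | nil => exact hw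
  | cons c z ih => exact step_red _ ih _

lemma act_step (s : S5) (w z : Wd) (hw : RedW w) (hz : RedW z) (c : Fin 5) :
    act s w (step z c) = step (act s w z) (s c) := by
  cases z with
  | nil => rfl
  | cons a t =>
    show act s w (if a = c then t else c :: a :: t) = _
    split_ifs with h1
    · subst h1
      rw [act_cons, step_step _ (act_red s w t hw)]
    · rfl

lemma act_length (s : S5) (w z : Wd) : (act s w z).length % 2 = (w.length + z.length) % 2 := by
  induction z with
  | nil => rfl
  | cons c z ih =>
    rw [act_cons, step_length, List.length_cons]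
    omega

lemma act_act (s s' : S5) (w w' z : Wd) (hw : RedW w) (hw' : RedW w') (hz : RedW z) :
    act s w (act s' w' z) = act (s * s') (act s w w') z := by
  induction z with
  | nil => rfl
  | cons c z ih =>
    rw [act_cons, act_cons, act_step s w _ hw (act_red s' w' z hw'), ih (List.IsChain.tail hz)]
    rfl

lemma pmul_assoc (a b c : S5 × Wd) (ha : RedW a.2) (hb : RedW b.2) (hc : RedW c.2) :
    pmul (pmul a b) c = pmul a (pmul b c) := by
  refine Prod.ext (mul_assoc _ _ _) ?_
  exact (act_act a.1 b.1 a.2 b.2 c.2 ha hb hc).symm

end Pool.Agent.MP_f406e2_lc_Q5
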