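import Mathlib
import Pool.Agent.Lib.MP_f406e2_lc_Q5.Rel
import Pool.Agent.Lib.MP_f406e2_lc_Q5.TreeL

/-!
# Q5, module Co: coordinates of words

`co l` are the coordinates of `(wd l)⁻¹`, see `Defs`.
* `co_red`, `co_sign`, `co_length`: induction (`step_red`, `t_sign`, `step_length`).
* `co_append`: induction on `l`: `co (l ++ m) = pmul (co m) (co l)`; for `j :: l`:
  `pmul (co m) ((co l).1 * t j, step (co l).2 ((co l).1 j))` and `act_step`.
* `co_cancel`: `t_sq`, `t_self`, `step_step`.
* `exists_red`: induction on `l`: for `j :: l` take the reduced word `l'` of `l`; if the head of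
  `l'` is `j`, drop it (`h_mul_self`, `co_cancel`), otherwise take `j :: l'`.
* `co_inj`: a reduced word is determined by `co`: for reduced `l` the word `(co l).2` has the
  length of `l` (adjacent colours of the path are different: `(co l).2 = z` with head
  `p' j'` where `l = j' :: l''`, `p' = (co l'').1`, and the next letter is `(p' * t j') j`, different
  from `p' j' = (p' * t j') j'` iff `j ≠ j'`); so `co_length_red`, and `co_nil`: if `l` is reduced
  and `(co l).2 = []` then `l = []`.
-/

set_option autoImplicit false

noncomputable section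

namespace Pool.Agent.MP_f406e2_lc_Q5

open MeasureTheory Real
open Pool.Agent.MP_f406e2_lc_QD (E3 S2 O3 nu mat tr cr)

lemma co_red (l : List (Fin 5)) : RedW (co l).2 := by
  induction l with
  | nil => exact List.isChain_nil
  | cons j l ih => exact step_red _ ih _

lemma co_sign (l : List (Fin 5)) : Equiv.Perm.sign (co l).1 = (-1) ^ l.length := by
  induction l with
  | nil => simp [co]
  | cons j l ih =>
    show Equiv.Perm.sign ((co l).1 * t j) = _
    rw [Equiv.Perm.sign_mul, ih, t_sign, List.length_cons, pow_succ]

lemma co_length (l : List (Fin 5)) : (co l).2.length % 2 = l.length % 2 := by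
  induction l with
  | nil => rfl
  | cons j l ih =>
    show (step (co l).2 ((co l).1 j)).length % 2 = _
    rw [step_length, List.length_cons]
    omega

lemma co_append (l m : List (Fin 5)) : co (l ++ m) = pmul (co m) (co l) := by
  induction l with
  | nil => exact Prod.ext (mul_one _).symm rfl
  | cons j l ih =>
    have e : co ((j :: l) ++ m) =
        ((co (l ++ m)).1 * t j, step (co (l ++ m)).2 ((co (l ++ m)).1 j)) := rfl
    rw [e, ih]
    refine Prod.ext (mul_assoc _ _ _) ?_
    show step (act (co m).1 (co m).2 (co l).2) ((co m).1 ((co l).1 j)) =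
      act (co m).1 (co m).2 (step (co l).2 ((co l).1 j))
    rw [act_step _ _ _ (co_red m) (co_red l)]

lemma co_cancel (j : Fin 5) (l : List (Fin 5)) : co (j :: j :: l) = co l := by
  refine Prod.ext ?_ ?_
  · show (co l).1 * t j * t j = (co l).1
    rw [mul_assoc, t_sq, mul_one]
  · show step (step (co l).2 ((co l).1 j)) ((co l).1 (t j j)) = (co l).2
    rw [t_self, step_step _ (co_red l)]

lemma exists_red (l : List (Fin 5)) : ∃ l', RedW l' ∧ wd l' = wd l ∧ co l' = co l := by
  induction l with
  | nil => exact ⟨[], List.isChain_nil, rfl, rfl⟩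
  | cons j l ih =>
    obtain ⟨l', h1, h2, h3⟩ := ih
    have e : co (j :: l) = co (j :: l') := by
      show ((co l).1 * t j, step (co l).2 ((co l).1 j)) =
        ((co l').1 * t j, step (co l').2 ((co l').1 j))
      rw [h3]
    cases l' with
    | nil =>
      refine ⟨[j], List.isChain_singleton j, ?_, e.symm⟩
      rw [wd_cons, wd_cons, h2]
    | cons k m =>
      by_cases hjk : j = k
      · subst hjk
        refine ⟨m, List.IsChain.tail h1, ?_, ?_⟩
        · rw [wd_cons, ← h2, wd_cons, ← mul_assoc, h_mul_self, one_mul]
        · rw [e, co_cancel]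
      · refine ⟨j :: k :: m, List.isChain_cons_cons.2 ⟨hjk, h1⟩, ?_, e.symm⟩
        rw [wd_cons, h2, wd_cons]

private lemma Co_head (l : List (Fin 5)) : ∀ j : Fin 5, RedW (j :: l) →
    (co (j :: l)).2 = (co l).1 j :: (co l).2 := by
  induction l with
  | nil =>
    intro j _
    rfl
  | cons k m ih =>
    intro j hr
    obtain ⟨h1, h2⟩ := List.isChain_cons_cons.1 hr
    show step (co (k :: m)).2 ((co (k :: m)).1 j) = _
    rw [ih k h2]
    show (if (co m).1 k = (co (k :: m)).1 j then (co m).2 else
      (co (k :: m)).1 j :: (co m).1 k :: (co m).2) = _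
    rw [if_neg]
    intro h3
    have h4 : (co m).1 k = (co m).1 (t k j) := h3
    have h5 := (co m).1.injective h4
    have h6 : t k k = t k j := by rw [t_self]; exact h5
    exact h1 ((t k).injective h6).symm

lemma co_length_red (l : List (Fin 5)) (hl : RedW l) : (co l).2.length = l.length := by
  induction l with
  | nil => rfl
  | cons j l ih =>
    rw [Co_head l j hl, List.length_cons, List.length_cons, ih (List.IsChain.tail hl)]

lemma wd_reverse (l : List (Fin 5)) : wd l.reverse = (wd l)⁻¹ := by
  induction l with
  | nil => simp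
  | cons j l ih =>
    rw [List.reverse_cons, wd_append, ih, wd_cons, wd_cons, wd_nil, mul_one, mul_inv_rev, h_inv]

end Pool.Agent.MP_f406e2_lc_Q5
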