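import Mathlib

/-!
# Q5, module RingO: the ring `ℤ[φ]` embedded in `ℝ × ℝ`

* `OO`: the ring `ℤ[φ]`, `φ` the golden ratio, as a subring of `ℝ × ℝ` (the two real places).
* `OO_norm`: the norm `x.1 * x.2` of a nonzero element has absolute value at least `1`.
* `box_le`: a box with sides `L₁`, `L₂` contains at most `L₁ L₂ + 2` elements of `OO`.
-/

set_option autoImplicit false

open Real

namespace Pool.Agent.MP_f406e2_lc_Q5

/-- The ring `ℤ[φ]` embedded in `ℝ × ℝ` by its two real places. -/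
def OO : Subring (ℝ × ℝ) where
  carrier := {x | ∃ u v : ℤ, x.1 = (u : ℝ) + v * goldenRatio ∧ x.2 = (u : ℝ) + v * goldenConj}
  mul_mem' := by
    rintro x y ⟨u, v, h1, h2⟩ ⟨u', v', h1', h2'⟩
    refine ⟨u * u' + v * v', u * v' + v * u' + v * v', ?_, ?_⟩
    · rw [Prod.fst_mul, h1, h1']
      push_cast
      linear_combination (v * v' : ℝ) * goldenRatio_sq
    · rw [Prod.snd_mul, h2, h2']
      push_cast
      linear_combination (v * v' : ℝ) * goldenConj_sq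
  one_mem' := ⟨1, 0, by simp, by simp⟩
  add_mem' := by
    rintro x y ⟨u, v, h1, h2⟩ ⟨u', v', h1', h2'⟩
    refine ⟨u + u', v + v', ?_, ?_⟩
    · rw [Prod.fst_add, h1, h1']
      push_cast
      ring
    · rw [Prod.snd_add, h2, h2']
      push_cast
      ring
  zero_mem' := ⟨0, 0, by simp, by simp⟩
  neg_mem' := by
    rintro x ⟨u, v, h1, h2⟩
    refine ⟨-u, -v, ?_, ?_⟩
    · rw [Prod.fst_neg, h1]
      push_cast
      ring
    · rw [Prod.snd_neg, h2]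
      push_cast
      ring

theorem mem_OO {x : ℝ × ℝ} : x ∈ OO ↔
    ∃ u v : ℤ, x.1 = (u : ℝ) + v * goldenRatio ∧ x.2 = (u : ℝ) + v * goldenConj := Iff.rfl

theorem OO_int (n : ℤ) : ((n : ℝ), (n : ℝ)) ∈ OO := ⟨n, 0, by simp, by simp⟩

private theorem irr_zero {α : ℝ} (hα : Irrational α) {u v : ℤ} (h : (u : ℝ) + v * α = 0) :
    u = 0 ∧ v = 0 := by
  have hv : v = 0 := by
    by_contra hv
    have hv' : (v : ℝ) ≠ 0 := by exact_mod_cast hv
    apply hα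
    refine ⟨((-u : ℤ) : ℚ) / ((v : ℤ) : ℚ), ?_⟩
    push_cast
    field_simp
    linarith
  refine ⟨?_, hv⟩
  rw [hv] at h
  simpa using h

theorem OO_fst {x : ℝ × ℝ} (hx : x ∈ OO) (h : x.1 = 0) : x = 0 := by
  obtain ⟨u, v, h1, h2⟩ := hx
  rw [h1] at h
  obtain ⟨rfl, rfl⟩ := irr_zero goldenRatio_irrational h
  apply Prod.ext
  · rw [h1, Prod.fst_zero]
    simp
  · rw [h2, Prod.snd_zero]
    simp

theorem OO_snd {x : ℝ × ℝ} (hx : x ∈ OO) (h : x.2 = 0) : x = 0 := by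
  obtain ⟨u, v, h1, h2⟩ := hx
  rw [h2] at h
  obtain ⟨rfl, rfl⟩ := irr_zero goldenConj_irrational h
  apply Prod.ext
  · rw [h1, Prod.fst_zero]
    simp
  · rw [h2, Prod.snd_zero]
    simp

/-- The norm of a nonzero element of the ring is at least `1` in absolute value. -/
theorem OO_norm {x : ℝ × ℝ} (hx : x ∈ OO) (h : x ≠ 0) : 1 ≤ |x.1 * x.2| := by
  have h1 : x.1 ≠ 0 := fun h1 => h (OO_fst hx h1)
  have h2 : x.2 ≠ 0 := fun h2 => h (OO_snd hx h2)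
  obtain ⟨u, v, e1, e2⟩ := hx
  have h3 : x.1 * x.2 = ((u ^ 2 + u * v - v ^ 2 : ℤ) : ℝ) := by
    rw [e1, e2]
    push_cast
    linear_combination (u * v : ℝ) * goldenRatio_add_goldenConj +
      (v ^ 2 : ℝ) * goldenRatio_mul_goldenConj
  have h4 : x.1 * x.2 ≠ 0 := mul_ne_zero h1 h2
  rw [h3] at h4 ⊢
  have h5 : (u ^ 2 + u * v - v ^ 2 : ℤ) ≠ 0 := by exact_mod_cast h4
  rw [← Int.cast_abs]
  exact_mod_cast Int.one_le_abs h5

/-- Two elements of the ring which are close at one place and not too far at the other are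
equal. -/
theorem OO_eq {x y : ℝ × ℝ} (hx : x ∈ OO) (hy : y ∈ OO) {a b : ℝ}
    (h1 : |x.1 - y.1| ≤ a) (h2 : |x.2 - y.2| ≤ b) (hab : a * b < 1) : x = y := by
  by_contra hne
  have h3 := OO_norm (OO.sub_mem hx hy) (sub_ne_zero.2 hne)
  rw [Prod.fst_sub, Prod.snd_sub, abs_mul] at h3
  have h4 : |x.1 - y.1| * |x.2 - y.2| ≤ a * b :=
    mul_le_mul h1 h2 (abs_nonneg _) ((abs_nonneg _).trans h1)
  linarith

/-- Number of the elements of the ring in a box. -/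
theorem box_le {a₁ a₂ L₁ L₂ : ℝ} (hL₁ : 0 < L₁) (hL₂ : 0 < L₂) (Q : Finset (ℝ × ℝ))
    (hQ : ∀ x ∈ Q, x ∈ OO ∧ (a₁ ≤ x.1 ∧ x.1 ≤ a₁ + L₁) ∧ a₂ ≤ x.2 ∧ x.2 ≤ a₂ + L₂) :
    (Q.card : ℝ) ≤ L₁ * L₂ + 2 := by
  obtain ⟨K, hK⟩ : ∃ K : ℕ, K = ⌊L₁ * L₂⌋₊ + 1 := ⟨_, rfl⟩
  have hKL : L₁ * L₂ < K := by
    rw [hK]
    push_cast
    exact Nat.lt_floor_add_one _
  have hK0 : (0 : ℝ) < K := lt_trans (by positivity) hKL
  obtain ⟨f, hf⟩ : ∃ f : ℝ × ℝ → ℕ, f = fun x => ⌊(x.1 - a₁) / L₁ * K⌋₊ := ⟨_, rfl⟩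
  have hr : ∀ x ∈ Q, 0 ≤ (x.1 - a₁) / L₁ * K ∧ (x.1 - a₁) / L₁ * K ≤ K := by
    intro x hx
    obtain ⟨_, ⟨h1, h2⟩, _⟩ := hQ x hx
    refine ⟨mul_nonneg (div_nonneg (by linarith) hL₁.le) hK0.le, ?_⟩
    have h3 : (x.1 - a₁) / L₁ ≤ 1 := (div_le_one hL₁).2 (by linarith)
    nlinarith
  have hinj : Set.InjOn f Q := by
    intro x hx y hy hxy
    rw [Finset.mem_coe] at hx hy
    rw [hf] at hxy
    have e0 : ⌊(x.1 - a₁) / L₁ * K⌋₊ = ⌊(y.1 - a₁) / L₁ * K⌋₊ := hxy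
    have e1 := (Nat.floor_eq_iff (hr x hx).1).1 e0
    have e2 := (Nat.floor_eq_iff (hr y hy).1).1 rfl
    have e3 : (x.1 - a₁) / L₁ * K - (y.1 - a₁) / L₁ * K = (x.1 - y.1) / L₁ * K := by ring
    have e4 : |(x.1 - y.1) / L₁ * K| ≤ 1 := by
      rw [← e3, abs_le]
      constructor
      · linarith [e1.1, e2.2]
      · linarith [e1.2, e2.1]
    rw [abs_mul, abs_div, abs_of_pos hL₁, abs_of_pos hK0] at e4
    have e5 : |x.1 - y.1| ≤ L₁ / K := by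
      rw [le_div_iff₀ hK0]
      have e6 : |x.1 - y.1| / L₁ * K * L₁ = |x.1 - y.1| * K := by field_simp
      rw [← e6]
      nlinarith
    have e7 : |x.2 - y.2| ≤ L₂ := by
      obtain ⟨_, _, h1, h2⟩ := hQ x hx
      obtain ⟨_, _, h3, h4⟩ := hQ y hy
      rw [abs_le]
      constructor <;> linarith
    refine OO_eq (hQ x hx).1 (hQ y hy).1 e5 e7 ?_
    rw [div_mul_eq_mul_div, div_lt_one hK0]
    exact hKL
  have h1 : (Q.image f).card = Q.card := Finset.card_image_of_injOn hinj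
  have h2 : Q.image f ⊆ Finset.range (K + 1) := by
    intro k hk
    obtain ⟨x, hx, rfl⟩ := Finset.mem_image.1 hk
    rw [Finset.mem_range, Nat.lt_succ_iff, hf]
    exact Nat.floor_le_of_le (hr x hx).2
  have h3 := Finset.card_le_card h2
  rw [h1, Finset.card_range] at h3
  have h4 : (Q.card : ℝ) ≤ K + 1 := by exact_mod_cast h3
  have h5 : (K : ℝ) ≤ L₁ * L₂ + 1 := by
    rw [hK]
    push_cast
    linarith [Nat.floor_le (show 0 ≤ L₁ * L₂ by positivity)]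
  linarith

end Pool.Agent.MP_f406e2_lc_Q5
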