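import Mathlib
import Pool.Agent.Lib.MP_f406e2_lc_Q5.Co
import Pool.Agent.Lib.MP_f406e2_lc_Q5.RingO
import Pool.Agent.Lib.MP_f406e2_lc_QD.Faith

/-!
# Q5, module Faith: faithfulness

The lattice: `Lam v` says that the coordinates of `v` are elements `a, b, c` of `ℤ[φ]` with
`b ≡ φ a`, `c ≡ φ² a = (φ + 1) a` mod `2 ℤ[φ]`.
* `Lam_F`: `Lam` is invariant under all `F f`: under `C` (`C_apply`: e.g. the first coordinate of
  `C v` is `(φ a + (1 - φ) b - c) / 2`, and `φ a + (1-φ) b - c ≡ φ a + (1-φ) φ a - (φ+1) a = -2 a`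
  mod 2, integral; all congruences are finite checks mod 2 after writing
  `b = φ a + 2 b'`, `c = (φ+1) a + 2 c'`), and under `QD.F g`, `g` even: the rotations of the
  tetrahedral group are even sign changes and cyclic shifts
  (`(c, a, b)`: `a ≡ φ c`, `b ≡ (φ+1) c` as `φ³ ≡ 1` mod 2: `φ³ = 2φ + 1`).
* `step2`: for `v` in the lattice `⟪w j, v⟫ ∈ ℤ[φ]` (finite check as before, `⟪w 0, v⟫ = a + b`) and
  `2 h j v = ⟪w j, v⟫ (2 w j) - 2 v`, `2 w j` is in the lattice.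
* `red_mod_two`: let `l` be reduced, nonempty, with head `i` and last letter `k`, and let
  `⟪w k, v⟫` be not divisible by 2. Then `2 ^ n • wd l v = ν • (2 w i) + 2 • v'` with `v'` in the
  lattice, `ν ∈ ℤ[φ]` not divisible by 2 (`n` the length). Induction on `l`: `l = j :: l'`,
  `y = 2 ^ n • wd l' v = ν (2 w i') + 2 v'`, `2 h j y = ⟪w j, y⟫ (2 w j) - 2 y`,
  `⟪w j, y⟫ = ν · 2⟪w j, w i'⟫ + 2 ⟪w j, v'⟫`, and `2 ⟪w j, w i'⟫ = 3 - φ` or `2 - 3 φ` (`inner_w`,
  `j ≠ i'`) is a unit mod 2: `3 - φ ≡ 1 + φ`, `2 - 3 φ ≡ φ`; `ℤ[φ]/2` is the field of 4 elements.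
* `faithful`: if `l ≠ []`, with head `i`, last letter `k`, take `v = 2 w (k + 1)`, for which
  `⟪w k, v⟫ = 3 - φ`. `wd l v = F f⁻¹ v` is in the lattice, so `2 ^ n • wd l v` is `2` times an
  element of the lattice; with `red_mod_two`: `ν (2 w i)` is `2` times an element of the lattice,
  i.e. `ν w i` is in the lattice. For `i = 0`: `ν (1, 1, 0)`: `ν ≡ φ ν`, `ν (1 + φ) ≡ 0`, `ν ≡ 0`,
  contradiction. For other `i` apply `C⁻¹` repeatedly (`C_w`). So `l = []`, and `F f = 1`.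
  `F f = 1`: `C ^ k = QD.F (lo b)⁻¹` permutes the lines of the four `QD.u j`, or its entries
  are rational, so `k = 0` (`C_apply`; powers of `C`), and then `QD.faithful`, `b = 1`.
* `red_unique`, `pos_unique`: as in `QD.Faith` (strip common last letters;
  `F (f'⁻¹ * f) * wd (l ++ l'.reverse) = 1`), with `exists_red`.
-/

set_option autoImplicit false

noncomputable section

namespace Pool.Agent.MP_f406e2_lc_Q5

open MeasureTheory Real
open Pool.Agent.MP_f406e2_lc_QD (E3 S2 O3 nu mat tr cr)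
open scoped InnerProductSpace

/-! ### the ring -/

/-- integers of the field -/
private def IsO (x : ℝ) : Prop := ∃ u v : ℤ, x = (u : ℝ) + v * goldenRatio

private lemma IsO_add {x y : ℝ} (hx : IsO x) (hy : IsO y) : IsO (x + y) := by
  obtain ⟨u, v, rfl⟩ := hx
  obtain ⟨u', v', rfl⟩ := hy
  exact ⟨u + u', v + v', by push_cast; ring⟩

private lemma IsO_neg {x : ℝ} (hx : IsO x) : IsO (-x) := by
  obtain ⟨u, v, rfl⟩ := hx
  exact ⟨-u, -v, by push_cast; ring⟩

private lemma IsO_sub {x y : ℝ} (hx : IsO x) (hy : IsO y) : IsO (x - y) := by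
  rw [sub_eq_add_neg]
  exact IsO_add hx (IsO_neg hy)

private lemma IsO_mul {x y : ℝ} (hx : IsO x) (hy : IsO y) : IsO (x * y) := by
  obtain ⟨u, v, rfl⟩ := hx
  obtain ⟨u', v', rfl⟩ := hy
  refine ⟨u * u' + v * v', u * v' + v * u' + v * v', ?_⟩
  push_cast
  linear_combination (v * v' : ℝ) * goldenRatio_sq

private lemma IsO_mk (u v : ℤ) : IsO ((u : ℝ) + v * goldenRatio) := ⟨u, v, rfl⟩

private lemma IsO_of_eq {x y : ℝ} (hx : IsO x) (h : y = x) : IsO y := h ▸ hx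

private lemma IsO_comb {a b c : ℝ} (ha : IsO a) (hb : IsO b) (hc : IsO c)
    (p1 p2 q1 q2 r1 r2 : ℤ) {y : ℝ}
    (hy : y = ((p1 : ℝ) + p2 * goldenRatio) * a + ((q1 : ℝ) + q2 * goldenRatio) * b +
      ((r1 : ℝ) + r2 * goldenRatio) * c) : IsO y := by
  rw [hy]
  exact IsO_add (IsO_add (IsO_mul (IsO_mk _ _) ha) (IsO_mul (IsO_mk _ _) hb))
    (IsO_mul (IsO_mk _ _) hc)

private lemma not_IsO_half : ¬ IsO (1 / 2) := by
  rintro ⟨u, v, h⟩
  have hv : v = 0 := by
    by_contra hv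
    have hv' : (v : ℝ) ≠ 0 := by exact_mod_cast hv
    apply goldenRatio_irrational
    refine ⟨(1 / 2 - u) / v, ?_⟩
    push_cast
    rw [div_eq_iff hv']
    linarith
  rw [hv] at h
  have h2 : ((2 * u : ℤ) : ℝ) = ((1 : ℤ) : ℝ) := by
    push_cast
    push_cast at h
    linarith
  have h3 : 2 * u = 1 := by exact_mod_cast h2
  omega

/-! ### the lattice -/

/-- the lattice -/
private def Lam (x : E3) : Prop :=
  IsO (x 0) ∧ IsO ((x 1 - goldenRatio * x 0) / 2) ∧ IsO ((x 2 - (goldenRatio + 1) * x 0) / 2)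

private lemma Lam_add {x y : E3} (hx : Lam x) (hy : Lam y) : Lam (x + y) := by
  refine ⟨IsO_of_eq (IsO_add hx.1 hy.1) rfl, IsO_of_eq (IsO_add hx.2.1 hy.2.1) ?_,
    IsO_of_eq (IsO_add hx.2.2 hy.2.2) ?_⟩
  · rw [PiLp.add_apply, PiLp.add_apply]
    ring
  · rw [PiLp.add_apply, PiLp.add_apply]
    ring

private lemma Lam_smul {c : ℝ} {x : E3} (hc : IsO c) (hx : Lam x) : Lam (c • x) := by
  refine ⟨IsO_of_eq (IsO_mul hc hx.1) rfl, IsO_of_eq (IsO_mul hc hx.2.1) ?_,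
    IsO_of_eq (IsO_mul hc hx.2.2) ?_⟩
  · rw [PiLp.smul_apply, PiLp.smul_apply, smul_eq_mul, smul_eq_mul]
    ring
  · rw [PiLp.smul_apply, PiLp.smul_apply, smul_eq_mul, smul_eq_mul]
    ring

private lemma IsO_int (n : ℤ) : IsO (n : ℝ) := ⟨n, 0, by simp⟩

private lemma IsO_two : IsO 2 := ⟨2, 0, by simp⟩

private lemma Lam_neg {x : E3} (hx : Lam x) : Lam (-x) := by
  have h := Lam_smul (IsO_int (-1)) hx
  rwa [Int.cast_neg, Int.cast_one, neg_one_smul] at h

private lemma Lam_sub {x y : E3} (hx : Lam x) (hy : Lam y) : Lam (x - y) := by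
  rw [sub_eq_add_neg]
  exact Lam_add hx (Lam_neg hy)

private lemma Lam_C {x : E3} (hx : Lam x) : Lam (C x) := by
  obtain ⟨h0, h1, h2⟩ := hx
  have e0 : (C x) 0 = goldenRatio / 2 * x 0 + (1 - goldenRatio) / 2 * x 1 - 1 / 2 * x 2 := by
    rw [C_apply]
    rfl
  have e1 : (C x) 1 = (1 - goldenRatio) / 2 * x 0 + 1 / 2 * x 1 - goldenRatio / 2 * x 2 := by
    rw [C_apply]
    rfl
  have e2 : (C x) 2 = 1 / 2 * x 0 + goldenRatio / 2 * x 1 + (goldenRatio - 1) / 2 * x 2 := by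
    rw [C_apply]
    rfl
  refine ⟨?_, ?_, ?_⟩
  · rw [e0]
    refine IsO_comb h0 h1 h2 (-1) 0 1 (-1) (-1) 0 ?_
    push_cast
    linear_combination ((-1 / 2) * x 0) * goldenRatio_sq
  · rw [e0, e1]
    refine IsO_comb h0 h1 h2 0 0 1 0 0 0 ?_
    push_cast
    linear_combination ((-1 / 4) * x 0 + (1 / 4) * x 1) * goldenRatio_sq
  · rw [e0, e2]
    refine IsO_comb h0 h1 h2 1 1 0 1 0 1 ?_
    push_cast
    linear_combination ((3 / 4) * x 0 + (1 / 4) * x 1) * goldenRatio_sq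

private lemma Faith_in (v w : E3) : ⟪v, w⟫_ℝ = v 0 * w 0 + v 1 * w 1 + v 2 * w 2 := by
  rw [PiLp.inner_apply, Fin.sum_univ_three]
  simp only [RCLike.inner_apply, conj_trivial]
  ring

private lemma F_rho1 (x : E3) :
    MP_f406e2_lc_QD.F (MP_f406e2_lc_QD.rho 1) x = !₂[x 0, -x 1, -x 2] := by
  rw [MP_f406e2_lc_QD.F_apply, Fin.sum_univ_four]
  have r0 : MP_f406e2_lc_QD.rho 1 0 = 1 := by decide
  have r1 : MP_f406e2_lc_QD.rho 1 1 = 0 := by decide
  have r2 : MP_f406e2_lc_QD.rho 1 2 = 3 := by decide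
  have r3 : MP_f406e2_lc_QD.rho 1 3 = 2 := by decide
  rw [r0, r1, r2, r3]
  ext i
  fin_cases i <;> simp [Faith_in, MP_f406e2_lc_QD.u] <;> ring

private lemma F_rho2 (x : E3) :
    MP_f406e2_lc_QD.F (MP_f406e2_lc_QD.rho 2) x = !₂[-x 0, x 1, -x 2] := by
  rw [MP_f406e2_lc_QD.F_apply, Fin.sum_univ_four]
  have r0 : MP_f406e2_lc_QD.rho 2 0 = 2 := by decide
  have r1 : MP_f406e2_lc_QD.rho 2 1 = 3 := by decide
  have r2 : MP_f406e2_lc_QD.rho 2 2 = 0 := by decide
  have r3 : MP_f406e2_lc_QD.rho 2 3 = 1 := by decide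
  rw [r0, r1, r2, r3]
  ext i
  fin_cases i <;> simp [Faith_in, MP_f406e2_lc_QD.u] <;> ring

private lemma F_rho3 (x : E3) :
    MP_f406e2_lc_QD.F (MP_f406e2_lc_QD.rho 3) x = !₂[-x 0, -x 1, x 2] := by
  rw [MP_f406e2_lc_QD.F_apply, Fin.sum_univ_four]
  have r0 : MP_f406e2_lc_QD.rho 3 0 = 3 := by decide
  have r1 : MP_f406e2_lc_QD.rho 3 1 = 2 := by decide
  have r2 : MP_f406e2_lc_QD.rho 3 2 = 1 := by decide
  have r3 : MP_f406e2_lc_QD.rho 3 3 = 0 := by decide
  rw [r0, r1, r2, r3]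
  ext i
  fin_cases i <;> simp [Faith_in, MP_f406e2_lc_QD.u] <;> ring

private lemma F_cyc (x : E3) :
    MP_f406e2_lc_QD.F MP_f406e2_lc_QD.cyc x = !₂[x 2, x 0, x 1] := by
  rw [MP_f406e2_lc_QD.F_apply, Fin.sum_univ_four]
  have r0 : MP_f406e2_lc_QD.cyc 0 = 0 := by decide
  have r1 : MP_f406e2_lc_QD.cyc 1 = 2 := by decide
  have r2 : MP_f406e2_lc_QD.cyc 2 = 3 := by decide
  have r3 : MP_f406e2_lc_QD.cyc 3 = 1 := by decide
  rw [r0, r1, r2, r3]
  ext i
  fin_cases i <;> simp [Faith_in, MP_f406e2_lc_QD.u] <;> ring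

private lemma Lam_rho1 {x : E3} (hx : Lam x) :
    Lam (MP_f406e2_lc_QD.F (MP_f406e2_lc_QD.rho 1) x) := by
  obtain ⟨h0, h1, h2⟩ := hx
  rw [F_rho1]
  refine ⟨?_, ?_, ?_⟩
  · change IsO (x 0)
    exact h0
  · change IsO ((-x 1 - goldenRatio * x 0) / 2)
    refine IsO_comb h0 h1 h2 0 (-1) (-1) 0 0 0 ?_
    push_cast
    ring
  · change IsO ((-x 2 - (goldenRatio + 1) * x 0) / 2)
    refine IsO_comb h0 h1 h2 (-1) (-1) 0 0 (-1) 0 ?_
    push_cast
    ring

private lemma Lam_rho2 {x : E3} (hx : Lam x) :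
    Lam (MP_f406e2_lc_QD.F (MP_f406e2_lc_QD.rho 2) x) := by
  obtain ⟨h0, h1, h2⟩ := hx
  rw [F_rho2]
  refine ⟨?_, ?_, ?_⟩
  · change IsO (-x 0)
    exact IsO_neg h0
  · change IsO ((x 1 - goldenRatio * (-x 0)) / 2)
    refine IsO_comb h0 h1 h2 0 1 1 0 0 0 ?_
    push_cast
    ring
  · change IsO ((-x 2 - (goldenRatio + 1) * (-x 0)) / 2)
    refine IsO_comb h0 h1 h2 0 0 0 0 (-1) 0 ?_
    push_cast
    ring

private lemma Lam_rho3 {x : E3} (hx : Lam x) :
    Lam (MP_f406e2_lc_QD.F (MP_f406e2_lc_QD.rho 3) x) := by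
  obtain ⟨h0, h1, h2⟩ := hx
  rw [F_rho3]
  refine ⟨?_, ?_, ?_⟩
  · change IsO (-x 0)
    exact IsO_neg h0
  · change IsO ((-x 1 - goldenRatio * (-x 0)) / 2)
    refine IsO_comb h0 h1 h2 0 0 (-1) 0 0 0 ?_
    push_cast
    ring
  · change IsO ((x 2 - (goldenRatio + 1) * (-x 0)) / 2)
    refine IsO_comb h0 h1 h2 1 1 0 0 1 0 ?_
    push_cast
    ring

private lemma Lam_cyc {x : E3} (hx : Lam x) :
    Lam (MP_f406e2_lc_QD.F MP_f406e2_lc_QD.cyc x) := by
  obtain ⟨h0, h1, h2⟩ := hx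
  rw [F_cyc]
  refine ⟨?_, ?_, ?_⟩
  · change IsO (x 2)
    refine IsO_comb h0 h1 h2 1 1 0 0 2 0 ?_
    push_cast
    ring
  · change IsO ((x 0 - goldenRatio * x 2) / 2)
    refine IsO_comb h0 h1 h2 0 (-1) 0 0 0 (-1) ?_
    push_cast
    linear_combination ((-1 / 2) * x 0) * goldenRatio_sq
  · change IsO ((x 1 - (goldenRatio + 1) * x 2) / 2)
    refine IsO_comb h0 h1 h2 (-1) (-1) 1 0 (-1) (-1) ?_
    push_cast
    linear_combination ((-1 / 2) * x 0) * goldenRatio_sq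

private lemma Faith_A4 : ∀ g : Equiv.Perm (Fin 4), Equiv.Perm.sign g = 1 →
    ∃ (i : Fin 4) (b : Fin 3), g = MP_f406e2_lc_QD.rho i * MP_f406e2_lc_QD.cyc ^ b.val := by
  decide +kernel

private lemma Lam_Q (g : Equiv.Perm (Fin 4)) (hg : Equiv.Perm.sign g = 1) {x : E3} (hx : Lam x) :
    Lam (MP_f406e2_lc_QD.F g x) := by
  obtain ⟨i, b, rfl⟩ := Faith_A4 g hg
  rw [map_mul, LinearIsometryEquiv.coe_mul, Function.comp_apply]
  have h1 : ∀ n : ℕ, ∀ y : E3, Lam y → Lam (MP_f406e2_lc_QD.F (MP_f406e2_lc_QD.cyc ^ n) y) := by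
    intro n
    induction n with
    | zero =>
      intro y hy
      rw [pow_zero, map_one]
      exact hy
    | succ n ih =>
      intro y hy
      rw [pow_succ, map_mul, LinearIsometryEquiv.coe_mul, Function.comp_apply]
      exact ih _ (Lam_cyc hy)
  have h2 := h1 b.val x hx
  fin_cases i
  · have h3 : MP_f406e2_lc_QD.rho 0 = 1 := rfl
    change Lam (MP_f406e2_lc_QD.F (MP_f406e2_lc_QD.rho 0) _)
    rw [h3, map_one]
    exact h2
  · exact Lam_rho1 h2
  · exact Lam_rho2 h2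
  · exact Lam_rho3 h2

private lemma Faith_cyc0 : ∀ i : Fin 5, (cyc ^ i.val) 0 = i := by decide

private lemma Faith_cycs : Equiv.Perm.sign cyc = 1 := by decide

private lemma Faith_b0 (f : S5) : ((cyc ^ (f 0).val)⁻¹ * f) 0 = 0 := by
  rw [Equiv.Perm.mul_apply, Equiv.Perm.inv_eq_iff_eq, Faith_cyc0]

private lemma Faith_bs (f : S5) (hf : f ∈ A5) :
    Equiv.Perm.sign (lo ((cyc ^ (f 0).val)⁻¹ * f)) = 1 := by
  rw [lo_sign _ (Faith_b0 f), map_mul, map_inv, map_pow, Faith_cycs, one_pow, inv_one, one_mul]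
  exact Equiv.Perm.mem_alternatingGroup.1 hf

private lemma Lam_F (f : S5) (hf : f ∈ A5) {x : E3} (hx : Lam x) : Lam (F f x) := by
  rw [F, LinearIsometryEquiv.coe_mul, Function.comp_apply]
  have h1 : ∀ n : ℕ, ∀ y : E3, Lam y → Lam ((C ^ n : O3) y) := by
    intro n
    induction n with
    | zero =>
      intro y hy
      rw [pow_zero]
      exact hy
    | succ n ih =>
      intro y hy
      rw [pow_succ, LinearIsometryEquiv.coe_mul, Function.comp_apply]
      exact ih _ (Lam_C hy)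
  exact h1 _ _ (Lam_Q _ (Faith_bs f hf) hx)

/-! ### the axes -/

private lemma IsO_in (j : Fin 5) {x : E3} (hx : Lam x) : IsO ⟪w j, x⟫_ℝ := by
  obtain ⟨h0, h1, h2⟩ := hx
  rw [Faith_in]
  fin_cases j
  · change IsO (1 * x 0 + 1 * x 1 + 0 * x 2)
    refine IsO_comb h0 h1 h2 1 1 2 0 0 0 ?_
    push_cast
    ring
  · change IsO (1 / 2 * x 0 + (1 - goldenRatio / 2) * x 1 + (1 / 2 + goldenRatio / 2) * x 2)
    refine IsO_comb h0 h1 h2 1 2 2 (-1) 1 1 ?_
    push_cast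
    ring
  · change IsO ((1 / 2 - goldenRatio / 2) * x 0 + (1 / 2 - goldenRatio) * x 1 +
      goldenRatio / 2 * x 2)
    refine IsO_comb h0 h1 h2 0 0 1 (-2) 0 1 ?_
    push_cast
    linear_combination ((-1 / 2) * x 0) * goldenRatio_sq
  · change IsO ((1 / 2 - goldenRatio / 2) * x 0 + (1 / 2 - goldenRatio) * x 1 +
      (-(goldenRatio / 2)) * x 2)
    refine IsO_comb h0 h1 h2 (-1) (-2) 1 (-2) 0 (-1) ?_
    push_cast
    linear_combination ((-3 / 2) * x 0) * goldenRatio_sq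
  · change IsO (1 / 2 * x 0 + (1 - goldenRatio / 2) * x 1 + (-(1 / 2) - goldenRatio / 2) * x 2)
    refine IsO_comb h0 h1 h2 (-1) (-1) 2 (-1) (-1) (-1) ?_
    push_cast
    linear_combination ((-1) * x 0) * goldenRatio_sq

private lemma Lam_w (j : Fin 5) : Lam ((2 : ℝ) • w j) := by
  have hs : ∀ k : Fin 3, ((2 : ℝ) • w j) k = 2 * w j k := fun k => rfl
  refine ⟨?_, ?_, ?_⟩
  · rw [hs]
    fin_cases j
    · exact ⟨2, 0, by simp [w]⟩
    · exact ⟨1, 0, by simp [w]⟩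
    · refine ⟨1, -1, ?_⟩
      change 2 * (1 / 2 - goldenRatio / 2) = _
      push_cast
      ring
    · refine ⟨1, -1, ?_⟩
      change 2 * (1 / 2 - goldenRatio / 2) = _
      push_cast
      ring
    · exact ⟨1, 0, by simp [w]⟩
  · rw [hs, hs]
    refine ⟨1, -1, ?_⟩
    push_cast
    fin_cases j
    · change (2 * 1 - goldenRatio * (2 * 1)) / 2 = _
      ring
    · change (2 * (1 - goldenRatio / 2) - goldenRatio * (2 * (1 / 2))) / 2 = _
      ring
    · change (2 * (1 / 2 - goldenRatio) - goldenRatio * (2 * (1 / 2 - goldenRatio / 2))) / 2 = _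
      linear_combination (1 / 2) * goldenRatio_sq
    · change (2 * (1 / 2 - goldenRatio) - goldenRatio * (2 * (1 / 2 - goldenRatio / 2))) / 2 = _
      linear_combination (1 / 2) * goldenRatio_sq
    · change (2 * (1 - goldenRatio / 2) - goldenRatio * (2 * (1 / 2))) / 2 = _
      ring
  · rw [hs, hs]
    fin_cases j
    · refine ⟨-1, -1, ?_⟩
      change (2 * 0 - (goldenRatio + 1) * (2 * 1)) / 2 = _
      push_cast
      ring
    · refine ⟨0, 0, ?_⟩
      change (2 * (1 / 2 + goldenRatio / 2) - (goldenRatio + 1) * (2 * (1 / 2))) / 2 = _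
      push_cast
      ring
    · refine ⟨0, 1, ?_⟩
      change (2 * (goldenRatio / 2) - (goldenRatio + 1) * (2 * (1 / 2 - goldenRatio / 2))) / 2 = _
      push_cast
      linear_combination (1 / 2) * goldenRatio_sq
    · refine ⟨0, 0, ?_⟩
      change (2 * (-(goldenRatio / 2)) - (goldenRatio + 1) * (2 * (1 / 2 - goldenRatio / 2))) / 2
        = _
      push_cast
      linear_combination (1 / 2) * goldenRatio_sq
    · refine ⟨-1, -1, ?_⟩
      change (2 * (-(1 / 2) - goldenRatio / 2) - (goldenRatio + 1) * (2 * (1 / 2))) / 2 = _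
      push_cast
      ring

/-- `μ` is an integer and invertible modulo 2 -/
private lemma Faith_unit (i j : Fin 5) (hij : i ≠ j) : IsO (2 * ⟪w i, w j⟫_ℝ) ∧
    ∃ μ κ : ℝ, IsO μ ∧ IsO κ ∧ 2 * ⟪w i, w j⟫_ℝ * μ = 1 + 2 * κ := by
  rw [inner_w, if_neg hij]
  split_ifs with h
  · refine ⟨⟨3, -1, by push_cast; ring⟩, goldenRatio, -1 + goldenRatio, ⟨0, 1, by simp⟩,
      ⟨-1, 1, by push_cast; ring⟩, ?_⟩
    linear_combination (-1) * goldenRatio_sq
  · refine ⟨⟨2, -3, by push_cast; ring⟩, 1 + goldenRatio, -1 - 2 * goldenRatio,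
      ⟨1, 1, by push_cast; ring⟩, ⟨-1, -2, by push_cast; ring⟩, ?_⟩
    linear_combination (-3) * goldenRatio_sq

private lemma Faith_half {μ m κ ν : ℝ} (hm : IsO m) (hκ : IsO κ) (hν : IsO ν)
    (h1 : μ * m = 1 + 2 * κ) (h2 : IsO (ν * μ / 2)) : IsO (ν / 2) := by
  refine IsO_of_eq (IsO_sub (IsO_mul h2 hm) (IsO_mul hν hκ)) ?_
  linear_combination (-(ν / 2)) * h1

private lemma Lam_axis (i : Fin 5) {ν : ℝ} (hν : IsO ν) (h : Lam (ν • w i)) : IsO (ν / 2) := by
  obtain ⟨h0, h1, -⟩ := h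
  have hs : ∀ k : Fin 3, (ν • w i) k = ν * w i k := fun k => rfl
  rw [hs] at h0 h1
  rw [hs] at h1
  have hu : (1 - goldenRatio) * (-goldenRatio) = 1 + 2 * 0 := by
    linear_combination goldenRatio_sq
  have h3 : IsO (-goldenRatio) := ⟨0, -1, by push_cast; ring⟩
  have h4 : IsO 0 := ⟨0, 0, by simp⟩
  fin_cases i
  · change IsO ((ν * 1 - goldenRatio * (ν * 1)) / 2) at h1
    refine Faith_half h3 h4 hν hu (IsO_of_eq h1 ?_)
    ring
  · change IsO (ν * (1 / 2)) at h0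
    exact IsO_of_eq h0 (by ring)
  · change IsO (ν * (1 / 2 - goldenRatio / 2)) at h0
    exact Faith_half h3 h4 hν hu (IsO_of_eq h0 (by ring))
  · change IsO (ν * (1 / 2 - goldenRatio / 2)) at h0
    exact Faith_half h3 h4 hν hu (IsO_of_eq h0 (by ring))
  · change IsO (ν * (1 / 2)) at h0
    exact IsO_of_eq h0 (by ring)

/-! ### words -/

private lemma Faith_key (v : E3) (hv : Lam v) (l : List (Fin 5)) : ∀ i : Fin 5, RedW (i :: l) →
    ¬ IsO (⟪w ((i :: l).getLast (List.cons_ne_nil i l)), v⟫_ℝ / 2) →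
    ∃ (ν : ℝ) (v' : E3), IsO ν ∧ ¬ IsO (ν / 2) ∧ Lam v' ∧
      (2 : ℝ) ^ (l.length + 1) • wd (i :: l) v = ν • (2 : ℝ) • w i + (2 : ℝ) • v' := by
  induction l with
  | nil =>
    intro i _ hi
    refine ⟨⟪w i, v⟫_ℝ, -v, IsO_in i hv, hi, Lam_neg hv, ?_⟩
    rw [wd_cons, wd_nil, mul_one, h_apply, List.length_nil, zero_add, pow_one]
    module
  | cons j l ih =>
    intro i hr hi
    have hij : i ≠ j := (List.isChain_cons_cons.1 hr).1
    have hr' : RedW (j :: l) := (List.isChain_cons_cons.1 hr).2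
    have hi' : ¬ IsO (⟪w ((j :: l).getLast (List.cons_ne_nil j l)), v⟫_ℝ / 2) := by
      rwa [List.getLast_cons (List.cons_ne_nil j l)] at hi
    obtain ⟨ν, v', h1, h2, h3, h4⟩ := ih j hr' hi'
    obtain ⟨y, hy⟩ : ∃ y, y = (2 : ℝ) ^ (l.length + 1) • wd (j :: l) v := ⟨_, rfl⟩
    rw [← hy] at h4
    obtain ⟨hu1, μ, κ, hu2, hu3, hu4⟩ := Faith_unit i j hij
    have hin : ⟪w i, y⟫_ℝ = ν * (2 * ⟪w i, w j⟫_ℝ) + 2 * ⟪w i, v'⟫_ℝ := by
      rw [h4, inner_add_right, inner_smul_right, inner_smul_right, inner_smul_right]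
    have hLy : Lam y := by
      rw [h4]
      exact Lam_add (Lam_smul h1 (Lam_w j)) (Lam_smul IsO_two h3)
    refine ⟨⟪w i, y⟫_ℝ, -y, IsO_in i hLy, ?_, Lam_neg hLy, ?_⟩
    · intro h5
      apply h2
      refine Faith_half hu2 hu3 h1 hu4 (IsO_of_eq (IsO_sub h5 (IsO_in i h3)) ?_)
      rw [hin]
      ring
    · have h6 : (2 : ℝ) ^ ((j :: l).length + 1) • wd (i :: j :: l) v = (2 : ℝ) • h i y := by
        rw [hy, map_smul, wd_cons i, LinearIsometryEquiv.coe_mul, Function.comp_apply, smul_smul,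
          List.length_cons, pow_succ' (2 : ℝ) (l.length + 1)]
      rw [h6, h_apply]
      module

private lemma Faith_three : ¬ IsO ((3 - goldenRatio) / 2) := by
  intro h
  apply not_IsO_half
  have h1 : IsO goldenRatio := ⟨0, 1, by simp⟩
  refine IsO_of_eq (IsO_sub h1 (IsO_mul h h1)) ?_
  linear_combination (-(1 / 2 : ℝ)) * goldenRatio_sq

private lemma Faith_ne : ∀ k : Fin 5, k ≠ k + 1 := by decide

private lemma Faith_w0 (j : Fin 5) (hj : j ≠ 0) :
    w j 0 = 1 / 2 ∨ w j 0 = (1 - goldenRatio) / 2 := by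
  fin_cases j
  · exact absurd rfl hj
  · left
    rfl
  · right
    change 1 / 2 - goldenRatio / 2 = _
    ring
  · right
    change 1 / 2 - goldenRatio / 2 = _
    ring
  · left
    rfl

private lemma Faith_u0 (j : Fin 4) : MP_f406e2_lc_QD.u j 0 = 1 ∨ MP_f406e2_lc_QD.u j 0 = -1 := by
  fin_cases j
  · left
    rfl
  · left
    rfl
  · right
    rfl
  · right
    rfl

private lemma Faith_Qw (g : Equiv.Perm (Fin 4)) : MP_f406e2_lc_QD.F g (w 0) =
    (1 / 2 : ℝ) • (MP_f406e2_lc_QD.u (g 0) - MP_f406e2_lc_QD.u (g 3)) := by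
  have h1 : w 0 = (1 / 2 : ℝ) • (MP_f406e2_lc_QD.u 0 - MP_f406e2_lc_QD.u 3) := by
    ext i
    fin_cases i <;> simp [w, MP_f406e2_lc_QD.u] <;> norm_num
  rw [h1, map_smul, map_sub, MP_f406e2_lc_QD.F_u, MP_f406e2_lc_QD.F_u]

private lemma Faith_cyc1 : ∀ j : Fin 5, cyc j = j + 1 := by decide

private lemma Faith_Cw (n : ℕ) (j : Fin 5) : (C ^ n : O3) (w j) = w ((cyc ^ n) j) := by
  induction n with
  | zero => rfl
  | succ n ih =>
    rw [pow_succ', LinearIsometryEquiv.coe_mul, Function.comp_apply, ih, C_w, pow_succ',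
      Equiv.Perm.mul_apply, Faith_cyc1]

private lemma Faith_fin : ∀ i : Fin 5, i ≠ 0 → (cyc ^ (5 - i.val)) 0 ≠ 0 := by
  decide

private lemma Faith_F1 (f : S5) (h1 : F f = 1) : f = 1 := by
  have h0 : f 0 = 0 := by
    by_contra hk
    obtain ⟨g, hg⟩ : ∃ g, g = lo ((cyc ^ (f 0).val)⁻¹ * f) := ⟨_, rfl⟩
    have h2 : C ^ (f 0).val * MP_f406e2_lc_QD.F g = 1 := by
      rw [hg]
      exact h1
    have hlt := (f 0).isLt
    have h3 : MP_f406e2_lc_QD.F g = C ^ (5 - (f 0).val) := by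
      have h4 : C ^ (5 - (f 0).val) * C ^ (f 0).val = 1 := by
        rw [← pow_add]
        have : 5 - (f 0).val + (f 0).val = 5 := by omega
        rw [this]
        exact C_five
      calc MP_f406e2_lc_QD.F g = (C ^ (5 - (f 0).val) * C ^ (f 0).val) * MP_f406e2_lc_QD.F g := by
            rw [h4, one_mul]
        _ = C ^ (5 - (f 0).val) := by rw [mul_assoc, h2, mul_one]
    have h5 := Faith_Qw g
    rw [h3, Faith_Cw] at h5
    have h6 := congrArg (fun x : E3 => x 0) h5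
    have h7 : w ((cyc ^ (5 - (f 0).val)) 0) 0 =
        1 / 2 * (MP_f406e2_lc_QD.u (g 0) 0 - MP_f406e2_lc_QD.u (g 3) 0) := h6
    have h8 := Faith_w0 _ (Faith_fin (f 0) hk)
    have hp1 : (1 : ℝ) < goldenRatio := one_lt_goldenRatio
    have hp2 : goldenRatio < 2 := goldenRatio_lt_two
    rcases h8 with h8 | h8 <;> rw [h8] at h7 <;>
      rcases Faith_u0 (g 0) with h9 | h9 <;> rcases Faith_u0 (g 3) with h10 | h10 <;>
      rw [h9, h10] at h7 <;> linarith
  have hlo : f = Equiv.Perm.decomposeFin.symm (0, lo f) := by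
    have h2 : f = Equiv.Perm.decomposeFin.symm (Equiv.Perm.decomposeFin f) :=
      (Equiv.symm_apply_apply _ f).symm
    have h3 : (Equiv.Perm.decomposeFin f).1 = 0 := by
      have h4 := Equiv.Perm.decomposeFin_symm_apply_zero (Equiv.Perm.decomposeFin f).1
        (Equiv.Perm.decomposeFin f).2
      rw [Prod.mk.eta, Equiv.symm_apply_apply, h0] at h4
      exact h4.symm
    calc f = Equiv.Perm.decomposeFin.symm (Equiv.Perm.decomposeFin f) := h2
      _ = Equiv.Perm.decomposeFin.symm (0, lo f) := by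
          congr 1
          exact Prod.ext h3 rfl
  have h2 : MP_f406e2_lc_QD.F (lo f) * MP_f406e2_lc_QD.wd [] = 1 := by
    rw [F, h0] at h1
    simpa using h1
  have h3 := (MP_f406e2_lc_QD.faithful (lo f) [] trivial h2).1
  rw [hlo, h3]
  decide

theorem faithful (f : S5) (hf : f ∈ A5) (l : List (Fin 5)) (hl : RedW l)
    (hfl : F f * wd l = 1) : f = 1 ∧ l = [] := by
  cases l with
  | nil =>
    refine ⟨?_, rfl⟩
    rw [wd_nil, mul_one] at hfl
    exact Faith_F1 f hfl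
  | cons i l =>
    exfalso
    obtain ⟨k, hk⟩ : ∃ k, k = (i :: l).getLast (List.cons_ne_nil i l) := ⟨_, rfl⟩
    have h1 : ¬ IsO (⟪w ((i :: l).getLast (List.cons_ne_nil i l)), (2 : ℝ) • w (k + 1)⟫_ℝ / 2) := by
      rw [← hk, inner_smul_right, inner_w, if_neg (Faith_ne k), if_pos (Or.inr rfl)]
      intro h
      exact Faith_three (IsO_of_eq h (by ring))
    obtain ⟨ν, v', h2, h3, h4, h5⟩ := Faith_key _ (Lam_w (k + 1)) l i hl h1
    have h6 : wd (i :: l) = F f⁻¹ := by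
      rw [← F_inv f hf]
      exact eq_inv_of_mul_eq_one_right hfl
    have h7 := Lam_F f⁻¹ (inv_mem hf) (Lam_w (k + 1))
    rw [← h6] at h7
    apply h3
    refine Lam_axis i h2 ?_
    have h8 : ν • w i = (2 : ℝ) ^ l.length • wd (i :: l) ((2 : ℝ) • w (k + 1)) - v' := by
      rw [pow_succ', ← smul_smul] at h5
      have h9 : (2 : ℝ) • ((2 : ℝ) ^ l.length • wd (i :: l) ((2 : ℝ) • w (k + 1))) =
          (2 : ℝ) • (ν • w i + v') := by
        rw [h5]
        module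
      have h10 := smul_right_injective E3 (two_ne_zero : (2 : ℝ) ≠ 0) h9
      have h11 : (2 : ℝ) ^ l.length • wd (i :: l) ((2 : ℝ) • w (k + 1)) = ν • w i + v' := h10
      rw [h11]
      module
    rw [h8]
    refine Lam_sub (Lam_smul ?_ h7) h4
    exact ⟨2 ^ l.length, 0, by push_cast; ring⟩

private lemma Faith_one (f f' : S5) (h : f'⁻¹ * f = 1) : f = f' := by
  have := congrArg (fun g => f' * g) h
  simpa using this

private lemma Faith_F (f f' : S5) (hf : f ∈ A5) (hf' : f' ∈ A5) :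
    F (f'⁻¹ * f) = (F f')⁻¹ * F f := by
  rw [F_mul _ _ (inv_mem hf') hf, F_inv f' hf']

private lemma Faith_red (l : List (Fin 5)) : ∀ (l' : List (Fin 5)) (f f' : S5), f ∈ A5 →
    f' ∈ A5 → RedW l → RedW l' → F f * wd l = F f' * wd l' → f = f' ∧ l = l' := by
  induction l using List.reverseRecOn with
  | nil =>
    intro l' f f' hf hf' _ hl' hfl
    rw [wd_nil, mul_one] at hfl
    have h1 : F (f⁻¹ * f') * wd l' = 1 := by
      rw [Faith_F f' f hf' hf, mul_assoc, ← hfl, inv_mul_cancel]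
    obtain ⟨h2, h3⟩ := faithful _ (mul_mem (inv_mem hf) hf') _ hl' h1
    exact ⟨(Faith_one f' f h2).symm, h3.symm⟩
  | append_singleton m a ih =>
    intro l' f f' hf hf' hl hl' hfl
    induction l' using List.reverseRecOn with
    | nil =>
      rw [wd_nil, mul_one] at hfl
      have h1 : F (f'⁻¹ * f) * wd (m ++ [a]) = 1 := by
        rw [Faith_F f f' hf hf', mul_assoc, hfl, inv_mul_cancel]
      obtain ⟨_, h3⟩ := faithful _ (mul_mem (inv_mem hf') hf) _ hl h1
      simp at h3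
    | append_singleton m' a' _ =>
      by_cases haa : a = a'
      · subst haa
        have h1 : F f * wd m = F f' * wd m' := by
          rw [wd_append, wd_append, ← mul_assoc, ← mul_assoc] at hfl
          exact mul_right_cancel hfl
        obtain ⟨h2, h3⟩ := ih m' f f' hf hf' hl.left_of_append hl'.left_of_append h1
        exact ⟨h2, by rw [h3]⟩
      · exfalso
        have h1 : F (f'⁻¹ * f) * wd ((m ++ [a]) ++ (m' ++ [a']).reverse) = 1 := by
          rw [wd_append (m ++ [a]), wd_reverse, Faith_F f f' hf hf', mul_assoc, ← mul_assoc (F f),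
            hfl, mul_assoc (F f'), mul_inv_cancel, mul_one, inv_mul_cancel]
        have h2 : RedW ((m ++ [a]) ++ (m' ++ [a']).reverse) := by
          have h3 : ((m' ++ [a']).reverse).IsChain (fun a b : Fin 5 => a ≠ b) := by
            rw [List.isChain_reverse]
            exact List.IsChain.imp (fun _ _ h => h.symm) hl'
          refine List.isChain_append.2 ⟨hl, h3, ?_⟩
          intro x hx y hy
          simp at hx hy
          rw [← hx, ← hy]
          exact haa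
        obtain ⟨_, h3⟩ := faithful _ (mul_mem (inv_mem hf') hf) _ h2 h1
        simp at h3

theorem red_unique (f f' : S5) (hf : f ∈ A5) (hf' : f' ∈ A5) (l l' : List (Fin 5)) (hl : RedW l)
    (hl' : RedW l') (hfl : F f * wd l = F f' * wd l') : f = f' ∧ l = l' :=
  Faith_red l l' f f' hf hf' hl hl' hfl

/-- the coordinates are determined by the isometry -/
theorem pos_unique (f f' : S5) (hf : f ∈ A5) (hf' : f' ∈ A5) (l l' : List (Fin 5))
    (hfl : F f * wd l = F f' * wd l') : pos f l = pos f' l' := by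
  obtain ⟨m, h1, h2, h3⟩ := exists_red l
  obtain ⟨m', h1', h2', h3'⟩ := exists_red l'
  obtain ⟨h4, h5⟩ := red_unique f f' hf hf' m m' h1 h1' (by rw [h2, h2', hfl])
  rw [pos, pos, ← h3, ← h3', h4, h5]

end Pool.Agent.MP_f406e2_lc_Q5
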