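import Mathlib
import Pool.Agent.Lib.MP_f406e2_lc_Q5.Faith

/-!
# Q5, module Quat: real quaternions of the words

`rot q x` is `q x q⁻`. The word `l` is represented by the product `qw l` of the pure quaternions
`qv (w j)`, of norm 2.
* `rot_mul`: polynomial identity; check the three coordinates.
* `rot_qv`: compare with `h_apply` (`a = 0`, `|b|² = 2`, `b = w j`).
* `rot_qw`: by induction. `normSq_qw`: multiplicativity.
* `tr_wd`: the trace of `x ↦ (a² - |b|²) x + 2 ⟪b, x⟫ b + 2 a (b × x)` is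
  `3 (a² - |b|²) + 2 |b|² = 4 a² - 2 ^ n`.
* `qw_inj`: if `qw l = ± qw l'` then `rot (qw l) = rot (qw l')`, taking norms the lengths agree,
  so `wd l = wd l'`, and the reduced words are equal by `red_unique` (with `F 1 = 1`).
* `qw_im`: otherwise `rot (qw l) x = a² x` and `a² = 2 ^ n`, so `wd l = 1`, contradiction to
  `faithful`.
-/

set_option autoImplicit false

noncomputable section

namespace Pool.Agent.MP_f406e2_lc_Q5

open MeasureTheory Real
open Pool.Agent.MP_f406e2_lc_QD (E3 S2 O3 nu mat tr cr)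
open scoped InnerProductSpace Quaternion

/-- the pure quaternion of a vector -/
def qv (x : E3) : ℍ[ℝ] := ⟨0, x 0, x 1, x 2⟩

/-- the vector part -/
def imv (q : ℍ[ℝ]) : E3 := !₂[q.imI, q.imJ, q.imK]

/-- `x ↦ q x q⁻` -/
def rot (q : ℍ[ℝ]) (x : E3) : E3 :=
  (q.re ^ 2 - ‖imv q‖ ^ 2) • x + (2 * ⟪imv q, x⟫_ℝ) • imv q + (2 * q.re) • cr (imv q) x

/-- the quaternion of a word -/
def qw (l : List (Fin 5)) : ℍ[ℝ] := (l.map fun j => qv (w j)).prod

private lemma quat_inner (v w : E3) : ⟪v, w⟫_ℝ = v 0 * w 0 + v 1 * w 1 + v 2 * w 2 := by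
  rw [PiLp.inner_apply, Fin.sum_univ_three]
  simp only [RCLike.inner_apply, conj_trivial]
  ring

private lemma quat_norm (q : ℍ[ℝ]) : ‖imv q‖ ^ 2 = q.imI ^ 2 + q.imJ ^ 2 + q.imK ^ 2 := by
  rw [← real_inner_self_eq_norm_sq, quat_inner]
  simp [imv]
  ring

private lemma quat_rot0 (q : ℍ[ℝ]) (x : E3) : rot q x 0 =
    (q.re ^ 2 - (q.imI ^ 2 + q.imJ ^ 2 + q.imK ^ 2)) * x 0 +
      2 * (q.imI * x 0 + q.imJ * x 1 + q.imK * x 2) * q.imI +
      2 * q.re * (q.imJ * x 2 - q.imK * x 1) := by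
  rw [rot, quat_norm, quat_inner]
  simp [imv, cr]

private lemma quat_rot1 (q : ℍ[ℝ]) (x : E3) : rot q x 1 =
    (q.re ^ 2 - (q.imI ^ 2 + q.imJ ^ 2 + q.imK ^ 2)) * x 1 +
      2 * (q.imI * x 0 + q.imJ * x 1 + q.imK * x 2) * q.imJ +
      2 * q.re * (q.imK * x 0 - q.imI * x 2) := by
  rw [rot, quat_norm, quat_inner]
  simp [imv, cr]

private lemma quat_rot2 (q : ℍ[ℝ]) (x : E3) : rot q x 2 =
    (q.re ^ 2 - (q.imI ^ 2 + q.imJ ^ 2 + q.imK ^ 2)) * x 2 +
      2 * (q.imI * x 0 + q.imJ * x 1 + q.imK * x 2) * q.imK +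
      2 * q.re * (q.imI * x 1 - q.imJ * x 0) := by
  rw [rot, quat_norm, quat_inner]
  simp [imv, cr]

private lemma quat_ext {x y : E3} (h0 : x 0 = y 0) (h1 : x 1 = y 1) (h2 : x 2 = y 2) : x = y := by
  ext i
  fin_cases i
  · exact h0
  · exact h1
  · exact h2

lemma rot_mul (p q : ℍ[ℝ]) (x : E3) : rot (p * q) x = rot p (rot q x) := by
  apply quat_ext
  · simp only [quat_rot0, quat_rot1, quat_rot2, Quaternion.re_mul, Quaternion.imI_mul,
      Quaternion.imJ_mul, Quaternion.imK_mul]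
    ring
  · simp only [quat_rot0, quat_rot1, quat_rot2, Quaternion.re_mul, Quaternion.imI_mul,
      Quaternion.imJ_mul, Quaternion.imK_mul]
    ring
  · simp only [quat_rot0, quat_rot1, quat_rot2, Quaternion.re_mul, Quaternion.imI_mul,
      Quaternion.imJ_mul, Quaternion.imK_mul]
    ring

private lemma quat_w (j : Fin 5) : w j 0 ^ 2 + w j 1 ^ 2 + w j 2 ^ 2 = 2 := by
  have h1 := norm_w j
  rw [← real_inner_self_eq_norm_sq, quat_inner] at h1
  linarith

lemma rot_qv (j : Fin 5) (x : E3) : rot (qv (w j)) x = (2 : ℝ) • h j x := by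
  rw [h_apply, quat_inner]
  have h1 := quat_w j
  apply quat_ext
  · rw [quat_rot0]
    simp only [qv, PiLp.smul_apply, PiLp.sub_apply, smul_eq_mul, h1]
    ring
  · rw [quat_rot1]
    simp only [qv, PiLp.smul_apply, PiLp.sub_apply, smul_eq_mul, h1]
    ring
  · rw [quat_rot2]
    simp only [qv, PiLp.smul_apply, PiLp.sub_apply, smul_eq_mul, h1]
    ring

private lemma quat_rot_smul (q : ℍ[ℝ]) (c : ℝ) (x : E3) : rot q (c • x) = c • rot q x := by
  apply quat_ext <;> simp only [quat_rot0, quat_rot1, quat_rot2, PiLp.smul_apply, smul_eq_mul] <;>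
    ring

theorem rot_qw (l : List (Fin 5)) (x : E3) : rot (qw l) x = (2 : ℝ) ^ l.length • wd l x := by
  induction l with
  | nil =>
    apply quat_ext <;> simp [quat_rot0, quat_rot1, quat_rot2, qw]
  | cons j l ih =>
    have h1 : qw (j :: l) = qv (w j) * qw l := rfl
    rw [h1, rot_mul, ih, quat_rot_smul, rot_qv, smul_smul, List.length_cons, pow_succ, wd_cons,
      LinearIsometryEquiv.coe_mul, Function.comp_apply]

theorem normSq_qw (l : List (Fin 5)) : Quaternion.normSq (qw l) = 2 ^ l.length := by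
  induction l with
  | nil => simp [qw]
  | cons j l ih =>
    have h1 : qw (j :: l) = qv (w j) * qw l := rfl
    rw [h1, map_mul, ih, List.length_cons, pow_succ, mul_comm]
    congr 1
    rw [Quaternion.normSq_def']
    have h2 := quat_w j
    simp only [qv]
    linarith

private lemma quat_normSq (l : List (Fin 5)) : (2 : ℝ) ^ l.length =
    (qw l).re ^ 2 + ((qw l).imI ^ 2 + (qw l).imJ ^ 2 + (qw l).imK ^ 2) := by
  have h5 := normSq_qw l
  rw [Quaternion.normSq_def'] at h5
  rw [← h5]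
  ring

theorem tr_wd (l : List (Fin 5)) :
    (tr (wd l) + 1) / 4 = (qw l).re ^ 2 / 2 ^ l.length := by
  have h1 : ∀ i : Fin 3, (2 : ℝ) ^ l.length * wd l (EuclideanSpace.single i 1) i =
      rot (qw l) (EuclideanSpace.single i 1) i := by
    intro i
    rw [rot_qw]
    simp
  have h2 : (2 : ℝ) ^ l.length * tr (wd l) =
      3 * (qw l).re ^ 2 - ((qw l).imI ^ 2 + (qw l).imJ ^ 2 + (qw l).imK ^ 2) := by
    have h3 : tr (wd l) = wd l (EuclideanSpace.single 0 1) 0 + wd l (EuclideanSpace.single 1 1) 1 +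
        wd l (EuclideanSpace.single 2 1) 2 := by
      rw [tr, Matrix.trace, Fin.sum_univ_three]
      rfl
    rw [h3, mul_add, mul_add, h1, h1, h1, quat_rot0, quat_rot1, quat_rot2]
    simp
    ring
  have h4 := quat_normSq l
  have h7 : (0 : ℝ) < 2 ^ l.length := by positivity
  rw [div_eq_div_iff (by norm_num) h7.ne']
  linarith

private lemma quat_rot_neg (q : ℍ[ℝ]) (x : E3) : rot (-q) x = rot q x := by
  apply quat_ext <;> simp only [quat_rot0, quat_rot1, quat_rot2, Quaternion.re_neg,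
    Quaternion.imI_neg, Quaternion.imJ_neg, Quaternion.imK_neg] <;> ring

private lemma quat_len {l l' : List (Fin 5)} (h : (2 : ℝ) ^ l.length = 2 ^ l'.length) :
    l.length = l'.length :=
  pow_right_injective₀ (by norm_num : (0 : ℝ) < 2) (by norm_num) h

theorem qw_inj (l l' : List (Fin 5)) (hl : RedW l) (hl' : RedW l')
    (hq : qw l = qw l' ∨ qw l = - qw l') : l = l' := by
  have h1 : ∀ x, rot (qw l) x = rot (qw l') x := by
    intro x
    rcases hq with hq | hq
    · rw [hq]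
    · rw [hq, quat_rot_neg]
  have h2 : (2 : ℝ) ^ l.length = 2 ^ l'.length := by
    rw [← normSq_qw, ← normSq_qw]
    rcases hq with hq | hq
    · rw [hq]
    · rw [hq, Quaternion.normSq_neg]
  have h3 : wd l = wd l' := by
    refine LinearIsometryEquiv.ext fun x => ?_
    have h4 := h1 x
    rw [rot_qw, rot_qw, h2] at h4
    exact smul_right_injective E3 (by positivity : (2 : ℝ) ^ l'.length ≠ 0) h4
  exact (red_unique 1 1 (one_mem _) (one_mem _) l l' hl hl' (by rw [h3])).2

theorem qw_im (l : List (Fin 5)) (hl : RedW l) (hne : l ≠ []) :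
    ¬ ((qw l).imI = 0 ∧ (qw l).imJ = 0 ∧ (qw l).imK = 0) := by
  rintro ⟨hI, hJ, hK⟩
  have h4 := quat_normSq l
  rw [hI, hJ, hK] at h4
  have h3 : wd l = wd [] := by
    refine LinearIsometryEquiv.ext fun x => ?_
    have h5 : rot (qw l) x = (2 : ℝ) ^ l.length • x := by
      apply quat_ext <;> simp only [quat_rot0, quat_rot1, quat_rot2, PiLp.smul_apply,
        smul_eq_mul, hI, hJ, hK, h4] <;> ring
    rw [rot_qw] at h5
    exact smul_right_injective E3 (by positivity : (2 : ℝ) ^ l.length ≠ 0) h5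
  exact hne (red_unique 1 1 (one_mem _) (one_mem _) l [] hl List.isChain_nil (by rw [h3])).2

end Pool.Agent.MP_f406e2_lc_Q5
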