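import Mathlib
import Pool.Agent.Lib.MP_f406e2_lc_Q5.Quat
import Pool.Agent.Lib.MP_f406e2_lc_QD.TrRot

/-!
# Q5, module ChiWd: the character of a word

`QD.chi_rot` for `g = wd l` with `a = re (qw l) / √2 ^ n`, `b = imv (qw l) / √2 ^ n`
(`n` the length), by `rot_qw`, `normSq_qw`; and `tr_wd`. As `QD.ChiWd`.
-/

set_option autoImplicit false

noncomputable section

namespace Pool.Agent.MP_f406e2_lc_Q5

open Pool.Agent.MP_f406e2_lc_QD (tr chi VV)

theorem chi_wd (l : List (Fin 5)) (n : ℕ) : chi n (wd l) = VV n ((tr (wd l) + 1) / 4) := by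
  obtain ⟨r, hr, hr2⟩ : ∃ r : ℝ, 0 < r ∧ r ^ 2 = 2 ^ l.length :=
    ⟨Real.sqrt (2 ^ l.length), Real.sqrt_pos.2 (by positivity), Real.sq_sqrt (by positivity)⟩
  have hr0 := hr.ne'
  have hn : (qw l).re ^ 2 + ‖imv (qw l)‖ ^ 2 = r ^ 2 := by
    have h5 := normSq_qw l
    rw [Quaternion.normSq_def'] at h5
    rw [hr2, ← h5, ← real_inner_self_eq_norm_sq, PiLp.inner_apply, Fin.sum_univ_three]
    simp [imv]
    ring
  have hb : ‖r⁻¹ • imv (qw l)‖ ^ 2 = ‖imv (qw l)‖ ^ 2 / r ^ 2 := by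
    rw [norm_smul, mul_pow, norm_inv, Real.norm_eq_abs, abs_of_pos hr]
    field_simp
  have h1 := Pool.Agent.MP_f406e2_lc_QD.chi_rot (wd l) ((qw l).re / r) (r⁻¹ • imv (qw l)) (by
    rw [hb, div_pow, ← add_div, hn]
    field_simp) (fun x => ?_) n
  · rw [h1, tr_wd, div_pow, hr2]
  · have h2 := rot_qw l x
    have h3 : wd l x = (r ^ 2)⁻¹ • rot (qw l) x := by
      rw [h2, hr2, smul_smul, inv_mul_cancel₀ (by positivity), one_smul]
    have h4 : Pool.Agent.MP_f406e2_lc_QD.cr (r⁻¹ • imv (qw l)) x =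
        r⁻¹ • Pool.Agent.MP_f406e2_lc_QD.cr (imv (qw l)) x := by
      ext i
      fin_cases i <;> simp [Pool.Agent.MP_f406e2_lc_QD.cr] <;> ring
    rw [h3, hb, h4, rot, real_inner_smul_left, smul_add, smul_add, smul_smul, smul_smul,
      smul_smul, smul_smul, smul_smul]
    congr 1
    · congr 1
      · congr 1
        field_simp
      · congr 1
        field_simp
    · congr 1
      field_simp

end Pool.Agent.MP_f406e2_lc_Q5
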