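import Pool.Agent.Lib.MP_f406e2_lc_Q5.RingO

/-!
# Q5, module CircleO: points of `ℤ[φ]²` on a circle

A circle `x² + y² = n`, `n` a totally positive element of `ℤ[φ]` of norm `N`, carries at most
`512 N^(1/3)` points with coordinates in `ℤ[φ]`.

Proof. Let `T = N^(1/6) ≥ 1`. At each of the two places a point of the circle of radius `√n` is
coded by: which coordinate is the smaller one (in absolute value), the sign of the larger one, and
the integral part of the quotient of the smaller one by `ℓ = √(n/2) / T`; this quotient is in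
`[-T, T]`, so there are at most `4 (2 ⌊T⌋ + 2) ≤ 16 T` codes. Two points with the same code have
distance at most `√2 ℓ = √n / T`. Three different points with the same codes at both places
satisfy `4 n D² = (product of the squares of the three distances) ≤ n³ / T⁶` at both places, where
`D ∈ ℤ[φ]` is twice the area of the triangle, and the norm of `D` is at least `1` in absolute
value; the product over the two places is `16 N ≤ N³ / T¹² = N`, a contradiction. So there are at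
most `2 (16 T)²` points.
-/

set_option autoImplicit false

open Real

namespace Pool.Agent.MP_f406e2_lc_Q5

theorem area {x1 y1 x2 y2 x3 y3 n : ℝ} (h1 : x1 ^ 2 + y1 ^ 2 = n)
    (h2 : x2 ^ 2 + y2 ^ 2 = n) (h3 : x3 ^ 2 + y3 ^ 2 = n) :
    4 * n * ((x2 - x1) * (y3 - y1) - (x3 - x1) * (y2 - y1)) ^ 2 =
      ((x2 - x1) ^ 2 + (y2 - y1) ^ 2) * ((x3 - x1) ^ 2 + (y3 - y1) ^ 2) *
        ((x3 - x2) ^ 2 + (y3 - y2) ^ 2) := by
  obtain ⟨D, hD⟩ : ∃ D, D = (x2 - x1) * (y3 - y1) - (x3 - x1) * (y2 - y1) := ⟨_, rfl⟩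
  obtain ⟨A, hA⟩ : ∃ A, A = (x2 - x1) ^ 2 + (y2 - y1) ^ 2 := ⟨_, rfl⟩
  obtain ⟨B, hB⟩ : ∃ B, B = (x3 - x1) ^ 2 + (y3 - y1) ^ 2 := ⟨_, rfl⟩
  have r2 : 2 * x1 * (x2 - x1) + 2 * y1 * (y2 - y1) = -A := by
    rw [hA]
    linear_combination h2 - h1
  have r3 : 2 * x1 * (x3 - x1) + 2 * y1 * (y3 - y1) = -B := by
    rw [hB]
    linear_combination h3 - h1
  have e1 : 2 * x1 * D = B * (y2 - y1) - A * (y3 - y1) := by
    rw [hD]
    linear_combination (y3 - y1) * r2 - (y2 - y1) * r3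
  have e2 : 2 * y1 * D = A * (x3 - x1) - B * (x2 - x1) := by
    rw [hD]
    linear_combination (x2 - x1) * r3 - (x3 - x1) * r2
  have e3 : 4 * n * D ^ 2 = (B * (y2 - y1) - A * (y3 - y1)) ^ 2
      + (A * (x3 - x1) - B * (x2 - x1)) ^ 2 := by
    rw [← e1, ← e2]
    linear_combination (-4 * D ^ 2) * h1
  rw [← hD, ← hA, ← hB, e3]
  have e4 : (x3 - x2) ^ 2 + (y3 - y2) ^ 2
      = A + B - 2 * ((x2 - x1) * (x3 - x1) + (y2 - y1) * (y3 - y1)) := by
    rw [hA, hB]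
    ring
  rw [e4]
  linear_combination (-(B ^ 2)) * hA + (-(A ^ 2)) * hB

private theorem slope {x1 y1 x2 y2 n : ℝ} (hn : 0 < n) (h1 : x1 ^ 2 + y1 ^ 2 = n)
    (h2 : x2 ^ 2 + y2 ^ 2 = n) (a1 : |x1| ≤ |y1|) (a2 : |x2| ≤ |y2|) (hs : 0 ≤ y1 * y2) :
    (x2 - x1) ^ 2 + (y2 - y1) ^ 2 ≤ 2 * (x2 - x1) ^ 2 := by
  have c1 : x1 ^ 2 ≤ y1 ^ 2 := sq_le_sq.2 a1
  have c2 : x2 ^ 2 ≤ y2 ^ 2 := sq_le_sq.2 a2
  have c3 : x1 * x2 ≤ y1 * y2 := by
    have h3 : |x1| * |x2| ≤ |y1| * |y2| := mul_le_mul a1 a2 (abs_nonneg _) (abs_nonneg _)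
    rw [← abs_mul, ← abs_mul, abs_of_nonneg hs] at h3
    exact (le_abs_self _).trans h3
  have f : (x2 + x1) ^ 2 ≤ (y2 + y1) ^ 2 := by nlinarith
  have hp : 0 < (y2 + y1) ^ 2 := by
    have h3 : 0 < y1 ^ 2 := by nlinarith
    nlinarith [sq_nonneg y2]
  have e : (y2 - y1) ^ 2 * (y2 + y1) ^ 2 = (x2 - x1) ^ 2 * (x2 + x1) ^ 2 := by
    have e0 : (y2 - y1) * (y2 + y1) = -((x2 - x1) * (x2 + x1)) := by
      linear_combination h2 - h1
    have e5 : ((y2 - y1) * (y2 + y1)) ^ 2 = (-((x2 - x1) * (x2 + x1))) ^ 2 := by rw [e0]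
    linear_combination e5
  have g : (y2 - y1) ^ 2 * (y2 + y1) ^ 2 ≤ (x2 - x1) ^ 2 * (y2 + y1) ^ 2 := by
    rw [e]
    exact mul_le_mul_of_nonneg_left f (sq_nonneg _)
  have := le_of_mul_le_mul_right g hp
  linarith

open Classical in
/-- The code of a point of a circle at one place. -/
noncomputable def code (l x y : ℝ) : Bool × Bool × ℤ :=
  (decide (|x| ≤ |y|), decide (0 ≤ if |x| ≤ |y| then y else x),
    ⌊(if |x| ≤ |y| then x else y) / l⌋)

private theorem floor_close {a b l : ℝ} (hl : 0 < l) (h : ⌊a / l⌋ = ⌊b / l⌋) :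
    (b - a) ^ 2 ≤ l ^ 2 := by
  have e1 := Int.floor_le (a / l)
  have e2 := Int.lt_floor_add_one (a / l)
  have e3 := Int.floor_le (b / l)
  have e4 := Int.lt_floor_add_one (b / l)
  rw [h] at e1 e2
  have e5 : (b - a) / l ≤ 1 := by
    rw [sub_div]
    linarith
  have e6 : -1 ≤ (b - a) / l := by
    rw [sub_div]
    linarith
  rw [div_le_iff₀ hl] at e5
  rw [le_div_iff₀ hl] at e6
  apply sq_le_sq' <;> linarith

private theorem code_close {x1 y1 x2 y2 n l : ℝ} (hn : 0 < n) (hl : 0 < l)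
    (h1 : x1 ^ 2 + y1 ^ 2 = n) (h2 : x2 ^ 2 + y2 ^ 2 = n) (h : code l x1 y1 = code l x2 y2) :
    (x2 - x1) ^ 2 + (y2 - y1) ^ 2 ≤ 2 * l ^ 2 := by
  classical
  unfold code at h
  rw [Prod.mk.injEq, Prod.mk.injEq, decide_eq_decide, decide_eq_decide] at h
  obtain ⟨g1, g2, g3⟩ := h
  by_cases hc : |x1| ≤ |y1|
  · have hc2 := g1.1 hc
    rw [if_pos hc, if_pos hc2] at g2 g3
    have hs : 0 ≤ y1 * y2 := by
      by_cases h0 : 0 ≤ y1
      · exact mul_nonneg h0 (g2.1 h0)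
      · have h0' : ¬ 0 ≤ y2 := fun h => h0 (g2.2 h)
        push Not at h0 h0'
        exact (mul_pos_of_neg_of_neg h0 h0').le
    have h3 := slope hn h1 h2 hc hc2 hs
    have h4 := floor_close hl g3
    linarith
  · have hc2 : ¬ |x2| ≤ |y2| := fun h => hc (g1.2 h)
    rw [if_neg hc, if_neg hc2] at g2 g3
    push Not at hc hc2
    have hs : 0 ≤ x1 * x2 := by
      by_cases h0 : 0 ≤ x1
      · exact mul_nonneg h0 (g2.1 h0)
      · have h0' : ¬ 0 ≤ x2 := fun h => h0 (g2.2 h)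
        push Not at h0 h0'
        exact (mul_pos_of_neg_of_neg h0 h0').le
    have h3 := slope hn ((add_comm _ _).trans h1) ((add_comm _ _).trans h2) hc.le hc2.le hs
    have h4 := floor_close hl g3
    linarith

private theorem code_range {x y n T : ℝ} (hn : 0 < n) (hT : 1 ≤ T) (h1 : x ^ 2 + y ^ 2 = n) :
    code (√(n / 2) / T) x y ∈ (Finset.univ : Finset Bool) ×ˢ ((Finset.univ : Finset Bool) ×ˢ
      Finset.Icc (-⌊T⌋ - 1) ⌊T⌋) := by
  classical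
  have hT0 : 0 < T := by linarith
  have hs : 0 < √(n / 2) := Real.sqrt_pos.2 (by linarith)
  rw [Finset.mem_product, Finset.mem_product]
  refine ⟨Finset.mem_univ _, Finset.mem_univ _, ?_⟩
  obtain ⟨u, hu⟩ : ∃ u, u = if |x| ≤ |y| then x else y := ⟨_, rfl⟩
  have hu2 : u ^ 2 ≤ n / 2 := by
    rw [hu]
    split_ifs with hc
    · have := sq_le_sq.2 hc
      linarith
    · push Not at hc
      have := sq_le_sq.2 hc.le
      linarith
  have hu3 : |u| ≤ √(n / 2) := Real.abs_le_sqrt hu2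
  have hu4 := abs_le.1 hu3
  unfold code
  simp only [← hu]
  have h5 : u / (√(n / 2) / T) ≤ T := by
    rw [div_le_iff₀ (by positivity)]
    have : T * (√(n / 2) / T) = √(n / 2) := by field_simp
    linarith [hu4.2]
  have h6 : -T ≤ u / (√(n / 2) / T) := by
    rw [le_div_iff₀ (by positivity)]
    have : -T * (√(n / 2) / T) = -√(n / 2) := by field_simp
    linarith [hu4.1]
  rw [Finset.mem_Icc]
  constructor
  · rw [Int.le_floor]
    push_cast
    linarith [Int.lt_floor_add_one T]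
  · exact Int.floor_le_floor h5

/-- Points on a circle, version with `T`. -/
theorem circle_T {n : ℝ × ℝ} (h1 : 0 < n.1) (h2 : 0 < n.2) {T : ℝ} (hT : 1 ≤ T)
    (hT6 : T ^ 6 = n.1 * n.2) (P : Finset ((ℝ × ℝ) × (ℝ × ℝ)))
    (hP : ∀ p ∈ P, p.1 ∈ OO ∧ p.2 ∈ OO ∧ p.1 ^ 2 + p.2 ^ 2 = n) :
    (P.card : ℝ) ≤ 512 * T ^ 2 := by
  classical
  have hT0 : 0 < T := by linarith
  have hc1 : ∀ p ∈ P, p.1.1 ^ 2 + p.2.1 ^ 2 = n.1 := by
    intro p hp
    have h := congrArg Prod.fst (hP p hp).2.2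
    rwa [Prod.fst_add, Prod.pow_fst, Prod.pow_fst] at h
  have hc2 : ∀ p ∈ P, p.1.2 ^ 2 + p.2.2 ^ 2 = n.2 := by
    intro p hp
    have h := congrArg Prod.snd (hP p hp).2.2
    rwa [Prod.snd_add, Prod.pow_snd, Prod.pow_snd] at h
  obtain ⟨l₁, hl₁⟩ : ∃ l, l = √(n.1 / 2) / T := ⟨_, rfl⟩
  obtain ⟨l₂, hl₂⟩ : ∃ l, l = √(n.2 / 2) / T := ⟨_, rfl⟩
  have hs1 : 0 < √(n.1 / 2) := Real.sqrt_pos.2 (by linarith)
  have hs2 : 0 < √(n.2 / 2) := Real.sqrt_pos.2 (by linarith)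
  have p1 : 0 < l₁ := by
    rw [hl₁]
    positivity
  have p2 : 0 < l₂ := by
    rw [hl₂]
    positivity
  have q1 : 2 * l₁ ^ 2 = n.1 / T ^ 2 := by
    rw [hl₁, div_pow, Real.sq_sqrt (by linarith)]
    ring
  have q2 : 2 * l₂ ^ 2 = n.2 / T ^ 2 := by
    rw [hl₂, div_pow, Real.sq_sqrt (by linarith)]
    ring
  obtain ⟨f, hf⟩ : ∃ f : (ℝ × ℝ) × (ℝ × ℝ) → (Bool × Bool × ℤ) × (Bool × Bool × ℤ),
      f = fun p => (code l₁ p.1.1 p.2.1, code l₂ p.1.2 p.2.2) := ⟨_, rfl⟩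
  have hfib : ∀ a ∈ P.image f, (P.filter fun p => f p = a).card ≤ 2 := by
    intro a _
    by_contra hcon
    push Not at hcon
    obtain ⟨p, q, r, hp, hq, hr, hpq, hpr, hqr⟩ := Finset.two_lt_card_iff.1 hcon
    rw [Finset.mem_filter] at hp hq hr
    -- closeness
    have hcl : ∀ p q : (ℝ × ℝ) × (ℝ × ℝ), p ∈ P → q ∈ P → f p = a → f q = a →
        (q.1.1 - p.1.1) ^ 2 + (q.2.1 - p.2.1) ^ 2 ≤ n.1 / T ^ 2 ∧
        (q.1.2 - p.1.2) ^ 2 + (q.2.2 - p.2.2) ^ 2 ≤ n.2 / T ^ 2 := by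
      intro p q hp hq e1 e2
      have e3 : f p = f q := e1.trans e2.symm
      rw [hf] at e3
      have e4 := congrArg Prod.fst e3
      have e5 := congrArg Prod.snd e3
      rw [← q1, ← q2]
      exact ⟨code_close h1 p1 (hc1 p hp) (hc1 q hq) e4,
        code_close h2 p2 (hc2 p hp) (hc2 q hq) e5⟩
    -- positivity
    have hpos : ∀ p q : (ℝ × ℝ) × (ℝ × ℝ), p ∈ P → q ∈ P → p ≠ q →
        0 < (q.1.1 - p.1.1) ^ 2 + (q.2.1 - p.2.1) ^ 2 := by
      intro p q hp hq hne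
      by_contra h0
      push Not at h0
      have z1 : q.1.1 - p.1.1 = 0 := by
        have : (q.1.1 - p.1.1) ^ 2 = 0 := by
          linarith only [h0, sq_nonneg (q.1.1 - p.1.1), sq_nonneg (q.2.1 - p.2.1)]
        exact pow_eq_zero_iff (two_ne_zero) |>.1 this
      have z2 : q.2.1 - p.2.1 = 0 := by
        have : (q.2.1 - p.2.1) ^ 2 = 0 := by
          linarith only [h0, sq_nonneg (q.1.1 - p.1.1), sq_nonneg (q.2.1 - p.2.1)]
        exact pow_eq_zero_iff (two_ne_zero) |>.1 this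
      have w1 : q.1 - p.1 = 0 :=
        OO_fst (OO.sub_mem (hP q hq).1 (hP p hp).1) (by rw [Prod.fst_sub]; exact z1)
      have w2 : q.2 - p.2 = 0 :=
        OO_fst (OO.sub_mem (hP q hq).2.1 (hP p hp).2.1) (by rw [Prod.fst_sub]; exact z2)
      exact hne (Prod.ext (sub_eq_zero.1 w1).symm (sub_eq_zero.1 w2).symm)
    obtain ⟨D, hD⟩ : ∃ D : ℝ × ℝ, D = (q.1 - p.1) * (r.2 - p.2) - (r.1 - p.1) * (q.2 - p.2) :=
      ⟨_, rfl⟩
    have hDO : D ∈ OO := by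
      rw [hD]
      have a1 := OO.sub_mem (hP q hq.1).1 (hP p hp.1).1
      have a2 := OO.sub_mem (hP r hr.1).2.1 (hP p hp.1).2.1
      have a3 := OO.sub_mem (hP r hr.1).1 (hP p hp.1).1
      have a4 := OO.sub_mem (hP q hq.1).2.1 (hP p hp.1).2.1
      exact OO.sub_mem (OO.mul_mem a1 a2) (OO.mul_mem a3 a4)
    have hA1 := area (hc1 p hp.1) (hc1 q hq.1) (hc1 r hr.1)
    have hA2 := area (hc2 p hp.1) (hc2 q hq.1) (hc2 r hr.1)
    have hD1 : D.1 = (q.1.1 - p.1.1) * (r.2.1 - p.2.1) - (r.1.1 - p.1.1) * (q.2.1 - p.2.1) := by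
      rw [hD]
      rfl
    have hD2 : D.2 = (q.1.2 - p.1.2) * (r.2.2 - p.2.2) - (r.1.2 - p.1.2) * (q.2.2 - p.2.2) := by
      rw [hD]
      rfl
    rw [← hD1] at hA1
    rw [← hD2] at hA2
    have b12 := hcl p q hp.1 hq.1 hp.2 hq.2
    have b13 := hcl p r hp.1 hr.1 hp.2 hr.2
    have b23 := hcl q r hq.1 hr.1 hq.2 hr.2
    have hD0 : D ≠ 0 := by
      intro h0
      have c12 := hpos p q hp.1 hq.1 hpq
      have c13 := hpos p r hp.1 hr.1 hpr
      have c23 := hpos q r hq.1 hr.1 hqr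
      have c4 := mul_pos (mul_pos c12 c13) c23
      rw [← hA1, h0, Prod.fst_zero] at c4
      simp at c4
    have hN := OO_norm hDO hD0
    have u1 : 4 * n.1 * D.1 ^ 2 ≤ n.1 / T ^ 2 * (n.1 / T ^ 2) * (n.1 / T ^ 2) := by
      rw [hA1]
      apply mul_le_mul (mul_le_mul b12.1 b13.1 (by positivity) (by positivity)) b23.1
        (by positivity) (by positivity)
    have u2 : 4 * n.2 * D.2 ^ 2 ≤ n.2 / T ^ 2 * (n.2 / T ^ 2) * (n.2 / T ^ 2) := by
      rw [hA2]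
      apply mul_le_mul (mul_le_mul b12.2 b13.2 (by positivity) (by positivity)) b23.2
        (by positivity) (by positivity)
    have u3 : (4 * n.1 * D.1 ^ 2) * (4 * n.2 * D.2 ^ 2) ≤
        (n.1 / T ^ 2 * (n.1 / T ^ 2) * (n.1 / T ^ 2)) *
        (n.2 / T ^ 2 * (n.2 / T ^ 2) * (n.2 / T ^ 2)) :=
      mul_le_mul u1 u2 (by positivity) (by positivity)
    have u4 : (n.1 / T ^ 2 * (n.1 / T ^ 2) * (n.1 / T ^ 2)) *
        (n.2 / T ^ 2 * (n.2 / T ^ 2) * (n.2 / T ^ 2)) = n.1 * n.2 := by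
      have : (n.1 / T ^ 2 * (n.1 / T ^ 2) * (n.1 / T ^ 2)) *
        (n.2 / T ^ 2 * (n.2 / T ^ 2) * (n.2 / T ^ 2)) =
          (n.1 * n.2) ^ 3 / (T ^ 6) ^ 2 := by
        field_simp
      rw [this, hT6]
      have : n.1 * n.2 ≠ 0 := by positivity
      field_simp
    have u5 : (1 : ℝ) ≤ (D.1 * D.2) ^ 2 := by
      rw [← sq_abs]
      exact one_le_pow₀ hN
    have u6 : (4 * n.1 * D.1 ^ 2) * (4 * n.2 * D.2 ^ 2) = 16 * (n.1 * n.2) * (D.1 * D.2) ^ 2 := by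
      ring
    rw [u4, u6] at u3
    have u7 : 0 < n.1 * n.2 := by positivity
    have u8 := mul_le_mul_of_nonneg_left u5 u7.le
    linarith only [u3, u7, u8]
  have hcard := Finset.card_le_mul_card_image P 2 hfib
  obtain ⟨E, hE⟩ : ∃ E : Finset (Bool × Bool × ℤ), E = (Finset.univ : Finset Bool) ×ˢ
    ((Finset.univ : Finset Bool) ×ˢ Finset.Icc (-⌊T⌋ - 1) ⌊T⌋) := ⟨_, rfl⟩
  have hEc : (E.card : ℝ) ≤ 16 * T := by
    rw [hE, Finset.card_product, Finset.card_product, Finset.card_univ, Fintype.card_bool,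
      Int.card_Icc]
    have h3 : 0 ≤ ⌊T⌋ := Int.floor_nonneg.2 hT0.le
    have h4 : (((⌊T⌋ + 1 - (-⌊T⌋ - 1)).toNat : ℤ) : ℝ) = 2 * (⌊T⌋ : ℝ) + 2 := by
      rw [Int.toNat_of_nonneg (by omega)]
      push_cast
      ring
    have h5 : (((⌊T⌋ + 1 - (-⌊T⌋ - 1)).toNat : ℕ) : ℝ) = 2 * (⌊T⌋ : ℝ) + 2 := by
      rw [← h4]
      norm_cast
    have h6 : (⌊T⌋ : ℝ) ≤ T := Int.floor_le T
    push_cast
    rw [h5]
    linarith
  have himg : P.image f ⊆ E ×ˢ E := by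
    intro a ha
    obtain ⟨p, hp, rfl⟩ := Finset.mem_image.1 ha
    rw [Finset.mem_product, hf, hE, hl₁, hl₂]
    exact ⟨code_range h1 hT (hc1 p hp), code_range h2 hT (hc2 p hp)⟩
  have h7 := Finset.card_le_card himg
  rw [Finset.card_product] at h7
  have h8 : P.card ≤ 2 * (E.card * E.card) := hcard.trans (Nat.mul_le_mul_left 2 h7)
  have h9 : (P.card : ℝ) ≤ 2 * ((E.card : ℝ) * E.card) := by exact_mod_cast h8
  have h10 : (E.card : ℝ) * E.card ≤ (16 * T) * (16 * T) :=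
    mul_le_mul hEc hEc (Nat.cast_nonneg _) (by positivity)
  have h11 : (16 * T) * (16 * T) = 256 * T ^ 2 := by ring
  rw [h11] at h10
  linarith only [h9, h10]

/-- Points on a circle. -/
theorem circle_le {n : ℝ × ℝ} (hn : n ∈ OO) (h1 : 0 < n.1) (h2 : 0 < n.2)
    (P : Finset ((ℝ × ℝ) × (ℝ × ℝ)))
    (hP : ∀ p ∈ P, p.1 ∈ OO ∧ p.2 ∈ OO ∧ p.1 ^ 2 + p.2 ^ 2 = n) :
    (P.card : ℝ) ≤ 512 * (n.1 * n.2) ^ (1 / 3 : ℝ) := by
  have h0 : n ≠ 0 := by
    intro h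
    rw [h] at h1
    exact lt_irrefl _ h1
  have hN : 1 ≤ n.1 * n.2 := by
    have := OO_norm hn h0
    rwa [abs_of_pos (mul_pos h1 h2)] at this
  obtain ⟨T, hT⟩ : ∃ T : ℝ, T = (n.1 * n.2) ^ (1 / 6 : ℝ) := ⟨_, rfl⟩
  have hT1 : 1 ≤ T := by
    rw [hT]
    exact Real.one_le_rpow hN (by norm_num)
  have hT6 : T ^ 6 = n.1 * n.2 := by
    rw [hT, ← Real.rpow_natCast, ← Real.rpow_mul (by positivity)]
    norm_num
  have hT2 : (n.1 * n.2) ^ (1 / 3 : ℝ) = T ^ 2 := by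
    rw [hT, ← Real.rpow_natCast, ← Real.rpow_mul (by positivity)]
    norm_num
  rw [hT2]
  exact circle_T h1 h2 hT1 hT6 P hP

end Pool.Agent.MP_f406e2_lc_Q5
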