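import Mathlib
import Pool.Agent.Lib.MP_f406e2_lc_Q5.Rel
import Pool.Agent.Lib.MP_f406e2_lc_QD.ConnR

/-!
# Q5, module ConnA: the product of two half-turns

`half a (half b x)` for unit vectors `a, b` (in general divide by the norms: `half (r • a) = half a`
for `r ≠ 0`). With `n = cr b a / ‖cr b a‖` or `cr a b / ‖cr a b‖` (the sign is to be determined),
`cos θ = 2 ⟪a, b⟫² - 1`, `sin θ = ± 2 ⟪a, b⟫ ‖cr a b‖` (`⟪a, b⟫² + ‖cr a b‖² = 1`; there is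
such a `θ`, as the squares sum to 1: `Real.cos_arccos`, or `Complex.arg`). Check on `a`, `b` and
`cr a b`, or in coordinates. `QD.RR` is in `QD.ConnR`.
-/

set_option autoImplicit false
set_option linter.unusedSimpArgs false

noncomputable section

namespace Pool.Agent.MP_f406e2_lc_Q5

open MeasureTheory Real
open Pool.Agent.MP_f406e2_lc_QD (E3 S2 O3 nu mat tr cr RR)
open scoped InnerProductSpace

private lemma connA_ip (v w : E3) : ⟪v, w⟫_ℝ = v 0 * w 0 + v 1 * w 1 + v 2 * w 2 := by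
  rw [PiLp.inner_apply, Fin.sum_univ_three]
  simp only [RCLike.inner_apply, conj_trivial]
  ring

private lemma connA_nsq (v : E3) : ‖v‖ ^ 2 = v 0 ^ 2 + v 1 ^ 2 + v 2 ^ 2 := by
  rw [← real_inner_self_eq_norm_sq, connA_ip]
  ring

private lemma connA_cr0 (v w : E3) : cr v w 0 = v 1 * w 2 - v 2 * w 1 := rfl

private lemma connA_cr1 (v w : E3) : cr v w 1 = v 2 * w 0 - v 0 * w 2 := rfl

private lemma connA_cr2 (v w : E3) : cr v w 2 = v 0 * w 1 - v 1 * w 0 := rfl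

private lemma connA_c (n : E3) (t : ℝ) (x : E3) (i : Fin 3) :
    RR n t x i = Real.cos t * x i + Real.sin t * cr n x i +
      ((1 - Real.cos t) * (n 0 * x 0 + n 1 * x 1 + n 2 * x 2)) * n i := by
  rw [RR, connA_ip]
  simp only [PiLp.add_apply, PiLp.smul_apply, smul_eq_mul]

private lemma connA_hc (v : E3) (hv : ‖v‖ = 1) (x : E3) (i : Fin 3) :
    half v x i = 2 * (v 0 * x 0 + v 1 * x 1 + v 2 * x 2) * v i - x i := by
  rw [half_apply, connA_ip, hv, one_pow, div_one]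
  simp only [PiLp.sub_apply, PiLp.smul_apply, smul_eq_mul]

theorem half_half (a b : E3) (ha : ‖a‖ = 1) (hb : ‖b‖ = 1) (hab : cr a b ≠ 0) :
    ∃ θ, ∀ x, (half a * half b) x = RR (‖cr a b‖⁻¹ • cr a b) θ x := by
  have hA : a 0 ^ 2 + a 1 ^ 2 + a 2 ^ 2 = 1 := by
    rw [← connA_nsq, ha, one_pow]
  have hB : b 0 ^ 2 + b 1 ^ 2 + b 2 ^ 2 = 1 := by
    rw [← connA_nsq, hb, one_pow]
  have hN0 : 0 < ‖cr a b‖ := norm_pos_iff.2 hab
  have hN : ‖cr a b‖ ^ 2 = 1 - (a 0 * b 0 + a 1 * b 1 + a 2 * b 2) ^ 2 := by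
    rw [connA_nsq, connA_cr0, connA_cr1, connA_cr2]
    linear_combination (b 0 ^ 2 + b 1 ^ 2 + b 2 ^ 2) * hA + hB
  obtain ⟨p, hp⟩ : ∃ p, p = a 0 * b 0 + a 1 * b 1 + a 2 * b 2 := ⟨_, rfl⟩
  rw [← hp] at hN
  have hp2 : p ^ 2 ≤ 1 := by nlinarith [sq_nonneg ‖cr a b‖]
  have hp3 : -1 ≤ p := by nlinarith
  have hp4 : p ≤ 1 := by nlinarith
  have hs : Real.sin (Real.arccos p) = ‖cr a b‖ := by
    rw [Real.sin_arccos, ← hN, Real.sqrt_sq hN0.le]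
  have hc : Real.cos (Real.arccos p) = p := Real.cos_arccos hp3 hp4
  have c1 : Real.cos (-(2 * Real.arccos p)) = 2 * p ^ 2 - 1 := by
    rw [Real.cos_neg, Real.cos_two_mul, hc]
  have s1 : Real.sin (-(2 * Real.arccos p)) = -(2 * ‖cr a b‖ * p) := by
    rw [Real.sin_neg, Real.sin_two_mul, hs, hc]
  refine ⟨-(2 * Real.arccos p), fun x => ?_⟩
  have q1 : ‖cr a b‖ * ‖cr a b‖⁻¹ = 1 := mul_inv_cancel₀ hN0.ne'
  generalize ‖cr a b‖⁻¹ = q at *
  generalize ‖cr a b‖ = N at *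
  have q2 : (1 - p ^ 2) * q ^ 2 = 1 := by
    rw [← hN]
    linear_combination (N * q + 1) * q1
  ext i
  rw [LinearIsometryEquiv.coe_mul, Function.comp_apply, connA_c (q • cr a b), c1, s1]
  fin_cases i
  · simp only [Fin.zero_eta, Fin.mk_one, Fin.reduceFinMk, connA_cr0, connA_cr1, connA_cr2,
      connA_hc a ha, connA_hc b hb, PiLp.smul_apply, smul_eq_mul]
    subst hp
    linear_combination
      (-(2 * (b 0 ^ 2 + b 1 ^ 2 + b 2 ^ 2) * x 0 -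
        2 * (b 0 * x 0 + b 1 * x 1 + b 2 * x 2) * b 0)) * hA -
      (2 * x 0 - 2 * (a 0 * x 0 + a 1 * x 1 + a 2 * x 2) * a 0) * hB +
      (2 * (a 0 * b 0 + a 1 * b 1 + a 2 * b 2) *
        ((a 2 * b 0 - a 0 * b 2) * x 2 - (a 0 * b 1 - a 1 * b 0) * x 1)) * q1 -
      (2 * ((a 1 * b 2 - a 2 * b 1) * x 0 + (a 2 * b 0 - a 0 * b 2) * x 1 +
        (a 0 * b 1 - a 1 * b 0) * x 2) * (a 1 * b 2 - a 2 * b 1)) * q2
  · simp only [Fin.zero_eta, Fin.mk_one, Fin.reduceFinMk, connA_cr0, connA_cr1, connA_cr2,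
      connA_hc a ha, connA_hc b hb, PiLp.smul_apply, smul_eq_mul]
    subst hp
    linear_combination
      (-(2 * (b 0 ^ 2 + b 1 ^ 2 + b 2 ^ 2) * x 1 -
        2 * (b 0 * x 0 + b 1 * x 1 + b 2 * x 2) * b 1)) * hA -
      (2 * x 1 - 2 * (a 0 * x 0 + a 1 * x 1 + a 2 * x 2) * a 1) * hB +
      (2 * (a 0 * b 0 + a 1 * b 1 + a 2 * b 2) *
        ((a 0 * b 1 - a 1 * b 0) * x 0 - (a 1 * b 2 - a 2 * b 1) * x 2)) * q1 -
      (2 * ((a 1 * b 2 - a 2 * b 1) * x 0 + (a 2 * b 0 - a 0 * b 2) * x 1 +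
        (a 0 * b 1 - a 1 * b 0) * x 2) * (a 2 * b 0 - a 0 * b 2)) * q2
  · simp only [Fin.zero_eta, Fin.mk_one, Fin.reduceFinMk, connA_cr0, connA_cr1, connA_cr2,
      connA_hc a ha, connA_hc b hb, PiLp.smul_apply, smul_eq_mul]
    subst hp
    linear_combination
      (-(2 * (b 0 ^ 2 + b 1 ^ 2 + b 2 ^ 2) * x 2 -
        2 * (b 0 * x 0 + b 1 * x 1 + b 2 * x 2) * b 2)) * hA -
      (2 * x 2 - 2 * (a 0 * x 0 + a 1 * x 1 + a 2 * x 2) * a 2) * hB +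
      (2 * (a 0 * b 0 + a 1 * b 1 + a 2 * b 2) *
        ((a 1 * b 2 - a 2 * b 1) * x 1 - (a 2 * b 0 - a 0 * b 2) * x 0)) * q1 -
      (2 * ((a 1 * b 2 - a 2 * b 1) * x 0 + (a 2 * b 0 - a 0 * b 2) * x 1 +
        (a 0 * b 1 - a 1 * b 0) * x 2) * (a 0 * b 1 - a 1 * b 0)) * q2

end Pool.Agent.MP_f406e2_lc_Q5
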