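import Mathlib
import Pool.Agent.Lib.MP_f406e2_lc_QD.ConnR
import Pool.Agent.Lib.MP_f406e2_lc_QD.Meas

/-!
# Q5, module ConnC: functions invariant under the rotations about two axes

Write `R n t` for `QD.RR n t` (on the sphere).
(1) Two points `x, y` of the sphere with `⟪n, x⟫ = ⟪n, y⟫` satisfy `y = R n t x` for some `t`
(both lie on the circle; if `⟪n, x⟫ = ±1` then `x = y = ± n`, otherwise
`x - ⟪n, x⟫ n`, `cr n x` is an orthogonal basis of the plane orthogonal to `n`, with equal lengths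
`√(1 - ⟪n, x⟫²)`, and `y - ⟪n, y⟫ n` has the same length). So `φ x` depends only on `⟪n, x⟫`, and
also only on `⟪n', x⟫`.
(2) Let `c = ⟪n, n'⟫`, `|c| < 1`. Put `p s = s n + √(1 - s²) e`, `e = (n' - c n)/√(1 - c²)`, for
`s ∈ [-1, 1]`: a point of the sphere with `⟪n, p s⟫ = s`; `φ x = φ (p ⟪n, x⟫)`. It is enough to show
that `g s = φ (p s)` is constant on `(-1, 1)` (then on `[-1, 1]` by continuity). For `s ∈ (-1, 1)`
the points `s n + √(1-s²) (cos u e + sin u (n × e))` have `⟪n', ·⟫ = c s + √(1-c²) √(1-s²) cos u`, so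
`φ` takes the value `g s` at all points `x` of the sphere with
`|⟪n', x⟫ - c s| ≤ √(1-c²) √(1-s²)` (by (1) for `n'`). For `s'` close to `s` the corresponding
intervals intersect, so `g s = g s'`: `g` is locally constant on the connected `(-1, 1)`.
-/

set_option autoImplicit false
set_option linter.unusedSimpArgs false

noncomputable section

namespace Pool.Agent.MP_f406e2_lc_Q5

open MeasureTheory Real
open Pool.Agent.MP_f406e2_lc_QD (E3 S2 O3 nu mat tr cr RR)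
open scoped InnerProductSpace

private lemma connC_ip (v w : E3) : ⟪v, w⟫_ℝ = v 0 * w 0 + v 1 * w 1 + v 2 * w 2 := by
  rw [PiLp.inner_apply, Fin.sum_univ_three]
  simp only [RCLike.inner_apply, conj_trivial]
  ring

private lemma connC_nsq (v : E3) : ‖v‖ ^ 2 = v 0 ^ 2 + v 1 ^ 2 + v 2 ^ 2 := by
  rw [← real_inner_self_eq_norm_sq, connC_ip]
  ring

private lemma connC_one (v : E3) (hv : ⟪v, v⟫_ℝ = 1) : ‖v‖ = 1 := by
  have h1 : ‖v‖ ^ 2 = 1 ^ 2 := by
    rw [← real_inner_self_eq_norm_sq, hv]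
    norm_num
  exact (sq_eq_sq₀ (norm_nonneg _) zero_le_one).1 h1

private lemma connC_self (v : E3) (hv : ‖v‖ = 1) : ⟪v, v⟫_ℝ = 1 := by
  rw [real_inner_self_eq_norm_sq, hv, one_pow]

private lemma connC_cr0 (v w : E3) : cr v w 0 = v 1 * w 2 - v 2 * w 1 := rfl

private lemma connC_cr1 (v w : E3) : cr v w 1 = v 2 * w 0 - v 0 * w 2 := rfl

private lemma connC_cr2 (v w : E3) : cr v w 2 = v 0 * w 1 - v 1 * w 0 := rfl

private lemma connC_c (n : E3) (t : ℝ) (x : E3) (i : Fin 3) :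
    RR n t x i = Real.cos t * x i + Real.sin t * cr n x i +
      ((1 - Real.cos t) * (n 0 * x 0 + n 1 * x 1 + n 2 * x 2)) * n i := by
  rw [RR, connC_ip]
  simp only [PiLp.add_apply, PiLp.smul_apply, smul_eq_mul]

/-- Two points at the same height lie on one orbit of the rotations. -/
private lemma connC_circle (n x y : E3) (hn : ‖n‖ = 1) (hx : ‖x‖ = 1) (hy : ‖y‖ = 1)
    (hxy : ⟪n, x⟫_ℝ = ⟪n, y⟫_ℝ) : ∃ t, y = RR n t x := by
  have hN : n 0 ^ 2 + n 1 ^ 2 + n 2 ^ 2 = 1 := by rw [← connC_nsq, hn]; norm_num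
  have hX : x 0 ^ 2 + x 1 ^ 2 + x 2 ^ 2 = 1 := by rw [← connC_nsq, hx]; norm_num
  have hY : y 0 ^ 2 + y 1 ^ 2 + y 2 ^ 2 = 1 := by rw [← connC_nsq, hy]; norm_num
  set s : ℝ := ⟪n, x⟫_ℝ with hs
  have hs1 : n 0 * x 0 + n 1 * x 1 + n 2 * x 2 = s := by rw [hs, connC_ip]
  have hs2 : n 0 * y 0 + n 1 * y 1 + n 2 * y 2 = s := by rw [hxy, connC_ip]
  -- the components orthogonal to the axis
  obtain ⟨p, hp⟩ : ∃ p : Fin 3 → ℝ, ∀ i, p i = x i - s * n i := ⟨_, fun _ => rfl⟩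
  obtain ⟨w, hw⟩ : ∃ w : Fin 3 → ℝ, ∀ i, w i = y i - s * n i := ⟨_, fun _ => rfl⟩
  have hnp : n 0 * p 0 + n 1 * p 1 + n 2 * p 2 = 0 := by
    rw [hp, hp, hp]
    linear_combination hs1 - s * hN
  have hnw : n 0 * w 0 + n 1 * w 1 + n 2 * w 2 = 0 := by
    rw [hw, hw, hw]
    linear_combination hs2 - s * hN
  have hpp : p 0 ^ 2 + p 1 ^ 2 + p 2 ^ 2 = 1 - s ^ 2 := by
    rw [hp, hp, hp]
    linear_combination hX - 2 * s * hs1 + s ^ 2 * hN
  have hww : w 0 ^ 2 + w 1 ^ 2 + w 2 ^ 2 = 1 - s ^ 2 := by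
    rw [hw, hw, hw]
    linear_combination hY - 2 * s * hs2 + s ^ 2 * hN
  by_cases h0 : 1 - s ^ 2 = 0
  · rw [h0] at hpp hww
    have hz : ∀ v : Fin 3 → ℝ, v 0 ^ 2 + v 1 ^ 2 + v 2 ^ 2 = 0 → ∀ i, v i = 0 := by
      intro v hv
      have h1 : v 0 = 0 := by nlinarith [sq_nonneg (v 0), sq_nonneg (v 1), sq_nonneg (v 2)]
      have h2 : v 1 = 0 := by nlinarith [sq_nonneg (v 0), sq_nonneg (v 1), sq_nonneg (v 2)]
      have h3 : v 2 = 0 := by nlinarith [sq_nonneg (v 0), sq_nonneg (v 1), sq_nonneg (v 2)]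
      intro i
      fin_cases i
      · exact h1
      · exact h2
      · exact h3
    refine ⟨0, ?_⟩
    rw [Pool.Agent.MP_f406e2_lc_QD.RR_zero]
    ext i
    have h4 := hz p hpp i
    have h5 := hz w hww i
    rw [hp] at h4
    rw [hw] at h5
    linarith
  · have hne : (1 - s ^ 2) ≠ 0 := h0
    -- the coefficients
    obtain ⟨A, hA⟩ : ∃ A : ℝ, A = p 0 * w 0 + p 1 * w 1 + p 2 * w 2 := ⟨_, rfl⟩
    obtain ⟨B, hB⟩ : ∃ B : ℝ, B = (n 1 * p 2 - n 2 * p 1) * w 0 + (n 2 * p 0 - n 0 * p 2) * w 1 +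
      (n 0 * p 1 - n 1 * p 0) * w 2 := ⟨_, rfl⟩
    have c0 : (1 - s ^ 2) * w 0 = A * p 0 + B * (n 1 * p 2 - n 2 * p 1) := by
      linear_combination (-(w 0)) * hpp - p 0 * hA - (n 1 * p 2 - n 2 * p 1) * hB
        - ((n 2 * p 0 - n 0 * p 2) * p 2 - (n 0 * p 1 - n 1 * p 0) * p 1) * hnw
        + ((n 2 * w 0 - n 0 * w 2) * p 2 - (n 0 * w 1 - n 1 * w 0) * p 1) * hnp
        - (w 0 * (p 0 ^ 2 + p 1 ^ 2 + p 2 ^ 2) - p 0 * (p 0 * w 0 + p 1 * w 1 + p 2 * w 2)) * hN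
    have c1 : (1 - s ^ 2) * w 1 = A * p 1 + B * (n 2 * p 0 - n 0 * p 2) := by
      linear_combination (-(w 1)) * hpp - p 1 * hA - (n 2 * p 0 - n 0 * p 2) * hB
        - ((n 0 * p 1 - n 1 * p 0) * p 0 - (n 1 * p 2 - n 2 * p 1) * p 2) * hnw
        + ((n 0 * w 1 - n 1 * w 0) * p 0 - (n 1 * w 2 - n 2 * w 1) * p 2) * hnp
        - (w 1 * (p 0 ^ 2 + p 1 ^ 2 + p 2 ^ 2) - p 1 * (p 0 * w 0 + p 1 * w 1 + p 2 * w 2)) * hN
    have c2 : (1 - s ^ 2) * w 2 = A * p 2 + B * (n 0 * p 1 - n 1 * p 0) := by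
      linear_combination (-(w 2)) * hpp - p 2 * hA - (n 0 * p 1 - n 1 * p 0) * hB
        - ((n 1 * p 2 - n 2 * p 1) * p 1 - (n 2 * p 0 - n 0 * p 2) * p 0) * hnw
        + ((n 1 * w 2 - n 2 * w 1) * p 1 - (n 2 * w 0 - n 0 * w 2) * p 0) * hnp
        - (w 2 * (p 0 ^ 2 + p 1 ^ 2 + p 2 ^ 2) - p 2 * (p 0 * w 0 + p 1 * w 1 + p 2 * w 2)) * hN
    have hAB : (A / (1 - s ^ 2)) ^ 2 + (B / (1 - s ^ 2)) ^ 2 = 1 := by
      rw [div_pow, div_pow, ← add_div, div_eq_one_iff_eq (pow_ne_zero 2 hne)]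
      have e1 : (1 - s ^ 2) * (w 0 ^ 2 + w 1 ^ 2 + w 2 ^ 2) = A ^ 2 + B ^ 2 := by
        linear_combination w 0 * c0 + w 1 * c1 + w 2 * c2 - A * hA - B * hB
      rw [← e1, hww]
      ring
    obtain ⟨t, ht⟩ := (Complex.norm_eq_one_iff
      (⟨A / (1 - s ^ 2), B / (1 - s ^ 2)⟩ : ℂ)).1 (by
        have h6 : ‖(⟨A / (1 - s ^ 2), B / (1 - s ^ 2)⟩ : ℂ)‖ ^ 2 = 1 ^ 2 := by
          rw [← Complex.normSq_eq_norm_sq, Complex.normSq_mk]
          linear_combination hAB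
        exact (sq_eq_sq₀ (norm_nonneg _) zero_le_one).1 h6)
    have htc : Real.cos t = A / (1 - s ^ 2) := by
      have := congrArg Complex.re ht
      rw [Complex.exp_ofReal_mul_I_re] at this
      exact this
    have hts : Real.sin t = B / (1 - s ^ 2) := by
      have := congrArg Complex.im ht
      rw [Complex.exp_ofReal_mul_I_im] at this
      exact this
    have hA2 : A = Real.cos t * (1 - s ^ 2) := by rw [htc, div_mul_cancel₀ _ hne]
    have hB2 : B = Real.sin t * (1 - s ^ 2) := by rw [hts, div_mul_cancel₀ _ hne]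
    refine ⟨t, ?_⟩
    ext i
    rw [connC_c, hs1]
    fin_cases i
    · simp only [Fin.zero_eta, connC_cr0]
      apply mul_left_cancel₀ hne
      have := c0
      rw [hw, hp, hp, hp, hA2, hB2] at this
      linear_combination this
    · simp only [Fin.mk_one, connC_cr1]
      apply mul_left_cancel₀ hne
      have := c1
      rw [hw, hp, hp, hp, hA2, hB2] at this
      linear_combination this
    · simp only [Fin.reduceFinMk, connC_cr2]
      apply mul_left_cancel₀ hne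
      have := c2
      rw [hw, hp, hp, hp, hA2, hB2] at this
      linear_combination this

theorem two_axes (φ : S2 → ℝ) (hc : Continuous φ) (n n' : E3) (hn : ‖n‖ = 1) (hn' : ‖n'‖ = 1)
    (hnn : |⟪n, n'⟫_ℝ| < 1)
    (h1 : ∀ (t : ℝ) (x y : S2), y.1 = RR n t x.1 → φ y = φ x)
    (h2 : ∀ (t : ℝ) (x y : S2), y.1 = RR n' t x.1 → φ y = φ x) : ∃ c, ∀ x, φ x = c := by
  have hS : ∀ x : S2, ‖x.1‖ = 1 := fun x => mem_sphere_zero_iff_norm.1 x.2
  have g1 : ∀ x y : S2, ⟪n, x.1⟫_ℝ = ⟪n, y.1⟫_ℝ → φ y = φ x := by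
    intro x y hxy
    obtain ⟨t, ht⟩ := connC_circle n x.1 y.1 hn (hS x) (hS y) hxy
    exact h1 t x y ht
  have g2 : ∀ x y : S2, ⟪n', x.1⟫_ℝ = ⟪n', y.1⟫_ℝ → φ y = φ x := by
    intro x y hxy
    obtain ⟨t, ht⟩ := connC_circle n' x.1 y.1 hn' (hS x) (hS y) hxy
    exact h2 t x y ht
  obtain ⟨c, hcdef⟩ : ∃ c : ℝ, c = ⟪n, n'⟫_ℝ := ⟨_, rfl⟩
  rw [← hcdef] at hnn
  have hc2 : 0 < 1 - c ^ 2 := by
    have := abs_lt.1 hnn
    nlinarith [this.1, this.2]
  obtain ⟨d, hd⟩ : ∃ d : ℝ, d = √(1 - c ^ 2) := ⟨_, rfl⟩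
  have hd0 : 0 < d := by rw [hd]; exact Real.sqrt_pos.2 hc2
  have hd2 : d ^ 2 = 1 - c ^ 2 := by rw [hd, Real.sq_sqrt hc2.le]
  have inn : ⟪n, n⟫_ℝ = 1 := connC_self n hn
  have inn' : ⟪n', n'⟫_ℝ = 1 := connC_self n' hn'
  obtain ⟨e, he⟩ : ∃ e : E3, e = (1 / d) • (n' - c • n) := ⟨_, rfl⟩
  have ine : ⟪n, e⟫_ℝ = 0 := by
    rw [he, inner_smul_right, inner_sub_right, inner_smul_right, ← hcdef, inn]
    ring
  have iee : ⟪e, e⟫_ℝ = 1 := by
    rw [he, inner_smul_right, inner_smul_left, inner_sub_right, inner_sub_left, inner_sub_left,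
      inner_smul_right, inner_smul_right, inner_smul_left, inner_smul_left, real_inner_comm n n',
      ← hcdef, inn, inn']
    simp only [conj_trivial]
    field_simp
    linear_combination -hd2
  have hn'e : n' = c • n + d • e := by
    rw [he, smul_smul, mul_one_div_cancel hd0.ne', one_smul]
    abel
  obtain ⟨b, hb⟩ : ∃ b : E3, b = cr n e := ⟨_, rfl⟩
  have inb : ⟪n, b⟫_ℝ = 0 := by
    rw [hb, connC_ip, connC_cr0, connC_cr1, connC_cr2]
    ring
  have ieb : ⟪e, b⟫_ℝ = 0 := by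
    rw [hb, connC_ip, connC_cr0, connC_cr1, connC_cr2]
    ring
  have ibb : ⟪b, b⟫_ℝ = 1 := by
    have a1 := inn
    have a2 := iee
    have a3 := ine
    rw [connC_ip] at a1 a2 a3
    rw [hb, connC_ip, connC_cr0, connC_cr1, connC_cr2]
    linear_combination (e 0 * e 0 + e 1 * e 1 + e 2 * e 2) * a1 + a2
      - (n 0 * e 0 + n 1 * e 1 + n 2 * e 2) * a3
  -- the points of the sphere
  have ibn : ⟪b, n⟫_ℝ = 0 := by rw [real_inner_comm, inb]
  have ien : ⟪e, n⟫_ℝ = 0 := by rw [real_inner_comm, ine]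
  have ibe : ⟪b, e⟫_ℝ = 0 := by rw [real_inner_comm, ieb]
  have hz : ∀ α k l : ℝ, k ^ 2 + l ^ 2 = 1 →
      ‖Real.cos α • n + Real.sin α • (k • e + l • b)‖ = 1 := by
    intro α k l hkl
    apply connC_one
    simp only [inner_add_left, inner_add_right, inner_smul_left, inner_smul_right, inn, iee, ibb,
      ine, ien, inb, ibn, ieb, ibe, conj_trivial]
    linear_combination Real.cos_sq_add_sin_sq α + Real.sin α ^ 2 * hkl
  have hzn : ∀ α k l : ℝ,
      ⟪n, Real.cos α • n + Real.sin α • (k • e + l • b)⟫_ℝ = Real.cos α := by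
    intro α k l
    simp only [inner_add_left, inner_add_right, inner_smul_left, inner_smul_right, inn, iee, ibb,
      ine, ien, inb, ibn, ieb, ibe, conj_trivial]
    ring
  have hzn' : ∀ α k l : ℝ,
      ⟪n', Real.cos α • n + Real.sin α • (k • e + l • b)⟫_ℝ =
        c * Real.cos α + d * Real.sin α * k := by
    intro α k l
    rw [hn'e]
    simp only [inner_add_left, inner_add_right, inner_smul_left, inner_smul_right, inn, iee, ibb,
      ine, ien, inb, ibn, ieb, ibe, conj_trivial]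
    ring
  let Z : ∀ α k l : ℝ, k ^ 2 + l ^ 2 = 1 → S2 := fun α k l hkl =>
    ⟨Real.cos α • n + Real.sin α • (k • e + l • b), mem_sphere_zero_iff_norm.2 (hz α k l hkl)⟩
  have h10 : (1 : ℝ) ^ 2 + 0 ^ 2 = 1 := by norm_num
  have h01 : (0 : ℝ) ^ 2 + 1 ^ 2 = 1 := by norm_num
  let G : ℝ → ℝ := fun α => φ (Z α 1 0 h10)
  have hG : Continuous G := by
    apply hc.comp
    apply Continuous.subtype_mk
    exact (Real.continuous_cos.smul continuous_const).add
      (Real.continuous_sin.smul continuous_const)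
  have hloc : ∀ α0 ∈ Set.Ioo (0 : ℝ) Real.pi, ∀ᶠ α in nhds α0, G α = G α0 := by
    intro α0 hα0
    have hs0 : 0 < Real.sin α0 := Real.sin_pos_of_mem_Ioo hα0
    have hev : ∀ᶠ α in nhds α0, |c * Real.cos α0 - c * Real.cos α| < d * Real.sin α := by
      have hcont : Continuous fun α : ℝ =>
          d * Real.sin α - |c * Real.cos α0 - c * Real.cos α| := by fun_prop
      have h5 : 0 < (fun α : ℝ =>
          d * Real.sin α - |c * Real.cos α0 - c * Real.cos α|) α0 := by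
        simp only [sub_self, abs_zero, sub_zero]
        exact mul_pos hd0 hs0
      filter_upwards [hcont.continuousAt.eventually (lt_mem_nhds h5)] with α hα
      linarith
    filter_upwards [hev] with α hα
    have hsα : 0 < Real.sin α := by
      have h6 : 0 < d * Real.sin α := lt_of_le_of_lt (abs_nonneg _) hα
      exact (mul_pos_iff_of_pos_left hd0).1 h6
    have hds : 0 < d * Real.sin α := mul_pos hd0 hsα
    obtain ⟨k, hk⟩ : ∃ k : ℝ,
      k = (c * Real.cos α0 - c * Real.cos α) / (d * Real.sin α) := ⟨_, rfl⟩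
    have hk1 : k ^ 2 ≤ 1 := by
      rw [sq_le_one_iff_abs_le_one, hk, abs_div, abs_of_pos hds]
      exact (div_le_one hds).2 hα.le
    have hkl : k ^ 2 + √(1 - k ^ 2) ^ 2 = 1 := by
      rw [Real.sq_sqrt (by linarith)]
      ring
    have e1 : φ (Z α k (√(1 - k ^ 2)) hkl) = G α := by
      apply g1
      change ⟪n, _⟫_ℝ = ⟪n, _⟫_ℝ
      rw [hzn, hzn]
    have e2 : φ (Z α0 0 1 h01) = G α0 := by
      apply g1
      change ⟪n, _⟫_ℝ = ⟪n, _⟫_ℝ
      rw [hzn, hzn]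
    have e3 : φ (Z α k (√(1 - k ^ 2)) hkl) = φ (Z α0 0 1 h01) := by
      apply g2
      change ⟪n', _⟫_ℝ = ⟪n', _⟫_ℝ
      rw [hzn', hzn', hk, mul_div_cancel₀ _ hds.ne']
      ring
    rw [← e1, e3, e2]
  have hder : ∀ α0 ∈ Set.Ioo (0 : ℝ) Real.pi, HasDerivAt G 0 α0 := by
    intro α0 hα0
    exact (hasDerivAt_const α0 (G α0)).congr_of_eventuallyEq (hloc α0 hα0)
  have hhalf : Real.pi / 2 ∈ Set.Ioo (0 : ℝ) Real.pi :=
    ⟨by linarith [Real.pi_pos], by linarith [Real.pi_pos]⟩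
  have hconst : ∀ α ∈ Set.Ioo (0 : ℝ) Real.pi, G α = G (Real.pi / 2) := by
    intro α hα
    exact isOpen_Ioo.is_const_of_deriv_eq_zero isPreconnected_Ioo
      (fun x hx => (hder x hx).differentiableAt.differentiableWithinAt)
      (fun x hx => (hder x hx).deriv) hα hhalf
  have hcl : ∀ α ∈ Set.Icc (0 : ℝ) Real.pi, G α = G (Real.pi / 2) := by
    have hclosed : IsClosed {α : ℝ | G α = G (Real.pi / 2)} :=
      isClosed_eq hG continuous_const
    have hsub : closure (Set.Ioo (0 : ℝ) Real.pi) ⊆ {α : ℝ | G α = G (Real.pi / 2)} :=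
      hclosed.closure_subset_iff.2 hconst
    rw [closure_Ioo Real.pi_pos.ne] at hsub
    exact hsub
  refine ⟨G (Real.pi / 2), fun x => ?_⟩
  have hxn : |⟪n, x.1⟫_ℝ| ≤ 1 := by
    have := abs_real_inner_le_norm n x.1
    rwa [hn, hS x, one_mul] at this
  have hx1 := (abs_le.1 hxn).1
  have hx2 := (abs_le.1 hxn).2
  rw [← hcl (Real.arccos ⟪n, x.1⟫_ℝ) ⟨Real.arccos_nonneg _, Real.arccos_le_pi _⟩]
  apply g1
  change ⟪n, _⟫_ℝ = _
  rw [hzn, Real.cos_arccos hx1 hx2]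

end Pool.Agent.MP_f406e2_lc_Q5
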