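import Mathlib
import Pool.Agent.Lib.MP_f406e2_lc_Q5.ConnA
import Pool.Agent.Lib.MP_f406e2_lc_Q5.ConnC
import Pool.Agent.Lib.MP_f406e2_lc_Q5.Faith
import Pool.Agent.Lib.MP_f406e2_lc_QD.ConnB

/-!
# Q5, module Conn: invariant continuous functions are constant

Let `φ` be continuous with `φ (h i • x) = φ (h j • x)`. Then `φ ((h i * h j) • x) = φ x`.
`(h 0 * h 1) ^ k ≠ 1`, `(h 0 * h 2) ^ k ≠ 1` for `k > 0` by `faithful` for the reduced words
`0 1 0 1 ... 0 1`. `half_half` with `a = w 0 / √2`, `b = w 1 / √2` (`half` does not change), so by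
`QD.inv_all` (module `QD.ConnB`) `φ` is invariant under all rotations about `cr (w 0) (w 1)`, and in
the same way about `cr (w 0) (w 2)`. These two vectors are not parallel (`w 0, w 1, w 2` are linearly
independent: coordinates), so `two_axes` applies (strict Cauchy-Schwarz).
-/

set_option autoImplicit false

noncomputable section

namespace Pool.Agent.MP_f406e2_lc_Q5

open MeasureTheory Real
open Pool.Agent.MP_f406e2_lc_QD (E3 S2 O3 nu mat tr cr RR)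
open scoped InnerProductSpace

/-- the alternating word `i j i j ... i j` -/
private def conn_alt (i j : Fin 5) : ℕ → List (Fin 5)
  | 0 => []
  | k + 1 => i :: j :: conn_alt i j k

private lemma conn_alt_red (i j : Fin 5) (hij : i ≠ j) : ∀ k, RedW (conn_alt i j k)
  | 0 => List.isChain_nil
  | 1 => List.isChain_cons_cons.2 ⟨hij, List.isChain_singleton j⟩
  | k + 2 => List.isChain_cons_cons.2 ⟨hij, List.isChain_cons_cons.2
      ⟨hij.symm, conn_alt_red i j hij (k + 1)⟩⟩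

private lemma conn_alt_wd (i j : Fin 5) (k : ℕ) : wd (conn_alt i j k) = (h i * h j) ^ k := by
  induction k with
  | zero => rfl
  | succ k ih =>
    rw [pow_succ', ← ih, mul_assoc]
    rfl

private lemma conn_ord (i j : Fin 5) (hij : i ≠ j) (k : ℕ) (hk : 0 < k) :
    (h i * h j) ^ k ≠ 1 := by
  intro hh
  have h1 : F 1 * wd (conn_alt i j k) = 1 := by
    rw [F_one, one_mul, conn_alt_wd, hh]
  have h2 := (faithful 1 (one_mem _) _ (conn_alt_red i j hij k) h1).2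
  cases k with
  | zero => exact lt_irrefl _ hk
  | succ k => exact List.cons_ne_nil _ _ h2

private lemma conn_inv (φ : S2 → ℝ) (hφ : ∀ i j x, φ (h i • x) = φ (h j • x)) (i j : Fin 5)
    (x : S2) : φ ((h i * h j) • x) = φ x := by
  rw [mul_smul, hφ i j (h j • x), ← mul_smul, h_mul_self, one_smul]

private lemma conn_ip (v w : E3) : ⟪v, w⟫_ℝ = v 0 * w 0 + v 1 * w 1 + v 2 * w 2 := by
  rw [PiLp.inner_apply, Fin.sum_univ_three]
  simp only [RCLike.inner_apply, conj_trivial]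
  ring

private lemma conn_nsq (v : E3) : ‖v‖ ^ 2 = v 0 ^ 2 + v 1 ^ 2 + v 2 ^ 2 := by
  rw [← real_inner_self_eq_norm_sq, conn_ip]
  ring

private lemma conn_half (r : ℝ) (hr : r ≠ 0) (v : E3) : half (r • v) = half v := by
  apply LinearIsometryEquiv.ext
  intro x
  rw [half_apply, half_apply, inner_smul_left, norm_smul, smul_smul, mul_pow, Real.norm_eq_abs,
    sq_abs, conj_trivial]
  congr 2
  by_cases hv : ‖v‖ = 0
  · rw [hv]
    simp
  · field_simp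

private lemma conn_cr_smul (r s : ℝ) (v w : E3) : cr (r • v) (s • w) = (r * s) • cr v w := by
  ext i
  fin_cases i <;> simp [cr] <;> ring

private lemma conn_normalize (r : ℝ) (hr : 0 < r) (v : E3) :
    ‖r • v‖⁻¹ • (r • v) = ‖v‖⁻¹ • v := by
  rw [norm_smul, Real.norm_eq_abs, abs_of_pos hr, smul_smul, mul_inv]
  congr 1
  field_simp

/-- the axis of `h i * h j` -/
private def conn_n (i j : Fin 5) : E3 := ‖cr (w i) (w j)‖⁻¹ • cr (w i) (w j)

private lemma conn_n_norm (i j : Fin 5) (hc : cr (w i) (w j) ≠ 0) : ‖conn_n i j‖ = 1 := by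
  rw [conn_n, norm_smul, norm_inv, norm_norm]
  exact inv_mul_cancel₀ (norm_ne_zero_iff.2 hc)

private lemma conn_rot (i j : Fin 5) (hc : cr (w i) (w j) ≠ 0) :
    ∃ θ, ∀ x, (h i * h j) x = RR (conn_n i j) θ x := by
  have h2 : (0 : ℝ) < (√2)⁻¹ := by positivity
  have hw : ∀ k : Fin 5, ‖(√2)⁻¹ • w k‖ = 1 := by
    intro k
    rw [norm_smul, Real.norm_eq_abs, abs_of_pos h2]
    have h3 : ‖w k‖ = √2 := by
      rw [← norm_w k, Real.sqrt_sq (norm_nonneg _)]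
    rw [h3]
    exact inv_mul_cancel₀ (by positivity)
  have hcr : cr ((√2)⁻¹ • w i) ((√2)⁻¹ • w j) = ((√2)⁻¹ * (√2)⁻¹) • cr (w i) (w j) :=
    conn_cr_smul _ _ _ _
  have hpos : (0 : ℝ) < (√2)⁻¹ * (√2)⁻¹ := mul_pos h2 h2
  obtain ⟨θ, hθ⟩ := half_half ((√2)⁻¹ • w i) ((√2)⁻¹ • w j) (hw i) (hw j) (by
    rw [hcr]
    exact smul_ne_zero hpos.ne' hc)
  refine ⟨θ, fun x => ?_⟩
  have h4 := hθ x
  rw [conn_half _ h2.ne', conn_half _ h2.ne', hcr, conn_normalize _ hpos] at h4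
  exact h4

private lemma conn_cr01 : cr (w 0) (w 1) 0 = (1 + goldenRatio) / 2 ∧
    cr (w 0) (w 1) 1 = -(1 + goldenRatio) / 2 ∧ cr (w 0) (w 1) 2 = (1 - goldenRatio) / 2 := by
  refine ⟨?_, ?_, ?_⟩ <;> simp [cr, w] <;> ring

private lemma conn_cr02 : cr (w 0) (w 2) 0 = goldenRatio / 2 ∧
    cr (w 0) (w 2) 1 = -goldenRatio / 2 ∧ cr (w 0) (w 2) 2 = -goldenRatio / 2 := by
  refine ⟨?_, ?_, ?_⟩ <;> simp [cr, w] <;> ring

private lemma conn_ne01 : cr (w 0) (w 1) ≠ 0 := by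
  intro hh
  have h1 := conn_cr01.1
  rw [hh] at h1
  have h2 : (0 : ℝ) = (1 + goldenRatio) / 2 := h1
  have := Real.goldenRatio_pos
  linarith

private lemma conn_ne02 : cr (w 0) (w 2) ≠ 0 := by
  intro hh
  have h1 := conn_cr02.1
  rw [hh] at h1
  have h2 : (0 : ℝ) = goldenRatio / 2 := h1
  have := Real.goldenRatio_pos
  linarith

private lemma conn_cs (p q : E3) (hp : p ≠ 0) (hq : q ≠ 0) (h : ⟪p, q⟫_ℝ ^ 2 < ‖p‖ ^ 2 * ‖q‖ ^ 2) :
    |⟪‖p‖⁻¹ • p, ‖q‖⁻¹ • q⟫_ℝ| < 1 := by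
  have hp' : 0 < ‖p‖ := norm_pos_iff.2 hp
  have hq' : 0 < ‖q‖ := norm_pos_iff.2 hq
  rw [← sq_lt_one_iff_abs_lt_one, inner_smul_left, inner_smul_right, conj_trivial]
  have h1 : (‖p‖⁻¹ * (‖q‖⁻¹ * ⟪p, q⟫_ℝ)) ^ 2 = ⟪p, q⟫_ℝ ^ 2 / (‖p‖ ^ 2 * ‖q‖ ^ 2) := by
    field_simp
  rw [h1, div_lt_one (by positivity)]
  exact h

private lemma conn_nn : |⟪conn_n 0 1, conn_n 0 2⟫_ℝ| < 1 := by
  refine conn_cs _ _ conn_ne01 conn_ne02 ?_
  obtain ⟨a0, a1, a2⟩ := conn_cr01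
  obtain ⟨b0, b1, b2⟩ := conn_cr02
  rw [conn_nsq, conn_nsq, conn_ip, a0, a1, a2, b0, b1, b2]
  have hg := Real.goldenRatio_sq
  have hp := Real.goldenRatio_pos
  set g := goldenRatio with hgdef
  have e1 : ((1 + g) / 2 * (g / 2) + -(1 + g) / 2 * (-g / 2) + (1 - g) / 2 * (-g / 2)) ^ 2
      = (40 * g + 25) / 16 := by
    have e2 : (1 + g) / 2 * (g / 2) + -(1 + g) / 2 * (-g / 2) + (1 - g) / 2 * (-g / 2)
        = (4 * g + 3) / 4 := by
      linear_combination (3 / 4) * hg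
    rw [e2]
    linear_combination hg
  have e3 : (((1 + g) / 2) ^ 2 + (-(1 + g) / 2) ^ 2 + ((1 - g) / 2) ^ 2) *
      ((g / 2) ^ 2 + (-g / 2) ^ 2 + (-g / 2) ^ 2) = (48 * g + 33) / 16 := by
    have e4 : ((1 + g) / 2) ^ 2 + (-(1 + g) / 2) ^ 2 + ((1 - g) / 2) ^ 2 = (6 + 5 * g) / 4 := by
      linear_combination (3 / 4) * hg
    have e5 : (g / 2) ^ 2 + (-g / 2) ^ 2 + (-g / 2) ^ 2 = 3 * (g + 1) / 4 := by
      linear_combination (3 / 4) * hg
    rw [e4, e5]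
    linear_combination (15 / 16) * hg
  rw [e1, e3]
  linarith

theorem const_of_inv (φ : S2 → ℝ) (hc : Continuous φ)
    (hφ : ∀ i j x, φ (h i • x) = φ (h j • x)) : ∃ c, ∀ x, φ x = c := by
  obtain ⟨θ1, hθ1⟩ := conn_rot 0 1 conn_ne01
  obtain ⟨θ2, hθ2⟩ := conn_rot 0 2 conn_ne02
  have n1 := conn_n_norm 0 1 conn_ne01
  have n2 := conn_n_norm 0 2 conn_ne02
  exact two_axes φ hc (conn_n 0 1) (conn_n 0 2) n1 n2 conn_nn
    (Pool.Agent.MP_f406e2_lc_QD.inv_all φ hc (conn_n 0 1) n1 (h 0 * h 1) θ1 hθ1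
      (conn_ord 0 1 (by decide)) (conn_inv φ hφ 0 1))
    (Pool.Agent.MP_f406e2_lc_QD.inv_all φ hc (conn_n 0 2) n2 (h 0 * h 2) θ2 hθ2
      (conn_ord 0 2 (by decide)) (conn_inv φ hφ 0 2))

end Pool.Agent.MP_f406e2_lc_Q5
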