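import Mathlib
import Pool.Agent.Lib.MP_f406e2_lc_Q5.Rel
import Pool.Agent.Lib.MP_f406e2_lc_QD.Det

/-!
# Q5, module Det: the determinants

`QD.mat_mul`, `QD.mat_mulVec`. A half-turn has determinant 1 (from the explicit matrix with
entries `2 v i v j / ‖v‖² - δ`, or: it is `-1` times a reflection in a plane; or
`Submodule.reflection` determinant lemma `LinearMap.det_reflection`/`(-1)^finrank`). `QD.mat_F` and
`lo_sign` for `F`.
-/

set_option autoImplicit false

noncomputable section

namespace Pool.Agent.MP_f406e2_lc_Q5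

open MeasureTheory Real
open Pool.Agent.MP_f406e2_lc_QD (E3 S2 O3 nu mat tr cr)
open scoped InnerProductSpace

private lemma mat_one : mat 1 = 1 := by
  ext i l
  simp only [mat, LinearIsometryEquiv.coe_one, id_eq]
  fin_cases i <;> fin_cases l <;> simp

private lemma inner_eq (v w : E3) : ⟪v, w⟫_ℝ = v 0 * w 0 + v 1 * w 1 + v 2 * w 2 := by
  rw [PiLp.inner_apply, Fin.sum_univ_three]
  simp only [RCLike.inner_apply, conj_trivial]
  ring

lemma mat_half (v : E3) (hv : v ≠ 0) : (mat (half v)).det = 1 := by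
  have hn : ‖v‖ ^ 2 = v 0 * v 0 + v 1 * v 1 + v 2 * v 2 := by
    rw [← real_inner_self_eq_norm_sq, inner_eq]
  have hn0 : ‖v‖ ^ 2 ≠ 0 := pow_ne_zero 2 (norm_ne_zero_iff.2 hv)
  obtain ⟨c, hc⟩ : ∃ c, c = 2 / ‖v‖ ^ 2 := ⟨_, rfl⟩
  have hc2 : c * (v 0 * v 0 + v 1 * v 1 + v 2 * v 2) = 2 := by
    rw [← hn, hc]
    field_simp
  have h1 : ∀ i l, mat (half v) i l = c * v l * v i - (if i = l then 1 else 0) := by
    intro i l
    simp only [mat]
    have h2 : ⟪v, EuclideanSpace.single l (1 : ℝ)⟫_ℝ = v l := by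
      rw [inner_eq]
      fin_cases l <;> simp
    have h3 : (EuclideanSpace.single l (1 : ℝ) : E3) i = if i = l then 1 else 0 := by
      fin_cases l <;> fin_cases i <;> simp
    rw [half_apply, h2, hc, PiLp.sub_apply, PiLp.smul_apply, h3, smul_eq_mul]
    ring
  rw [Matrix.det_fin_three]
  simp only [h1]
  simp only [Fin.isValue, if_true, Fin.reduceEq, if_false, zero_ne_one, one_ne_zero]
  linear_combination hc2

lemma mat_h (j : Fin 5) : (mat (h j)).det = 1 := by
  have h1 : w j ≠ 0 := by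
    intro h
    have h2 := norm_w j
    rw [h, norm_zero] at h2
    norm_num at h2
  exact mat_half _ h1

lemma mat_F (f : S5) (hf : f ∈ A5) : (mat (F f)).det = 1 := by
  have hC : (mat C).det = 1 := by
    rw [C, Pool.Agent.MP_f406e2_lc_QD.mat_mul, Matrix.det_mul, mat_half, mat_half, one_mul]
    · intro h
      have h1 := congrArg (fun z : E3 => z 2) h
      simp at h1
    · intro h
      have h1 := congrArg (fun z : E3 => z 1) h
      simp at h1
  have hCk : ∀ k : ℕ, (mat (C ^ k)).det = 1 := by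
    intro k
    induction k with
    | zero => rw [pow_zero, mat_one, Matrix.det_one]
    | succ k ih =>
      rw [pow_succ, Pool.Agent.MP_f406e2_lc_QD.mat_mul, Matrix.det_mul, ih, hC, one_mul]
  have h0 : ∀ k : Fin 5, (cyc ^ k.val) 0 = k := by decide
  have hs : Equiv.Perm.sign cyc = 1 := by decide
  have ha : ((cyc ^ (f 0).val)⁻¹ * f) 0 = 0 := by
    rw [Equiv.Perm.mul_apply, Equiv.Perm.inv_eq_iff_eq]
    exact (h0 (f 0)).symm
  rw [F, Pool.Agent.MP_f406e2_lc_QD.mat_mul, Matrix.det_mul, hCk, one_mul]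
  apply Pool.Agent.MP_f406e2_lc_QD.mat_F
  rw [Equiv.Perm.mem_alternatingGroup, lo_sign _ ha, map_mul, map_inv, map_pow, hs, one_pow,
    inv_one, one_mul]
  exact Equiv.Perm.mem_alternatingGroup.1 hf

lemma mat_wd (l : List (Fin 5)) : (mat (wd l)).det = 1 := by
  induction l with
  | nil => rw [wd_nil, mat_one, Matrix.det_one]
  | cons j l ih =>
    rw [wd_cons, Pool.Agent.MP_f406e2_lc_QD.mat_mul, Matrix.det_mul, mat_h, ih, one_mul]

end Pool.Agent.MP_f406e2_lc_Q5
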