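import Mathlib
import Pool.Agent.Lib.MP_f406e2_lc_Q5.Rel
import Pool.Agent.Lib.MP_f406e2_lc_QD.Ops

/-!
# Q5, module Ops: the operator of the five half-turns

As `QD.Ops` (`QD.UU_inner`, `QD.UU_mul`); `(h j)⁻¹ = h j`.
-/

set_option autoImplicit false

noncomputable section

namespace Pool.Agent.MP_f406e2_lc_Q5

open MeasureTheory
open Pool.Agent.MP_f406e2_lc_QD (E3 S2 O3 nu mat tr cr L2 UU)
open scoped InnerProductSpace

/-- the sum of the five half-turns -/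
def TT : L2 →L[ℝ] L2 := ∑ j, (UU (h j)).toContinuousLinearMap

lemma TT_apply (f : L2) : TT f = ∑ j, UU (h j) f := by
  simp [TT]

lemma TT_symm (f f' : L2) : ⟪TT f, f'⟫_ℝ = ⟪f, TT f'⟫_ℝ := by
  rw [TT_apply, TT_apply, sum_inner, inner_sum]
  refine Finset.sum_congr rfl fun j _ => ?_
  rw [Pool.Agent.MP_f406e2_lc_QD.UU_inner, h_inv]

lemma TT_norm_le (f : L2) : ‖TT f‖ ≤ 5 * ‖f‖ := by
  rw [TT_apply]
  refine (norm_sum_le _ _).trans ?_
  simp

end Pool.Agent.MP_f406e2_lc_Q5
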