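import Mathlib
import Pool.Agent.Lib.MP_f406e2_lc_Q5.Words

/-!
# Q5, module PPoly: the polynomials of the spheres of the 5-regular tree

As `QD.PPoly` with `q = 4` in the place of `3`: for `k ≥ 1`
  (A) `pp k * pp (k+2) = pp (k+1)^2 + 4^(k-1) (X² - 25)`;
  (B) `pp k * pp (k+1) = pp (2k+1) + 3 ∑_{i=1}^{k-1} 4^(i-1) pp (2k+1-2i) + 4^k pp 1`;
  (C) `pp_sq`: `pp k ^ 2 = pp (2k) + 3 ∑_{m=1}^{k-1} 4^(k-m-1) pp (2m) + 5 * 4^(k-1)`,
or (D) for all `1 ≤ k < l`
`pp k * pp l = pp (k+l) + 3 ∑_{i=1}^{k-1} 4^(i-1) pp (k+l-2i) + 4^k pp (l-k)`.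
-/

set_option autoImplicit false

noncomputable section

namespace Pool.Agent.MP_f406e2_lc_Q5

open Polynomial

/-- the polynomials of the spheres of the 5-regular tree -/
def pp : ℕ → Polynomial ℝ
  | 0 => 1
  | 1 => X
  | n + 2 => X * pp (n + 1) - Polynomial.C (rc n : ℝ) * pp n

/-- the coefficients of the square -/
def cc (k m : ℕ) : ℝ := if m = k then 1 else if m = 0 then 5 * 4 ^ (k - 1) else 3 * 4 ^ (k - m - 1)

private lemma pp_succ (n : ℕ) (hn : 1 ≤ n) : pp (n + 2) = X * pp (n + 1) - 4 * pp n := by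
  obtain ⟨k, rfl⟩ := Nat.exists_eq_add_of_le' hn
  have h3 : (Polynomial.C ((4 : ℕ) : ℝ) : Polynomial ℝ) = 4 := by
    rw [Nat.cast_ofNat]
    exact map_ofNat Polynomial.C 4
  rw [pp, rc, if_neg (Nat.succ_ne_zero k), h3]

private lemma pp_one : pp 1 = X := by rw [pp]

private lemma pp_two : pp 2 = X ^ 2 - 5 := by
  have h4 : (Polynomial.C ((5 : ℕ) : ℝ) : Polynomial ℝ) = 5 := by
    rw [Nat.cast_ofNat]
    exact map_ofNat Polynomial.C 5
  rw [pp, pp, pp, rc, if_pos rfl, h4]
  ring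

private lemma pp_add (m : ℕ) (hm : 1 ≤ m) : ∀ n : ℕ,
    (pp (m + 1) * pp (n + 2) - 4 * pp m * pp (n + 1) = pp (m + n + 3) - pp (m + n + 1)) ∧
    (pp (m + 1) * pp (n + 3) - 4 * pp m * pp (n + 2) = pp (m + n + 4) - pp (m + n + 2)) := by
  have h2 : pp (m + 2) = X * pp (m + 1) - 4 * pp m := pp_succ m hm
  have h3 : pp (m + 3) = X * pp (m + 2) - 4 * pp (m + 1) := pp_succ (m + 1) (by omega)
  have h4 : pp (m + 4) = X * pp (m + 3) - 4 * pp (m + 2) := pp_succ (m + 2) (by omega)
  have h5 : pp 3 = X * pp 2 - 4 * pp 1 := pp_succ 1 le_rfl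
  intro n
  induction n with
  | zero =>
    constructor
    · simp only [zero_add, add_zero]
      rw [h3, h2, pp_two, pp_one]
      ring
    · simp only [zero_add, add_zero]
      rw [h4, h3, h2, h5, pp_two, pp_one]
      ring
  | succ n ih =>
    obtain ⟨ih1, ih2⟩ := ih
    constructor
    · have e1 : m + (n + 1) + 3 = m + n + 4 := by ring
      have e2 : m + (n + 1) + 1 = m + n + 2 := by ring
      rw [e1, e2]
      exact ih2
    · have g1 : pp (n + 1 + 3) = X * pp (n + 3) - 4 * pp (n + 2) := pp_succ (n + 2) (by omega)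
      have g2 : pp (n + 1 + 2) = X * pp (n + 2) - 4 * pp (n + 1) := pp_succ (n + 1) (by omega)
      have g3 : pp (m + (n + 1) + 4) = X * pp (m + n + 4) - 4 * pp (m + n + 3) := by
        have := pp_succ (m + n + 3) (by omega)
        have e1 : m + (n + 1) + 4 = m + n + 3 + 2 := by ring
        rw [e1]
        exact this
      have g4 : pp (m + (n + 1) + 2) = X * pp (m + n + 2) - 4 * pp (m + n + 1) := by
        have := pp_succ (m + n + 1) (by omega)
        have e1 : m + (n + 1) + 2 = m + n + 1 + 2 := by ring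
        rw [e1]
        exact this
      linear_combination pp (m + 1) * g1 - 4 * pp m * g2 - g3 + g4 + X * ih2 - 4 * ih1

private lemma pp_sq_succ (k : ℕ) (hk : 1 ≤ k) :
    pp (k + 1) ^ 2 = 4 * pp k ^ 2 + pp (2 * (k + 1)) - pp (2 * k) := by
  obtain ⟨j, rfl⟩ := Nat.exists_eq_add_of_le' hk
  have h := (pp_add (j + 1) hk j).1
  have e1 : 2 * (j + 1 + 1) = j + 1 + j + 3 := by ring
  have e2 : 2 * (j + 1) = j + 1 + j + 1 := by ring
  rw [e1, e2]
  have f1 : j + 1 + 1 = j + 2 := rfl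
  rw [f1] at h ⊢
  linear_combination h

theorem pp_sq (k : ℕ) (hk : 1 ≤ k) :
    pp k ^ 2 = ∑ m ∈ Finset.range (k + 1), Polynomial.C (cc k m) * pp (2 * m) := by
  induction k, hk using Nat.le_induction with
  | base =>
    rw [Finset.sum_range_succ, Finset.sum_range_one, pp_one]
    have h0 : pp (2 * 0) = 1 := by rw [mul_zero, pp]
    have h2 : pp (2 * 1) = X ^ 2 - 5 := pp_two
    have c0 : cc 1 0 = 5 := by simp [cc]
    have c1 : cc 1 1 = 1 := by simp [cc]
    rw [h0, h2, c0, c1]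
    have : (Polynomial.C (5 : ℝ) : Polynomial ℝ) = 5 := map_ofNat Polynomial.C 5
    rw [this, map_one]
    ring
  | succ k hk ih =>
    have hc : ∀ m ∈ Finset.range k, Polynomial.C (cc (k + 1) m) * pp (2 * m) =
        4 * (Polynomial.C (cc k m) * pp (2 * m)) := by
      intro m hm
      have hm' : m < k := Finset.mem_range.1 hm
      have : cc (k + 1) m = 4 * cc k m := by
        have n1 : m ≠ k + 1 := by omega
        have n2 : m ≠ k := by omega
        unfold cc
        rw [if_neg n1, if_neg n2]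
        by_cases h0 : m = 0
        · rw [if_pos h0, if_pos h0]
          obtain ⟨j, rfl⟩ := Nat.exists_eq_add_of_le' hk
          simp only [Nat.add_sub_cancel]
          ring
        · rw [if_neg h0, if_neg h0]
          have e : k + 1 - m - 1 = (k - m - 1) + 1 := by omega
          rw [e]
          ring
      rw [this, C_mul]
      have h3 : (Polynomial.C (4 : ℝ) : Polynomial ℝ) = 4 := map_ofNat Polynomial.C 4
      rw [h3]
      ring
    have ck : cc (k + 1) k = 3 := by
      have n1 : k ≠ k + 1 := by omega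
      have n2 : k ≠ 0 := by omega
      unfold cc
      rw [if_neg n1, if_neg n2]
      have e : k + 1 - k - 1 = 0 := by omega
      rw [e]
      norm_num
    have ck1 : cc (k + 1) (k + 1) = 1 := by simp [cc]
    have ckk : cc k k = 1 := by simp [cc]
    rw [pp_sq_succ k hk, ih, Finset.sum_range_succ (n := k + 1),
      Finset.sum_range_succ (n := k), Finset.sum_range_succ (n := k), Finset.sum_congr rfl hc,
      ck, ck1, ckk, ← Finset.mul_sum]
    have h2 : (Polynomial.C (3 : ℝ) : Polynomial ℝ) = 3 := map_ofNat Polynomial.C 3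
    rw [h2, map_one]
    ring

lemma cc_nonneg (k m : ℕ) : 0 ≤ cc k m := by
  unfold cc
  split_ifs <;> positivity

lemma cc_zero_le (k : ℕ) (hk : 1 ≤ k) : cc k 0 ≤ 2 * 4 ^ k := by
  have n1 : (0 : ℕ) ≠ k := by omega
  unfold cc
  rw [if_neg n1, if_pos rfl]
  obtain ⟨j, rfl⟩ := Nat.exists_eq_add_of_le' hk
  simp only [Nat.add_sub_cancel]
  have : (0 : ℝ) ≤ 4 ^ j := by positivity
  rw [pow_succ]
  linarith

lemma cc_le (k m : ℕ) (hm : 1 ≤ m) (hmk : m ≤ k) : cc k m ≤ 4 ^ (k - m) := by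
  unfold cc
  by_cases h : m = k
  · rw [if_pos h, h, Nat.sub_self, pow_zero]
  · have n1 : m ≠ 0 := by omega
    rw [if_neg h, if_neg n1]
    have e : k - m = (k - m - 1) + 1 := by omega
    have h1 : (4 : ℝ) ^ (k - m) = 4 ^ (k - m - 1) * 4 := by
      rw [← pow_succ, ← e]
    have : (0 : ℝ) ≤ 4 ^ (k - m - 1) := by positivity
    rw [h1]
    linarith

end Pool.Agent.MP_f406e2_lc_Q5
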