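import Mathlib
import Pool.Agent.Lib.MP_f406e2_lc_Q5.OpsP
import Pool.Agent.Lib.MP_f406e2_lc_Q5.ChiWd
import Pool.Agent.Lib.MP_f406e2_lc_QD.PolyT
import Pool.Agent.Lib.MP_f406e2_lc_QD.EigT

/-!
# Q5, module EigT: the trace of the square of a sphere

As `QD.EigT`: `tt n k = ∑_{m ≤ k} cc k m ∑_{z ∈ W (2m)} chi n (wd z)` is `≥ 0`, and if
`f ∈ VH n`, `f ≠ 0`, `f ⊥ VH (n-2)`
(no condition for `n < 2`) and `TT f = c f`, then `(pp k)(c)² ≤ tt n k` (`k ≥ 1`).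
-/

set_option autoImplicit false

noncomputable section

namespace Pool.Agent.MP_f406e2_lc_Q5

open Pool.Agent.MP_f406e2_lc_QD (L2 UU VH chi Top)
open Pool.Agent.MP_f406e2_lc_QD (trOn trH mat VH_inv trOn_UU trace_sq_nonneg trace_sq_le VH_le)
open scoped InnerProductSpace

/-- the trace of the square of the sphere of radius `k` on the forms of degree `n` modulo
`|x|²` times the forms of degree `n - 2` -/
def tt (n k : ℕ) : ℝ :=
  ∑ m ∈ Finset.range (k + 1), cc k m * ∑ z ∈ W (2 * m), chi n (wd z)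

/-- the sphere of radius `k` as an operator -/
private def BB (k : ℕ) : L2 →ₗ[ℝ] L2 :=
  Polynomial.aeval (TT.toLinearMap : Module.End ℝ L2) (pp k)

private lemma BB_symm (k : ℕ) (x y : L2) : ⟪BB k x, y⟫_ℝ = ⟪x, BB k y⟫_ℝ :=
  aeval_TT_symm (pp k) x y

private lemma BB_eq (k : ℕ) : BB k = ∑ l ∈ W k, (UU (wd l)).toLinearMap := pp_TT k

private lemma sumUU_mem (n : ℕ) (s : Finset (List (Fin 5))) (x : L2) (hx : x ∈ VH n) :
    (∑ l ∈ s, (UU (wd l)).toLinearMap : L2 →ₗ[ℝ] L2) x ∈ VH n := by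
  rw [LinearMap.sum_apply]
  exact Submodule.sum_mem _ fun l _ => VH_inv n (wd l) x hx

private lemma BB_mem (n k : ℕ) (x : L2) (hx : x ∈ VH n) : BB k x ∈ VH n := by
  rw [BB_eq]
  exact sumUU_mem n _ x hx

private lemma BB_sq (k : ℕ) (hk : 1 ≤ k) :
    BB k * BB k = ∑ m ∈ Finset.range (k + 1), cc k m • BB (2 * m) := by
  have h1 : BB k * BB k = Polynomial.aeval (TT.toLinearMap : Module.End ℝ L2) (pp k ^ 2) := by
    rw [pow_two, map_mul]
    rfl
  rw [h1, pp_sq k hk, map_sum]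
  refine Finset.sum_congr rfl fun m _ => ?_
  rw [map_mul, Polynomial.aeval_C, ← Algebra.smul_def]
  rfl

private lemma trOn_sum {ι : Type*} (V : Submodule ℝ L2) (s : Finset ι) (c : ι → ℝ)
    (φ : ι → L2 →ₗ[ℝ] L2) (B : L2 →ₗ[ℝ] L2) (hB : B = ∑ i ∈ s, c i • φ i)
    (hV : ∀ x ∈ V, B x ∈ V) (hφ : ∀ i, ∀ x ∈ V, φ i x ∈ V) :
    trOn V B hV = ∑ i ∈ s, c i * trOn V (φ i) (hφ i) := by
  have h1 : B.restrict hV = ∑ i ∈ s, c i • (φ i).restrict (hφ i) := by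
    refine LinearMap.ext fun x => Subtype.ext ?_
    change B x.1 = _
    rw [hB, LinearMap.sum_apply, LinearMap.sum_apply, Submodule.coe_sum]
    rfl
  rw [trOn, h1, map_sum]
  refine Finset.sum_congr rfl fun i _ => ?_
  rw [map_smul, smul_eq_mul]
  rfl

private lemma trOn_BB (n k : ℕ) :
    trOn (VH n) (BB k) (BB_mem n k) = ∑ z ∈ W k, trH n (mat (wd z)) := by
  rw [trOn_sum (VH n) (W k) (fun _ => 1) (fun z => (UU (wd z)).toLinearMap) (BB k)
    (by rw [BB_eq]; exact Finset.sum_congr rfl fun l _ => (one_smul ℝ _).symm) (BB_mem n k)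
    (fun z x hx => VH_inv n (wd z) x hx)]
  refine Finset.sum_congr rfl fun z _ => ?_
  rw [one_mul, trOn_UU]

private lemma trOn_BB_sq (n k : ℕ) (hk : 1 ≤ k) (h : ∀ x ∈ VH n, (BB k * BB k) x ∈ VH n) :
    trOn (VH n) (BB k * BB k) h =
      ∑ m ∈ Finset.range (k + 1), cc k m * ∑ z ∈ W (2 * m), trH n (mat (wd z)) := by
  rw [trOn_sum (VH n) (Finset.range (k + 1)) (cc k) (fun m => BB (2 * m)) (BB k * BB k)
    (BB_sq k hk) h (fun m => BB_mem n (2 * m))]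
  exact Finset.sum_congr rfl fun m _ => by rw [trOn_BB]

private lemma trOn_bot (B : L2 →ₗ[ℝ] L2)
    (h : ∀ x ∈ (⊥ : Submodule ℝ L2), B x ∈ (⊥ : Submodule ℝ L2)) :
    trOn ⊥ B h = 0 := by
  rw [trOn, Subsingleton.elim (B.restrict h) 0, map_zero]

private lemma bot_inv (B : L2 →ₗ[ℝ] L2) :
    ∀ x ∈ (⊥ : Submodule ℝ L2), B x ∈ (⊥ : Submodule ℝ L2) := by
  intro x hx
  rw [Submodule.mem_bot] at hx ⊢
  rw [hx, map_zero]

theorem tt_nonneg (n k : ℕ) (hk : 1 ≤ k) : 0 ≤ tt n k := by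
  match n with
  | 0 =>
    have h := trace_sq_nonneg (VH 0) ⊥ bot_le (BB k) (BB_symm k) (BB_mem 0 k) (bot_inv (BB k))
    rw [trOn_bot, trOn_BB_sq 0 k hk] at h
    exact h
  | 1 =>
    have h := trace_sq_nonneg (VH 1) ⊥ bot_le (BB k) (BB_symm k) (BB_mem 1 k) (bot_inv (BB k))
    rw [trOn_bot, trOn_BB_sq 1 k hk] at h
    exact h
  | n + 2 =>
    have h := trace_sq_nonneg (VH (n + 2)) (VH n) (VH_le n) (BB k) (BB_symm k) (BB_mem (n + 2) k)
      (BB_mem n k)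
    rw [trOn_BB_sq n k hk, trOn_BB_sq (n + 2) k hk] at h
    have h2 : tt (n + 2) k =
        ∑ m ∈ Finset.range (k + 1), cc k m * ∑ z ∈ W (2 * m), trH (n + 2) (mat (wd z)) -
        ∑ m ∈ Finset.range (k + 1), cc k m * ∑ z ∈ W (2 * m), trH n (mat (wd z)) := by
      rw [tt, ← Finset.sum_sub_distrib]
      refine Finset.sum_congr rfl fun m _ => ?_
      rw [← mul_sub, ← Finset.sum_sub_distrib]
      rfl
    rw [h2]
    linarith

theorem tt_ge (n k : ℕ) (hk : 1 ≤ k) (f : L2) (hf : f ∈ VH n) (hf0 : f ≠ 0) (htop : Top n f)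
    (c : ℝ) (hc : TT f = c • f) : ((pp k).eval c) ^ 2 ≤ tt n k := by
  have hβ : BB k f = (pp k).eval c • f := aeval_TT_eigen (pp k) f c hc
  have hbot : ∀ x ∈ (⊥ : Submodule ℝ L2), ⟪f, x⟫_ℝ = 0 := by
    intro x hx
    rw [(Submodule.mem_bot ℝ).1 hx, inner_zero_right]
  match n, hf, htop with
  | 0, hf, _ =>
    have h := trace_sq_le (VH 0) ⊥ bot_le (BB k) (BB_symm k) (BB_mem 0 k) (bot_inv (BB k)) f hf hf0
      hbot _ hβ
    rw [trOn_bot, trOn_BB_sq 0 k hk, add_zero] at h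
    exact h
  | 1, hf, _ =>
    have h := trace_sq_le (VH 1) ⊥ bot_le (BB k) (BB_symm k) (BB_mem 1 k) (bot_inv (BB k)) f hf hf0
      hbot _ hβ
    rw [trOn_bot, trOn_BB_sq 1 k hk, add_zero] at h
    exact h
  | n + 2, hf, htop =>
    have h := trace_sq_le (VH (n + 2)) (VH n) (VH_le n) (BB k) (BB_symm k) (BB_mem (n + 2) k)
      (BB_mem n k) f hf hf0 (htop n rfl) _ hβ
    rw [trOn_BB_sq n k hk, trOn_BB_sq (n + 2) k hk] at h
    have h2 : tt (n + 2) k =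
        ∑ m ∈ Finset.range (k + 1), cc k m * ∑ z ∈ W (2 * m), trH (n + 2) (mat (wd z)) -
        ∑ m ∈ Finset.range (k + 1), cc k m * ∑ z ∈ W (2 * m), trH n (mat (wd z)) := by
      rw [tt, ← Finset.sum_sub_distrib]
      refine Finset.sum_congr rfl fun m _ => ?_
      rw [← mul_sub, ← Finset.sum_sub_distrib]
      rfl
    rw [h2]
    linarith

end Pool.Agent.MP_f406e2_lc_Q5
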