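import Mathlib

/-!
# Q5, module SNum: the numerical part of the weighted sum

With `a = 2^(1/3)`: `(2^(m+1))^(5/3) = a^(5(m+1))`, `(2^(m+1))^(17/3) = a^(17(m+1))`, `4 = a^6`; the
first terms sum to `4^k a^5 ∑ a^(-m) ≤ 4 a^5 4^k`, the second ones to
`4^k a^17 (∑ a^(11 m)) / (4 l^4)` and `(a^11)^k ≤ l^4`.
-/

set_option autoImplicit false

namespace Pool.Agent.MP_f406e2_lc_Q5

private theorem geo_down {a : ℝ} (ha : 5 / 4 ≤ a) (k : ℕ) :
    ∑ m ∈ Finset.range k, (1 / a) ^ (m + 1) ≤ 4 * (1 - (1 / a) ^ k) := by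
  have ha0 : 0 < a := by linarith
  have hb : 1 / a ≤ 4 / 5 := by
    rw [div_le_iff₀ ha0]
    linarith
  induction k with
  | zero => simp
  | succ k ih =>
    rw [Finset.sum_range_succ]
    have h1 : (0 : ℝ) < (1 / a) ^ k := by positivity
    have h2 : (1 / a) ^ (k + 1) = (1 / a) ^ k * (1 / a) := pow_succ _ _
    rw [h2]
    nlinarith

private theorem geo_up {Q : ℝ} (hQ : 25 / 2 ≤ Q) (k : ℕ) :
    ∑ m ∈ Finset.range k, Q ^ (m + 1) ≤ 25 / 23 * Q ^ k := by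
  induction k with
  | zero => norm_num
  | succ k ih =>
    rw [Finset.sum_range_succ]
    have h1 : 0 < Q ^ k := by positivity
    have h2 : Q ^ (k + 1) = Q ^ k * Q := pow_succ _ _
    rw [h2]
    nlinarith

/-- The numerical part of the weighted sum. -/
theorem s_num {k l : ℕ} (hl : 1 ≤ l) (hkl : 4 ^ (11 * k) ≤ l ^ 24)
    (c A : ℕ → ℝ) (hc0 : c 0 * A 0 ≤ 2 * 4 ^ k)
    (hc : ∀ m, 1 ≤ m → m ≤ k → 0 ≤ c m ∧ c m ≤ 4 ^ (k - m))
    (hA : ∀ m, 1 ≤ m → m ≤ k → A m ≤ 98304 * ((((2 : ℕ) ^ (m + 1) : ℕ) : ℝ) ^ (5 / 3 : ℝ) +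
      (((2 : ℕ) ^ (m + 1) : ℕ) : ℝ) ^ (17 / 3 : ℝ) / ((2 * l ^ 2 : ℕ) : ℝ) ^ 2)) :
    ∑ m ∈ Finset.range (k + 1), c m * A m ≤ 10 ^ 7 * 4 ^ k := by
  obtain ⟨a, ha⟩ : ∃ a : ℝ, a = (2 : ℝ) ^ (1 / 3 : ℝ) := ⟨_, rfl⟩
  have ha0 : 0 < a := by
    rw [ha]
    positivity
  have ha3 : a ^ 3 = 2 := by
    rw [ha, ← Real.rpow_natCast, ← Real.rpow_mul (by norm_num)]
    norm_num
  have ha1 : 5 / 4 ≤ a := by
    refine le_of_pow_le_pow_left₀ (n := 3) (by norm_num) ha0.le ?_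
    rw [ha3]
    norm_num
  have ha2 : a ≤ 63 / 50 := by
    refine le_of_pow_le_pow_left₀ (n := 3) (by norm_num) (by norm_num) ?_
    rw [ha3]
    norm_num
  have hp : ∀ (m n : ℕ), (((2 : ℕ) ^ (m + 1) : ℕ) : ℝ) ^ ((n : ℝ) / 3) = a ^ (n * (m + 1)) := by
    intro m n
    have h2a : (((2 : ℕ) ^ (m + 1) : ℕ) : ℝ) = a ^ (3 * (m + 1)) := by
      rw [pow_mul, ha3]
      push_cast
      ring
    rw [h2a, ← Real.rpow_natCast, ← Real.rpow_mul ha0.le, ← Real.rpow_natCast]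
    congr 1
    push_cast
    ring
  have hp5 : ∀ m : ℕ, (((2 : ℕ) ^ (m + 1) : ℕ) : ℝ) ^ (5 / 3 : ℝ) = a ^ (5 * (m + 1)) := by
    intro m
    have := hp m 5
    norm_num at this ⊢
    exact this
  have hp17 : ∀ m : ℕ, (((2 : ℕ) ^ (m + 1) : ℕ) : ℝ) ^ (17 / 3 : ℝ) = a ^ (17 * (m + 1)) := by
    intro m
    have := hp m 17
    norm_num at this ⊢
    exact this
  have hl0 : (0 : ℝ) < l := by exact_mod_cast hl
  have ha5 : a ^ 5 ≤ 16 / 5 := by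
    have : a ^ 5 = 2 * a ^ 2 := by
      have : a ^ 5 = a ^ 3 * a ^ 2 := by ring
      rw [this, ha3]
    rw [this]
    nlinarith
  have ha17 : a ^ 17 ≤ 51 := by
    have : a ^ 17 = 32 * a ^ 2 := by
      have : a ^ 17 = (a ^ 3) ^ 5 * a ^ 2 := by ring
      rw [this, ha3]
      norm_num
    rw [this]
    nlinarith
  have ha11 : 25 / 2 ≤ a ^ 11 := by
    have : a ^ 11 = 8 * a ^ 2 := by
      have : a ^ 11 = (a ^ 3) ^ 3 * a ^ 2 := by ring
      rw [this, ha3]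
      norm_num
    rw [this]
    nlinarith
  have ha6 : a ^ 6 = 4 := by
    have : a ^ 6 = (a ^ 3) ^ 2 := by ring
    rw [this, ha3]
    norm_num
  have hQk : (a ^ 11) ^ k ≤ (l : ℝ) ^ 4 := by
    refine le_of_pow_le_pow_left₀ (n := 6) (by norm_num) (by positivity) ?_
    have h1 : ((a ^ 11) ^ k) ^ 6 = (4 : ℝ) ^ (11 * k) := by
      rw [← ha6, ← pow_mul, ← pow_mul, ← pow_mul]
      congr 1
      ring
    have h2 : ((l : ℝ) ^ 4) ^ 6 = (l : ℝ) ^ 24 := by rw [← pow_mul]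
    rw [h1, h2]
    exact_mod_cast hkl
  have hterm : ∀ m ∈ Finset.range k, c (m + 1) * A (m + 1) ≤
      98304 * 4 ^ k * (a ^ 5 * (1 / a) ^ (m + 1) + a ^ 17 / (4 * l ^ 4) * (a ^ 11) ^ (m + 1)) := by
    intro m hm
    have hmk : m + 1 ≤ k := Finset.mem_range.1 hm
    obtain ⟨c1, c2⟩ := hc (m + 1) (by omega) hmk
    have h1 := hA (m + 1) (by omega) hmk
    rw [hp5, hp17] at h1
    have h2 : (0 : ℝ) ≤ 98304 * (a ^ (5 * (m + 1 + 1)) +
        a ^ (17 * (m + 1 + 1)) / ((2 * l ^ 2 : ℕ) : ℝ) ^ 2) := by positivity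
    have h4k : (4 : ℝ) ^ k = 4 ^ (k - (m + 1)) * a ^ (6 * (m + 1)) := by
      rw [pow_mul, ha6, ← pow_add]
      congr 1
      omega
    have e1 : a ^ (6 * (m + 1)) * (a ^ 5 * (1 / a) ^ (m + 1)) = a ^ (5 * (m + 1 + 1)) := by
      rw [one_div, inv_pow]
      have h3 : a ^ (6 * (m + 1)) * a ^ 5 = a ^ (5 * (m + 1 + 1)) * a ^ (m + 1) := by
        rw [← pow_add, ← pow_add]
        congr 1
        ring
      rw [← mul_assoc, h3, mul_inv_cancel_right₀ (by positivity)]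
    have e2 : a ^ (6 * (m + 1)) * (a ^ 17 / (4 * l ^ 4) * (a ^ 11) ^ (m + 1)) =
        a ^ (17 * (m + 1 + 1)) / ((2 * l ^ 2 : ℕ) : ℝ) ^ 2 := by
      have h3 : a ^ (6 * (m + 1)) * a ^ 17 * (a ^ 11) ^ (m + 1) = a ^ (17 * (m + 1 + 1)) := by
        rw [← pow_mul, ← pow_add, ← pow_add]
        congr 1
        ring
      have h4 : (((2 * l ^ 2 : ℕ) : ℝ)) ^ 2 = 4 * (l : ℝ) ^ 4 := by
        push_cast
        ring
      rw [h4, ← h3]
      ring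
    calc c (m + 1) * A (m + 1) ≤ c (m + 1) * (98304 * (a ^ (5 * (m + 1 + 1)) +
        a ^ (17 * (m + 1 + 1)) / ((2 * l ^ 2 : ℕ) : ℝ) ^ 2)) := mul_le_mul_of_nonneg_left h1 c1
      _ ≤ 4 ^ (k - (m + 1)) * (98304 * (a ^ (5 * (m + 1 + 1)) +
        a ^ (17 * (m + 1 + 1)) / ((2 * l ^ 2 : ℕ) : ℝ) ^ 2)) :=
          mul_le_mul_of_nonneg_right c2 h2
      _ = _ := by
          rw [h4k, ← e1, ← e2]
          ring
  have hsum : ∑ m ∈ Finset.range k, c (m + 1) * A (m + 1) ≤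
      98304 * 4 ^ k * (a ^ 5 * 4 + a ^ 17 / (4 * l ^ 4) * (25 / 23 * (a ^ 11) ^ k)) := by
    refine (Finset.sum_le_sum hterm).trans ?_
    rw [← Finset.mul_sum]
    apply mul_le_mul_of_nonneg_left _ (by positivity)
    rw [Finset.sum_add_distrib, ← Finset.mul_sum, ← Finset.mul_sum]
    have g1 := geo_down ha1 k
    have g2 := geo_up ha11 k
    have g3 : (0 : ℝ) < (1 / a) ^ k := by positivity
    have g4 : ∑ m ∈ Finset.range k, (1 / a) ^ (m + 1) ≤ 4 := by linarith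
    exact add_le_add (mul_le_mul_of_nonneg_left g4 (by positivity))
      (mul_le_mul_of_nonneg_left g2 (by positivity))
  have hlast : a ^ 17 / (4 * l ^ 4) * (25 / 23 * (a ^ 11) ^ k) ≤ 14 := by
    have h1 : a ^ 17 / (4 * l ^ 4) * (25 / 23 * (a ^ 11) ^ k) ≤
        51 / (4 * l ^ 4) * (25 / 23 * (l : ℝ) ^ 4) := by
      apply mul_le_mul _ _ (by positivity) (by positivity)
      · exact div_le_div_of_nonneg_right ha17 (by positivity)
      · exact mul_le_mul_of_nonneg_left hQk (by norm_num)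
    have h2 : 51 / (4 * l ^ 4) * (25 / 23 * (l : ℝ) ^ 4) = 1275 / 92 := by
      field_simp
      norm_num
    rw [h2] at h1
    linarith
  rw [Finset.sum_range_succ']
  have h4 : (0 : ℝ) < 4 ^ k := by positivity
  have h5 : 98304 * 4 ^ k * (a ^ 5 * 4 + a ^ 17 / (4 * l ^ 4) * (25 / 23 * (a ^ 11) ^ k)) ≤
      98304 * 4 ^ k * (16 / 5 * 4 + 14) := by
    apply mul_le_mul_of_nonneg_left _ (by positivity)
    linarith
  have h6 : (98304 : ℝ) * 4 ^ k * (16 / 5 * 4 + 14) + 2 * 4 ^ k ≤ 10 ^ 7 * 4 ^ k := by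
    nlinarith
  linarith

end Pool.Agent.MP_f406e2_lc_Q5
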