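import Pool.Agent.Lib.MP_f406e2_lc_Q5.SphereO

/-!
# Q5, module NBoundO: the weighted sum over the points of `ℤ[φ]⁴` on a sphere

Let `S` be a finite set of points `(a, b, c, e)` of `ℤ[φ]⁴` with `a² + b² + c² + e² = R²`
(`R ≥ 1` an integer) and `(b, c, e) ≠ 0`. Then the sum of `(a₁ / R)^(2d)` over `S` is at most
`98304 (R^(5/3) + R^(17/3) / d²)`.

Proof. Put a point into the slice `s = ⌊(R - |a₁|) R⌋`. In the slice `s` one has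
`(a₁ / R)^(2d) ≤ (1 - s/R²)^(2d) ≤ q^s`, `q = exp (-2d/R²)`; there are at most `2 (2 + 2) = 8`
values of `a` (two boxes with sides `1/R` and `2R`), and for each of them the norm of `R² - a²` is
at most `2 (s+1) R²`, so there are at most `3072 · 2 (s+1) R^(5/3)` points (`sphere_le`). The sum
is at most `49152 R^(5/3) ∑ (s+1) q^s ≤ 49152 R^(5/3) / (1-q)²` and `1 - q ≥ 1/(1+x)` with
`x = R²/(2d)`.
-/

set_option autoImplicit false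

open Real

namespace Pool.Agent.MP_f406e2_lc_Q5

private theorem geo_eq (q : ℝ) (K : ℕ) : (1 - q) ^ 2 * ∑ s ∈ Finset.range K, ((s : ℝ) + 1) * q ^ s =
    1 - (K + 1) * q ^ K + K * q ^ (K + 1) := by
  induction K with
  | zero => simp
  | succ K ih =>
    rw [Finset.sum_range_succ, mul_add, ih]
    push_cast
    ring

private theorem geo_le {q : ℝ} (h0 : 0 ≤ q) (h1 : q < 1) (K : ℕ) :
    ∑ s ∈ Finset.range K, ((s : ℝ) + 1) * q ^ s ≤ 1 / (1 - q) ^ 2 := by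
  have h2 : 0 < (1 - q) ^ 2 := by
    have : 0 < 1 - q := by linarith
    positivity
  rw [le_div_iff₀ h2, mul_comm, geo_eq]
  have h3 : (0 : ℝ) ≤ q ^ K := by positivity
  have h4 : q ^ (K + 1) ≤ q ^ K := by
    rw [pow_succ]
    nlinarith
  have h5 : (0 : ℝ) ≤ K := Nat.cast_nonneg _
  nlinarith [mul_le_mul_of_nonneg_left h4 h5]

private theorem q_le {x : ℝ} (hx : 0 < x) :
    Real.exp (-(1 / x)) < 1 ∧ 1 / (1 - Real.exp (-(1 / x))) ^ 2 ≤ 2 + 2 * x ^ 2 := by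
  obtain ⟨q, hq⟩ : ∃ q, q = Real.exp (-(1 / x)) := ⟨_, rfl⟩
  have hq0 : 0 < q := by
    rw [hq]
    exact Real.exp_pos _
  have hx1 : 0 < 1 / x := by positivity
  have h1 : 1 / x + 1 ≤ Real.exp (1 / x) := Real.add_one_le_exp _
  have h2 : q * Real.exp (1 / x) = 1 := by
    rw [hq, ← Real.exp_add, neg_add_cancel, Real.exp_zero]
  have h3 : q * (1 / x + 1) ≤ 1 := (mul_le_mul_of_nonneg_left h1 hq0.le).trans h2.le
  have h4 : q * (1 + x) ≤ x := by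
    have h5 : q * (1 / x + 1) * x = q * (1 + x) := by
      field_simp
    rw [← h5]
    nlinarith
  have h5 : 1 ≤ (1 - q) * (1 + x) := by linarith
  have h6 : 0 < 1 - q := by
    by_contra h7
    nlinarith
  rw [← hq]
  refine ⟨by linarith, ?_⟩
  rw [div_le_iff₀ (by positivity)]
  have h7 : 1 ≤ ((1 - q) * (1 + x)) ^ 2 := by nlinarith
  have h8 : (1 + x) ^ 2 ≤ 2 + 2 * x ^ 2 := by nlinarith [sq_nonneg (1 - x)]
  have h9 : 0 ≤ (1 - q) ^ 2 := sq_nonneg _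
  nlinarith [mul_le_mul_of_nonneg_right h8 h9]

private theorem sq3_zero {x y z : ℝ} (h : x ^ 2 + y ^ 2 + z ^ 2 = 0) : x = 0 ∧ y = 0 ∧ z = 0 := by
  have h1 : x ^ 2 = 0 := by linarith only [h, sq_nonneg x, sq_nonneg y, sq_nonneg z]
  have h2 : y ^ 2 = 0 := by linarith only [h, sq_nonneg x, sq_nonneg y, sq_nonneg z]
  have h3 : z ^ 2 = 0 := by linarith only [h, sq_nonneg x, sq_nonneg y, sq_nonneg z]
  exact ⟨pow_eq_zero_iff (two_ne_zero) |>.1 h1, pow_eq_zero_iff (two_ne_zero) |>.1 h2,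
    pow_eq_zero_iff (two_ne_zero) |>.1 h3⟩

/-- The points of `ℤ[φ]⁴` on the sphere of radius `R` at both places, without `(±R, 0, 0, 0)`. -/
def Pt (R : ℕ) (p : (ℝ × ℝ) × (ℝ × ℝ) × (ℝ × ℝ) × (ℝ × ℝ)) : Prop :=
  p.1 ∈ OO ∧ p.2.1 ∈ OO ∧ p.2.2.1 ∈ OO ∧ p.2.2.2 ∈ OO ∧
    p.1 ^ 2 + p.2.1 ^ 2 + p.2.2.1 ^ 2 + p.2.2.2 ^ 2 = ((R : ℝ) ^ 2, (R : ℝ) ^ 2) ∧ p.2 ≠ 0

/-- The number of the points in a slice. -/
private theorem slice_le {R : ℕ} (hR : 1 ≤ R) (s : ℕ)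
    (Q : Finset ((ℝ × ℝ) × (ℝ × ℝ) × (ℝ × ℝ) × (ℝ × ℝ)))
    (hQ : ∀ p ∈ Q, Pt R p ∧ (R : ℝ) - (s + 1) / R ≤ |p.1.1| ∧ |p.1.1| ≤ R - s / R) :
    (Q.card : ℝ) ≤ 49152 * (s + 1) * (R : ℝ) ^ (5 / 3 : ℝ) := by
  classical
  have hR0 : (0 : ℝ) < R := by exact_mod_cast hR
  have hR1 : (1 : ℝ) ≤ R := by exact_mod_cast hR
  have hs0 : (0 : ℝ) ≤ s := Nat.cast_nonneg s
  have hX : (0 : ℝ) < (R : ℝ) ^ (5 / 3 : ℝ) := Real.rpow_pos_of_pos hR0 _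
  have hc1 : ∀ p ∈ Q, p.1.1 ^ 2 + p.2.1.1 ^ 2 + p.2.2.1.1 ^ 2 + p.2.2.2.1 ^ 2 = (R : ℝ) ^ 2 := by
    intro p hp
    have h := congrArg Prod.fst (hQ p hp).1.2.2.2.2.1
    rwa [Prod.fst_add, Prod.fst_add, Prod.fst_add, Prod.pow_fst, Prod.pow_fst, Prod.pow_fst,
      Prod.pow_fst] at h
  have hc2 : ∀ p ∈ Q, p.1.2 ^ 2 + p.2.1.2 ^ 2 + p.2.2.1.2 ^ 2 + p.2.2.2.2 ^ 2 = (R : ℝ) ^ 2 := by
    intro p hp
    have h := congrArg Prod.snd (hQ p hp).1.2.2.2.2.1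
    rwa [Prod.snd_add, Prod.snd_add, Prod.snd_add, Prod.pow_snd, Prod.pow_snd, Prod.pow_snd,
      Prod.pow_snd] at h
  -- the fibres
  have hfib : ∀ a ∈ Q.image Prod.fst, (Q.filter fun p => p.1 = a).card ≤
      ⌊6144 * (s + 1) * (R : ℝ) ^ (5 / 3 : ℝ)⌋₊ := by
    intro a ha
    apply Nat.le_floor
    obtain ⟨p₀, hp₀, hpa⟩ := Finset.mem_image.1 ha
    have haO : a ∈ OO := hpa ▸ (hQ p₀ hp₀).1.1
    have hRO : (((R : ℝ) ^ 2, (R : ℝ) ^ 2) : ℝ × ℝ) ∈ OO := by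
      have := OO_int ((R : ℤ) ^ 2)
      push_cast at this
      exact this
    obtain ⟨n, hn⟩ : ∃ n : ℝ × ℝ, n = ((R : ℝ) ^ 2, (R : ℝ) ^ 2) - a ^ 2 := ⟨_, rfl⟩
    have hnO : n ∈ OO := hn ▸ OO.sub_mem hRO (OO.pow_mem haO 2)
    have hn1 : n.1 = (R : ℝ) ^ 2 - a.1 ^ 2 := by rw [hn, Prod.fst_sub, Prod.pow_fst]
    have hn2 : n.2 = (R : ℝ) ^ 2 - a.2 ^ 2 := by rw [hn, Prod.snd_sub, Prod.pow_snd]
    have hv : n = p₀.2.1 ^ 2 + p₀.2.2.1 ^ 2 + p₀.2.2.2 ^ 2 := by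
      rw [hn, ← hpa, ← (hQ p₀ hp₀).1.2.2.2.2.1]
      ring
    have hv1 : n.1 = p₀.2.1.1 ^ 2 + p₀.2.2.1.1 ^ 2 + p₀.2.2.2.1 ^ 2 := by
      rw [hv, Prod.fst_add, Prod.fst_add, Prod.pow_fst, Prod.pow_fst, Prod.pow_fst]
    have hv2 : n.2 = p₀.2.1.2 ^ 2 + p₀.2.2.1.2 ^ 2 + p₀.2.2.2.2 ^ 2 := by
      rw [hv, Prod.snd_add, Prod.snd_add, Prod.pow_snd, Prod.pow_snd, Prod.pow_snd]
    have hn1' : 0 ≤ n.1 := by
      rw [hv1]
      positivity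
    have hn2' : 0 ≤ n.2 := by
      rw [hv2]
      positivity
    have hn0 : n ≠ 0 := by
      intro h0
      rw [h0] at hv1
      obtain ⟨z1, z2, z3⟩ := sq3_zero hv1.symm
      obtain ⟨_, g1, g2, g3, _, g4⟩ := (hQ p₀ hp₀).1
      apply g4
      exact Prod.ext (OO_fst g1 z1) (Prod.ext (OO_fst g2 z2) (OO_fst g3 z3))
    have hn1p : 0 < n.1 := hn1'.lt_of_ne fun h => hn0 (OO_fst hnO h.symm)
    have hn2p : 0 < n.2 := hn2'.lt_of_ne fun h => hn0 (OO_snd hnO h.symm)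
    have hinj : Set.InjOn (Prod.snd : (ℝ × ℝ) × (ℝ × ℝ) × (ℝ × ℝ) × (ℝ × ℝ) →
        (ℝ × ℝ) × (ℝ × ℝ) × (ℝ × ℝ)) (Q.filter fun p => p.1 = a) := by
      intro p hp p' hp' h
      have h1 := (Finset.mem_filter.1 hp).2
      have h2 := (Finset.mem_filter.1 hp').2
      exact Prod.ext (h1.trans h2.symm) h
    have hcard := Finset.card_image_of_injOn hinj
    rw [← hcard]
    have hQ2 : ∀ r ∈ (Q.filter fun p => p.1 = a).image
        (Prod.snd : (ℝ × ℝ) × (ℝ × ℝ) × (ℝ × ℝ) × (ℝ × ℝ) → (ℝ × ℝ) × (ℝ × ℝ) × (ℝ × ℝ)),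
        r.1 ∈ OO ∧ r.2.1 ∈ OO ∧ r.2.2 ∈ OO ∧ r.1 ^ 2 + r.2.1 ^ 2 + r.2.2 ^ 2 = n := by
      intro r hr
      obtain ⟨p, hp, hpr⟩ := Finset.mem_image.1 hr
      obtain ⟨hp1, hp2⟩ := Finset.mem_filter.1 hp
      obtain ⟨_, g1, g2, g3, g4, _⟩ := (hQ p hp1).1
      rw [hp2] at g4
      rw [← hpr, hn, ← g4]
      refine ⟨g1, g2, g3, ?_⟩
      ring
    have h4 := sphere_le hnO hn1p hn2p _ hQ2
    have h5 : n.1 * n.2 ≤ 2 * (s + 1) * (R : ℝ) ^ 2 := by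
      obtain ⟨_, g1, g2⟩ := hQ p₀ hp₀
      rw [hpa] at g1 g2
      have g3 : (R : ℝ) - |a.1| ≤ (s + 1) / R := by linarith
      have g4 : (R : ℝ) + |a.1| ≤ 2 * R := by
        have : (0 : ℝ) ≤ s / R := by positivity
        linarith
      have g5 : n.1 ≤ 2 * (s + 1) := by
        have g6 : n.1 = (R - |a.1|) * (R + |a.1|) := by
          rw [hn1, ← sq_abs a.1]
          ring
        rw [g6]
        calc (R - |a.1|) * (R + |a.1|) ≤ (s + 1) / R * (2 * R) :=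
              mul_le_mul g3 g4 (by positivity) (by positivity)
          _ = 2 * (s + 1) := by field_simp
      have g7 : n.2 ≤ (R : ℝ) ^ 2 := by
        rw [hn2]
        linarith only [sq_nonneg a.2]
      exact mul_le_mul g5 g7 hn2' (by positivity)
    have h6 : (n.1 * n.2) ^ (5 / 6 : ℝ) ≤ 2 * (s + 1) * (R : ℝ) ^ (5 / 3 : ℝ) := by
      calc (n.1 * n.2) ^ (5 / 6 : ℝ) ≤ (2 * (s + 1) * (R : ℝ) ^ 2) ^ (5 / 6 : ℝ) :=
            Real.rpow_le_rpow (by positivity) h5 (by norm_num)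
        _ = (2 * ((s : ℝ) + 1)) ^ (5 / 6 : ℝ) * ((R : ℝ) ^ 2) ^ (5 / 6 : ℝ) :=
            Real.mul_rpow (by positivity) (by positivity)
        _ = (2 * ((s : ℝ) + 1)) ^ (5 / 6 : ℝ) * (R : ℝ) ^ (5 / 3 : ℝ) := by
            congr 1
            rw [← Real.rpow_natCast, ← Real.rpow_mul hR0.le]
            norm_num
        _ ≤ (2 * ((s : ℝ) + 1)) ^ (1 : ℝ) * (R : ℝ) ^ (5 / 3 : ℝ) := by
            apply mul_le_mul_of_nonneg_right _ hX.le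
            apply Real.rpow_le_rpow_of_exponent_le (by linarith) (by norm_num)
        _ = 2 * (s + 1) * (R : ℝ) ^ (5 / 3 : ℝ) := by rw [Real.rpow_one]
    linarith only [h4, h6]
  have hmain := Finset.card_le_mul_card_image (f := Prod.fst) Q _ hfib
  -- the first coordinates
  obtain ⟨A, hA⟩ : ∃ A, A = Q.image Prod.fst := ⟨_, rfl⟩
  have hAp : ∀ a ∈ A, a ∈ OO ∧ ((R : ℝ) - (s + 1) / R ≤ |a.1| ∧ |a.1| ≤ R - s / R) ∧
      |a.2| ≤ R := by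
    intro a ha
    rw [hA] at ha
    obtain ⟨p, hp, rfl⟩ := Finset.mem_image.1 ha
    refine ⟨(hQ p hp).1.1, (hQ p hp).2, ?_⟩
    apply abs_le_of_sq_le_sq _ hR0.le
    rw [← hc2 p hp]
    linarith only [sq_nonneg p.2.1.2, sq_nonneg p.2.2.1.2, sq_nonneg p.2.2.2.2]
  have hdiv : ((s : ℝ) + 1) / R = s / R + 1 / R := add_div _ _ _
  have hinv : 0 < 1 / (R : ℝ) := by positivity
  have hLL : 1 / (R : ℝ) * (2 * R) = 2 := by field_simp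
  have hpos : ((A.filter fun a => 0 ≤ a.1).card : ℝ) ≤ 1 / (R : ℝ) * (2 * R) + 2 := by
    refine box_le (a₁ := R - (s + 1) / R) (a₂ := -R) hinv (by positivity) _ ?_
    intro a ha
    obtain ⟨ha1, ha2⟩ := Finset.mem_filter.1 ha
    obtain ⟨g0, ⟨g1, g2⟩, g3⟩ := hAp a ha1
    rw [abs_of_nonneg ha2] at g1 g2
    rw [abs_le] at g3
    refine ⟨g0, ⟨g1, ?_⟩, g3.1, ?_⟩
    · linarith only [g2, hdiv]
    · linarith only [g3.2]
  have hneg : ((A.filter fun a => ¬ 0 ≤ a.1).card : ℝ) ≤ 1 / (R : ℝ) * (2 * R) + 2 := by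
    refine box_le (a₁ := -(R - s / R)) (a₂ := -R) hinv (by positivity) _ ?_
    intro a ha
    obtain ⟨ha1, ha2⟩ := Finset.mem_filter.1 ha
    obtain ⟨g0, ⟨g1, g2⟩, g3⟩ := hAp a ha1
    push Not at ha2
    rw [abs_of_neg ha2] at g1 g2
    rw [abs_le] at g3
    refine ⟨g0, ⟨?_, ?_⟩, g3.1, ?_⟩
    · linarith only [g2]
    · linarith only [g1, hdiv]
    · linarith only [g3.2]
  have hcardA : (A.card : ℝ) ≤ 8 := by
    have h := Finset.card_filter_add_card_filter_not (s := A) (fun a => 0 ≤ a.1)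
    have h' : ((A.filter fun a => 0 ≤ a.1).card : ℝ) + ((A.filter fun a => ¬ 0 ≤ a.1).card : ℝ) =
        A.card := by exact_mod_cast h
    rw [hLL] at hpos hneg
    linarith only [h', hpos, hneg]
  have hfl : (⌊6144 * (s + 1) * (R : ℝ) ^ (5 / 3 : ℝ)⌋₊ : ℝ) ≤
      6144 * (s + 1) * (R : ℝ) ^ (5 / 3 : ℝ) := Nat.floor_le (by positivity)
  have hmain' : (Q.card : ℝ) ≤ (⌊6144 * (s + 1) * (R : ℝ) ^ (5 / 3 : ℝ)⌋₊ : ℝ) *
      (A.card : ℝ) := by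
    rw [hA]
    exact_mod_cast hmain
  calc (Q.card : ℝ) ≤ (⌊6144 * (s + 1) * (R : ℝ) ^ (5 / 3 : ℝ)⌋₊ : ℝ) * (A.card : ℝ) := hmain'
    _ ≤ (6144 * (s + 1) * (R : ℝ) ^ (5 / 3 : ℝ)) * 8 :=
        mul_le_mul hfl hcardA (Nat.cast_nonneg _) (by positivity)
    _ = 49152 * (s + 1) * (R : ℝ) ^ (5 / 3 : ℝ) := by ring

/-- The weighted sum over the points of a sphere. -/
theorem weight_le {R : ℕ} (hR : 1 ≤ R) {d : ℕ} (hd : 1 ≤ d)
    (S : Finset ((ℝ × ℝ) × (ℝ × ℝ) × (ℝ × ℝ) × (ℝ × ℝ))) (hS : ∀ p ∈ S, Pt R p) :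
    ∑ p ∈ S, (p.1.1 / R) ^ (2 * d) ≤
      98304 * ((R : ℝ) ^ (5 / 3 : ℝ) + (R : ℝ) ^ (17 / 3 : ℝ) / d ^ 2) := by
  classical
  have hR0 : (0 : ℝ) < R := by exact_mod_cast hR
  have hd0 : (0 : ℝ) < d := by exact_mod_cast hd
  obtain ⟨x, hx⟩ : ∃ x : ℝ, x = (R : ℝ) ^ 2 / (2 * d) := ⟨_, rfl⟩
  have hx0 : 0 < x := by
    rw [hx]
    positivity
  obtain ⟨q, hq⟩ : ∃ q : ℝ, q = Real.exp (-(1 / x)) := ⟨_, rfl⟩
  obtain ⟨hq1, hq2⟩ := q_le hx0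
  rw [← hq] at hq1 hq2
  have hq0 : 0 < q := by
    rw [hq]
    exact Real.exp_pos _
  have habs : ∀ p ∈ S, |p.1.1| ≤ R := by
    intro p hp
    have h := congrArg Prod.fst (hS p hp).2.2.2.2.1
    rw [Prod.fst_add, Prod.fst_add, Prod.fst_add, Prod.pow_fst, Prod.pow_fst, Prod.pow_fst,
      Prod.pow_fst] at h
    apply abs_le_of_sq_le_sq _ hR0.le
    have h' : p.1.1 ^ 2 + p.2.1.1 ^ 2 + p.2.2.1.1 ^ 2 + p.2.2.2.1 ^ 2 = (R : ℝ) ^ 2 := h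
    linarith only [h', sq_nonneg p.2.1.1, sq_nonneg p.2.2.1.1, sq_nonneg p.2.2.2.1]
  obtain ⟨f, hf⟩ : ∃ f : (ℝ × ℝ) × (ℝ × ℝ) × (ℝ × ℝ) × (ℝ × ℝ) → ℕ,
    f = fun p => ⌊((R : ℝ) - |p.1.1|) * R⌋₊ := ⟨_, rfl⟩
  have hfl : ∀ p ∈ S, (f p : ℝ) ≤ ((R : ℝ) - |p.1.1|) * R ∧
      ((R : ℝ) - |p.1.1|) * R < f p + 1 := by
    intro p hp
    have h1 : 0 ≤ ((R : ℝ) - |p.1.1|) * R :=
      mul_nonneg (by linarith [habs p hp]) hR0.le
    rw [hf]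
    exact ⟨Nat.floor_le h1, Nat.lt_floor_add_one _⟩
  have hmaps : ∀ p ∈ S, f p ∈ Finset.range (R ^ 2 + 1) := by
    intro p hp
    rw [Finset.mem_range, Nat.lt_succ_iff]
    have h1 := (hfl p hp).1
    have h2 : (f p : ℝ) ≤ (R : ℝ) ^ 2 := by
      nlinarith [abs_nonneg p.1.1]
    exact_mod_cast h2
  rw [← Finset.sum_fiberwise_of_maps_to hmaps]
  have hstep : ∀ s ∈ Finset.range (R ^ 2 + 1),
      ∑ p ∈ S.filter (fun p => f p = s), (p.1.1 / R) ^ (2 * d) ≤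
        49152 * (R : ℝ) ^ (5 / 3 : ℝ) * (((s : ℝ) + 1) * q ^ s) := by
    intro s hs
    have hs2 : (s : ℝ) ≤ (R : ℝ) ^ 2 := by
      rw [Finset.mem_range, Nat.lt_succ_iff] at hs
      exact_mod_cast hs
    have hw : ∀ p ∈ S.filter (fun p => f p = s), (p.1.1 / R) ^ (2 * d) ≤ q ^ s := by
      intro p hp
      obtain ⟨hp1, hp2⟩ := Finset.mem_filter.1 hp
      have h1 := (hfl p hp1).1
      rw [hp2] at h1
      have h2 : |p.1.1| / R ≤ 1 - s / (R : ℝ) ^ 2 := by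
        have h3 : (s : ℝ) / R ≤ R - |p.1.1| := (div_le_iff₀ hR0).2 h1
        have h4 : (s : ℝ) / (R : ℝ) ^ 2 = s / R / R := by
          field_simp
        rw [h4, div_le_iff₀ hR0, sub_mul, div_mul_cancel₀ _ hR0.ne', one_mul]
        linarith
      have h3 : 1 - s / (R : ℝ) ^ 2 ≤ Real.exp (-(s / (R : ℝ) ^ 2)) := by
        have := Real.add_one_le_exp (-(s / (R : ℝ) ^ 2))
        linarith
      have h4 : (p.1.1 / R) ^ (2 * d) = (|p.1.1| / R) ^ (2 * d) := by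
        have h5 : (p.1.1 / R) ^ 2 = (|p.1.1| / R) ^ 2 := by rw [div_pow, div_pow, sq_abs]
        rw [pow_mul, pow_mul, h5]
      rw [h4]
      calc (|p.1.1| / R) ^ (2 * d) ≤ Real.exp (-(s / (R : ℝ) ^ 2)) ^ (2 * d) :=
            pow_le_pow_left₀ (by positivity) (h2.trans h3) _
        _ = q ^ s := by
            rw [hq, ← Real.exp_nat_mul, ← Real.exp_nat_mul]
            congr 1
            rw [hx]
            push_cast
            field_simp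
    have hc := slice_le hR s (S.filter (fun p => f p = s)) (by
      intro p hp
      obtain ⟨hp1, hp2⟩ := Finset.mem_filter.1 hp
      obtain ⟨h1, h2⟩ := hfl p hp1
      rw [hp2] at h1 h2
      refine ⟨hS p hp1, ?_, ?_⟩
      · have h3 : (R : ℝ) - |p.1.1| ≤ (s + 1) / R := (le_div_iff₀ hR0).2 h2.le
        linarith
      · have h3 : (s : ℝ) / R ≤ R - |p.1.1| := (div_le_iff₀ hR0).2 h1
        linarith)
    calc ∑ p ∈ S.filter (fun p => f p = s), (p.1.1 / R) ^ (2 * d)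
        ≤ ∑ _p ∈ S.filter (fun p => f p = s), q ^ s := Finset.sum_le_sum hw
      _ = ((S.filter (fun p => f p = s)).card : ℝ) * q ^ s := by
          rw [Finset.sum_const, nsmul_eq_mul]
      _ ≤ (49152 * (s + 1) * (R : ℝ) ^ (5 / 3 : ℝ)) * q ^ s :=
          mul_le_mul_of_nonneg_right hc (by positivity)
      _ = 49152 * (R : ℝ) ^ (5 / 3 : ℝ) * (((s : ℝ) + 1) * q ^ s) := by ring
  refine (Finset.sum_le_sum hstep).trans ?_
  rw [← Finset.mul_sum]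
  have hX : (0 : ℝ) < (R : ℝ) ^ (5 / 3 : ℝ) := Real.rpow_pos_of_pos hR0 _
  have hg := (geo_le hq0.le hq1 (R ^ 2 + 1)).trans hq2
  have hpow : (R : ℝ) ^ (17 / 3 : ℝ) = (R : ℝ) ^ (5 / 3 : ℝ) * (R : ℝ) ^ 4 := by
    rw [← Real.rpow_natCast, ← Real.rpow_add hR0]
    norm_num
  have hx2 : x ^ 2 = (R : ℝ) ^ 4 / d ^ 2 / 4 := by
    rw [hx, div_pow, mul_pow]
    field_simp
    norm_num
  calc 49152 * (R : ℝ) ^ (5 / 3 : ℝ) * ∑ s ∈ Finset.range (R ^ 2 + 1), ((s : ℝ) + 1) * q ^ s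
      ≤ 49152 * (R : ℝ) ^ (5 / 3 : ℝ) * (2 + 2 * x ^ 2) :=
        mul_le_mul_of_nonneg_left hg (by positivity)
    _ ≤ 98304 * ((R : ℝ) ^ (5 / 3 : ℝ) + (R : ℝ) ^ (17 / 3 : ℝ) / d ^ 2) := by
        have h1 : 0 ≤ (R : ℝ) ^ (5 / 3 : ℝ) * ((R : ℝ) ^ 4 / d ^ 2) := by positivity
        have h2 : (R : ℝ) ^ (17 / 3 : ℝ) / d ^ 2 =
            (R : ℝ) ^ (5 / 3 : ℝ) * ((R : ℝ) ^ 4 / d ^ 2) := by
          rw [hpow, mul_div_assoc]
        rw [h2, hx2]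
        linarith only [h1]

end Pool.Agent.MP_f406e2_lc_Q5
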