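import Mathlib
import Pool.Agent.Lib.MP_f406e2_lc_Q5.Quat
import Pool.Agent.Lib.MP_f406e2_lc_Q5.NBoundO
import Pool.Agent.Lib.MP_f406e2_lc_Q5.Words

/-!
# Q5, module QuatO: integrality of the quaternions of the words

`qp l` is the pair (quaternion of the word, conjugate quaternion), as a quaternion over `ℝ × ℝ`.
* `qp_fst`: by induction (projection to the first factor).
* `qp_OO`: `2 qp l` has coordinates in `OO`. Stronger statement for the induction: the coordinates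
  `(a, b, c, e)` of `2 qp l` are in `OO` and for some `α, β ∈ OO`
  `a - (α + φ β)`, `b - (α + β)`, `c - (α + φ² β)`, `e - α` are in `2 OO` (the icosian ring; `φ` stands
  for `(goldenRatio, goldenConj)`). For the empty word `(2, 0, 0, 0)`, `α = β = 0`. This set is
  stable under left multiplication by the quaternions of all `w j`: for `w 0 = (1, 1, 0)` the product
  is `(-b-c, a+e, a-e, c-b)`, to be divided by... (the product `(i + j) q` of `2 q = (a, b, c, e)` gives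
  `2 (i+j) q = (-b-c, a+e, a-e, c-b)`, integral, and congruent to `s (1, 1, 1, 1)`, `s = φ β`,
  because `b + c ≡ (1 + φ²) β ≡ φ β`, `a + e ≡ φ β`). For the other `j` the entries of `w j` are in
  `(1/2) ℤ[φ]`; the product is `(1/2) (2 w j) (a, b, c, e)`; write `a = α + φ β + 2 a'` etc.; each
  coordinate is then a polynomial identity: an explicit element of `OO`, and the congruences hold
  with explicit `α', β'` (a finite computation mod 2, checked by computer).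
* `qp_norm`: multiplicativity.
* `qp_Pt`: `4 · 2^(2j) = (2^(j+1))²`; `(b, c, e) ≠ 0` by `qw_im`.
* `qp_inj`: from `qw_inj` (`qp l` determines `qw l`).
-/

set_option autoImplicit false

noncomputable section

namespace Pool.Agent.MP_f406e2_lc_Q5

open MeasureTheory Real
open Pool.Agent.MP_f406e2_lc_QD (E3 S2 O3 nu mat tr cr)
open scoped InnerProductSpace Quaternion

/-- the axis `w j` with the conjugate coordinates (`x k` = (coordinate, conjugate coordinate)) -/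
def wp (j : Fin 5) : Fin 3 → ℝ × ℝ :=
  ![![(1, 1), (1, 1), (0, 0)],
    ![(1 / 2, 1 / 2), (1 - goldenRatio / 2, 1 - goldenConj / 2),
      (1 / 2 + goldenRatio / 2, 1 / 2 + goldenConj / 2)],
    ![(1 / 2 - goldenRatio / 2, 1 / 2 - goldenConj / 2),
      (1 / 2 - goldenRatio, 1 / 2 - goldenConj), (goldenRatio / 2, goldenConj / 2)],
    ![(1 / 2 - goldenRatio / 2, 1 / 2 - goldenConj / 2),
      (1 / 2 - goldenRatio, 1 / 2 - goldenConj), (-(goldenRatio / 2), -(goldenConj / 2))],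
    ![(1 / 2, 1 / 2), (1 - goldenRatio / 2, 1 - goldenConj / 2),
      (-(1 / 2) - goldenRatio / 2, -(1 / 2) - goldenConj / 2)]] j

/-- the quaternion of a word together with its conjugate -/
def qp (l : List (Fin 5)) : ℍ[ℝ × ℝ] := (l.map fun j => (⟨0, wp j 0, wp j 1, wp j 2⟩ : ℍ[ℝ × ℝ])).prod

/-! ### The tables -/

/-- the coefficients of the new coordinate b -/
private def QuatO_cfB : Fin 5 → Fin 4 → ℤ × ℤ :=
  ![![(0, 1), (2, -1), (2, 0), (0, 0)],
    ![(-1, -1), (2, 0), (1, 0), (-1, -1)],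
    ![(-1, -1), (2, -1), (1, -1), (0, -1)],
    ![(0, 1), (1, -2), (1, -1), (0, 1)],
    ![(1, 2), (1, -2), (1, 0), (1, 1)]]

/-- the coefficients of the new coordinate e -/
private def QuatO_cfE : Fin 5 → Fin 4 → ℤ × ℤ :=
  ![![(0, 1), (0, -1), (0, 0), (2, 0)],
    ![(0, 2), (0, -1), (1, 1), (1, 0)],
    ![(0, 1), (0, 0), (0, 1), (1, -1)],
    ![(-1, 0), (1, 0), (0, -1), (1, -1)],
    ![(-1, 0), (0, 0), (-1, -1), (1, 0)]]

/-- the coefficients of the new a -/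
private def QuatO_cfA : Fin 5 → Fin 4 → ℤ × ℤ :=
  ![![(-1, -1), (0, 0), (0, -1), (-2, 1)],
    ![(1, 1), (-1, -1), (0, 0), (-1, 2)],
    ![(1, 2), (0, -1), (1, 0), (-1, 2)],
    ![(0, 0), (0, 1), (0, 0), (-2, 1)],
    ![(-1, -2), (1, 1), (0, -1), (-2, 0)]]

/-- the coefficients of the new c -/
private def QuatO_cfC : Fin 5 → Fin 4 → ℤ × ℤ :=
  ![![(0, 0), (-1, -1), (0, -1), (0, 1)],
    ![(2, 3), (-1, -2), (1, 0), (1, 2)],
    ![(1, 2), (0, 0), (1, 0), (0, 1)],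
    ![(-1, -2), (1, 2), (0, -1), (-1, -1)],
    ![(-2, -3), (1, 1), (0, -2), (-1, -1)]]

/-- a linear form with coefficients in `ℤ[g]` -/
private def QuatO_lin {A : Type*} [CommRing A] (g : A) (t : Fin 4 → ℤ × ℤ) (v : Fin 4 → A) : A :=
  (((t 0).1 : A) + ((t 0).2 : A) * g) * v 0 + (((t 1).1 : A) + ((t 1).2 : A) * g) * v 1 +
    (((t 2).1 : A) + ((t 2).2 : A) * g) * v 2 + (((t 3).1 : A) + ((t 3).2 : A) * g) * v 3

/-- the axis `w j` for a root `g` of `g² = g + 1` -/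
private def QuatO_wr (g : ℝ) (j : Fin 5) : Fin 3 → ℝ :=
  ![![1, 1, 0],
    ![1 / 2, 1 - g / 2, 1 / 2 + g / 2],
    ![1 / 2 - g / 2, 1 / 2 - g, g / 2],
    ![1 / 2 - g / 2, 1 / 2 - g, -(g / 2)],
    ![1 / 2, 1 - g / 2, -(1 / 2) - g / 2]] j

private lemma QuatO_wp (j : Fin 5) (k : Fin 3) :
    wp j k = (QuatO_wr goldenRatio j k, QuatO_wr goldenConj j k) := by
  fin_cases j <;> fin_cases k <;> rfl

private lemma QuatO_key (g : ℝ) (hg : g ^ 2 = g + 1) (j : Fin 5) (v : Fin 4 → ℝ) :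
    QuatO_wr g j 0 * (v 1 + g * (v 0 - v 1) + 2 * v 2) + QuatO_wr g j 1 * v 1 -
      QuatO_wr g j 2 * (v 1 + (g + 1) * (v 0 - v 1) + 2 * v 3) = QuatO_lin g (QuatO_cfB j) v ∧
    QuatO_wr g j 0 * (v 1 + (g + 1) * (v 0 - v 1) + 2 * v 3) - QuatO_wr g j 1 * v 0 +
      QuatO_wr g j 2 * (v 1 + g * (v 0 - v 1) + 2 * v 2) = QuatO_lin g (QuatO_cfE j) v ∧
    -(QuatO_wr g j 0) * v 0 - QuatO_wr g j 1 * (v 1 + (g + 1) * (v 0 - v 1) + 2 * v 3) -
      QuatO_wr g j 2 * v 1 = QuatO_lin g (QuatO_cfE j) v +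
        g * (QuatO_lin g (QuatO_cfB j) v - QuatO_lin g (QuatO_cfE j) v) +
        2 * QuatO_lin g (QuatO_cfA j) v ∧
    QuatO_wr g j 1 * (v 1 + g * (v 0 - v 1) + 2 * v 2) - QuatO_wr g j 0 * v 1 +
      QuatO_wr g j 2 * v 0 = QuatO_lin g (QuatO_cfE j) v +
        (g + 1) * (QuatO_lin g (QuatO_cfB j) v - QuatO_lin g (QuatO_cfE j) v) +
        2 * QuatO_lin g (QuatO_cfC j) v := by
  obtain ⟨b, hb⟩ : ∃ b, b = v 0 := ⟨_, rfl⟩
  obtain ⟨e, he⟩ : ∃ e, e = v 1 := ⟨_, rfl⟩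
  obtain ⟨a, ha⟩ : ∃ a, a = v 2 := ⟨_, rfl⟩
  obtain ⟨c, hc⟩ : ∃ c, c = v 3 := ⟨_, rfl⟩
  simp only [QuatO_lin, ← hb, ← he, ← ha, ← hc]
  have h0 : b * g ^ 2 = b * g + b := by rw [hg]; ring
  have h1 : e * g ^ 2 = e * g + e := by rw [hg]; ring
  have h2 : a * g ^ 2 = a * g + a := by rw [hg]; ring
  have h3 : c * g ^ 2 = c * g + c := by rw [hg]; ring
  fin_cases j <;>
    simp [QuatO_wr, QuatO_cfB, QuatO_cfE, QuatO_cfA, QuatO_cfC] <;>
    refine ⟨?_, ?_, ?_, ?_⟩ <;> linarith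

private lemma QuatO_norm (g : ℝ) (hg : g ^ 2 = g + 1) (j : Fin 5) :
    QuatO_wr g j 0 ^ 2 + QuatO_wr g j 1 ^ 2 + QuatO_wr g j 2 ^ 2 = 2 := by
  fin_cases j <;> simp [QuatO_wr] <;> linarith

/-- the golden ratio and its conjugate -/
private def QuatO_ph : ℝ × ℝ := (goldenRatio, goldenConj)

private lemma QuatO_ph_fst : QuatO_ph.1 = goldenRatio := rfl

private lemma QuatO_ph_snd : QuatO_ph.2 = goldenConj := rfl

private lemma QuatO_ph_mem : QuatO_ph ∈ OO := ⟨0, 1, by simp [QuatO_ph], by simp [QuatO_ph]⟩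

private lemma QuatO_lin_mem (t : Fin 4 → ℤ × ℤ) (v : Fin 4 → ℝ × ℝ) (hv : ∀ k, v k ∈ OO) :
    QuatO_lin QuatO_ph t v ∈ OO := by
  have h : ∀ k, (((t k).1 : ℝ × ℝ) + ((t k).2 : ℝ × ℝ) * QuatO_ph) * v k ∈ OO := fun k =>
    OO.mul_mem (OO.add_mem (intCast_mem OO _) (OO.mul_mem (intCast_mem OO _) QuatO_ph_mem)) (hv k)
  exact OO.add_mem (OO.add_mem (OO.add_mem (h 0) (h 1)) (h 2)) (h 3)

private lemma QuatO_lin_fst (t : Fin 4 → ℤ × ℤ) (v : Fin 4 → ℝ × ℝ) :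
    (QuatO_lin QuatO_ph t v).1 = QuatO_lin goldenRatio t fun k => (v k).1 := by
  simp [QuatO_lin, QuatO_ph]

private lemma QuatO_lin_snd (t : Fin 4 → ℤ × ℤ) (v : Fin 4 → ℝ × ℝ) :
    (QuatO_lin QuatO_ph t v).2 = QuatO_lin goldenConj t fun k => (v k).2 := by
  simp [QuatO_lin, QuatO_ph]

/-- the pure quaternion of the axis `w j` with its conjugate -/
private def QuatO_v (j : Fin 5) : ℍ[ℝ × ℝ] := ⟨0, wp j 0, wp j 1, wp j 2⟩

private lemma QuatO_v_re (j : Fin 5) : (QuatO_v j).re = 0 := rfl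

private lemma QuatO_v_I (j : Fin 5) : (QuatO_v j).imI = wp j 0 := rfl

private lemma QuatO_v_J (j : Fin 5) : (QuatO_v j).imJ = wp j 1 := rfl

private lemma QuatO_v_K (j : Fin 5) : (QuatO_v j).imK = wp j 2 := rfl

/-- twice the quaternion is in the icosian ring; `v = (b, e, a', c')` -/
private def QuatO_Ico (q : ℍ[ℝ × ℝ]) (v : Fin 4 → ℝ × ℝ) : Prop :=
  2 * q.imI = v 0 ∧ 2 * q.imK = v 1 ∧
    2 * q.re = v 1 + QuatO_ph * (v 0 - v 1) + 2 * v 2 ∧
    2 * q.imJ = v 1 + (QuatO_ph + 1) * (v 0 - v 1) + 2 * v 3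

private lemma QuatO_step (j : Fin 5) (q : ℍ[ℝ × ℝ]) (v : Fin 4 → ℝ × ℝ) (hv : ∀ k, v k ∈ OO)
    (hq : QuatO_Ico q v) : ∃ v' : Fin 4 → ℝ × ℝ, (∀ k, v' k ∈ OO) ∧
      QuatO_Ico (QuatO_v j * q) v' := by
  obtain ⟨h1, h2, h3, h4⟩ := hq
  refine ⟨![QuatO_lin QuatO_ph (QuatO_cfB j) v, QuatO_lin QuatO_ph (QuatO_cfE j) v,
    QuatO_lin QuatO_ph (QuatO_cfA j) v, QuatO_lin QuatO_ph (QuatO_cfC j) v], ?_, ?_⟩
  · intro k
    fin_cases k <;> exact QuatO_lin_mem _ v hv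
  · have k1 := QuatO_key goldenRatio goldenRatio_sq j fun k => (v k).1
    have k2 := QuatO_key goldenConj goldenConj_sq j fun k => (v k).2
    have f1 := congrArg Prod.fst h1
    have f2 := congrArg Prod.fst h2
    have f3 := congrArg Prod.fst h3
    have f4 := congrArg Prod.fst h4
    have s1 := congrArg Prod.snd h1
    have s2 := congrArg Prod.snd h2
    have s3 := congrArg Prod.snd h3
    have s4 := congrArg Prod.snd h4
    simp only [Prod.fst_mul, Prod.fst_add, Prod.fst_sub, Prod.fst_ofNat, Prod.fst_one,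
      QuatO_ph] at f1 f2 f3 f4
    simp only [Prod.snd_mul, Prod.snd_add, Prod.snd_sub, Prod.snd_ofNat, Prod.snd_one,
      QuatO_ph] at s1 s2 s3 s4
    refine ⟨Prod.ext ?_ ?_, Prod.ext ?_ ?_, Prod.ext ?_ ?_, Prod.ext ?_ ?_⟩ <;>
      simp only [Quaternion.re_mul, Quaternion.imI_mul, Quaternion.imJ_mul, Quaternion.imK_mul,
        QuatO_v_re, QuatO_v_I, QuatO_v_J, QuatO_v_K, QuatO_wp, Prod.fst_mul, Prod.fst_add, Prod.fst_sub, Prod.fst_ofNat, Prod.fst_one,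
        Prod.fst_zero, Prod.snd_mul, Prod.snd_add, Prod.snd_sub, Prod.snd_ofNat, Prod.snd_one,
        Prod.snd_zero, Matrix.cons_val_zero, Matrix.cons_val_one, Matrix.cons_val,
        QuatO_lin_fst, QuatO_lin_snd, QuatO_ph_fst, QuatO_ph_snd]
    · linear_combination k1.1 + QuatO_wr goldenRatio j 0 * f3 + QuatO_wr goldenRatio j 1 * f2 -
        QuatO_wr goldenRatio j 2 * f4
    · linear_combination k2.1 + QuatO_wr goldenConj j 0 * s3 + QuatO_wr goldenConj j 1 * s2 -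
        QuatO_wr goldenConj j 2 * s4
    · linear_combination k1.2.1 + QuatO_wr goldenRatio j 0 * f4 - QuatO_wr goldenRatio j 1 * f1 +
        QuatO_wr goldenRatio j 2 * f3
    · linear_combination k2.2.1 + QuatO_wr goldenConj j 0 * s4 - QuatO_wr goldenConj j 1 * s1 +
        QuatO_wr goldenConj j 2 * s3
    · linear_combination k1.2.2.1 - QuatO_wr goldenRatio j 0 * f1 -
        QuatO_wr goldenRatio j 1 * f4 - QuatO_wr goldenRatio j 2 * f2
    · linear_combination k2.2.2.1 - QuatO_wr goldenConj j 0 * s1 -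
        QuatO_wr goldenConj j 1 * s4 - QuatO_wr goldenConj j 2 * s2
    · linear_combination k1.2.2.2 + QuatO_wr goldenRatio j 1 * f3 -
        QuatO_wr goldenRatio j 0 * f2 + QuatO_wr goldenRatio j 2 * f1
    · linear_combination k2.2.2.2 + QuatO_wr goldenConj j 1 * s3 -
        QuatO_wr goldenConj j 0 * s2 + QuatO_wr goldenConj j 2 * s1

private lemma QuatO_cons (j : Fin 5) (l : List (Fin 5)) :
    qp (j :: l) = QuatO_v j * qp l := rfl

private lemma QuatO_qw_cons (j : Fin 5) (l : List (Fin 5)) : qw (j :: l) = qv (w j) * qw l := rfl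

private lemma QuatO_w (j : Fin 5) (k : Fin 3) : w j k = (wp j k).1 := by
  fin_cases j <;> fin_cases k <;> rfl

private lemma QuatO_ico (l : List (Fin 5)) : ∃ v : Fin 4 → ℝ × ℝ, (∀ k, v k ∈ OO) ∧
    QuatO_Ico (qp l) v := by
  induction l with
  | nil =>
    refine ⟨![0, 0, 1, 0], ?_, ?_⟩
    · intro k
      fin_cases k
      · exact OO.zero_mem
      · exact OO.zero_mem
      · exact OO.one_mem
      · exact OO.zero_mem
    · have h : qp [] = 1 := rfl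
      rw [h]
      refine ⟨?_, ?_, ?_, ?_⟩ <;> simp
  | cons j l ih =>
    obtain ⟨v, hv, hq⟩ := ih
    rw [QuatO_cons]
    exact QuatO_step j (qp l) v hv hq

lemma qp_fst (l : List (Fin 5)) : (qp l).re.1 = (qw l).re ∧ (qp l).imI.1 = (qw l).imI ∧
    (qp l).imJ.1 = (qw l).imJ ∧ (qp l).imK.1 = (qw l).imK := by
  induction l with
  | nil =>
    have h : qp [] = 1 := rfl
    have h' : qw [] = 1 := rfl
    rw [h, h']
    simp
  | cons j l ih =>
    obtain ⟨h1, h2, h3, h4⟩ := ih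
    rw [QuatO_cons, QuatO_qw_cons]
    simp only [Quaternion.re_mul, Quaternion.imI_mul, Quaternion.imJ_mul, Quaternion.imK_mul,
      QuatO_v_re, QuatO_v_I, QuatO_v_J, QuatO_v_K, Prod.fst_mul, Prod.fst_add, Prod.fst_sub, Prod.fst_zero, h1, h2, h3, h4, qv, QuatO_w]
    exact ⟨trivial, trivial, trivial, trivial⟩

theorem qp_OO (l : List (Fin 5)) : 2 * (qp l).re ∈ OO ∧ 2 * (qp l).imI ∈ OO ∧
    2 * (qp l).imJ ∈ OO ∧ 2 * (qp l).imK ∈ OO := by
  obtain ⟨v, hv, h1, h2, h3, h4⟩ := QuatO_ico l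
  have h5 : (2 : ℝ × ℝ) ∈ OO := by
    have := intCast_mem OO 2
    simpa using this
  refine ⟨?_, ?_, ?_, ?_⟩
  · rw [h3]
    exact OO.add_mem (OO.add_mem (hv 1) (OO.mul_mem QuatO_ph_mem (OO.sub_mem (hv 0) (hv 1))))
      (OO.mul_mem h5 (hv 2))
  · rw [h1]
    exact hv 0
  · rw [h4]
    exact OO.add_mem (OO.add_mem (hv 1) (OO.mul_mem (OO.add_mem QuatO_ph_mem OO.one_mem)
      (OO.sub_mem (hv 0) (hv 1)))) (OO.mul_mem h5 (hv 3))
  · rw [h2]
    exact hv 1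

private lemma QuatO_wp_norm (j : Fin 5) : wp j 0 ^ 2 + wp j 1 ^ 2 + wp j 2 ^ 2 = 2 := by
  rw [QuatO_wp, QuatO_wp, QuatO_wp]
  apply Prod.ext
  · simpa using QuatO_norm goldenRatio goldenRatio_sq j
  · simpa using QuatO_norm goldenConj goldenConj_sq j

theorem qp_norm (l : List (Fin 5)) : (qp l).re ^ 2 + (qp l).imI ^ 2 + (qp l).imJ ^ 2 +
    (qp l).imK ^ 2 = ((2 : ℝ) ^ l.length, (2 : ℝ) ^ l.length) := by
  induction l with
  | nil =>
    have h : qp [] = 1 := rfl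
    rw [h]
    apply Prod.ext <;> simp
  | cons j l ih =>
    rw [QuatO_cons]
    have h1 := QuatO_wp_norm j
    have h2 : (((2 : ℝ) ^ (j :: l).length, (2 : ℝ) ^ (j :: l).length) : ℝ × ℝ) =
        2 * ((2 : ℝ) ^ l.length, (2 : ℝ) ^ l.length) := by
      apply Prod.ext <;> simp [pow_succ] <;> ring
    rw [h2, ← ih, ← h1]
    simp only [Quaternion.re_mul, Quaternion.imI_mul, Quaternion.imJ_mul, Quaternion.imK_mul,
      QuatO_v_re, QuatO_v_I, QuatO_v_J, QuatO_v_K]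
    ring

/-- the lattice point of a word -/
def pt (l : List (Fin 5)) : (ℝ × ℝ) × (ℝ × ℝ) × (ℝ × ℝ) × (ℝ × ℝ) :=
  (2 * (qp l).re, 2 * (qp l).imI, 2 * (qp l).imJ, 2 * (qp l).imK)

private lemma QuatO_two {x y : ℝ × ℝ} (h : 2 * x = 2 * y) : x = y := by
  apply Prod.ext
  · have := congrArg Prod.fst h
    simpa using this
  · have := congrArg Prod.snd h
    simpa using this

theorem pt_Pt (j : ℕ) (hj : 1 ≤ j) (l : List (Fin 5)) (hl : l ∈ W (2 * j)) :
    Pt (2 ^ (j + 1)) (pt l) := by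
  obtain ⟨hlen, hred⟩ := (mem_W _ _).1 hl
  obtain ⟨h1, h2, h3, h4⟩ := qp_OO l
  refine ⟨h1, h2, h3, h4, ?_, ?_⟩
  · have h5 := qp_norm l
    have h6 : (2 * (qp l).re) ^ 2 + (2 * (qp l).imI) ^ 2 + (2 * (qp l).imJ) ^ 2 +
        (2 * (qp l).imK) ^ 2 = 4 * ((2 : ℝ) ^ l.length, (2 : ℝ) ^ l.length) := by
      rw [← h5]
      ring
    change (2 * (qp l).re) ^ 2 + (2 * (qp l).imI) ^ 2 + (2 * (qp l).imJ) ^ 2 +
        (2 * (qp l).imK) ^ 2 = _
    rw [h6, hlen]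
    apply Prod.ext <;> simp <;> ring
  · intro h5
    have h6 : 2 * (qp l).imI = 2 * 0 ∧ 2 * (qp l).imJ = 2 * 0 ∧ 2 * (qp l).imK = 2 * 0 := by
      have h7 := congrArg Prod.fst h5
      have h8 := congrArg (fun p => p.2.1) h5
      have h9 := congrArg (fun p => p.2.2) h5
      exact ⟨by rw [mul_zero]; exact h7, by rw [mul_zero]; exact h8, by rw [mul_zero]; exact h9⟩
    obtain ⟨f1, f2, f3, f4⟩ := qp_fst l
    refine qw_im l hred ?_ ⟨?_, ?_, ?_⟩
    · rintro rfl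
      simp at hlen
      omega
    · rw [← f2, QuatO_two h6.1]
      rfl
    · rw [← f3, QuatO_two h6.2.1]
      rfl
    · rw [← f4, QuatO_two h6.2.2]
      rfl

theorem pt_inj (l l' : List (Fin 5)) (hl : RedW l) (hl' : RedW l') (hp : pt l = pt l') :
    l = l' := by
  have h1 := QuatO_two (congrArg Prod.fst hp)
  have h2 := QuatO_two (congrArg (fun p => p.2.1) hp)
  have h3 := QuatO_two (congrArg (fun p => p.2.2.1) hp)
  have h4 := QuatO_two (congrArg (fun p => p.2.2.2) hp)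
  obtain ⟨f1, f2, f3, f4⟩ := qp_fst l
  obtain ⟨g1, g2, g3, g4⟩ := qp_fst l'
  refine qw_inj l l' hl hl' (Or.inl ?_)
  refine Quaternion.ext _ _ ?_ ?_ ?_ ?_
  · rw [← f1, ← g1, h1]
  · rw [← f2, ← g2, h2]
  · rw [← f3, ← g3, h3]
  · rw [← f4, ← g4, h4]

end Pool.Agent.MP_f406e2_lc_Q5
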