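import Mathlib
import Pool.Agent.Lib.MP_f406e2_lc_Q5.QuatO
import Pool.Agent.Lib.MP_f406e2_lc_Q5.Words

/-!
# Q5, module WBound: the sum over the words of length `2 j`

`weight_le` (module `NBoundO`) for the image of `W (2 j)` under `pt` (`pt_Pt`, `pt_inj`), `R =
2^(j+1)`:
`((tr (wd l) + 1) / 4) ^ d = ((qw l).re² / 4^j) ^ d = ((pt l).1.1 / R) ^ (2 d)` by `tr_wd`,
`qp_fst`.
-/

set_option autoImplicit false

noncomputable section

namespace Pool.Agent.MP_f406e2_lc_Q5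

open MeasureTheory Real
open Pool.Agent.MP_f406e2_lc_QD (E3 S2 O3 nu mat tr cr)

theorem N_bound (j d : ℕ) (hj : 1 ≤ j) (hd : 1 ≤ d) :
    ∑ l ∈ W (2 * j), ((tr (wd l) + 1) / 4) ^ d ≤
      98304 * (((2 : ℝ) ^ (j + 1)) ^ (5 / 3 : ℝ) +
        ((2 : ℝ) ^ (j + 1)) ^ (17 / 3 : ℝ) / (d : ℝ) ^ 2) := by
  classical
  have hinj : Set.InjOn pt (W (2 * j)) := by
    intro l hl l' hl' h
    rw [Finset.mem_coe, mem_W] at hl hl'
    exact pt_inj l l' hl.2 hl'.2 h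
  have hS : ∀ p ∈ (W (2 * j)).image pt, Pt (2 ^ (j + 1)) p := by
    intro p hp
    obtain ⟨l, hl, rfl⟩ := Finset.mem_image.1 hp
    exact pt_Pt j hj l hl
  have h1 := weight_le (R := 2 ^ (j + 1)) Nat.one_le_two_pow hd ((W (2 * j)).image pt) hS
  rw [Finset.sum_image hinj] at h1
  have h2 : ∑ l ∈ W (2 * j), ((tr (wd l) + 1) / 4) ^ d =
      ∑ l ∈ W (2 * j), ((pt l).1.1 / ((2 ^ (j + 1) : ℕ) : ℝ)) ^ (2 * d) := by
    refine Finset.sum_congr rfl fun l hl => ?_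
    rw [mem_W] at hl
    rw [tr_wd, hl.1]
    have h3 : (pt l).1.1 = 2 * (qw l).re := by
      have h4 : (pt l).1.1 = 2 * (qp l).re.1 := rfl
      rw [h4, (qp_fst l).1]
    have h5 : ∀ a : ℝ, (a ^ 2 / 2 ^ (2 * j)) ^ d =
        (2 * a / ((2 ^ (j + 1) : ℕ) : ℝ)) ^ (2 * d) := by
      intro a
      rw [pow_mul (2 * a / ((2 ^ (j + 1) : ℕ) : ℝ)) 2 d]
      congr 1
      push_cast
      rw [div_pow, mul_pow, pow_succ (2 : ℝ) j, mul_pow, ← pow_mul, mul_comm j 2]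
      field_simp
    rw [h3]
    exact h5 _
  rw [h2]
  refine h1.trans (le_of_eq ?_)
  push_cast
  rfl

end Pool.Agent.MP_f406e2_lc_Q5
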