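import Mathlib
import Pool.Agent.Lib.MP_f406e2_lc_Q5.WBound
import Pool.Agent.Lib.MP_f406e2_lc_Q5.PPoly
import Pool.Agent.Lib.MP_f406e2_lc_Q5.SNum

/-!
# Q5, module SBound: the weighted sum

With `d = 2 l²` and `4^(11k) ≤ l^24`, i.e. `4^(11k/6) ≤ l⁴`: by `cc_zero_le`, `cc_le`,
`N_bound` the sum is at most (the summand `m = 0`: `W 0 = {[]}`, `wd [] = 1`, `tr 1 = 3`)
`2·4^k + ∑_{m=1}^{k} 4^(k-m) · 98304 (3.2 · 4^(5m/6) + 51 · 4^(17m/6)/(4 l⁴))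
= 4^k (2 + 314573 ∑_{m=1}^{k} 4^(-m/6) + (1253376/l⁴) ∑_{m=1}^{k} 4^(11m/6))`,
`∑ 4^(-m/6) ≤ 1/(4^(1/6) - 1) ≤ 4` (`4^(1/6) ≥ 5/4`), `∑_{m≤k} q^m ≤ q^k q/(q-1) ≤ (7/6) q^k` for
`q = 4^(11/6) ≥ 12`; total `≤ 4^k (2 + 1258292 + 1462272) ≤ 10^7 · 4^k`.
-/

set_option autoImplicit false

noncomputable section

namespace Pool.Agent.MP_f406e2_lc_Q5

open Pool.Agent.MP_f406e2_lc_QD (tr)

private lemma tr_one' : tr 1 = 3 := by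
  have h1 : Pool.Agent.MP_f406e2_lc_QD.mat 1 = 1 := by
    ext i j
    simp only [Pool.Agent.MP_f406e2_lc_QD.mat, LinearIsometryEquiv.coe_one, id_eq,
      PiLp.single_apply, Matrix.one_apply]
  rw [tr, h1, Matrix.trace_one]
  simp

theorem S_bound (k l : ℕ) (hk : 1 ≤ k) (hl : 1 ≤ l) (hkl : 4 ^ (11 * k) ≤ l ^ 24) :
    ∑ m ∈ Finset.range (k + 1), cc k m * ∑ z ∈ W (2 * m), ((tr (wd z) + 1) / 4) ^ (2 * l ^ 2) ≤
      10 ^ 7 * 4 ^ k := by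
  refine s_num hl hkl (cc k)
    (fun m => ∑ z ∈ W (2 * m), ((tr (wd z) + 1) / 4) ^ (2 * l ^ 2)) ?_ ?_ ?_
  · have h1 : ∑ z ∈ W (2 * 0), ((tr (wd z) + 1) / 4) ^ (2 * l ^ 2) = 1 := by
      rw [mul_zero]
      simp only [W, Finset.sum_singleton, wd_nil, tr_one']
      norm_num
    simp only [h1, mul_one]
    exact cc_zero_le k hk
  · intro m hm hmk
    exact ⟨cc_nonneg k m, cc_le k m hm hmk⟩
  · intro m hm _
    have h2 := N_bound m (2 * l ^ 2) hm (by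
      have : 1 ≤ l ^ 2 := Nat.one_le_pow _ _ hl
      omega)
    refine h2.trans (le_of_eq ?_)
    push_cast
    rfl

end Pool.Agent.MP_f406e2_lc_Q5
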