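import Mathlib
import Pool.Agent.Lib.MP_f406e2_lc_Q5.EigT
import Pool.Agent.Lib.MP_f406e2_lc_Q5.SBound
import Pool.Agent.Lib.MP_f406e2_lc_Q5.PGrow
import Pool.Agent.Lib.MP_f406e2_lc_QD.ChebL

/-!
# Q5, module EigLarge: the eigenvalues on forms of large degree

As `QD.EigLarge`.
(2) `sum_tt`: by `chi_wd` and `QD.pow_eq`.
(3) `eig_large`: let `l ≥ 1`, `f ∈ VH l` with `Top l f`, `TT f = c f`, `f ≠ 0` and suppose
`|c| > 243/50`. For every `k ≥ 1` with `4^(11k) ≤ l^24`, by `tt_ge`, (2) with `d = 2 l²`,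
`QD.cb_lower`, `S_bound`, `pp_growth`: `(19/5)^(2k) ≤ 12 l² · 10^7 · 4^k`. Choose `k` maximal, so
`l^24 < 4^(11(k+1))`, and `(361/25)^(12k) ≤ (12 · 10^7)^12 l^24 4^(12k) ≤ C · 4^(23k)` with
`C = (12 · 10^7)^12 · 4^11`. Since `(361/25)^12 > 4^23` (the quotient is `1.168..`), this bounds `k`,
hence `l`. (There is `k₀` with `C · 4^(23k) < (361/25)^(12k)` for `k ≥ k₀`, by
`tendsto_pow_atTop_atTop_of_one_lt`; if `l^24 ≥ 4^(11(k₀+1))` then the maximal `k` is `≥ k₀`.)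
-/

set_option autoImplicit false

noncomputable section

namespace Pool.Agent.MP_f406e2_lc_Q5

open Pool.Agent.MP_f406e2_lc_QD (L2 UU VH chi Top tr cb)

theorem sum_tt (d k : ℕ) :
    ∑ m ∈ Finset.range (k + 1), cc k m * ∑ z ∈ W (2 * m), ((tr (wd z) + 1) / 4) ^ d =
      ∑ n ∈ Finset.range (d + 1), cb d n * tt n k := by
  have h1 : ∀ z : List (Fin 5), ((tr (wd z) + 1) / 4) ^ d =
      ∑ n ∈ Finset.range (d + 1), cb d n * chi n (wd z) := by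
    intro z
    rw [Pool.Agent.MP_f406e2_lc_QD.pow_eq]
    refine Finset.sum_congr rfl fun n _ => ?_
    rw [chi_wd]
  calc ∑ m ∈ Finset.range (k + 1), cc k m * ∑ z ∈ W (2 * m), ((tr (wd z) + 1) / 4) ^ d
      = ∑ m ∈ Finset.range (k + 1), ∑ n ∈ Finset.range (d + 1),
          cb d n * (cc k m * ∑ z ∈ W (2 * m), chi n (wd z)) := by
        refine Finset.sum_congr rfl fun m _ => ?_
        rw [Finset.sum_congr rfl fun z _ => h1 z, Finset.sum_comm, Finset.mul_sum]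
        refine Finset.sum_congr rfl fun n _ => ?_
        rw [← Finset.mul_sum]
        ring
    _ = ∑ n ∈ Finset.range (d + 1), cb d n * tt n k := by
        rw [Finset.sum_comm]
        refine Finset.sum_congr rfl fun n _ => ?_
        rw [← Finset.mul_sum]
        rfl

private lemma eigLarge_key (l k : ℕ) (hl : 1 ≤ l) (hk : 1 ≤ k) (hkl : 4 ^ (11 * k) ≤ l ^ 24)
    (f : L2) (hf : f ∈ VH l) (hf0 : f ≠ 0) (htop : Top l f) (c : ℝ) (hc : TT f = c • f)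
    (hc2 : 243 / 50 ≤ |c|) :
    (361 / 25 : ℝ) ^ k ≤ 12 * 10 ^ 7 * (l : ℝ) ^ 2 * 4 ^ k := by
  have h1 : (361 / 25 : ℝ) ^ k ≤ tt l k := by
    refine le_trans ?_ (tt_ge l k hk f hf hf0 htop c hc)
    have h2 := pp_growth c hc2 k
    calc (361 / 25 : ℝ) ^ k = ((19 / 5 : ℝ) ^ k) ^ 2 := by
          rw [← pow_mul, mul_comm, pow_mul]
          norm_num
      _ ≤ |(pp k).eval c| ^ 2 := by
          apply pow_le_pow_left₀ (by positivity) h2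
      _ = ((pp k).eval c) ^ 2 := sq_abs _
  have h3 : cb (2 * l ^ 2) l * tt l k ≤ 10 ^ 7 * 4 ^ k := by
    refine le_trans ?_ (S_bound k l hk hl hkl)
    rw [sum_tt]
    have hmem : l ∈ Finset.range (2 * l ^ 2 + 1) := by
      rw [Finset.mem_range]
      nlinarith
    exact Finset.single_le_sum (f := fun n => cb (2 * l ^ 2) n * tt n k)
      (fun n _ => mul_nonneg (Pool.Agent.MP_f406e2_lc_QD.cb_nonneg _ _) (tt_nonneg n k hk)) hmem
  have h4 := Pool.Agent.MP_f406e2_lc_QD.cb_lower l hl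
  have hl0 : (0 : ℝ) < (l : ℝ) ^ 2 := by
    have : (1 : ℝ) ≤ l := by exact_mod_cast hl
    positivity
  have h5 : 1 / (12 * (l : ℝ) ^ 2) * tt l k ≤ 10 ^ 7 * 4 ^ k :=
    le_trans (mul_le_mul_of_nonneg_right h4 (tt_nonneg l k hk)) h3
  have h6 : tt l k ≤ 12 * 10 ^ 7 * (l : ℝ) ^ 2 * 4 ^ k := by
    have h7 : tt l k = 12 * (l : ℝ) ^ 2 * (1 / (12 * (l : ℝ) ^ 2) * tt l k) := by
      field_simp
    rw [h7]
    calc 12 * (l : ℝ) ^ 2 * (1 / (12 * (l : ℝ) ^ 2) * tt l k)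
        ≤ 12 * (l : ℝ) ^ 2 * (10 ^ 7 * 4 ^ k) := mul_le_mul_of_nonneg_left h5 (by positivity)
      _ = 12 * 10 ^ 7 * (l : ℝ) ^ 2 * 4 ^ k := by ring
  exact h1.trans h6

private lemma eigLarge_k0 : ∃ k₀ : ℕ, ∀ k ≥ k₀,
    (12 * 10 ^ 7 : ℝ) ^ 12 * 4 ^ 11 * 4 ^ (23 * k) < (361 / 25) ^ (12 * k) := by
  have hq : (1 : ℝ) < (361 / 25) ^ 12 / 4 ^ 23 := by norm_num
  have h1 := tendsto_pow_atTop_atTop_of_one_lt hq
  obtain ⟨k₀, hk₀⟩ := Filter.eventually_atTop.1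
    (h1.eventually_gt_atTop ((12 * 10 ^ 7 : ℝ) ^ 12 * 4 ^ 11))
  refine ⟨k₀, fun k hk => ?_⟩
  have h2 := hk₀ k hk
  rw [div_pow, ← pow_mul, ← pow_mul, lt_div_iff₀ (by positivity)] at h2
  exact h2

theorem eig_large : ∃ l₀ : ℕ, ∀ l ≥ l₀, ∀ f ∈ VH l, f ≠ 0 → Top l f → ∀ c : ℝ, TT f = c • f →
    |c| ≤ 243 / 50 := by
  obtain ⟨k₀, hk₀⟩ := eigLarge_k0
  refine ⟨4 ^ (11 * (k₀ + 1)), fun l hl f hf hf0 htop c hc => ?_⟩
  by_contra hcon
  have hc2 : 243 / 50 ≤ |c| := (not_le.1 hcon).le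
  have hl1 : 1 ≤ l := le_trans (Nat.one_le_pow _ _ (by norm_num)) hl
  have hl24 : l ≤ l ^ 24 := Nat.le_self_pow (by norm_num) l
  have hex : ∃ k, l ^ 24 < 4 ^ (11 * (k + 1)) := by
    refine ⟨l ^ 24, ?_⟩
    calc l ^ 24 < 4 ^ (l ^ 24) := Nat.lt_pow_self (by norm_num)
      _ ≤ 4 ^ (11 * (l ^ 24 + 1)) := Nat.pow_le_pow_right (by norm_num) (by omega)
  classical
  set k := Nat.find hex with hkdef
  have hk1 : l ^ 24 < 4 ^ (11 * (k + 1)) := Nat.find_spec hex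
  have hk2 : k₀ < k := by
    by_contra hk
    have h1 : 4 ^ (11 * (k + 1)) ≤ 4 ^ (11 * (k₀ + 1)) :=
      Nat.pow_le_pow_right (by norm_num) (by omega)
    omega
  have hk3 : 4 ^ (11 * k) ≤ l ^ 24 := by
    have h1 := Nat.find_min hex (m := k - 1) (by omega)
    rw [not_lt] at h1
    have h2 : k - 1 + 1 = k := by omega
    rwa [h2] at h1
  have hkey := eigLarge_key l k hl1 (by omega) hk3 f hf hf0 htop c hc hc2
  have h5 : (361 / 25 : ℝ) ^ (12 * k) ≤ (12 * 10 ^ 7) ^ 12 * 4 ^ 11 * 4 ^ (23 * k) := by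
    have hr : (l : ℝ) ^ 24 ≤ 4 ^ (11 * (k + 1)) := by exact_mod_cast hk1.le
    calc (361 / 25 : ℝ) ^ (12 * k) = ((361 / 25 : ℝ) ^ k) ^ 12 := by
          rw [← pow_mul, mul_comm]
      _ ≤ (12 * 10 ^ 7 * (l : ℝ) ^ 2 * 4 ^ k) ^ 12 := pow_le_pow_left₀ (by positivity) hkey 12
      _ = (12 * 10 ^ 7) ^ 12 * (l : ℝ) ^ 24 * 4 ^ (12 * k) := by
          rw [mul_pow, mul_pow, ← pow_mul, ← pow_mul, mul_comm k 12]
      _ ≤ (12 * 10 ^ 7) ^ 12 * 4 ^ (11 * (k + 1)) * 4 ^ (12 * k) := by gcongr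
      _ = (12 * 10 ^ 7) ^ 12 * 4 ^ 11 * 4 ^ (23 * k) := by
          rw [mul_assoc, mul_assoc, ← pow_add, ← pow_add]
          congr 2
          ring
  have h6 := hk₀ k hk2.le
  exact absurd h5 (not_le.2 h6)

end Pool.Agent.MP_f406e2_lc_Q5
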