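import Mathlib
import Pool.Agent.Lib.MP_f406e2_lc_Q5.PM

/-!
# Q5, module Ekeland: the variational principle

As `QD.Ekeland`.
-/

set_option autoImplicit false

noncomputable section

namespace Pool.Agent.MP_f406e2_lc_Q5

open MeasureTheory

private lemma ekeland_step (ε : ℝ) (n : ℕ) (M : PM) :
    ∃ M' : PM, un M' + ε * dd M M' ≤ un M ∧
      ∀ M'' : PM, un M'' + ε * dd M M'' ≤ un M → un M' ≤ un M'' + (1 / 2 : ℝ) ^ n := by
  set T : Set ℝ := un '' {M' : PM | un M' + ε * dd M M' ≤ un M} with hT
  have hne : T.Nonempty := ⟨un M, M, by simp [dd_self], rfl⟩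
  have hbd : BddBelow T := by
    refine ⟨0, ?_⟩
    rintro _ ⟨M', -, rfl⟩
    exact un_nonneg M'
  obtain ⟨a, ⟨M', hM', rfl⟩, hlt⟩ := exists_lt_of_csInf_lt hne
    (lt_add_of_pos_right (sInf T) (by positivity : (0 : ℝ) < (1 / 2 : ℝ) ^ n))
  refine ⟨M', hM', fun M'' h'' => ?_⟩
  have : sInf T ≤ un M'' := csInf_le hbd ⟨M'', h'', rfl⟩
  linarith

theorem ekeland (M₀ : PM) (ε : ℝ) (hε : 0 < ε) :
    ∃ M : PM, un M + ε * dd M₀ M ≤ un M₀ ∧ ∀ M' : PM, un M ≤ un M' + ε * dd M M' := by
  choose f hf1 hf2 using ekeland_step ε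
  let M : ℕ → PM := fun n => Nat.rec M₀ (fun k A => f k A) n
  have hM0 : M 0 = M₀ := rfl
  have hMs : ∀ n, M (n + 1) = f n (M n) := fun n => rfl
  have h1 : ∀ n, un (M (n + 1)) + ε * dd (M n) (M (n + 1)) ≤ un (M n) := by
    intro n
    rw [hMs]
    exact hf1 n (M n)
  have h2 : ∀ n, ∀ M'' : PM, un M'' + ε * dd (M n) M'' ≤ un (M n) →
      un (M (n + 1)) ≤ un M'' + (1 / 2 : ℝ) ^ n := by
    intro n M'' h
    rw [hMs]
    exact hf2 n (M n) M'' h
  have hsum : Summable fun n => dd (M n) (M (n + 1)) := by
    refine summable_of_sum_range_le (c := un (M 0) / ε) (fun n => dd_nonneg _ _) ?_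
    intro n
    have key : un (M n) + ε * ∑ i ∈ Finset.range n, dd (M i) (M (i + 1)) ≤ un (M 0) := by
      induction n with
      | zero => simp
      | succ n ih =>
        rw [Finset.sum_range_succ, mul_add]
        have := h1 n
        linarith
    rw [le_div_iff₀ hε]
    have := un_nonneg (M n)
    linarith
  obtain ⟨L, hL⟩ := pm_limit M hsum
  have hlim : Filter.Tendsto (fun n => dd (M n) L) Filter.atTop (nhds 0) := by
    have ht := tendsto_sum_nat_add (fun n => dd (M n) (M (n + 1)))
    refine squeeze_zero (fun n => dd_nonneg _ _) (fun n => hL n) ?_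
    refine ht.congr fun n => ?_
    refine tsum_congr fun i => ?_
    rw [Nat.add_comm i n]
  have hk : ∀ n k, un (M (n + k)) + ε * dd (M n) (M (n + k)) ≤ un (M n) := by
    intro n k
    induction k with
    | zero => simp [dd_self]
    | succ k ih =>
      have a := h1 (n + k)
      have b := dd_triangle (M n) (M (n + k)) (M (n + k + 1))
      have c := mul_le_mul_of_nonneg_left b hε.le
      rw [mul_add] at c
      have e : n + (k + 1) = n + k + 1 := by ring
      rw [e]
      linarith
  have hc : ∀ n, un L + ε * dd (M n) L ≤ un (M n) := by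
    intro n
    have hb : ∀ k, un L + ε * dd (M n) L ≤ un (M n) + (1 + ε) * dd (M (k + n)) L := by
      intro k
      rw [Nat.add_comm k n]
      have a := un_le L (M (n + k))
      rw [dd_symm L] at a
      have b := dd_triangle (M n) (M (n + k)) L
      have c := mul_le_mul_of_nonneg_left b hε.le
      rw [mul_add] at c
      have d := hk n k
      linarith
    have ht : Filter.Tendsto (fun k => un (M n) + (1 + ε) * dd (M (k + n)) L) Filter.atTop
        (nhds (un (M n) + (1 + ε) * 0)) := by
      refine Filter.Tendsto.const_add _ (Filter.Tendsto.const_mul _ ?_)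
      exact hlim.comp (Filter.tendsto_add_atTop_nat n)
    have := ge_of_tendsto' ht hb
    simpa using this
  refine ⟨L, ?_, ?_⟩
  · have := hc 0
    rwa [hM0] at this
  · intro M'
    by_contra hcon
    push Not at hcon
    have hn : ∀ n, un L ≤ un M' + (1 / 2 : ℝ) ^ n := by
      intro n
      have b := dd_triangle (M n) L M'
      have c := mul_le_mul_of_nonneg_left b hε.le
      rw [mul_add] at c
      have d := hc n
      have e := h2 n M' (by linarith)
      have g := hc (n + 1)
      have p := mul_nonneg hε.le (dd_nonneg (M (n + 1)) L)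
      linarith
    have ht : Filter.Tendsto (fun n : ℕ => un M' + (1 / 2 : ℝ) ^ n) Filter.atTop
        (nhds (un M' + 0)) :=
      Filter.Tendsto.const_add _
        (tendsto_pow_atTop_nhds_zero_of_lt_one (by norm_num) (by norm_num))
    have h3 := ge_of_tendsto' ht hn
    have p := mul_nonneg hε.le (dd_nonneg L M')
    linarith

end Pool.Agent.MP_f406e2_lc_Q5
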