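import Mathlib
import Pool.Agent.Lib.MP_f406e2_lc_Q5.Ops
import Pool.Agent.Lib.MP_f406e2_lc_QD.PolyM

/-!
# Q5, module PolyTT: the operator and the filtration

`QD.VH_inv`, `QD.PP_succ`, `QD.PP_zero` (or `QD.UU_toL`); `UU g one = one`. As in `QD.PolyM`.
-/

set_option autoImplicit false

noncomputable section

namespace Pool.Agent.MP_f406e2_lc_Q5

open MeasureTheory
open Pool.Agent.MP_f406e2_lc_QD (E3 S2 O3 nu mat tr cr L2 UU PP one)

lemma PP_TT (n : ℕ) (f : L2) (hf : f ∈ PP n) : TT f ∈ PP n := by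
  rw [TT_apply]
  refine Submodule.sum_mem _ fun j _ => ?_
  cases n with
  | zero =>
    rw [Pool.Agent.MP_f406e2_lc_QD.PP_zero] at hf ⊢
    exact Pool.Agent.MP_f406e2_lc_QD.VH_inv 0 (h j) f hf
  | succ n =>
    rw [Pool.Agent.MP_f406e2_lc_QD.PP_succ] at hf ⊢
    obtain ⟨a, ha, b, hb, rfl⟩ := Submodule.mem_sup.1 hf
    rw [map_add]
    exact Submodule.add_mem_sup (Pool.Agent.MP_f406e2_lc_QD.VH_inv n (h j) a ha)
      (Pool.Agent.MP_f406e2_lc_QD.VH_inv (n + 1) (h j) b hb)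

lemma TT_one : TT one = (5 : ℝ) • one := by
  rw [TT_apply]
  have h1 : ∀ j : Fin 5, UU (h j) one = one := by
    intro j
    unfold Pool.Agent.MP_f406e2_lc_QD.one
    rw [Pool.Agent.MP_f406e2_lc_QD.UU_toL, map_one]
  rw [Finset.sum_congr rfl fun j _ => h1 j, Finset.sum_const, Finset.card_univ, Fintype.card_fin,
    ← Nat.cast_smul_eq_nsmul ℝ]
  norm_num

end Pool.Agent.MP_f406e2_lc_Q5
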