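import Mathlib
import Pool.Agent.Lib.MP_f406e2_lc_Q5.PolyTT
import Pool.Agent.Lib.MP_f406e2_lc_Q5.Conn

/-!
# Q5, module Erg: no eigenvalue 5 in the polynomials of degree `n`

As `QD.Erg`: if `‖TT f‖ ≥ 5 ‖f‖` then all `UU (h j) f` agree, so the continuous representative `p`
satisfies `p (h i x) = p (h j x)` for all `x`, and `const_of_inv` applies.
-/

set_option autoImplicit false

noncomputable section

namespace Pool.Agent.MP_f406e2_lc_Q5

open MeasureTheory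
open Pool.Agent.MP_f406e2_lc_QD (E3 S2 O3 nu mat tr cr L2 UU PP one)
open Pool.Agent.MP_f406e2_lc_SP
open Pool.Agent.MP_f406e2_lc_QD (UU_coe mp toL_coe one_coe norm_one toL)
open scoped InnerProductSpace

private lemma erg_eq {V : Type*} [NormedAddCommGroup V] [InnerProductSpace ℝ V] (v : Fin 5 → V)
    (a : ℝ) (hv : ∀ j, ‖v j‖ = a) (hs : 5 * a ≤ ‖∑ j, v j‖) (i j : Fin 5) : v i = v j := by
  have ha : 0 ≤ a := by
    rw [← hv 0]
    exact norm_nonneg _
  have h1 : ∑ i, ∑ j, ‖v i - v j‖ ^ 2 = 50 * a ^ 2 - 2 * ‖∑ j, v j‖ ^ 2 := by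
    have h2 : ∀ i j, ‖v i - v j‖ ^ 2 = 2 * a ^ 2 - 2 * ⟪v i, v j⟫_ℝ := by
      intro i j
      rw [norm_sub_sq_real, hv, hv]
      ring
    have h3 : ‖∑ j, v j‖ ^ 2 = ∑ i, ∑ j, ⟪v i, v j⟫_ℝ := by
      rw [← real_inner_self_eq_norm_sq, sum_inner]
      exact Finset.sum_congr rfl fun i _ => inner_sum _ _ _
    rw [h3, Finset.sum_congr rfl fun i _ => Finset.sum_congr rfl fun j _ => h2 i j]
    simp only [Finset.sum_sub_distrib, Finset.mul_sum, Finset.sum_const, Finset.card_univ,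
      Fintype.card_fin, nsmul_eq_mul]
    push_cast
    ring
  have h4 : ∑ i, ∑ j, ‖v i - v j‖ ^ 2 ≤ 0 := by
    rw [h1]
    nlinarith only [hs, ha]
  have h5 : ‖v i - v j‖ ^ 2 ≤ ∑ i, ∑ j, ‖v i - v j‖ ^ 2 := by
    have h6 : ‖v i - v j‖ ^ 2 ≤ ∑ j, ‖v i - v j‖ ^ 2 :=
      Finset.single_le_sum (f := fun j => ‖v i - v j‖ ^ 2) (fun k _ => by positivity)
        (Finset.mem_univ j)
    have h7 : ∑ j, ‖v i - v j‖ ^ 2 ≤ ∑ i, ∑ j, ‖v i - v j‖ ^ 2 :=
      Finset.single_le_sum (f := fun i => ∑ j, ‖v i - v j‖ ^ 2) (fun k _ => by positivity)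
        (Finset.mem_univ i)
    exact h6.trans h7
  have h8 : ‖v i - v j‖ = 0 := by
    nlinarith only [h4, h5, norm_nonneg (v i - v j)]
  exact sub_eq_zero.1 (norm_eq_zero.1 h8)

theorem erg (n : ℕ) (f : L2) (hf : f ∈ PP n) (h1 : ⟪f, one⟫_ℝ = 0) (h0 : f ≠ 0) :
    ‖TT f‖ < 5 * ‖f‖ := by
  by_contra hcon
  rw [not_lt, TT_apply] at hcon
  obtain ⟨p, -, rfl⟩ := Submodule.mem_map.1 hf
  have h2 : ∀ i j, UU (h i) (toL p) = UU (h j) (toL p) :=
    erg_eq (fun j => UU (h j) (toL p)) ‖toL p‖ (fun j => (UU (h j)).norm_map _) hcon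
  have h3 : ∀ g : O3, UU g (toL p) =ᵐ[nu] fun x => ev 3 p (g • x) := by
    intro g
    refine (UU_coe g (toL p)).trans ?_
    exact (mp g).quasiMeasurePreserving.ae_eq_comp (toL_coe p)
  have h4 : ∀ i j x, ev 3 p (h i • x) = ev 3 p (h j • x) := by
    intro i j
    have h5 : (fun x : S2 => ev 3 p (h i • x)) =ᵐ[nu] fun x => ev 3 p (h j • x) :=
      (h3 (h i)).symm.trans ((by rw [h2 i j] : UU (h i) (toL p) =ᵐ[nu] UU (h j) (toL p)).trans
        (h3 (h j)))
    have h6 := (Continuous.ae_eq_iff_eq nu ((ev 3 p).continuous.comp (continuous_const_smul (h i)))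
      ((ev 3 p).continuous.comp (continuous_const_smul (h j)))).1 h5
    exact fun x => congrFun h6 x
  obtain ⟨c, hc⟩ := const_of_inv (fun x => ev 3 p x) (ev 3 p).continuous h4
  have h7 : toL p = c • one := by
    apply Lp.ext
    refine (toL_coe p).trans ?_
    refine Filter.EventuallyEq.trans ?_ (Lp.coeFn_smul c one).symm
    filter_upwards [one_coe] with x hx
    rw [Pi.smul_apply, hx, hc x, smul_eq_mul, mul_one]
  rw [h7, inner_smul_left, real_inner_self_eq_norm_sq, norm_one] at h1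
  have h8 : c = 0 := by simpa using h1
  rw [h8, zero_smul] at h7
  exact h0 h7

end Pool.Agent.MP_f406e2_lc_Q5
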