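import Mathlib

/-!
# Q5, module OrbDefs: the 5-regular tree with coloured edges

`V`: reduced words in the colours `0..4` (the head is the last letter), `step z d`: cross the edge
of colour `d`, `cnt z j`: number of letters `j` modulo 2, `par z`: parity of the length.
A colour automorphism is a pair `(θ, s)` with `θ (step z d) = step (θ z) (s d)`.
`Star N z` is the exact cover condition at the vertex `z` for the digraphs `N z` on the colours.
-/

set_option autoImplicit false

namespace Pool.Agent.MP_f406e2_lc_Q5.Orb

/-- words without equal neighbours -/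
def Rd : List (Fin 5) → Prop
  | [] => True
  | a :: l => l.head? ≠ some a ∧ Rd l

/-- the vertices of the tree -/
abbrev V : Type := {l : List (Fin 5) // Rd l}

/-- the root -/
def root : V := ⟨[], trivial⟩

lemma Rd_tail {l : List (Fin 5)} (h : Rd l) : Rd l.tail := by
  cases l with
  | nil => exact h
  | cons a l => exact h.2

/-- cross the edge of colour `d` -/
def step (z : V) (d : Fin 5) : V :=
  if h : z.1.head? = some d then ⟨z.1.tail, Rd_tail z.2⟩ else ⟨d :: z.1, h, z.2⟩

lemma step_of_head {z : V} {d : Fin 5} (h : z.1.head? = some d) :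
    step z d = ⟨z.1.tail, Rd_tail z.2⟩ := dif_pos h

lemma step_of_ne {z : V} {d : Fin 5} (h : z.1.head? ≠ some d) :
    step z d = ⟨d :: z.1, h, z.2⟩ := dif_neg h

@[simp] lemma step_step (z : V) (d : Fin 5) : step (step z d) d = z := by
  by_cases h : z.1.head? = some d
  · rw [step_of_head h]
    obtain ⟨l, hl⟩ := z
    cases l with
    | nil => simp at h
    | cons a l =>
      simp only [List.head?_cons, Option.some_inj] at h
      subst h
      exact step_of_ne hl.1
  · rw [step_of_ne h]
    exact step_of_head rfl

lemma step_cons {d : Fin 5} {l : List (Fin 5)} (h : Rd (d :: l)) :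
    (⟨d :: l, h⟩ : V) = step ⟨l, h.2⟩ d := (step_of_ne (z := ⟨l, h.2⟩) h.1).symm

/-- induction along the edges -/
lemma V_ind {P : V → Prop} (h0 : P root) (h1 : ∀ z d, P z → P (step z d)) (z : V) : P z := by
  obtain ⟨l, hl⟩ := z
  induction l with
  | nil => exact h0
  | cons a l ih =>
    rw [step_cons hl]
    exact h1 _ _ (ih hl.2)

/-- number of letters `j` modulo 2 -/
def cnt (z : V) (j : Fin 5) : ZMod 2 := (z.1.count j : ZMod 2)

@[simp] lemma cnt_root (j : Fin 5) : cnt root j = 0 := by simp [cnt, root]

lemma cnt_step (z : V) (d j : Fin 5) : cnt (step z d) j = cnt z j + if j = d then 1 else 0 := by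
  have key : ∀ (z : V) (h : z.1.head? ≠ some d), cnt (step z d) j = cnt z j + if j = d then 1 else 0 := by
    intro z h
    rw [step_of_ne h, cnt, cnt, List.count_cons]
    by_cases hj : j = d
    · subst hj
      simp
    · have hj' : ¬ d = j := fun h => hj h.symm
      simp [hj, hj']
  by_cases h : z.1.head? = some d
  · have h1 : (step z d).1.head? ≠ some d := by
      rw [step_of_head h]
      obtain ⟨l, hl⟩ := z
      cases l with
      | nil => simp at h
      | cons a l =>
        simp only [List.head?_cons, Option.some_inj] at h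
        subst h
        exact hl.1
    have h2 := key (step z d) h1
    rw [step_step] at h2
    rw [h2, add_assoc]
    have h3 : ∀ e : ZMod 2, e + e = 0 := by decide
    rw [h3, add_zero]
  · exact key z h

/-- parity of the length -/
def par (z : V) : ZMod 2 := ∑ j, cnt z j

@[simp] lemma par_root : par root = 0 := by simp [par]

lemma par_step (z : V) (d : Fin 5) : par (step z d) = par z + 1 := by
  simp only [par, cnt_step, Finset.sum_add_distrib]
  simp

/-- colour automorphisms -/
def IsAut (θ : V → V) (s : Equiv.Perm (Fin 5)) : Prop := ∀ z d, θ (step z d) = step (θ z) (s d)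

lemma IsAut.comp {θ θ' : V → V} {s s' : Equiv.Perm (Fin 5)} (h : IsAut θ s) (h' : IsAut θ' s') :
    IsAut (θ ∘ θ') (s * s') := by
  intro z d
  rw [Function.comp_apply, h' z d, h]
  rfl

/-- two automorphisms with the same colours which agree at one vertex are equal -/
lemma IsAut.ext {θ θ' : V → V} {s : Equiv.Perm (Fin 5)} (h : IsAut θ s) (h' : IsAut θ' s)
    (z₀ : V) (h0 : θ z₀ = θ' z₀) (z : V) : θ z = θ' z := by
  have h1 : θ root = θ' root := by
    have : ∀ z, θ z = θ' z → θ root = θ' root := by
      intro z
      refine V_ind (P := fun z => θ z = θ' z → θ root = θ' root) id ?_ z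
      intro z d ih h2
      apply ih
      rw [h z d, h' z d] at h2
      rw [← step_step (θ z) (s d), h2, step_step]
    exact this z₀ h0
  refine V_ind (P := fun z => θ z = θ' z) h1 ?_ z
  intro z d ih
  rw [h z d, h' z d, ih]

lemma cnt_aut {θ : V → V} {s : Equiv.Perm (Fin 5)} (h : IsAut θ s) (z : V) (j : Fin 5) :
    cnt (θ z) (s j) = cnt z j + cnt (θ root) (s j) := by
  refine V_ind (P := fun z => cnt (θ z) (s j) = cnt z j + cnt (θ root) (s j)) (by simp) ?_ z
  intro z d ih
  simp only [h z d, cnt_step, ih, s.injective.eq_iff]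
  ring

lemma par_aut {θ : V → V} {s : Equiv.Perm (Fin 5)} (h : IsAut θ s) (z : V) :
    par (θ z) = par z + par (θ root) := by
  refine V_ind (P := fun z => par (θ z) = par z + par (θ root)) (by simp) ?_ z
  intro z d ih
  rw [h z d, par_step, ih, par_step]
  ring

/-- the exact cover condition at `z` -/
def Star (N : V → Fin 5 → Fin 5 → Bool) (z : V) : Prop :=
  ∀ p : Equiv.Perm (Fin 5),
    (N (step z (p 0)) (p 0) (p 1)).toNat + (N (step z (p 1)) (p 1) (p 0)).toNat +
      (N z (p 2) (p 3)).toNat + (N z (p 3) (p 4)).toNat + (N z (p 4) (p 2)).toNat = 1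

/-- the groups of colour automorphisms: commutative, the sign is the parity of the displacement -/
structure IsStab (H : Subgroup (Equiv.Perm V × Equiv.Perm (Fin 5))) : Prop where
  aut : ∀ h ∈ H, IsAut h.1 h.2
  comm : ∀ h ∈ H, ∀ h' ∈ H, h * h' = h' * h
  par : ∀ h ∈ H, Equiv.Perm.sign h.2 = 1 ↔ par (h.1 root) = 0

/-- invariance -/
def Inva (H : Subgroup (Equiv.Perm V × Equiv.Perm (Fin 5))) (N : V → Fin 5 → Fin 5 → Bool) : Prop :=
  ∀ h ∈ H, ∀ z i j, N (h.1 z) (h.2 i) (h.2 j) = N z i j

end Pool.Agent.MP_f406e2_lc_Q5.Orb
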