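import Mathlib
import Pool.Agent.Lib.MP_f406e2_lc_Q5.OrbDefs

/-!
# Q5, module OrbWord: the word from a vertex to another one

`walk z u`: start at `z` and follow the colours of the word `u` (from the head on). For all vertices
`z`, `z'` there is exactly one reduced word `gp z z'` with `walk z (gp z z') = z'`, and
`gp (step z x) (step z' y)` arises from `gp z z'` by the multiplication by `x` on the left and by
`y` on the right (`step`, `stepR`).
-/

set_option autoImplicit false

namespace Pool.Agent.MP_f406e2_lc_Q5.Orb

lemma Rd_iff (l : List (Fin 5)) : Rd l ↔ l.IsChain (· ≠ ·) := by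
  induction l with
  | nil => exact ⟨fun _ => List.isChain_nil, fun _ => trivial⟩
  | cons a l ih =>
    cases l with
    | nil =>
      refine ⟨fun _ => List.isChain_singleton a, fun _ => ⟨?_, trivial⟩⟩
      simp
    | cons b l =>
      rw [List.isChain_cons_cons, ← ih]
      constructor
      · rintro ⟨h1, h2⟩
        refine ⟨fun h3 => h1 ?_, h2⟩
        rw [List.head?_cons, h3]
      · rintro ⟨h1, h2⟩
        refine ⟨fun h3 => h1 ?_, h2⟩
        rw [List.head?_cons, Option.some_inj] at h3
        exact h3.symm

lemma Rd_reverse {l : List (Fin 5)} (h : Rd l) : Rd l.reverse := by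
  rw [Rd_iff, List.isChain_reverse]
  exact ((Rd_iff l).1 h).imp fun _ _ h1 h2 => h1 h2.symm

lemma Rd_map (s : Equiv.Perm (Fin 5)) {l : List (Fin 5)} (h : Rd l) : Rd (l.map s) := by
  rw [Rd_iff, List.isChain_map]
  exact ((Rd_iff l).1 h).imp fun _ _ h1 h2 => h1 (s.injective h2)

/-- the reversed word -/
def rv (u : V) : V := ⟨u.1.reverse, Rd_reverse u.2⟩

lemma rv_rv (u : V) : rv (rv u) = u := Subtype.ext (List.reverse_reverse u.1)

/-- the word with permuted letters -/
def mp (s : Equiv.Perm (Fin 5)) (u : V) : V := ⟨u.1.map s, Rd_map s u.2⟩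

lemma mp_mp (s t : Equiv.Perm (Fin 5)) (u : V) : mp s (mp t u) = mp (s * t) u := by
  apply Subtype.ext
  simp [mp, Function.comp_def]

/-- multiplication by the letter `y` on the right -/
def stepR (u : V) (y : Fin 5) : V := rv (step (rv u) y)

lemma stepR_stepR (u : V) (y : Fin 5) : stepR (stepR u y) y = u := by
  rw [stepR, stepR, rv_rv, step_step, rv_rv]

lemma val_step (u : V) (x : Fin 5) :
    (step u x).1 = if u.1.head? = some x then u.1.tail else x :: u.1 := by
  split_ifs with h
  · rw [step_of_head h]
  · rw [step_of_ne h]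

lemma val_stepR (u : V) (y : Fin 5) :
    (stepR u y).1 = if u.1.getLast? = some y then u.1.dropLast else u.1 ++ [y] := by
  show (step (rv u) y).1.reverse = _
  rw [val_step]
  have h1 : (rv u).1.head? = u.1.getLast? := List.head?_reverse
  rw [h1]
  split_ifs with h
  · show (u.1.reverse).tail.reverse = _
    rw [List.tail_reverse, List.reverse_reverse]
  · show (y :: u.1.reverse).reverse = _
    rw [List.reverse_cons, List.reverse_reverse]

/-- follow the colours of the word `u` -/
def walk (z : V) (u : V) : V := u.1.foldl step z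

lemma walk_step (z u : V) (x : Fin 5) : walk (step z x) (step u x) = walk z u := by
  rw [walk, walk, val_step]
  obtain ⟨l, hl⟩ := u
  cases l with
  | nil =>
    show [x].foldl step (step z x) = z
    rw [List.foldl_cons, List.foldl_nil, step_step]
  | cons a l =>
    by_cases h : a = x
    · subst h
      rw [List.head?_cons, if_pos rfl, List.tail_cons, List.foldl_cons]
    · rw [List.head?_cons, if_neg (fun h2 => h (Option.some_inj.1 h2)), List.foldl_cons (a := x),
        step_step]

lemma walk_stepR (z u : V) (y : Fin 5) : walk z (stepR u y) = step (walk z u) y := by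
  rw [walk, walk, val_stepR]
  by_cases h : u.1.getLast? = some y
  · rw [if_pos h]
    have h1 : u.1 = u.1.dropLast ++ [y] := (List.dropLast_append_getLast? y h).symm
    conv_rhs => rw [h1, List.foldl_append, List.foldl_cons, List.foldl_nil, step_step]
  · rw [if_neg h, List.foldl_append, List.foldl_cons, List.foldl_nil]

lemma walk_root (z : V) : walk root (rv z) = z := by
  obtain ⟨l, hl⟩ := z
  show l.reverse.foldl step root = ⟨l, hl⟩
  induction l with
  | nil => rfl
  | cons a l ih =>
    rw [List.reverse_cons, List.foldl_append, List.foldl_cons, List.foldl_nil, ih hl.2]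
    exact (step_cons hl).symm

lemma walk_inj (z : V) : ∀ u u' : V, walk z u = walk z u' → u = u' := by
  refine V_ind (P := fun z => ∀ u u' : V, walk z u = walk z u' → u = u') ?_ ?_ z
  · intro u u' h
    rw [← rv_rv u, ← rv_rv u', walk_root, walk_root] at h
    rw [← rv_rv u, h, rv_rv]
  · intro z x ih u u' h
    have h1 := ih (step u x) (step u' x)
    rw [← walk_step z (step u x) x, ← walk_step z (step u' x) x, step_step, step_step] at h1
    rw [← step_step u x, h1 h, step_step]

lemma walk_ex (z : V) : ∀ z' : V, ∃ u, walk z u = z' := by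
  refine V_ind (P := fun z => ∀ z' : V, ∃ u, walk z u = z') ?_ ?_ z
  · intro z'
    exact ⟨rv z', walk_root z'⟩
  · intro z x ih z'
    obtain ⟨u, hu⟩ := ih z'
    exact ⟨step u x, by rw [walk_step, hu]⟩

/-- the reduced word from `z` to `z'` -/
noncomputable def gp (z z' : V) : V := (walk_ex z z').choose

lemma walk_gp (z z' : V) : walk z (gp z z') = z' := (walk_ex z z').choose_spec

lemma gp_eq {z z' u : V} (h : walk z u = z') : gp z z' = u :=
  walk_inj z _ _ ((walk_gp z z').trans h.symm)

lemma gp_step (z z' : V) (x y : Fin 5) :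
    gp (step z x) (step z' y) = step (stepR (gp z z') y) x := by
  apply gp_eq
  rw [walk_step, walk_stepR, walk_gp]

lemma walk_mp {θ : V → V} {s : Equiv.Perm (Fin 5)} (h : IsAut θ s) (z u : V) :
    walk (θ z) (mp s u) = θ (walk z u) := by
  obtain ⟨l, hl⟩ := u
  show (l.map s).foldl step (θ z) = θ (l.foldl step z)
  clear hl
  induction l generalizing z with
  | nil => rfl
  | cons a l ih =>
    rw [List.map_cons, List.foldl_cons, List.foldl_cons, ← h z a, ih]

lemma gp_mp {θ : V → V} {s : Equiv.Perm (Fin 5)} (h : IsAut θ s) (z z' : V) :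
    gp (θ z) (θ z') = mp s (gp z z') := by
  apply gp_eq
  rw [walk_mp h, walk_gp]

lemma par_walk (z u : V) : par (walk z u) = par z + (u.1.length : ZMod 2) := by
  obtain ⟨l, hl⟩ := u
  show par (l.foldl step z) = par z + (l.length : ZMod 2)
  clear hl
  induction l generalizing z with
  | nil => simp
  | cons a l ih =>
    rw [List.foldl_cons, ih, par_step, List.length_cons, Nat.cast_succ]
    ring

lemma mp_step (s : Equiv.Perm (Fin 5)) (u : V) (x : Fin 5) :
    mp s (step u x) = step (mp s u) (s x) := by
  apply Subtype.ext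
  rw [val_step]
  show (step u x).1.map s = _
  rw [val_step]
  have h1 : (mp s u).1.head? = some (s x) ↔ u.1.head? = some x := by
    show (u.1.map s).head? = some (s x) ↔ _
    rw [List.head?_map, Option.map_eq_some_iff]
    constructor
    · rintro ⟨a, h2, h3⟩
      rw [h2, s.injective h3]
    · intro h2
      exact ⟨x, h2, rfl⟩
  by_cases h : u.1.head? = some x
  · rw [if_pos h, if_pos (h1.2 h)]
    exact List.map_tail
  · rw [if_neg h, if_neg fun h2 => h (h1.1 h2)]
    rfl

lemma mp_rv (s : Equiv.Perm (Fin 5)) (u : V) : mp s (rv u) = rv (mp s u) :=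
  Subtype.ext List.map_reverse

lemma mp_stepR (s : Equiv.Perm (Fin 5)) (u : V) (y : Fin 5) :
    mp s (stepR u y) = stepR (mp s u) (s y) := by
  rw [stepR, stepR, mp_rv, mp_step, mp_rv]

end Pool.Agent.MP_f406e2_lc_Q5.Orb
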