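import Mathlib
import Pool.Agent.Lib.MP_f406e2_lc_Q5.OrbWord

/-!
# Q5, module OrbTab: the finite automaton of the five-cycle case

Subsets of `Fin 5` are bit masks. A configuration `c = (U, F)` consists of a mask `U` and of five
masks `Fm F y` (packed in one number); `N (x, y) = [x ∈ U, y ∉ U]`, `row U x = {y : N (x, y)}` (near
row), `Fm F x` is the row of `x` at the neighbour across the edge of colour `x` (far row). `Gd c`:
the exact cover condition holds and all edges have states `(near, far)` such that the flipped state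
occurs in the table `tab`. Entry of `tab`: `(key x P Q, U, F)`: configuration of a vertex which is
entered by the edge of colour `x` with near row `P` and far row `Q`.
-/

set_option autoImplicit false

namespace Pool.Agent.MP_f406e2_lc_Q5.Orb

/-- the far row of `y` -/
def Fm (F : ℕ) (y : Fin 5) : ℕ := F / 32 ^ y.val % 32

/-- the near row of `x` -/
def row (U : ℕ) (x : Fin 5) : ℕ := if U.testBit x.val then 31 - U else 0

/-- the state of an edge of colour `x` -/
def key (x : Fin 5) (P Q : ℕ) : ℕ := x.val * 1024 + P * 32 + Q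

/-- the table of the configurations -/
def tab : List (ℕ × ℕ × ℕ) :=
  [(0, 2, 928), (2, 2, 2164738), (4, 4, 4325508), (6, 30, 1081350), (8, 8, 8397064),
   (12, 30, 1048620), (16, 16, 541200), (24, 30, 1080), (30, 30, 30), (64, 29, 928),
   (66, 29, 2164738), (128, 27, 27648), (132, 27, 4325508), (192, 25, 128), (256, 23, 753664),
   (264, 23, 8397064), (384, 19, 8192), (512, 15, 15728640), (528, 15, 541200), (768, 7, 524288),
   (960, 1, 1082400), (990, 1, 30), (1024, 4, 27648), (1025, 1, 1082400), (1028, 4, 4325508),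
   (1032, 8, 8397064), (1036, 29, 2097538), (1040, 16, 541200), (1041, 29, 68128),
   (1048, 29, 2818), (1053, 29, 928), (1056, 30, 30), (1057, 30, 1082400), (1152, 27, 27648),
   (1156, 27, 4325508), (1280, 23, 753664), (1288, 23, 8397064), (1408, 19, 8192),
   (1536, 15, 15728640), (1552, 15, 541200), (1568, 14, 1048576), (1792, 7, 524288),
   (1952, 2, 2164738), (1981, 2, 928), (2048, 8, 753664), (2049, 1, 1082400), (2050, 2, 2164738),
   (2051, 27, 4328448), (2056, 8, 8397064), (2064, 16, 541200), (2065, 27, 148608),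
   (2072, 27, 24708), (2075, 27, 27648), (2080, 30, 30), (2081, 30, 1082400), (2112, 29, 928),
   (2114, 29, 2164738), (2144, 28, 2), (2304, 23, 753664), (2312, 23, 8397064),
   (2560, 15, 15728640), (2576, 15, 541200), (2592, 14, 1048576), (2816, 7, 524288),
   (2912, 4, 4325508), (2939, 4, 27648), (3072, 16, 15728640), (3073, 1, 1082400),
   (3074, 2, 2164738), (3075, 23, 8495104), (3076, 4, 4325508), (3078, 23, 8585224),
   (3088, 16, 541200), (3089, 23, 565504), (3095, 23, 753664), (3104, 30, 30),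
   (3105, 30, 1082400), (3136, 29, 928), (3138, 29, 2164738), (3168, 28, 2), (3200, 27, 27648),
   (3204, 27, 4325508), (3264, 25, 128), (3584, 15, 15728640), (3600, 15, 541200),
   (3616, 14, 1048576), (3808, 8, 8397064), (3831, 8, 753664), (4096, 1, 30), (4097, 1, 1082400),
   (4098, 2, 2164738), (4099, 15, 3686400), (4100, 4, 4325508), (4102, 15, 6815760),
   (4104, 8, 8397064), (4108, 15, 12583440), (4111, 15, 15728640), (4128, 30, 30),
   (4129, 30, 1082400), (4160, 29, 928), (4162, 29, 2164738), (4192, 28, 2), (4224, 27, 27648),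
   (4228, 27, 4325508), (4288, 25, 128), (4352, 23, 753664), (4360, 23, 8397064),
   (4480, 19, 8192), (4576, 16, 541200), (4591, 16, 15728640)]

/-- look up a state -/
def look (k : ℕ) : ℕ × ℕ :=
  match tab.find? (fun e => e.1 == k) with
  | some e => e.2
  | none => (0, 0)

/-- the state occurs in the table -/
def inK (k : ℕ) : Bool := tab.any (fun e => e.1 == k)

/-- the bit `y` -/
def bt (m : ℕ) (y : Fin 5) : Bool := m.testBit y.val

/-- the exact cover condition -/
def VE (c : ℕ × ℕ) : Prop :=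
  ∀ x y : Fin 5, y ≠ x → ∀ a, (a ≠ x ∧ a ≠ y) → ∀ b, (b ≠ x ∧ b ≠ y ∧ b ≠ a) →
    ∀ d, (d ≠ x ∧ d ≠ y ∧ d ≠ a ∧ d ≠ b) →
    (bt (Fm c.2 x) y).toNat + (bt (Fm c.2 y) x).toNat + (bt c.1 a && !bt c.1 b).toNat +
      (bt c.1 b && !bt c.1 d).toNat + (bt c.1 d && !bt c.1 a).toNat = 1

instance (c : ℕ × ℕ) : Decidable (VE c) := by
  unfold VE
  infer_instance

/-- good configurations -/
def Gd (c : ℕ × ℕ) : Prop :=
  c.1 < 32 ∧ VE c ∧ ∀ y, inK (key y (Fm c.2 y) (row c.1 y)) = true

instance (c : ℕ × ℕ) : Decidable (Gd c) := by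
  unfold Gd
  infer_instance

/-- rotation of a mask -/
def rm (m : ℕ) : ℕ := 2 * m % 32 + m / 16

/-- rotation of the far rows -/
def rF (F : ℕ) : ℕ := rm (Fm F 4) + rm (Fm F 0) * 32 + rm (Fm F 1) * 32 ^ 2 + rm (Fm F 2) * 32 ^ 3 +
  rm (Fm F 3) * 32 ^ 4

/-- rotation of a configuration -/
def rC (c : ℕ × ℕ) : ℕ × ℕ := (rm c.1, rF c.2)

/-- the configuration of the fixed vertex: a circulant tournament -/
def rootC : ℕ × ℕ := (0, 3727750)

/-- the configuration with the only colour `M` -/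
def axC (M : Fin 5) : ℕ × ℕ := (2 ^ M.val, (31 - 2 ^ M.val) * 32 ^ M.val)

/-- the configuration of the neighbour across the edge of colour `a` -/
def nx (c : ℕ × ℕ) (a : Fin 5) : ℕ × ℕ := look (key a (Fm c.2 a) (row c.1 a))

/-- what is checked for the entries of the table -/
def EOk (e : ℕ × ℕ × ℕ) : Prop :=
  (∃ x : Fin 5, e.1 = key x (row e.2.1 x) (Fm e.2.2 x) ∧
    look (key (x + 1) (rm (row e.2.1 x)) (rm (Fm e.2.2 x))) = rC e.2) ∧ Gd e.2

instance (e : ℕ × ℕ × ℕ) : Decidable (EOk e) := by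
  unfold EOk
  infer_instance

theorem tab_ok : ∀ e ∈ tab, EOk e := by
  decide +kernel

theorem root_gd : Gd rootC := by
  decide +kernel

theorem ax_gd (M : Fin 5) : Gd (axC M) := by
  revert M
  decide +kernel

theorem root_rC : rC rootC = rootC := by
  decide +kernel

theorem ax_rC (M : Fin 5) : rC (axC M) = axC (M + 1) := by
  revert M
  decide +kernel

theorem ax_row (M x : Fin 5) (h : M ≠ x) : row (axC M).1 x = 0 ∧ Fm (axC M).2 x = 0 := by
  revert M x
  decide +kernel

theorem row_bt (U : ℕ) (hU : U < 32) (x y : Fin 5) : bt (row U x) y = (bt U x && !bt U y) := by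
  have h : ∀ U < 32, ∀ x y : Fin 5, bt (row U x) y = (bt U x && !bt U y) := by decide +kernel
  exact h U hU x y

theorem row_rm (U : ℕ) (hU : U < 32) (x : Fin 5) : row (rm U) (x + 1) = rm (row U x) := by
  have h : ∀ U < 32, ∀ x : Fin 5, row (rm U) (x + 1) = rm (row U x) := by decide +kernel
  exact h U hU x

theorem bt_rm (U : ℕ) (hU : U < 32) (x : Fin 5) : bt (rm U) (x + 1) = bt U x := by
  have h : ∀ U < 32, ∀ x : Fin 5, bt (rm U) (x + 1) = bt U x := by decide +kernel
  exact h U hU x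

theorem rm_lt (m : ℕ) (hm : m < 32) : rm m < 32 := by
  unfold rm
  omega

theorem Fm_lt (F : ℕ) (y : Fin 5) : Fm F y < 32 := Nat.mod_lt _ (by norm_num)

theorem row_lt (U : ℕ) (x : Fin 5) : row U x < 32 := by
  unfold row
  split_ifs
  · omega
  · norm_num

theorem digits {a b c d e : ℕ} (ha : a < 32) (hb : b < 32) (hc : c < 32) (hd : d < 32)
    (he : e < 32) : let n := e + a * 32 + b * 32 ^ 2 + c * 32 ^ 3 + d * 32 ^ 4
    Fm n 0 = e ∧ Fm n 1 = a ∧ Fm n 2 = b ∧ Fm n 3 = c ∧ Fm n 4 = d := by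
  have g : ∀ n, Fm n 0 = n % 32 ∧ Fm n 1 = n / 32 % 32 ∧ Fm n 2 = n / 1024 % 32 ∧
      Fm n 3 = n / 32768 % 32 ∧ Fm n 4 = n / 1048576 % 32 := by
    intro n
    refine ⟨?_, rfl, rfl, rfl, rfl⟩
    show n / 32 ^ 0 % 32 = n % 32
    rw [pow_zero, Nat.div_one]
  intro n
  obtain ⟨g0, g1, g2, g3, g4⟩ := g n
  rw [g0, g1, g2, g3, g4]
  have hn : n = e + a * 32 + b * 1024 + c * 32768 + d * 1048576 := by
    show e + a * 32 + b * 32 ^ 2 + c * 32 ^ 3 + d * 32 ^ 4 = _
    norm_num
  rw [hn]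
  omega

theorem Fm_rF (F : ℕ) (x : Fin 5) : Fm (rF F) (x + 1) = rm (Fm F x) := by
  obtain ⟨g0, g1, g2, g3, g4⟩ := digits (rm_lt _ (Fm_lt F 0)) (rm_lt _ (Fm_lt F 1))
    (rm_lt _ (Fm_lt F 2)) (rm_lt _ (Fm_lt F 3)) (rm_lt _ (Fm_lt F 4))
  have g : ∀ x : Fin 5, x = 0 ∨ x = 1 ∨ x = 2 ∨ x = 3 ∨ x = 4 := by decide
  rcases g x with h | h | h | h | h <;> subst h
  · exact g1
  · exact g2
  · exact g3
  · exact g4
  · exact g0

theorem key_inj {x y : Fin 5} {P Q P' Q' : ℕ} (hP : P < 32) (hQ : Q < 32) (hP' : P' < 32)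
    (hQ' : Q' < 32) (h : key x P Q = key y P' Q') : x = y ∧ P = P' ∧ Q = Q' := by
  unfold key at h
  have h1 : x.val = y.val := by omega
  refine ⟨Fin.ext h1, ?_, ?_⟩ <;> omega

theorem look_ok {k : ℕ} (h : inK k = true) : (k, look k) ∈ tab := by
  unfold look
  cases h1 : tab.find? (fun e => e.1 == k) with
  | none =>
    rw [List.find?_eq_none] at h1
    unfold inK at h
    rw [List.any_eq_true] at h
    obtain ⟨e, he, h2⟩ := h
    exact absurd h2 (h1 e he)
  | some e =>
    have h2 := List.mem_of_find?_eq_some h1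
    have h3 := List.find?_some h1
    simp only [beq_iff_eq] at h3
    show (k, e.2) ∈ tab
    rw [← h3]
    exact h2

theorem nx_spec {c : ℕ × ℕ} (hc : Gd c) (a : Fin 5) : Gd (nx c a) ∧
    row (nx c a).1 a = Fm c.2 a ∧ Fm (nx c a).2 a = row c.1 a ∧
    nx (rC c) (a + 1) = rC (nx c a) := by
  have h1 := look_ok (hc.2.2 a)
  obtain ⟨⟨x, h2, h3⟩, h4⟩ := tab_ok _ h1
  obtain ⟨h5, h6, h7⟩ := key_inj (Fm_lt _ _) (row_lt _ _) (row_lt _ _) (Fm_lt _ _) h2
  subst h5
  refine ⟨h4, h6.symm, h7.symm, ?_⟩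
  show look (key (a + 1) (Fm (rF c.2) (a + 1)) (row (rm c.1) (a + 1))) = _
  rw [Fm_rF, row_rm _ hc.1]
  change look (key (a + 1) (rm (row (look (key a (Fm c.2 a) (row c.1 a))).1 a))
    (rm (Fm (look (key a (Fm c.2 a) (row c.1 a))).2 a))) = _ at h3
  have h8 : row (look (key a (Fm c.2 a) (row c.1 a))).1 a = Fm c.2 a := h6.symm
  have h9 : Fm (look (key a (Fm c.2 a) (row c.1 a))).2 a = row c.1 a := h7.symm
  rw [h8, h9] at h3
  exact h3

end Pool.Agent.MP_f406e2_lc_Q5.Orb
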