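import Mathlib
import Pool.Agent.Lib.MP_f406e2_lc_Q5.OrbTab

/-!
# Q5, module OrbFive: the five-cycle case

`f ∈ H` has a 5-cycle as colour permutation. After a change of the colours it is `x ↦ x + 1`. The
reduced word `v z` from `z` to `f z` has even length, `v (step z x) = x · v z · (x + 1)`, and
`v (k z) = s (v z)` for `(k, s) ∈ H`. The configuration at `z` is a function `C` of the word `v z`:
the root configuration if the word is empty; if the word is `a m b` with `b ≠ a + 1` (`z` lies on
the axis of `f`) the matched colour is `2 (b - 1) - a` (not one of the colours `a`, `b - 1` of the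
axis); if the word is `a m (a + 1)` the vertex is the neighbour across the edge of colour `a` of the
vertex with the word `m`: table. So elliptic and hyperbolic `f` are treated at the same time.
-/

set_option autoImplicit false

namespace Pool.Agent.MP_f406e2_lc_Q5.Orb

/-- the configuration which belongs to a word -/
def C : List (Fin 5) → ℕ × ℕ
  | [] => rootC
  | a :: t =>
    if h : t = [] then rootC
    else if t.getLast h = a + 1 then nx (C t.dropLast) a else axC (2 * (t.getLast h - 1) - a)
  termination_by l => l.length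
  decreasing_by
    simp only [List.length_dropLast, List.length_cons]
    omega

theorem C_nil : C [] = rootC := by
  rw [C]

theorem C_cons (a b : Fin 5) (m : List (Fin 5)) : C (a :: (m ++ [b])) =
    if b = a + 1 then nx (C m) a else axC (2 * (b - 1) - a) := by
  have h : m ++ [b] ≠ [] := by simp
  rw [C, dif_neg h, List.getLast_append_singleton, List.dropLast_concat]

/-- even length words are empty or of the form `a m b` -/
theorem split_word (u : List (Fin 5)) (hu : u.length % 2 = 0) :
    u = [] ∨ ∃ a m b, u = a :: (m ++ [b]) := by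
  cases u with
  | nil => exact Or.inl rfl
  | cons a t =>
    right
    rcases List.eq_nil_or_concat t with h | ⟨m, b, h⟩
    · rw [h] at hu
      simp at hu
    · exact ⟨a, m, b, by rw [h, List.concat_eq_append]⟩

theorem Rd_mid {a b : Fin 5} {m : List (Fin 5)} (h : Rd (a :: (m ++ [b]))) : Rd m := by
  rw [Rd_iff] at h ⊢
  exact (List.IsChain.tail h).left_of_append

theorem C_good (n : ℕ) : ∀ u : List (Fin 5), u.length ≤ n → u.length % 2 = 0 → Gd (C u) := by
  induction n with
  | zero =>
    intro u hu _
    rw [List.length_eq_zero_iff.1 (Nat.le_zero.1 hu), C_nil]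
    exact root_gd
  | succ n ih =>
    intro u hu h2
    rcases split_word u h2 with h | ⟨a, m, b, h⟩
    · rw [h, C_nil]
      exact root_gd
    · subst h
      simp only [List.length_cons, List.length_append, List.length_nil] at hu h2
      rw [C_cons]
      split_ifs
      · exact (nx_spec (ih m (by omega) (by omega)) a).1
      · exact ax_gd _

theorem C_gd (u : List (Fin 5)) (hu : u.length % 2 = 0) : Gd (C u) := C_good _ u le_rfl hu

/-- rotation of the letters -/
theorem C_rot (n : ℕ) : ∀ u : List (Fin 5), u.length ≤ n → u.length % 2 = 0 →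
    C (u.map fun x => x + 1) = rC (C u) := by
  induction n with
  | zero =>
    intro u hu _
    rw [List.length_eq_zero_iff.1 (Nat.le_zero.1 hu), List.map_nil, C_nil, root_rC]
  | succ n ih =>
    intro u hu h2
    rcases split_word u h2 with h | ⟨a, m, b, h⟩
    · rw [h, List.map_nil, C_nil, root_rC]
    · subst h
      simp only [List.length_cons, List.length_append, List.length_nil] at hu h2
      rw [List.map_cons, List.map_append, List.map_cons, List.map_nil, C_cons, C_cons]
      by_cases h3 : b = a + 1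
      · rw [if_pos (by rw [h3]), if_pos h3, ih m (by omega) (by omega)]
        exact (nx_spec (C_gd m (by omega)) a).2.2.2
      · rw [if_neg (fun h4 => h3 (add_right_cancel h4)), if_neg h3, ax_rC]
        congr 1
        have : ∀ a b : Fin 5, 2 * (b + 1 - 1) - (a + 1) = 2 * (b - 1) - a + 1 := by decide
        exact this a b

theorem C_map (u : List (Fin 5)) (hu : u.length % 2 = 0) :
    C (u.map fun x => x + 1) = rC (C u) := C_rot _ u le_rfl hu

/-- the word of the neighbour across the edge of colour `x` -/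
def tw (x : Fin 5) (v : V) : V := step (stepR v (x + 1)) x

theorem tw_nil (x : Fin 5) : (tw x ⟨[], trivial⟩).1 = x :: ([] ++ [x + 1]) := by
  have h1 : (stepR ⟨[], trivial⟩ (x + 1)).1 = [x + 1] := by
    rw [val_stepR]
    rfl
  rw [tw, val_step, h1]
  have h2 : x + 1 ≠ x := by
    revert x
    decide
  rw [if_neg]
  · rfl
  · rw [List.head?_cons]
    intro h3
    exact h2 (Option.some_inj.1 h3)

theorem getLast_cs (a b : Fin 5) (m : List (Fin 5)) : (a :: (m ++ [b])).getLast? = some b := by
  rw [← List.cons_append, List.getLast?_concat]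

theorem tw_far (x a b : Fin 5) (m : List (Fin 5)) (h : Rd (a :: (m ++ [b]))) (h1 : x ≠ a)
    (h2 : b ≠ x + 1) : (tw x ⟨_, h⟩).1 = x :: ((a :: (m ++ [b])) ++ [x + 1]) := by
  rw [tw, val_step, val_stepR]
  show (if (if (a :: (m ++ [b])).getLast? = some (x + 1) then _ else _ : List (Fin 5)).head? =
    some x then _ else _) = _
  rw [getLast_cs, if_neg (fun h3 => h2 (Option.some_inj.1 h3))]
  rw [if_neg]
  · intro h3
    rw [List.cons_append, List.head?_cons, Option.some_inj] at h3
    exact h1 h3.symm

theorem tw_in (a : Fin 5) (m : List (Fin 5)) (h : Rd (a :: (m ++ [a + 1]))) :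
    (tw a ⟨_, h⟩).1 = m := by
  rw [tw, val_step, val_stepR]
  show (if (if (a :: (m ++ [a + 1])).getLast? = some (a + 1) then
    (a :: (m ++ [a + 1])).dropLast else _ : List (Fin 5)).head? = some a then _ else _) = _
  rw [getLast_cs, if_pos rfl, ← List.cons_append, List.dropLast_concat, List.head?_cons,
    if_pos rfl]
  rfl

theorem tw_left (a b : Fin 5) (m : List (Fin 5)) (h : Rd (a :: (m ++ [b]))) (h2 : b ≠ a + 1) :
    (tw a ⟨_, h⟩).1 = (m ++ [b]) ++ [a + 1] := by
  rw [tw, val_step, val_stepR]
  show (if (if (a :: (m ++ [b])).getLast? = some (a + 1) then _ else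
    (a :: (m ++ [b])) ++ [a + 1] : List (Fin 5)).head? = some a then _ else _) = _
  rw [getLast_cs, if_neg (fun h3 => h2 (Option.some_inj.1 h3)), List.cons_append,
    List.head?_cons, if_pos rfl]
  rfl

theorem tw_right (x a : Fin 5) (m : List (Fin 5)) (h : Rd (a :: (m ++ [x + 1]))) (h1 : x ≠ a) :
    (tw x ⟨_, h⟩).1 = x :: (a :: m) := by
  rw [tw, val_step, val_stepR]
  show (if (if (a :: (m ++ [x + 1])).getLast? = some (x + 1) then
    (a :: (m ++ [x + 1])).dropLast else _ : List (Fin 5)).head? = some x then _ else _) = _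
  rw [getLast_cs, if_pos rfl, ← List.cons_append, List.dropLast_concat, List.head?_cons,
    if_neg (fun h3 => h1 (Option.some_inj.1 h3).symm)]

theorem fin_a (a b : Fin 5) (h : b ≠ a + 1) : 2 * (b - 1) - a ≠ a := by
  revert a b
  decide

theorem fin_b (a b : Fin 5) (h : b ≠ a) : 2 * (a + 1 - 1) - b ≠ a := by
  revert a b
  decide

theorem fin_d (x l : Fin 5) (h : l ≠ x + 1) : 2 * (l - 1) - x ≠ x := fin_a x l h

/-- the far rows are the near rows of the neighbours -/
theorem C_edge (v : V) (hv : v.1.length % 2 = 0) (x : Fin 5) :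
    row (C (tw x v).1).1 x = Fm (C v.1).2 x := by
  obtain ⟨u, hu⟩ := v
  change u.length % 2 = 0 at hv
  show row (C (tw x ⟨u, hu⟩).1).1 x = Fm (C u).2 x
  have hg := C_gd u hv
  rcases split_word u hv with h | ⟨a, m, b, h⟩
  · subst h
    rw [tw_nil, C_cons, if_pos rfl]
    exact (nx_spec (C_gd [] rfl) x).2.1
  · subst h
    have hm : m.length % 2 = 0 := by
      simp only [List.length_cons, List.length_append, List.length_nil] at hv
      omega
    have hch := (Rd_iff _).1 hu
    by_cases hxa : x = a
    · subst hxa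
      by_cases hb : b = x + 1
      · subst hb
        rw [tw_in, C_cons, if_pos rfl]
        exact (nx_spec (C_gd m hm) x).2.2.1.symm
      · rw [tw_left x b m hu hb, C_cons, if_neg hb, (ax_row _ x (fin_a x b hb)).2]
        cases m with
        | nil =>
          have h1 : b ≠ x := fun h2 => (List.isChain_cons_cons.1 hch).1 h2.symm
          show row (C (b :: ([] ++ [x + 1]))).1 x = 0
          rw [C_cons, if_neg (fun h2 => h1 (add_right_cancel h2).symm)]
          exact (ax_row _ x (fin_b x b h1)).1
        | cons d m =>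
          have h1 : d ≠ x := fun h2 => (List.isChain_cons_cons.1 hch).1 h2.symm
          show row (C (d :: ((m ++ [b]) ++ [x + 1]))).1 x = 0
          rw [C_cons, if_neg (fun h2 => h1 (add_right_cancel h2).symm)]
          exact (ax_row _ x (fin_b x d h1)).1
    · by_cases hb : b = x + 1
      · subst hb
        have hax : x + 1 ≠ a + 1 := fun h2 => hxa (add_right_cancel h2)
        rw [tw_right x a m hu hxa, C_cons, if_neg hax]
        have h0 : 2 * (x + 1 - 1) - a ≠ x := by
          have : ∀ x a : Fin 5, x ≠ a → 2 * (x + 1 - 1) - a ≠ x := by decide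
          exact this x a hxa
        rw [(ax_row _ x h0).2]
        rcases List.eq_nil_or_concat m with h | ⟨m', l, h⟩
        · subst h
          have h1 : a ≠ x + 1 := (List.isChain_cons_cons.1 hch).1
          show row (C (x :: ([] ++ [a]))).1 x = 0
          rw [C_cons, if_neg h1]
          exact (ax_row _ x (fin_d x a h1)).1
        · rw [List.concat_eq_append] at h
          subst h
          have h1 : l ≠ x + 1 := by
            have h2 : (a :: (m' ++ [l] ++ [x + 1])) = (a :: m') ++ [l, x + 1] := by simp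
            rw [h2] at hch
            exact (List.isChain_cons_cons.1 hch.right_of_append).1
          show row (C (x :: ((a :: m') ++ [l]))).1 x = 0
          rw [C_cons, if_neg h1]
          exact (ax_row _ x (fin_d x l h1)).1
      · rw [tw_far x a b m hu hxa hb, C_cons, if_pos rfl]
        exact (nx_spec hg x).2.1

/-- the digraph which belongs to a word -/
def Nw (v : V) (i j : Fin 5) : Bool := bt (C v.1).1 i && !bt (C v.1).1 j

theorem tw_len (x : Fin 5) (v : V) (hv : v.1.length % 2 = 0) :
    (tw x v).1.length % 2 = 0 := by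
  have h1 : ∀ (u : V) (y : Fin 5), (step u y).1.length % 2 = (u.1.length + 1) % 2 := by
    intro u y
    rw [val_step]
    split_ifs with h
    · obtain ⟨l, hl⟩ := u
      cases l with
      | nil => simp at h
      | cons a l =>
        show l.length % 2 = (l.length + 1 + 1) % 2
        omega
    · rw [List.length_cons]
  have h2 : (stepR v (x + 1)).1.length % 2 = (v.1.length + 1) % 2 := by
    show (step (rv v) (x + 1)).1.reverse.length % 2 = _
    rw [List.length_reverse, h1]
    show (v.1.reverse.length + 1) % 2 = _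
    rw [List.length_reverse]
  rw [tw, h1]
  omega

theorem Nw_star (v : V) (hv : v.1.length % 2 = 0) (q : Equiv.Perm (Fin 5)) :
    (Nw (tw (q 0) v) (q 0) (q 1)).toNat + (Nw (tw (q 1) v) (q 1) (q 0)).toNat +
      (Nw v (q 2) (q 3)).toNat + (Nw v (q 3) (q 4)).toNat + (Nw v (q 4) (q 2)).toNat = 1 := by
  have key : ∀ x y, Nw (tw x v) x y = bt (Fm (C v.1).2 x) y := by
    intro x y
    rw [← C_edge v hv x, row_bt _ (C_gd _ (tw_len x v hv)).1]
    rfl
  rw [key, key]
  have hq := q.injective
  have ne : ∀ i j : Fin 5, i ≠ j → q i ≠ q j := fun i j h h2 => h (hq h2)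
  exact (C_gd v.1 hv).2.1 (q 0) (q 1) (ne 1 0 (by decide)) (q 2)
    ⟨ne 2 0 (by decide), ne 2 1 (by decide)⟩ (q 3)
    ⟨ne 3 0 (by decide), ne 3 1 (by decide), ne 3 2 (by decide)⟩ (q 4)
    ⟨ne 4 0 (by decide), ne 4 1 (by decide), ne 4 2 (by decide), ne 4 3 (by decide)⟩

/-- rotations of the letters do not change the digraph -/
theorem Nw_rot (v : V) (hv : v.1.length % 2 = 0) (i j : Fin 5) :
    Nw (mp (Equiv.addRight 1) v) (i + 1) (j + 1) = Nw v i j := by
  have h1 : C (mp (Equiv.addRight 1) v).1 = rC (C v.1) := C_map v.1 hv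
  have h2 := (C_gd v.1 hv).1
  rw [Nw, h1, Nw]
  show (bt (rm (C v.1).1) (i + 1) && !bt (rm (C v.1).1) (j + 1)) = _
  rw [bt_rm _ h2, bt_rm _ h2]

theorem Nw_comm (v : V) (hv : v.1.length % 2 = 0) (s : Equiv.Perm (Fin 5))
    (hs : ∀ x, s (x + 1) = s x + 1) (i j : Fin 5) : Nw (mp s v) (s i) (s j) = Nw v i j := by
  have h1 : ∀ k : ℕ, ∀ i j : Fin 5,
      Nw (mp ((Equiv.addRight 1 : Equiv.Perm (Fin 5)) ^ k) v)
        (((Equiv.addRight 1 : Equiv.Perm (Fin 5)) ^ k) i)
        (((Equiv.addRight 1 : Equiv.Perm (Fin 5)) ^ k) j) = Nw v i j := by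
    intro k
    induction k with
    | zero =>
      intro i j
      have h2 : mp ((Equiv.addRight 1 : Equiv.Perm (Fin 5)) ^ 0) v = v := by
        apply Subtype.ext
        show v.1.map _ = v.1
        rw [pow_zero]
        exact List.map_id v.1
      rw [h2, pow_zero]
      rfl
    | succ k ih =>
      intro i j
      rw [pow_succ', ← mp_mp, Equiv.Perm.mul_apply, Equiv.Perm.mul_apply]
      rw [← ih i j]
      apply Nw_rot
      show (List.map _ v.1).length % 2 = 0
      rw [List.length_map]
      exact hv
  have h3 : ∀ x, s x = s 0 + x := by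
    have e : ∀ k : ℕ, ∀ x : Fin 5, x.val = k → s x = s 0 + x := by
      intro k
      induction k with
      | zero =>
        intro x hx
        have : x = 0 := Fin.ext hx
        rw [this, add_zero]
      | succ k ih =>
        intro x hx
        have hk : k < 5 := by omega
        have h4 : x = (⟨k, hk⟩ : Fin 5) + 1 := by
          apply Fin.ext
          rw [Fin.val_add, hx]
          show k + 1 = (k + 1) % 5
          omega
        rw [h4, hs, ih ⟨k, hk⟩ rfl, add_assoc]
    intro x
    exact e x.val x rfl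
  have h5 : s = (Equiv.addRight 1 : Equiv.Perm (Fin 5)) ^ (s 0).val := by
    apply Equiv.ext
    intro x
    rw [h3 x]
    generalize s 0 = a
    revert a x
    decide
  rw [h5]
  exact h1 _ i j

theorem ias (p : Equiv.Perm (Fin 5)) (x : Fin 5) : p⁻¹ (p x) = x := p.symm_apply_apply x

theorem ais (p : Equiv.Perm (Fin 5)) (x : Fin 5) : p (p⁻¹ x) = x := p.apply_symm_apply x

theorem case_C (H : Subgroup (Equiv.Perm V × Equiv.Perm (Fin 5))) (hH : IsStab H)
    (f : Equiv.Perm V × Equiv.Perm (Fin 5)) (hf : f ∈ H) (p : Equiv.Perm (Fin 5))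
    (hp : f.2 = p * Equiv.addRight 1 * p⁻¹) :
    ∃ N : V → Fin 5 → Fin 5 → Bool, (∀ z, Star N z) ∧ Inva H N := by
  have hfa := hH.aut f hf
  -- the word of `z`
  obtain ⟨w, hw⟩ : ∃ w : V → V, ∀ z, w z = mp p⁻¹ (gp z (f.1 z)) := ⟨_, fun _ => rfl⟩
  have hsg : Equiv.Perm.sign f.2 = 1 := by
    rw [hp, Equiv.Perm.sign_mul, Equiv.Perm.sign_mul, Equiv.Perm.sign_inv, mul_right_comm,
      Int.units_mul_self, one_mul]
    decide
  have hpar : par (f.1 root) = 0 := (hH.par f hf).1 hsg
  have hev : ∀ z, (w z).1.length % 2 = 0 := by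
    intro z
    have h1 := par_walk z (gp z (f.1 z))
    rw [walk_gp, par_aut hfa z, hpar, add_zero] at h1
    have h2 : (((gp z (f.1 z)).1.length : ℕ) : ZMod 2) = 0 := by
      have h3 := h1.symm
      rwa [add_eq_left] at h3
    rw [hw]
    show ((gp z (f.1 z)).1.map _).length % 2 = 0
    rw [List.length_map]
    exact Nat.mod_eq_zero_of_dvd ((ZMod.natCast_eq_zero_iff _ _).1 h2)
  have hstep : ∀ z y, w (step z (p y)) = tw y (w z) := by
    intro z y
    rw [hw, hfa z (p y), gp_step, mp_step, mp_stepR, ← hw, tw, ias]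
    have h1 : p⁻¹ (f.2 (p y)) = y + 1 := by
      rw [hp, Equiv.Perm.mul_apply, Equiv.Perm.mul_apply, ias,
        ias]
      rfl
    rw [h1]
  refine ⟨fun z i j => Nw (w z) (p⁻¹ i) (p⁻¹ j), ?_, ?_⟩
  · intro z q
    have h1 : ∀ i, q i = p ((p⁻¹ * q) i) := by
      intro i
      rw [Equiv.Perm.mul_apply, ais]
    have h2 := Nw_star (w z) (hev z) (p⁻¹ * q)
    rw [← hstep, ← hstep, ← h1, ← h1] at h2
    exact h2
  · intro k hk z i j
    have hka := hH.aut k hk
    have hc := hH.comm f hf k hk
    have hc1 : ∀ z, f.1 (k.1 z) = k.1 (f.1 z) := by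
      intro z
      have := congrArg (fun g => g.1 z) hc
      exact this
    have hc2 : ∀ x, f.2 (k.2 x) = k.2 (f.2 x) := by
      intro x
      have := congrArg (fun g => g.2 x) hc
      exact this
    have h1 : w (k.1 z) = mp (p⁻¹ * k.2 * p) (w z) := by
      rw [hw, hc1, gp_mp hka, hw, mp_mp, mp_mp, mul_assoc (p⁻¹ * k.2), mul_inv_cancel, mul_one]
    show Nw (w (k.1 z)) (p⁻¹ (k.2 i)) (p⁻¹ (k.2 j)) = Nw (w z) (p⁻¹ i) (p⁻¹ j)
    have h2 : ∀ i, p⁻¹ (k.2 i) = (p⁻¹ * k.2 * p) (p⁻¹ i) := by
      intro i
      rw [Equiv.Perm.mul_apply, Equiv.Perm.mul_apply, ais]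
    rw [h1, h2 i, h2 j]
    apply Nw_comm _ (hev z)
    intro x
    have h3 : f.2 (p x) = p (x + 1) := by
      rw [hp, Equiv.Perm.mul_apply, Equiv.Perm.mul_apply, ias]
      rfl
    have h4 : f.2 (k.2 (p x)) = p (p⁻¹ (k.2 (p x)) + 1) := by
      rw [hp, Equiv.Perm.mul_apply, Equiv.Perm.mul_apply]
      rfl
    show p⁻¹ (k.2 (p (x + 1))) = p⁻¹ (k.2 (p x)) + 1
    rw [← h3, ← hc2, h4, ias]

end Pool.Agent.MP_f406e2_lc_Q5.Orb
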