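import Mathlib

/-!
# Q5, module OrbPerm: commuting permutations of five letters (finite checks)
-/

set_option autoImplicit false

namespace Pool.Agent.MP_f406e2_lc_Q5.Orb

/-- number of letters which are moved -/
def mv (s : Equiv.Perm (Fin 5)) : ℕ := (Finset.univ.filter fun j => s j ≠ j).card

lemma mv_step : ∀ s t : Equiv.Perm (Fin 5), t * s = s * t → ∀ j, s j = j → t j ≠ j →
    mv s < mv t ∨ mv s < mv (s * t) := by
  decide +kernel

lemma five_or_six : ∀ s : Equiv.Perm (Fin 5), (∀ j, s j ≠ j) →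
    (∃ p : Equiv.Perm (Fin 5), s = p * Equiv.addRight 1 * p⁻¹) ∨ ∃ D, s (s D) = D := by
  decide +kernel

/-- decidable form of the conclusion of `six_comm` -/
def sixB (s t : Equiv.Perm (Fin 5)) (D : Fin 5) : Bool :=
  decide ((t D = D ∧ t (s D) = s D ∧ Equiv.Perm.sign t = 1) ∨
    (t D = s D ∧ t (s D) = D ∧ Equiv.Perm.sign t = -1))

lemma six_comm0 : ∀ s : Equiv.Perm (Fin 5), (∀ j, s j ≠ j) → ∀ t : Equiv.Perm (Fin 5),
    t * s = s * t → ∀ D, s (s D) = D → sixB s t D = true := by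
  decide +kernel

lemma exists_mv (A : Set (Equiv.Perm (Fin 5))) (h1 : 1 ∈ A)
    (hmul : ∀ s ∈ A, ∀ t ∈ A, s * t ∈ A) (hcomm : ∀ s ∈ A, ∀ t ∈ A, s * t = t * s)
    (hno : ∀ j, ∃ s ∈ A, s j ≠ j) (n : ℕ) (hn : n ≤ 5) : ∃ s ∈ A, n ≤ mv s := by
  induction n with
  | zero => exact ⟨1, h1, Nat.zero_le _⟩
  | succ n ih =>
    obtain ⟨s, hs, hsn⟩ := ih (by omega)
    by_cases hfix : ∃ j, s j = j
    · obtain ⟨j, hj⟩ := hfix
      obtain ⟨t, ht, htj⟩ := hno j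
      rcases mv_step s t (hcomm t ht s hs) j hj htj with h | h
      · exact ⟨t, ht, by omega⟩
      · exact ⟨s * t, hmul s hs t ht, by omega⟩
    · push Not at hfix
      refine ⟨s, hs, ?_⟩
      have h2 : mv s = 5 := by
        rw [mv, Finset.filter_true_of_mem fun j _ => hfix j]
        rfl
      omega

lemma exists_derangement (A : Set (Equiv.Perm (Fin 5))) (h1 : 1 ∈ A)
    (hmul : ∀ s ∈ A, ∀ t ∈ A, s * t ∈ A) (hcomm : ∀ s ∈ A, ∀ t ∈ A, s * t = t * s)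
    (hno : ∀ j, ∃ s ∈ A, s j ≠ j) : ∃ s ∈ A, ∀ j, s j ≠ j := by
  obtain ⟨s, hs, hs5⟩ := exists_mv A h1 hmul hcomm hno 5 le_rfl
  refine ⟨s, hs, fun j hj => ?_⟩
  have h2 : (Finset.univ.filter fun j => s j ≠ j) ⊂ Finset.univ := by
    rw [Finset.filter_ssubset]
    exact ⟨j, Finset.mem_univ _, fun h => h hj⟩
  have h3 := Finset.card_lt_card h2
  rw [Finset.card_univ, Fintype.card_fin] at h3
  rw [mv] at hs5
  omega

theorem perm_cases (A : Set (Equiv.Perm (Fin 5))) (h1 : 1 ∈ A)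
    (hmul : ∀ s ∈ A, ∀ t ∈ A, s * t ∈ A) (hcomm : ∀ s ∈ A, ∀ t ∈ A, s * t = t * s) :
    (∃ j, ∀ s ∈ A, s j = j) ∨
      (∃ s ∈ A, ∃ p : Equiv.Perm (Fin 5), s = p * Equiv.addRight 1 * p⁻¹) ∨
      ∃ s ∈ A, ∃ D E, D ≠ E ∧ s D = E ∧ s E = D ∧ ∀ t ∈ A,
        (t D = D ∧ t E = E ∧ Equiv.Perm.sign t = 1) ∨
          (t D = E ∧ t E = D ∧ Equiv.Perm.sign t = -1) := by
  by_cases hno : ∃ j, ∀ s ∈ A, s j = j
  · exact Or.inl hno
  push Not at hno
  obtain ⟨s, hs, hs1⟩ := exists_derangement A h1 hmul hcomm hno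
  rcases five_or_six s hs1 with h | ⟨D, hD⟩
  · exact Or.inr (Or.inl ⟨s, hs, h⟩)
  · refine Or.inr (Or.inr ⟨s, hs, D, s D, fun h => hs1 D h.symm, rfl, hD, fun t ht => ?_⟩)
    have h2 := six_comm0 s hs1 t (hcomm t ht s hs) D hD
    exact of_decide_eq_true h2

end Pool.Agent.MP_f406e2_lc_Q5.Orb
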