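import Mathlib
import Pool.Agent.Lib.MP_f406e2_lc_Q5.OrbDefs

/-!
# Q5, module OrbSol: the exact solutions with labels

* `star_match`: a perfect matching `u`, `N z a b = [a = u z]`.
* `star_sink`: `N z a b = [b = v z]`, where `v z` is one of two letters `D`, `E` and changes exactly
  when one of them is crossed.
* `case_A`, `case_B`: the invariant solutions.
-/

set_option autoImplicit false

namespace Pool.Agent.MP_f406e2_lc_Q5.Orb

theorem star_match (u : V → Fin 5) (hu : ∀ z, u (step z (u z)) = u z) (z : V) :
    Star (fun z a _ => decide (a = u z)) z := by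
  have key : ∀ d, d = u (step z d) ↔ d = u z := by
    intro d
    constructor
    · intro h
      have h1 := hu (step z d)
      rw [← h, step_step] at h1
      exact h1.symm
    · intro h
      have h1 := hu z
      rw [← h] at h1
      exact h1.symm
  intro p
  obtain ⟨i, hi⟩ : ∃ i, p i = u z := ⟨p.symm (u z), p.apply_symm_apply _⟩
  have h1 : ∀ k, (p k = u z) ↔ (k = i) := fun k => by rw [← hi, p.injective.eq_iff]
  simp only [key, h1]
  fin_cases i <;> simp

theorem star_sink (D E : Fin 5) (v : V → Fin 5) (hv : ∀ z, v z = D ∨ v z = E)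
    (h1 : ∀ z d, d ≠ D → d ≠ E → v (step z d) = v z)
    (h2 : ∀ z d, d = D ∨ d = E → v (step z d) ≠ v z) (z : V) :
    Star (fun z _ b => decide (b = v z)) z := by
  have key : ∀ d e, d ≠ e → d ≠ v z → e ≠ v z → ¬ (e = v (step z d)) := by
    intro d e hde hd he h
    by_cases hDE : d = D ∨ d = E
    · have h3 := h2 z d hDE
      rcases hv z with h4 | h4 <;> rcases hv (step z d) with h5 | h5 <;> rcases hDE with h6 | h6 <;>
        simp_all
    · push Not at hDE
      rw [h1 z d hDE.1 hDE.2] at h
      exact he h
  have key2 : ∀ d e, d ≠ e → d = v z → ((e = v (step z d)) ↔ ¬ (d = v (step z e))) := by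
    intro d e hde hd
    have hdD : d = D ∨ d = E := by rw [hd]; exact hv z
    have h3 := h2 z d hdD
    by_cases heD : e = D ∨ e = E
    · have h4 := h2 z e heD
      rcases hv z with h5 | h5 <;> rcases hv (step z d) with h6 | h6 <;>
        rcases hv (step z e) with h7 | h7 <;> rcases heD with h8 | h8 <;> simp_all
    · push Not at heD
      have h4 := h1 z e heD.1 heD.2
      have h5 : ¬ (e = v (step z d)) := by
        intro h6
        rcases hv (step z d) with h7 | h7
        · exact heD.1 (h6.trans h7)
        · exact heD.2 (h6.trans h7)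
      rw [h4]
      exact iff_of_false h5 (not_not.2 hd)
  intro p
  obtain ⟨i, hi⟩ : ∃ i, p i = v z := ⟨p.symm (v z), p.apply_symm_apply _⟩
  have h3 : ∀ k, (p k = v z) ↔ (k = i) := fun k => by rw [← hi, p.injective.eq_iff]
  have hne : ∀ j k : Fin 5, j ≠ k → p j ≠ p k := fun j k h h' => h (p.injective h')
  simp only [h3]
  by_cases hi0 : i = 0
  · subst hi0
    have h4 := key2 (p 0) (p 1) (hne 0 1 (by decide)) hi
    by_cases h5 : p 0 = v (step z (p 1))
    · have h6 : ¬ (p 1 = v (step z (p 0))) := fun h => h4.1 h h5
      rw [decide_eq_true h5, decide_eq_false h6]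
      simp
    · have h6 : p 1 = v (step z (p 0)) := h4.2 h5
      rw [decide_eq_false h5, decide_eq_true h6]
      simp
  · by_cases hi1 : i = 1
    · subst hi1
      have h4 := key2 (p 1) (p 0) (hne 1 0 (by decide)) hi
      by_cases h5 : p 1 = v (step z (p 0))
      · have h6 : ¬ (p 0 = v (step z (p 1))) := fun h => h4.1 h h5
        rw [decide_eq_true h5, decide_eq_false h6]
        simp
      · have h6 : p 0 = v (step z (p 1)) := h4.2 h5
        rw [decide_eq_false h5, decide_eq_true h6]
        simp
    · have hd : p 0 ≠ v z := fun h => hi0 ((h3 0).1 h).symm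
      have he : p 1 ≠ v z := fun h => hi1 ((h3 1).1 h).symm
      have h4 := key (p 0) (p 1) (hne 0 1 (by decide)) hd he
      have h5 := key (p 1) (p 0) (hne 1 0 (by decide)) he hd
      simp only [h4, h5]
      fin_cases i <;> simp_all

theorem case_A (H : Subgroup (Equiv.Perm V × Equiv.Perm (Fin 5))) (j : Fin 5)
    (hj : ∀ h ∈ H, h.2 j = j) :
    ∃ N : V → Fin 5 → Fin 5 → Bool, (∀ z, Star N z) ∧ Inva H N := by
  refine ⟨fun _ a _ => decide (a = j), star_match (fun _ => j) (fun _ => rfl), ?_⟩
  intro h hh z a b
  have h1 : (h.2 a = j) ↔ (a = j) := by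
    conv_lhs => rw [← hj h hh]
    exact h.2.injective.eq_iff
  simp only [h1]

/-- the number of letters `D`, `E` modulo 2 -/
def al (D E : Fin 5) (z : V) : ZMod 2 := cnt z D + cnt z E

lemma al_step (D E : Fin 5) (hDE : D ≠ E) (z : V) (d : Fin 5) :
    al D E (step z d) = al D E z + if d = D ∨ d = E then 1 else 0 := by
  rw [al, al, cnt_step, cnt_step]
  by_cases h1 : d = D
  · subst h1
    have h2 : ¬ E = d := fun h => hDE h.symm
    simp [h2]
    ring
  · by_cases h2 : d = E
    · subst h2
      have h3 : ¬ D = d := fun h => h1 h.symm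
      simp [h3]
      ring
    · have h3 : ¬ D = d := fun h => h1 h.symm
      have h4 : ¬ E = d := fun h => h2 h.symm
      simp [h1, h2, h3, h4]

lemma al_aut {D E : Fin 5} {θ : V → V} {s : Equiv.Perm (Fin 5)} (h : IsAut θ s)
    (hs : (s D = D ∧ s E = E) ∨ (s D = E ∧ s E = D)) (z : V) :
    al D E (θ z) = al D E z + al D E (θ root) := by
  have h1 := cnt_aut h z D
  have h2 := cnt_aut h z E
  rw [al, al, al]
  rcases hs with ⟨h3, h4⟩ | ⟨h3, h4⟩
  · rw [h3] at h1
    rw [h4] at h2
    rw [h1, h2]
    ring
  · rw [h3] at h1
    rw [h4] at h2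
    rw [h1, h2]
    ring

lemma zmod2_cases (x : ZMod 2) : x = 0 ∨ x = 1 := by
  revert x
  decide

theorem case_B (H : Subgroup (Equiv.Perm V × Equiv.Perm (Fin 5))) (hH : IsStab H)
    (f : Equiv.Perm V × Equiv.Perm (Fin 5)) (hf : f ∈ H) (D E : Fin 5) (hDE : D ≠ E)
    (hfD : f.2 D = E)
    (hI : ∀ g ∈ H, (g.2 D = D ∧ g.2 E = E ∧ Equiv.Perm.sign g.2 = 1) ∨
      (g.2 D = E ∧ g.2 E = D ∧ Equiv.Perm.sign g.2 = -1)) :
    ∃ N : V → Fin 5 → Fin 5 → Bool, (∀ z, Star N z) ∧ Inva H N := by
  have hne : ((-1 : ℤˣ)) ≠ 1 := by decide
  have hs : ∀ g ∈ H, (g.2 D = D ∧ g.2 E = E) ∨ (g.2 D = E ∧ g.2 E = D) := by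
    intro g hg
    rcases hI g hg with h | h
    · exact Or.inl ⟨h.1, h.2.1⟩
    · exact Or.inr ⟨h.1, h.2.1⟩
  have key : ∀ g ∈ H, (g.2 D = E → al D E (g.1 root) = al D E (f.1 root)) ∧
      (g.2 D = D → al D E (g.1 root) = 0) := by
    intro g hg
    have h1 := hH.comm f hf g hg
    have h2 : f.1 (g.1 root) = g.1 (f.1 root) := by
      have := congrArg (fun e : Equiv.Perm V × Equiv.Perm (Fin 5) => e.1 root) h1
      exact this
    have hfa := hH.aut f hf
    have hga := hH.aut g hg
    have h3 := cnt_aut hfa (g.1 root) D
    have h4 := cnt_aut hga (f.1 root)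
    rw [hfD, h2] at h3
    -- h3 : cnt (g (f root)) E = cnt (g root) D + cnt (f root) E
    constructor
    · intro h5
      have h6 := h4 D
      rw [h5, h3] at h6
      -- cnt (g root) D + cnt (f root) E = cnt (f root) D + cnt (g root) E
      rw [al, al]
      have h7 : ∀ a b c d : ZMod 2, a + b = c + d → a + d = c + b := by decide
      exact h7 _ _ _ _ h6
    · intro h5
      have h6 : g.2 E = E := by
        rcases hs g hg with h | h
        · exact h.2
        · exact absurd (h5.symm.trans h.1) hDE
      have h7 := h4 E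
      rw [h6, h3] at h7
      rw [al]
      have h8 : ∀ a b c : ZMod 2, a + b = b + c → a + c = 0 := by decide
      exact h8 _ _ _ h7
  have hpar : ∀ g ∈ H, par (g.1 root) = 0 ↔ g.2 D = D := by
    intro g hg
    rw [← hH.par g hg]
    rcases hI g hg with h | h
    · exact iff_of_true h.2.2 h.1
    · rw [h.2.2]
      exact iff_of_false hne (fun h' => hDE (h'.symm.trans h.1))
  rcases zmod2_cases (al D E (f.1 root)) with h0 | h0
  · -- matching by the number of the other letters
    set be : V → ZMod 2 := fun z => par z + al D E z with hbe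
    have hbe_step : ∀ z d, be (step z d) = be z + if d = D ∨ d = E then 0 else 1 := by
      intro z d
      rw [hbe]
      simp only [par_step, al_step D E hDE]
      have h2 : (1 : ZMod 2) + 1 = 0 := by decide
      split_ifs with h
      · linear_combination h2
      · ring
    set u : V → Fin 5 := fun z => if be z = 0 then D else E with hu
    have hu1 : ∀ z, u z = D ∨ u z = E := by
      intro z
      simp only [hu]
      split_ifs
      · exact Or.inl rfl
      · exact Or.inr rfl
    have hu2 : ∀ z, u (step z (u z)) = u z := by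
      intro z
      have h1 : be (step z (u z)) = be z := by
        rw [hbe_step, if_pos (hu1 z), add_zero]
      simp only [hu] at h1 ⊢
      rw [h1]
    refine ⟨fun z a _ => decide (a = u z), star_match u hu2, ?_⟩
    intro g hg z a b
    have h1 : u (g.1 z) = g.2 (u z) := by
      have h2 : be (g.1 z) = be z + be (g.1 root) := by
        simp only [hbe]
        rw [par_aut (hH.aut g hg), al_aut (hH.aut g hg) (hs g hg)]
        ring
      rcases hs g hg with h3 | h3
      · have h4 : be (g.1 root) = 0 := by
          simp only [hbe]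
          rw [(hpar g hg).2 h3.1, (key g hg).2 h3.1, add_zero]
        rw [h4, add_zero] at h2
        simp only [hu, h2]
        split_ifs
        · exact h3.1.symm
        · exact h3.2.symm
      · have h5 : par (g.1 root) ≠ 0 := fun h => hDE (((hpar g hg).1 h).symm.trans h3.1)
        have h4 : be (g.1 root) = 1 := by
          simp only [hbe]
          rw [(key g hg).1 h3.1, h0, add_zero]
          rcases zmod2_cases (par (g.1 root)) with h6 | h6
          · exact absurd h6 h5
          · exact h6
        rw [h4] at h2
        have h7 : be (g.1 z) = 0 ↔ be z ≠ 0 := by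
          rw [h2]
          generalize be z = t
          revert t
          decide
        simp only [hu]
        by_cases h8 : be z = 0
        · rw [if_neg (fun h => (h7.1 h) h8), if_pos h8]
          exact h3.1.symm
        · rw [if_pos (h7.2 h8), if_neg h8]
          exact h3.2.symm
    simp only [h1, g.2.injective.eq_iff]
  · -- sink
    set v : V → Fin 5 := fun z => if al D E z = 0 then D else E with hv
    have hv1 : ∀ z, v z = D ∨ v z = E := by
      intro z
      simp only [hv]
      split_ifs
      · exact Or.inl rfl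
      · exact Or.inr rfl
    refine ⟨fun z _ b => decide (b = v z), star_sink D E v hv1 ?_ ?_, ?_⟩
    · intro z d h1 h2
      have h3 : al D E (step z d) = al D E z := by
        rw [al_step D E hDE, if_neg (by tauto), add_zero]
      simp only [hv, h3]
    · intro z d h1 h2
      have h3 : al D E (step z d) = al D E z + 1 := by
        rw [al_step D E hDE, if_pos h1]
      simp only [hv, h3] at h2
      have h4 : ∀ t : ZMod 2, (t + 1 = 0) ↔ ¬ (t = 0) := by decide
      by_cases h5 : al D E z = 0
      · rw [if_neg (fun h => ((h4 _).1 h) h5), if_pos h5] at h2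
        exact hDE h2.symm
      · rw [if_pos ((h4 _).2 h5), if_neg h5] at h2
        exact hDE h2
    · intro g hg z a b
      have h1 : v (g.1 z) = g.2 (v z) := by
        have h2 := al_aut (hH.aut g hg) (hs g hg) z
        rcases hs g hg with h3 | h3
        · rw [(key g hg).2 h3.1, add_zero] at h2
          simp only [hv, h2]
          split_ifs
          · exact h3.1.symm
          · exact h3.2.symm
        · rw [(key g hg).1 h3.1, h0] at h2
          have h4 : ∀ t : ZMod 2, (t + 1 = 0) ↔ ¬ (t = 0) := by decide
          simp only [hv, h2]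
          by_cases h5 : al D E z = 0
          · rw [if_neg (fun h => ((h4 _).1 h) h5), if_pos h5]
            exact h3.1.symm
          · rw [if_pos ((h4 _).2 h5), if_neg h5]
            exact h3.2.symm
      simp only [h1, g.2.injective.eq_iff]

end Pool.Agent.MP_f406e2_lc_Q5.Orb
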