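import Mathlib
import Pool.Agent.Lib.MP_f406e2_lc_Q5.OrbSol
import Pool.Agent.Lib.MP_f406e2_lc_Q5.OrbPerm
import Pool.Agent.Lib.MP_f406e2_lc_Q5.OrbFive

/-!
# Q5, module OrbMain: the exact solution for every commutative stabiliser
-/

set_option autoImplicit false

namespace Pool.Agent.MP_f406e2_lc_Q5.Orb

theorem orb_main (H : Subgroup (Equiv.Perm V × Equiv.Perm (Fin 5))) (hH : IsStab H) :
    ∃ N : V → Fin 5 → Fin 5 → Bool, (∀ z, Star N z) ∧ Inva H N := by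
  have h1 : (1 : Equiv.Perm (Fin 5)) ∈ {s | ∃ h ∈ H, h.2 = s} := ⟨1, H.one_mem, rfl⟩
  have hmul : ∀ s ∈ {s | ∃ h ∈ H, h.2 = s}, ∀ t ∈ {s | ∃ h ∈ H, h.2 = s},
      s * t ∈ {s | ∃ h ∈ H, h.2 = s} := by
    rintro s ⟨h, hh, rfl⟩ t ⟨h', hh', rfl⟩
    exact ⟨h * h', H.mul_mem hh hh', rfl⟩
  have hcomm : ∀ s ∈ {s | ∃ h ∈ H, h.2 = s}, ∀ t ∈ {s | ∃ h ∈ H, h.2 = s}, s * t = t * s := by
    rintro s ⟨h, hh, rfl⟩ t ⟨h', hh', rfl⟩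
    exact congrArg Prod.snd (hH.comm h hh h' hh')
  rcases perm_cases _ h1 hmul hcomm with ⟨j, hj⟩ | ⟨s, ⟨f, hf, hfs⟩, p, hp⟩ |
    ⟨s, ⟨f, hf, hfs⟩, D, E, hDE, hD, -, hI⟩
  · exact case_A H j fun h hh => hj h.2 ⟨h, hh, rfl⟩
  · exact case_C H hH f hf p (hfs.trans hp)
  · exact case_B H hH f hf D E hDE (by rw [hfs, hD]) fun g hg => hI g.2 ⟨g, hg, rfl⟩

end Pool.Agent.MP_f406e2_lc_Q5.Orb
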