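import Mathlib
import Pool.Agent.Lib.MP_f406e2_lc_Q5.TreeL
import Pool.Agent.Lib.MP_f406e2_lc_Q5.OrbMain

/-!
# Q5, module Orb: the combinatorial theorem (owner: helper1, helper25)
-/

set_option autoImplicit false

namespace Pool.Agent.MP_f406e2_lc_Q5

lemma rd_iff (l : Wd) : Orb.Rd l ↔ RedW l := by
  induction l with
  | nil => exact iff_of_true trivial List.isChain_nil
  | cons a l ih =>
    cases l with
    | nil =>
      refine iff_of_true ⟨by simp, trivial⟩ (List.isChain_singleton a)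
    | cons b l =>
      show ((b :: l).head? ≠ some a ∧ Orb.Rd (b :: l)) ↔ RedW (a :: b :: l)
      rw [ih, RedW, RedW, List.isChain_cons_cons, List.head?_cons, Ne, Option.some_inj]
      constructor
      · rintro ⟨h1, h2⟩
        exact ⟨fun h => h1 h.symm, h2⟩
      · rintro ⟨h1, h2⟩
        exact ⟨fun h => h1 h.symm, h2⟩

lemma orb_step_val (z : Orb.V) (d : Fin 5) : (Orb.step z d).1 = step z.1 d := by
  obtain ⟨l, hl⟩ := z
  cases l with
  | nil =>
    rw [Orb.step_of_ne (by simp)]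
    rfl
  | cons a l =>
    by_cases h : a = d
    · subst h
      rw [Orb.step_of_head rfl]
      show l = if a = a then l else a :: a :: l
      rw [if_pos rfl]
    · rw [Orb.step_of_ne (by simpa using h)]
      show d :: a :: l = if a = d then l else d :: a :: l
      rw [if_neg h]

lemma orb_par (z : Orb.V) : Orb.par z = (z.1.length : ZMod 2) := by
  refine Orb.V_ind (P := fun z => Orb.par z = (z.1.length : ZMod 2)) (Orb.par_root.trans rfl) ?_ z
  intro z d ih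
  rw [Orb.par_step, ih, orb_step_val]
  have h1 := step_length z.1 d
  have h2 : ((step z.1 d).length : ZMod 2) = ((z.1.length + 1 : ℕ) : ZMod 2) := by
    rw [ZMod.natCast_eq_natCast_iff]
    exact h1
  rw [h2]
  push_cast
  rfl

/-- **The exact solution for every abelian stabiliser.** -/
theorem orb (H : Set (S5 × Wd)) (h1 : ((1 : S5), ([] : Wd)) ∈ H)
    (hmul : ∀ a ∈ H, ∀ b ∈ H, pmul a b ∈ H)
    (hinv : ∀ a ∈ H, ∃ b ∈ H, pmul a b = (1, []) ∧ pmul b a = (1, []))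
    (hred : ∀ a ∈ H, RedW a.2)
    (hsign : ∀ a ∈ H, Equiv.Perm.sign a.1 = (-1) ^ a.2.length)
    (hcomm : ∀ a ∈ H, ∀ b ∈ H, pmul a b = pmul b a) :
    ∃ X : Wd → Fin 5 → Fin 5 → Prop, Ok X ∧
      ∀ a ∈ H, ∀ z, RedW z → ∀ i j, (X (act a.1 a.2 z) (a.1 i) (a.1 j) ↔ X z i j) := by
  have hred' : ∀ z : Orb.V, RedW z.1 := fun z => (rd_iff z.1).1 z.2
  have hpm : ∀ a ∈ H, ∀ b ∈ H, ∀ z : Orb.V, act a.1 a.2 (act b.1 b.2 z.1) =
      act (pmul a b).1 (pmul a b).2 z.1 := fun a ha b hb z =>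
    act_act a.1 b.1 a.2 b.2 z.1 (hred a ha) (hred b hb) (hred' z)
  have hone : ∀ z : Orb.V, act 1 [] z.1 = z.1 := fun z => act_one z.1 (hred' z)
  let K : Subgroup (Equiv.Perm Orb.V × Equiv.Perm (Fin 5)) :=
    { carrier := {e | ∃ a ∈ H, e.2 = a.1 ∧ ∀ z, (e.1 z).1 = act a.1 a.2 z.1}
      one_mem' := ⟨(1, []), h1, rfl, fun z => (hone z).symm⟩
      mul_mem' := by
        rintro e e' ⟨a, ha, h2, h3⟩ ⟨b, hb, h4, h5⟩
        refine ⟨pmul a b, hmul a ha b hb, ?_, fun z => ?_⟩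
        · show e.2 * e'.2 = a.1 * b.1
          rw [h2, h4]
        · show (e.1 (e'.1 z)).1 = _
          rw [h3, h5, hpm a ha b hb]
      inv_mem' := by
        rintro e ⟨a, ha, h2, h3⟩
        obtain ⟨b, hb, h4, h5⟩ := hinv a ha
        refine ⟨b, hb, ?_, fun z => ?_⟩
        · show e.2⁻¹ = b.1
          rw [h2]
          have h6 : a.1 * b.1 = 1 := congrArg Prod.fst h4
          exact inv_eq_of_mul_eq_one_right h6
        · have h6 : Orb.Rd (act b.1 b.2 z.1) := (rd_iff _).2 (act_red _ _ _ (hred b hb))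
          have h7 : e.1 ⟨act b.1 b.2 z.1, h6⟩ = z := by
            apply Subtype.ext
            rw [h3]
            show act a.1 a.2 (act b.1 b.2 z.1) = z.1
            rw [hpm a ha b hb, h4]
            exact hone z
          have h8 : e.1.symm z = ⟨act b.1 b.2 z.1, h6⟩ := (Equiv.symm_apply_eq _).2 h7.symm
          exact congrArg Subtype.val h8 }
  have hK : ∀ e, e ∈ K ↔ ∃ a ∈ H, e.2 = a.1 ∧ ∀ z, (e.1 z).1 = act a.1 a.2 z.1 := fun _ => Iff.rfl
  have hstab : Orb.IsStab K := by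
    refine ⟨?_, ?_, ?_⟩
    · rintro e ⟨a, ha, h2, h3⟩ z d
      apply Subtype.ext
      rw [h3, orb_step_val, orb_step_val, h3, h2]
      exact act_step a.1 a.2 z.1 (hred a ha) (hred' z) d
    · rintro e ⟨a, ha, h2, h3⟩ e' ⟨b, hb, h4, h5⟩
      refine Prod.ext (Equiv.ext fun z => Subtype.ext ?_) ?_
      · show (e.1 (e'.1 z)).1 = (e'.1 (e.1 z)).1
        rw [h3, h5, h5, h3, hpm a ha b hb, hpm b hb a ha, hcomm a ha b hb]
      · show e.2 * e'.2 = e'.2 * e.2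
        rw [h2, h4]
        exact congrArg Prod.fst (hcomm a ha b hb)
    · rintro e ⟨a, ha, h2, h3⟩
      rw [h2, hsign a ha, orb_par, h3]
      show (-1 : ℤˣ) ^ a.2.length = 1 ↔ ((act a.1 a.2 []).length : ZMod 2) = 0
      rw [act_nil, ZMod.natCast_eq_zero_iff_even]
      constructor
      · intro h4
        by_contra h5
        rw [Nat.not_even_iff_odd] at h5
        rw [h5.neg_one_pow] at h4
        exact absurd h4 (by decide)
      · intro h4
        exact h4.neg_one_pow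
  obtain ⟨N, hN, hinvN⟩ := Orb.orb_main K hstab
  refine ⟨fun z i j => ∃ h : Orb.Rd z, N ⟨z, h⟩ i j = true, ?_, ?_⟩
  · intro z hz p
    have hz' : Orb.Rd z := (rd_iff z).2 hz
    have hX : ∀ (y : Orb.V) i j, (∃ h : Orb.Rd y.1, N ⟨y.1, h⟩ i j = true) ↔ N y i j = true :=
      fun y i j => ⟨fun ⟨_, h⟩ => h, fun h => ⟨y.2, h⟩⟩
    have hs : ∀ d, step z d = (Orb.step ⟨z, hz'⟩ d).1 := fun d => (orb_step_val ⟨z, hz'⟩ d).symm
    have h2 := hN ⟨z, hz'⟩ (p * (Equiv.swap 0 1 * Equiv.swap 1 2 * Equiv.swap 3 4))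
    have e0 : (Equiv.swap 0 1 * Equiv.swap 1 2 * Equiv.swap 3 4 : Equiv.Perm (Fin 5)) 0 = 1 := by
      decide
    have e1 : (Equiv.swap 0 1 * Equiv.swap 1 2 * Equiv.swap 3 4 : Equiv.Perm (Fin 5)) 1 = 2 := by
      decide
    have e2 : (Equiv.swap 0 1 * Equiv.swap 1 2 * Equiv.swap 3 4 : Equiv.Perm (Fin 5)) 2 = 0 := by
      decide
    have e3 : (Equiv.swap 0 1 * Equiv.swap 1 2 * Equiv.swap 3 4 : Equiv.Perm (Fin 5)) 3 = 4 := by
      decide
    have e4 : (Equiv.swap 0 1 * Equiv.swap 1 2 * Equiv.swap 3 4 : Equiv.Perm (Fin 5)) 4 = 3 := by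
      decide
    simp only [Equiv.Perm.mul_apply] at h2 e0 e1 e2 e3 e4
    simp only [e0, e1, e2, e3, e4] at h2
    have t0 : (∃ h : Orb.Rd (nb z p 0), N ⟨nb z p 0, h⟩ (p 0) (p (sg 0 4)) = true) ↔
        N ⟨z, hz'⟩ (p 0) (p 4) = true := hX ⟨z, hz'⟩ _ _
    have t3 : (∃ h : Orb.Rd (nb z p 3), N ⟨nb z p 3, h⟩ (p 3) (p (sg 3 4)) = true) ↔
        N ⟨z, hz'⟩ (p 3) (p 0) = true := hX ⟨z, hz'⟩ _ _
    have t4 : (∃ h : Orb.Rd (nb z p 4), N ⟨nb z p 4, h⟩ (p 4) (p (sg 4 4)) = true) ↔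
        N ⟨z, hz'⟩ (p 4) (p 3) = true := hX ⟨z, hz'⟩ _ _
    have t1 : (∃ h : Orb.Rd (nb z p 1), N ⟨nb z p 1, h⟩ (p 1) (p (sg 1 4)) = true) ↔
        N (Orb.step ⟨z, hz'⟩ (p 1)) (p 1) (p 2) = true := by
      have e5 : nb z p 1 = (Orb.step ⟨z, hz'⟩ (p 1)).1 := (if_pos (by decide)).trans (hs _)
      rw [e5]
      exact hX _ _ _
    have t2 : (∃ h : Orb.Rd (nb z p 2), N ⟨nb z p 2, h⟩ (p 2) (p (sg 2 4)) = true) ↔
        N (Orb.step ⟨z, hz'⟩ (p 2)) (p 2) (p 1) = true := by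
      have e5 : nb z p 2 = (Orb.step ⟨z, hz'⟩ (p 2)).1 := (if_pos (by decide)).trans (hs _)
      rw [e5]
      exact hX _ _ _
    generalize N ⟨z, hz'⟩ (p 0) (p 4) = b0 at h2 t0
    generalize N (Orb.step ⟨z, hz'⟩ (p 1)) (p 1) (p 2) = b1 at h2 t1
    generalize N (Orb.step ⟨z, hz'⟩ (p 2)) (p 2) (p 1) = b2 at h2 t2
    generalize N ⟨z, hz'⟩ (p 3) (p 0) = b3 at h2 t3
    generalize N ⟨z, hz'⟩ (p 4) (p 3) = b4 at h2 t4
    have key : ∀ i : Fin 5, (∃ h : Orb.Rd (nb z p i), N ⟨nb z p i, h⟩ (p i) (p (sg i 4)) = true) ↔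
        (![b0, b1, b2, b3, b4] i) = true := by
      intro i
      fin_cases i
      · exact t0
      · exact t1
      · exact t2
      · exact t3
      · exact t4
    simp only [key]
    clear t0 t1 t2 t3 t4 key
    simp only [ExistsUnique]
    revert b0 b1 b2 b3 b4
    decide
  · intro a ha z hz i j
    have hz' : Orb.Rd z := (rd_iff z).2 hz
    obtain ⟨b, hb, h4, h5⟩ := hinv a ha
    let e : Equiv.Perm Orb.V :=
      { toFun := fun y => ⟨act a.1 a.2 y.1, (rd_iff _).2 (act_red _ _ _ (hred a ha))⟩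
        invFun := fun y => ⟨act b.1 b.2 y.1, (rd_iff _).2 (act_red _ _ _ (hred b hb))⟩
        left_inv := fun y => Subtype.ext (by
          show act b.1 b.2 (act a.1 a.2 y.1) = y.1
          rw [hpm b hb a ha, h5]
          exact hone y)
        right_inv := fun y => Subtype.ext (by
          show act a.1 a.2 (act b.1 b.2 y.1) = y.1
          rw [hpm a ha b hb, h4]
          exact hone y) }
    have he : ((e, a.1) : Equiv.Perm Orb.V × Equiv.Perm (Fin 5)) ∈ K :=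
      (hK _).2 ⟨a, ha, rfl, fun _ => rfl⟩
    have h6 := hinvN (e, a.1) he ⟨z, hz'⟩ i j
    constructor
    · rintro ⟨h7, h8⟩
      exact ⟨hz', h6 ▸ h8⟩
    · rintro ⟨h7, h8⟩
      exact ⟨(rd_iff _).2 (act_red _ _ _ (hred a ha)), h6.trans h8⟩

end Pool.Agent.MP_f406e2_lc_Q5
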