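import Mathlib
import Pool.Agent.Lib.MP_f406e2_lc_Q5.Faith
import Pool.Agent.Lib.MP_f406e2_lc_Q5.Orb
import Pool.Agent.Lib.MP_f406e2_lc_Q5.Det

/-!
# Q5, module OrbL: the exact solution on every orbit

`pos f l` are the coordinates of `(F f * wd l)⁻¹`.
* `wd_F`: `wd l * F f = F f' * wd l'` with `f' ∈ A5` and `pos f' l' = pmul (f⁻¹, []) (co l)`:
  induction on `l` with `h_F` in the form `h i * F f = F (t i * f * t j) * h j`, `j = f⁻¹ i`.
* `pos_mul`, `pos_inv`, `pos_gam`: the coordinates of products, inverses and of `(gam i)⁻¹ * ..`.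
* `exact_orbit`: `H` is the set of all `pos f l`, `f ∈ A5`, `(F f * wd l) • x = x`. It satisfies the
  hypotheses of `orb`. With `X` from `orb` put
  `A = {y | ∃ f ∈ A5, ∃ l, y = (F f * wd l) • x ∧ X (pos f l).2 ((pos f l).1 0) ((pos f l).1 4)}`.
  By the invariance of `X` membership in `A` can be tested with any representation (`OrbL_mem`),
  and the claim is `Ok X` at `(z, p)`, where `(p, z) = pos f l`.
-/

set_option autoImplicit false

noncomputable section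

namespace Pool.Agent.MP_f406e2_lc_Q5

open MeasureTheory Real
open Pool.Agent.MP_f406e2_lc_QD (E3 S2 O3 nu mat tr cr)

lemma OrbL_t_inv (j : Fin 5) : (t j)⁻¹ = t j := inv_eq_of_mul_eq_one_left (t_sq j)

lemma OrbL_h_F (f : S5) (hf : f ∈ A5) (i : Fin 5) :
    h i * F f = F (t i * f * t (f⁻¹ i)) * h (f⁻¹ i) := by
  have h1 := h_F f hf (f⁻¹ i)
  have h2 : f (f⁻¹ i) = i := f.apply_symm_apply i
  rwa [h2] at h1

lemma wd_F (l : List (Fin 5)) (f : S5) (hf : f ∈ A5) :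
    ∃ f' ∈ A5, ∃ l', wd l * F f = F f' * wd l' ∧ pos f' l' = pmul (f⁻¹, []) (co l) := by
  induction l with
  | nil =>
    refine ⟨f, hf, [], ?_, ?_⟩
    · rw [wd_nil, one_mul, mul_one]
    · refine Prod.ext ?_ rfl
      show 1 * f⁻¹ = f⁻¹ * 1
      rw [one_mul, mul_one]
  | cons i l ih =>
    obtain ⟨f', hf', l', h1, h2⟩ := ih
    refine ⟨t i * f' * t (f'⁻¹ i), tft_mem f' hf' _ _, f'⁻¹ i :: l', ?_, ?_⟩
    · rw [wd_cons, wd_cons, mul_assoc, h1, ← mul_assoc, OrbL_h_F f' hf' i, mul_assoc]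
    · have h3 : (co l').1 * f'⁻¹ = f⁻¹ * (co l).1 := congrArg Prod.fst h2
      have h4 : (co l').2 = act f⁻¹ [] (co l).2 := congrArg Prod.snd h2
      refine Prod.ext ?_ ?_
      · show (co l').1 * t (f'⁻¹ i) * (t i * f' * t (f'⁻¹ i))⁻¹ = f⁻¹ * ((co l).1 * t i)
        rw [mul_inv_rev, mul_inv_rev, OrbL_t_inv, OrbL_t_inv, mul_assoc, ← mul_assoc (t _), t_sq,
          one_mul, ← mul_assoc, h3, mul_assoc]
      · show step (co l').2 ((co l').1 (f'⁻¹ i)) = act f⁻¹ [] (step (co l).2 ((co l).1 i))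
        have h5 : (co l').1 (f'⁻¹ i) = f⁻¹ ((co l).1 i) := by
          have h6 := congrArg (fun e : S5 => e i) h3
          exact h6
        rw [h5, h4, act_step _ _ _ List.isChain_nil (co_red l)]

theorem pos_mul (f f' : S5) (hf : f ∈ A5) (hf' : f' ∈ A5) (l l' : List (Fin 5)) :
    ∃ f'' ∈ A5, ∃ l'', (F f * wd l) * (F f' * wd l') = F f'' * wd l'' ∧
      pos f'' l'' = pmul (pos f' l') (pos f l) := by
  obtain ⟨f1, hf1, l1, h1, h2⟩ := wd_F l f' hf'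
  refine ⟨f * f1, mul_mem hf hf1, l1 ++ l', ?_, ?_⟩
  · rw [wd_append, F_mul f f1 hf hf1, mul_assoc, ← mul_assoc (wd l), h1]
    simp only [mul_assoc]
  · have h3 : (co l1).1 * f1⁻¹ = f'⁻¹ * (co l).1 := congrArg Prod.fst h2
    have h4 : (co l1).2 = act f'⁻¹ [] (co l).2 := congrArg Prod.snd h2
    have h5 := co_append l1 l'
    refine Prod.ext ?_ ?_
    · show (co (l1 ++ l')).1 * (f * f1)⁻¹ = (co l').1 * f'⁻¹ * ((co l).1 * f⁻¹)
      rw [h5]
      show (co l').1 * (co l1).1 * (f * f1)⁻¹ = _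
      rw [mul_inv_rev, mul_assoc, ← mul_assoc (co l1).1, h3]
      simp only [mul_assoc]
    · show (co (l1 ++ l')).2 = act ((co l').1 * f'⁻¹) (co l').2 (co l).2
      rw [h5]
      show act (co l').1 (co l').2 (co l1).2 = _
      rw [h4, act_act _ _ _ _ _ (co_red l') List.isChain_nil (co_red l), act_nil]

lemma OrbL_pos_one : pos 1 [] = (1, []) := by
  refine Prod.ext ?_ rfl
  show (1 : S5) * 1⁻¹ = 1
  rw [inv_one, mul_one]

lemma OrbL_one : F 1 * wd [] = 1 := by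
  rw [F_one, wd_nil, one_mul]

theorem pos_inv (f : S5) (hf : f ∈ A5) (l : List (Fin 5)) :
    ∃ f' ∈ A5, ∃ l', (F f * wd l)⁻¹ = F f' * wd l' ∧ pmul (pos f l) (pos f' l') = (1, []) ∧
      pmul (pos f' l') (pos f l) = (1, []) := by
  obtain ⟨f', hf', l', h1, -⟩ := wd_F l.reverse f⁻¹ (inv_mem hf)
  have h2 : (F f * wd l)⁻¹ = F f' * wd l' := by
    rw [mul_inv_rev, ← wd_reverse, F_inv f hf, h1]
  refine ⟨f', hf', l', h2, ?_, ?_⟩
  · obtain ⟨f2, hf2, l2, h3, h4⟩ := pos_mul f' f hf' hf l' l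
    rw [← h2, inv_mul_cancel, ← OrbL_one] at h3
    rw [← h4, ← pos_unique 1 f2 (one_mem _) hf2 [] l2 h3, OrbL_pos_one]
  · obtain ⟨f2, hf2, l2, h3, h4⟩ := pos_mul f f' hf hf' l l'
    rw [← h2, mul_inv_cancel, ← OrbL_one] at h3
    rw [← h4, ← pos_unique 1 f2 (one_mem _) hf2 [] l2 h3, OrbL_pos_one]

lemma OrbL_sg_mem (i : Fin 5) (hi : ¬ od i = true) : sg i ∈ A5 := by
  rw [Equiv.Perm.mem_alternatingGroup, sign_sg, if_neg hi]

lemma OrbL_tsg_mem (i : Fin 5) (hi : od i = true) : t i * sg i ∈ A5 := by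
  rw [Equiv.Perm.mem_alternatingGroup, map_mul, sign_sg, if_pos hi, t_sign]
  decide

theorem pos_gam (i : Fin 5) (f : S5) (hf : f ∈ A5) (l : List (Fin 5)) :
    ∃ f' ∈ A5, ∃ l', (gam i)⁻¹ * (F f * wd l) = F f' * wd l' ∧
      pos f' l' = ((pos f l).1 * sg i, nb (pos f l).2 (pos f l).1 i) := by
  by_cases hi : od i = true
  · have hm := OrbL_tsg_mem i hi
    have hg : gam i = h i * F (t i * sg i) := by rw [gam, if_pos hi]
    refine ⟨(t i * sg i)⁻¹ * (t i * f * t (f⁻¹ i)), mul_mem (inv_mem hm) (tft_mem f hf _ _),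
      f⁻¹ i :: l, ?_, ?_⟩
    · rw [hg, mul_inv_rev, h_inv, F_inv _ hm, mul_assoc, ← mul_assoc (h i), OrbL_h_F f hf i,
        F_mul _ _ (inv_mem hm) (tft_mem f hf _ _), wd_cons]
      simp only [mul_assoc]
    · refine Prod.ext ?_ ?_
      · show (co l).1 * t (f⁻¹ i) * ((t i * sg i)⁻¹ * (t i * f * t (f⁻¹ i)))⁻¹ =
          (co l).1 * f⁻¹ * sg i
        group
      · show step (co l).2 ((co l).1 (f⁻¹ i)) = nb (co l).2 ((co l).1 * f⁻¹) i
        rw [nb, if_pos hi]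
        rfl
  · have hm := OrbL_sg_mem i hi
    have hg : gam i = F (sg i) := by rw [gam, if_neg hi]
    refine ⟨(sg i)⁻¹ * f, mul_mem (inv_mem hm) hf, l, ?_, ?_⟩
    · rw [hg, F_inv _ hm, F_mul _ _ (inv_mem hm) hf, mul_assoc]
    · refine Prod.ext ?_ ?_
      · show (co l).1 * ((sg i)⁻¹ * f)⁻¹ = (co l).1 * f⁻¹ * sg i
        rw [mul_inv_rev, inv_inv, mul_assoc]
      · show (co l).2 = nb (co l).2 ((co l).1 * f⁻¹) i
        rw [nb, if_neg hi]

/-- the coordinates of the stabiliser of `x` -/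
def OrbL_H (x : S2) : Set (S5 × Wd) :=
  {a | ∃ f ∈ A5, ∃ l, a = pos f l ∧ (F f * wd l) • x = x}

/-- the set of the points of the orbit with the property `X` -/
def OrbL_A (x : S2) (X : Wd → Fin 5 → Fin 5 → Prop) : Set S2 :=
  {y | ∃ f ∈ A5, ∃ l, y = (F f * wd l) • x ∧ X (pos f l).2 ((pos f l).1 0) ((pos f l).1 4)}

lemma OrbL_mem (x : S2) (X : Wd → Fin 5 → Fin 5 → Prop)
    (hX : ∀ a ∈ OrbL_H x, ∀ z, RedW z → ∀ i j, (X (act a.1 a.2 z) (a.1 i) (a.1 j) ↔ X z i j))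
    (f : S5) (hf : f ∈ A5) (l : List (Fin 5)) :
    (F f * wd l) • x ∈ OrbL_A x X ↔ X (pos f l).2 ((pos f l).1 0) ((pos f l).1 4) := by
  constructor
  · rintro ⟨f', hf', l', h1, h2⟩
    obtain ⟨fi, hfi, li, h3, -⟩ := pos_inv f hf l
    obtain ⟨f1, hf1, l1, h4, -⟩ := pos_mul fi f' hfi hf' li l'
    rw [← h3] at h4
    have h5 : (F f1 * wd l1) • x = x := by
      rw [← h4, mul_smul, ← h1, inv_smul_smul]
    have h6 : pos f1 l1 ∈ OrbL_H x := ⟨f1, hf1, l1, rfl, h5⟩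
    obtain ⟨f2, hf2, l2, h7, h8⟩ := pos_mul f f1 hf hf1 l l1
    rw [← h4, mul_inv_cancel_left] at h7
    have h9 := pos_unique f' f2 hf' hf2 l' l2 h7
    rw [h9, h8] at h2
    exact (hX _ h6 _ (co_red l) _ _).1 h2
  · intro h1
    exact ⟨f, hf, l, rfl, h1⟩

/-- **The exact solution on every orbit.** -/
theorem exact_orbit (x : S2) : ∃ A : Set S2, ∀ f ∈ A5, ∀ l,
    ∃! i : Fin 5, (gam i)⁻¹ • ((F f * wd l) • x) ∈ A := by
  have hdet : ∀ f ∈ A5, ∀ l, (mat (F f * wd l)).det = 1 := by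
    intro f hf l
    rw [Pool.Agent.MP_f406e2_lc_QD.mat_mul, Matrix.det_mul, mat_F f hf, mat_wd, one_mul]
  obtain ⟨X, hok, hX⟩ := orb (OrbL_H x)
    ⟨1, one_mem _, [], OrbL_pos_one.symm, by rw [OrbL_one, one_smul]⟩
    (by
      rintro a ⟨f, hf, l, rfl, h1⟩ b ⟨f', hf', l', rfl, h2⟩
      obtain ⟨f2, hf2, l2, h3, h4⟩ := pos_mul f' f hf' hf l' l
      exact ⟨f2, hf2, l2, h4.symm, by rw [← h3, mul_smul, h1, h2]⟩)
    (by
      rintro a ⟨f, hf, l, rfl, h1⟩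
      obtain ⟨f', hf', l', h2, h3, h4⟩ := pos_inv f hf l
      exact ⟨pos f' l', ⟨f', hf', l', rfl, by rw [← h2, inv_smul_eq_iff, h1]⟩, h3, h4⟩)
    (by
      rintro a ⟨f, hf, l, rfl, h1⟩
      exact co_red l)
    (by
      rintro a ⟨f, hf, l, rfl, h1⟩
      show Equiv.Perm.sign ((co l).1 * f⁻¹) = (-1) ^ (co l).2.length
      rw [map_mul, co_sign, Equiv.Perm.sign_inv, Equiv.Perm.mem_alternatingGroup.1 hf, mul_one,
        Int.units_pow_eq_pow_mod_two, ← co_length, ← Int.units_pow_eq_pow_mod_two])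
    (by
      rintro a ⟨f, hf, l, rfl, h1⟩ b ⟨f', hf', l', rfl, h2⟩
      have hc := Pool.Agent.MP_f406e2_lc_QD.rot_comm _ _ (hdet f hf l) (hdet f' hf' l') x h1 h2
      obtain ⟨f2, hf2, l2, h3, h4⟩ := pos_mul f' f hf' hf l' l
      obtain ⟨f3, hf3, l3, h5, h6⟩ := pos_mul f f' hf hf' l l'
      rw [← h4, ← h6]
      apply pos_unique f2 f3 hf2 hf3
      rw [← h3, ← h5, hc])
  refine ⟨OrbL_A x X, fun f hf l => ?_⟩
  have key : ∀ i : Fin 5, (gam i)⁻¹ • ((F f * wd l) • x) ∈ OrbL_A x X ↔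
      X (nb (pos f l).2 (pos f l).1 i) ((pos f l).1 i) ((pos f l).1 (sg i 4)) := by
    intro i
    have hi : ∀ i : Fin 5, sg i 0 = i := by decide
    obtain ⟨f', hf', l', h1, h2⟩ := pos_gam i f hf l
    rw [← mul_smul, h1, OrbL_mem x X hX f' hf' l', h2]
    show X (nb (pos f l).2 (pos f l).1 i) ((pos f l).1 (sg i 0)) ((pos f l).1 (sg i 4)) ↔ _
    rw [hi]
  obtain ⟨i, hi, hu⟩ := hok (pos f l).2 (co_red l) (pos f l).1
  exact ⟨i, (key i).2 hi, fun j hj => hu j ((key j).1 hj)⟩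

end Pool.Agent.MP_f406e2_lc_Q5
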