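import Mathlib
import Pool.Agent.Lib.MP_f406e2_lc_Q5.FlipP
import Pool.Agent.Lib.MP_f406e2_lc_Q5.Faith

/-!
# Q5, module FlipR: the points of a path are generically different

As `QD.FlipR`: `pth l n = wd ((l.take n).reverse)` for `n ≤ l.length`; `red_unique`.
-/

set_option autoImplicit false

noncomputable section

namespace Pool.Agent.MP_f406e2_lc_Q5

private lemma FlipR_take (w : List (Fin 5)) (t : ℕ) (ht : t < w.length) :
    (w.take (t + 1)).reverse = w.getD t 0 :: (w.take t).reverse := by
  rw [List.take_add_one, List.reverse_append, List.getElem?_eq_getElem ht,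
    List.getD_eq_getElem _ _ ht]
  rfl

private lemma FlipR_pth (w : List (Fin 5)) (t : ℕ) (ht : t ≤ w.length) :
    pth w t = wd ((w.take t).reverse) := by
  induction t with
  | zero => simp [pth]
  | succ t ih =>
    rw [FlipR_take w t ht, wd_cons, ← ih (Nat.le_of_succ_le ht)]
    rfl

private lemma FlipR_red (w : List (Fin 5))
    (hw : ∀ t, t + 1 < w.length → w.getD t 0 ≠ w.getD (t + 1) 0)
    (t : ℕ) (ht : t ≤ w.length) : RedW ((w.take t).reverse) := by
  induction t with
  | zero => simp [RedW]
  | succ t ih =>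
    rw [FlipR_take w t ht]
    cases t with
    | zero => simp [RedW]
    | succ t =>
      have h1 := ih (Nat.le_of_succ_le ht)
      rw [FlipR_take w t (Nat.lt_of_succ_lt ht)] at h1 ⊢
      exact List.isChain_cons_cons.2 ⟨fun h => hw t ht h.symm, h1⟩

theorem pth_inj (l : List (Fin 5)) (hl : ∀ n, n + 1 < l.length → l.getD n 0 ≠ l.getD (n + 1) 0)
    (f f' : S5) (hf : f ∈ A5) (hf' : f' ∈ A5) (n n' : ℕ) (hn : n ≤ l.length) (hn' : n' ≤ l.length)
    (hft : F f * pth l n = F f' * pth l n') : f = f' ∧ n = n' := by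
  rw [FlipR_pth l n hn, FlipR_pth l n' hn'] at hft
  obtain ⟨h1, h2⟩ := red_unique f f' hf hf' _ _ (FlipR_red l hl n hn) (FlipR_red l hl n' hn') hft
  refine ⟨h1, ?_⟩
  have h3 := congrArg List.length h2
  rwa [List.length_reverse, List.length_reverse, List.length_take_of_le hn,
    List.length_take_of_le hn'] at h3

end Pool.Agent.MP_f406e2_lc_Q5
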