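import Mathlib
import Pool.Agent.Lib.MP_f406e2_lc_Q5.FlipR
import Pool.Agent.Lib.MP_f406e2_lc_QD.Small

/-!
# Q5, module Flip: flipping a family of augmenting paths

As `QD.Flip`, with one change: the group `F f`, `f ∈ A5` (60 elements), commutes with the half-turns
only up to `h_F`. Let `P = {x | M.m x = none ∧ Aug M l x}` and `n = l.length`, which is odd.
By `path_letters` and `pth_inj` the `60 (n+1)` isometries `F f * pth l k`, `f ∈ A5`, `0 ≤ k ≤ n`, are
pairwise different. By `QD.small_set` there is `E ⊆ P`, measurable, not null, with pairwise disjoint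
translates under these isometries. Let `V` be the union of the translates. Define `M'`:
on `(F f * pth l k) • E` it is `some (f (l k))` for even `k` and `some (f (l (k-1)))` for odd `k`;
outside `V` it is `M`. `equi`: `F f' * F f = F (f' * f)` (`F_mul`).
`sym`: on `V`: `y = (F f * pth l k) • x`, `k` even: by `h_F`
`h (f j) • y = (F f' * h j * pth l k) • x = (F f' * pth l (k+1)) • x`, `j = l k`,
`f' = t (f j) * f * t j ∈ A5` (`tft_mem`), and `f' j = f j` (`t_self`), so `M'` has there the value
`some (f' j) = some (f j)`; `k` odd: in the same way with `j = l (k-1)`,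
`h (f j) • y = (F f' * pth l (k-1)) • x` (`h_mul_self`).
Outside `V`: let `M.m y = some j`; then `z = h j • y` is not in `V`: `V` is closed under the
matching `M`, because if `z ∈ V`, `z = (F f * pth l k) • x`, `M.m z = some j`, then `0 < k < n`
(`path_end` and `M.m x = none`) and by `path_facts` and `equi` `j = f (l k)` (`k` odd) or
`j = f (l (k-1))` (`k` even), so `h j • z ∈ V` by the same computation. So
`M'.m z = M.m z = some j`. The measures as in `QD.Flip`: `un M' = un M - 120 nu E`,
`dd M M' ≤ 60 (n+1) nu E`.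
-/

set_option autoImplicit false

noncomputable section

namespace Pool.Agent.MP_f406e2_lc_Q5

open MeasureTheory
open Pool.Agent.MP_f406e2_lc_QD (E3 S2 O3 nu mat tr cr mp small_set)


/-- the index set of the translates -/
private def Flip_idx (w : List (Fin 5)) : Finset (S5 × ℕ) := by
  classical
  exact (Finset.univ.filter fun f => f ∈ A5) ×ˢ
    Finset.range (w.length + 1)

private lemma Flip_mem_idx (w : List (Fin 5)) (p : S5 × ℕ) :
    p ∈ Flip_idx w ↔ p.1 ∈ A5 ∧ p.2 ≤ w.length := by
  classical
  unfold Flip_idx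
  rw [Finset.mem_product, Finset.mem_filter, Finset.mem_range, Nat.lt_succ_iff]
  simp

/-- the isometry of an index -/
private def Flip_g (w : List (Fin 5)) (p : S5 × ℕ) : O3 := F p.1 * pth w p.2

/-- the translates -/
private def Flip_T (w : List (Fin 5)) (E : Set S2) (p : S5 × ℕ) : Set S2 :=
  (fun x => Flip_g w p • x) '' E

/-- the letter of the new matching -/
private def Flip_lab (w : List (Fin 5)) (t : ℕ) : Fin 5 :=
  w.getD (if Odd t then t - 1 else t) 0

private lemma Flip_T_eq (w : List (Fin 5)) (E : Set S2) (p : S5 × ℕ) :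
    Flip_T w E p = (fun x => (Flip_g w p)⁻¹ • x) ⁻¹' E := by
  ext y
  constructor
  · rintro ⟨x, hx, rfl⟩
    show (Flip_g w p)⁻¹ • Flip_g w p • x ∈ E
    rw [inv_smul_smul]
    exact hx
  · intro hy
    exact ⟨(Flip_g w p)⁻¹ • y, hy, smul_inv_smul _ _⟩

private lemma Flip_T_meas (w : List (Fin 5)) (E : Set S2) (hE : MeasurableSet E)
    (p : S5 × ℕ) : MeasurableSet (Flip_T w E p) := by
  rw [Flip_T_eq]
  exact (mp _).measurable hE

private lemma Flip_T_nu (w : List (Fin 5)) (E : Set S2) (hE : MeasurableSet E)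
    (p : S5 × ℕ) : nu.real (Flip_T w E p) = nu.real E := by
  rw [Flip_T_eq, Measure.real, Measure.real, (mp _).measure_preimage hE.nullMeasurableSet]

private lemma Flip_g_mul (w : List (Fin 5)) (f : S5) (hf : f ∈ A5)
    (p : S5 × ℕ) (hp : p.1 ∈ A5) : F f * Flip_g w p = Flip_g w (f * p.1, p.2) := by
  unfold Flip_g
  rw [F_mul _ _ hf hp, mul_assoc]

/-- the permutation of the next isometry -/
private def Flip_nx (w : List (Fin 5)) (f : S5) (n : ℕ) : S5 :=
  t (f (w.getD n 0)) * f * t (w.getD n 0)

private lemma Flip_nx_mem (w : List (Fin 5)) (f : S5) (hf : f ∈ A5) (n : ℕ) :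
    Flip_nx w f n ∈ A5 := tft_mem f hf _ _

private lemma Flip_nx_self (w : List (Fin 5)) (f : S5) (n : ℕ) :
    Flip_nx w f n (w.getD n 0) = f (w.getD n 0) := by
  unfold Flip_nx
  rw [Equiv.Perm.mul_apply, Equiv.Perm.mul_apply, t_self, t_self]

/-- one step along the path -/
private lemma Flip_step (w : List (Fin 5)) (f : S5) (hf : f ∈ A5) (n : ℕ) :
    h (f (w.getD n 0)) * Flip_g w (f, n) = Flip_g w (Flip_nx w f n, n + 1) := by
  unfold Flip_g Flip_nx
  show h (f (w.getD n 0)) * (F f * pth w n) =
    F (t (f (w.getD n 0)) * f * t (w.getD n 0)) * pth w (n + 1)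
  rw [← mul_assoc, h_F f hf, mul_assoc]
  rfl

/-- one step back -/
private lemma Flip_back (w : List (Fin 5)) (f : S5) (hf : f ∈ A5) (n : ℕ) :
    h (f (w.getD n 0)) * Flip_g w (f, n + 1) = Flip_g w (Flip_nx w f n, n) := by
  unfold Flip_g Flip_nx
  show h (f (w.getD n 0)) * (F f * (h (w.getD n 0) * pth w n)) =
    F (t (f (w.getD n 0)) * f * t (w.getD n 0)) * pth w n
  rw [← mul_assoc, h_F f hf, mul_assoc, ← mul_assoc (h (w.getD n 0)), h_mul_self, one_mul]

private theorem Flip_main (M : PM) (w : List (Fin 5)) (E : Set S2) (hE : MeasurableSet E)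
    (hodd : Odd w.length) (hnone : ∀ x ∈ E, M.m x = none) (haug : ∀ x ∈ E, Aug M w x)
    (hdisj : ∀ p ∈ Flip_idx w, ∀ q ∈ Flip_idx w, p ≠ q →
      Disjoint (Flip_T w E p) (Flip_T w E q)) :
    ∃ M' : PM, (∀ p ∈ Flip_idx w, ∀ x ∈ Flip_T w E p,
        M'.m x = some (p.1 (Flip_lab w p.2))) ∧
      ∀ x, (∀ p ∈ Flip_idx w, x ∉ Flip_T w E p) → M'.m x = M.m x := by
  classical
  let m' : S2 → Option (Fin 5) := fun y =>
    if hy : ∃ p, p ∈ Flip_idx w ∧ y ∈ Flip_T w E p then
      some (hy.choose.1 (Flip_lab w hy.choose.2)) else M.m y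
  have hin : ∀ p ∈ Flip_idx w, ∀ x ∈ Flip_T w E p, m' x = some (p.1 (Flip_lab w p.2)) := by
    intro p hp x hx
    have hy : ∃ p, p ∈ Flip_idx w ∧ x ∈ Flip_T w E p := ⟨p, hp, hx⟩
    have h1 : m' x = some (hy.choose.1 (Flip_lab w hy.choose.2)) := dif_pos hy
    have h2 : hy.choose = p := by
      by_contra hne
      exact Set.disjoint_left.1 (hdisj _ hy.choose_spec.1 p hp hne) hy.choose_spec.2 hx
    rw [h1, h2]
  have hout : ∀ x, (∀ p ∈ Flip_idx w, x ∉ Flip_T w E p) → m' x = M.m x := by
    intro x hx
    have hy : ¬ ∃ p, p ∈ Flip_idx w ∧ x ∈ Flip_T w E p := by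
      rintro ⟨p, hp, hxp⟩
      exact hx p hp hxp
    exact dif_neg hy
  refine ⟨⟨m', ?_, ?_, ?_⟩, hin, hout⟩
  · intro o
    have h1 : m' ⁻¹' {o} =
        (⋃ p ∈ (Flip_idx w).filter (fun p => some (p.1 (Flip_lab w p.2)) = o), Flip_T w E p) ∪
        (M.m ⁻¹' {o} \ ⋃ p ∈ Flip_idx w, Flip_T w E p) := by
      ext y
      simp only [Set.mem_preimage, Set.mem_singleton_iff, Set.mem_union, Set.mem_iUnion,
        Set.mem_sdiff, Finset.mem_filter, exists_prop, not_exists, not_and]
      by_cases hy : ∃ p, p ∈ Flip_idx w ∧ y ∈ Flip_T w E p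
      · obtain ⟨p, hp, hyp⟩ := hy
        rw [hin p hp y hyp]
        constructor
        · intro ho
          exact Or.inl ⟨p, ⟨hp, ho⟩, hyp⟩
        · rintro (⟨q, ⟨hq, ho⟩, hyq⟩ | ⟨_, hn⟩)
          · rw [← hin p hp y hyp, hin q hq y hyq]
            exact ho
          · exact absurd hyp (hn p hp)
      · have hy' : ∀ p ∈ Flip_idx w, y ∉ Flip_T w E p := fun p hp hyp => hy ⟨p, hp, hyp⟩
        rw [hout y hy']
        constructor
        · intro ho
          exact Or.inr ⟨ho, hy'⟩
        · rintro (⟨q, ⟨hq, _⟩, hyq⟩ | ⟨ho, _⟩)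
          · exact absurd hyq (hy' q hq)
          · exact ho
    rw [h1]
    refine MeasurableSet.union ?_ (MeasurableSet.diff (M.meas o) ?_)
    · exact Finset.measurableSet_biUnion _ fun p _ => Flip_T_meas w E hE p
    · exact Finset.measurableSet_biUnion _ fun p _ => Flip_T_meas w E hE p
  · intro f hf x
    by_cases hx : ∃ p, p ∈ Flip_idx w ∧ x ∈ Flip_T w E p
    · obtain ⟨p, hp, y, hy, rfl⟩ := hx
      have hp' := (Flip_mem_idx w p).1 hp
      have h1 : (f * p.1, p.2) ∈ Flip_idx w :=
        (Flip_mem_idx w _).2 ⟨Subgroup.mul_mem _ hf hp'.1, hp'.2⟩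
      have h2 : F f • (fun x => Flip_g w p • x) y ∈ Flip_T w E (f * p.1, p.2) := by
        refine ⟨y, hy, ?_⟩
        show Flip_g w (f * p.1, p.2) • y = F f • Flip_g w p • y
        rw [smul_smul, Flip_g_mul w f hf p hp'.1]
      rw [hin _ h1 _ h2, hin p hp _ ⟨y, hy, rfl⟩]
      rfl
    · have hx' : ∀ p ∈ Flip_idx w, x ∉ Flip_T w E p := fun p hp hxp => hx ⟨p, hp, hxp⟩
      have h1 : ∀ p ∈ Flip_idx w, F f • x ∉ Flip_T w E p := by
        rintro p hp ⟨y, hy, hyx⟩
        have hp' := (Flip_mem_idx w p).1 hp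
        refine hx' (f⁻¹ * p.1, p.2) ((Flip_mem_idx w _).2
          ⟨Subgroup.mul_mem _ (Subgroup.inv_mem _ hf) hp'.1, hp'.2⟩) ⟨y, hy, ?_⟩
        show Flip_g w (f⁻¹ * p.1, p.2) • y = x
        rw [← Flip_g_mul w f⁻¹ (Subgroup.inv_mem _ hf) p hp'.1, mul_smul]
        have h2 : Flip_g w p • y = F f • x := hyx
        rw [h2, smul_smul, ← F_mul _ _ (Subgroup.inv_mem _ hf) hf, inv_mul_cancel, F_one, one_smul]
      rw [hout _ h1, hout _ hx', M.equi f hf]
  · intro y j hj
    by_cases hy : ∃ p, p ∈ Flip_idx w ∧ y ∈ Flip_T w E p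
    · obtain ⟨⟨f, t⟩, hp, hyp⟩ := hy
      have hp' := (Flip_mem_idx w _).1 hp
      rw [hin _ hp y hyp] at hj
      have hj' : f (Flip_lab w t) = j := Option.some.inj hj
      obtain ⟨x, hx, rfl⟩ := hyp
      rcases Nat.even_or_odd t with ht | ht
      · have h1 : ¬ Odd t := Nat.not_odd_iff_even.2 ht
        have h2 : Flip_lab w t = w.getD t 0 := by
          unfold Flip_lab
          rw [if_neg h1]
        have h3 : t < w.length := by
          refine lt_of_le_of_ne hp'.2 ?_
          rintro rfl
          exact h1 hodd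
        have h4 : Flip_lab w (t + 1) = w.getD t 0 := by
          unfold Flip_lab
          rw [if_pos ht.add_one, Nat.add_sub_cancel]
        have h5 : h j • (fun x => Flip_g w (f, t) • x) x ∈
            Flip_T w E (Flip_nx w f t, t + 1) := by
          refine ⟨x, hx, ?_⟩
          show Flip_g w (Flip_nx w f t, t + 1) • x = h j • Flip_g w (f, t) • x
          rw [smul_smul, ← hj', h2, Flip_step w f hp'.1]
        have h6 : (Flip_nx w f t, t + 1) ∈ Flip_idx w :=
          (Flip_mem_idx w _).2 ⟨Flip_nx_mem w f hp'.1 t, h3⟩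
        rw [hin _ h6 _ h5]
        show some (Flip_nx w f t (Flip_lab w (t + 1))) = some j
        rw [h4, Flip_nx_self, ← h2, hj']
      · obtain ⟨s, rfl⟩ : ∃ s, t = s + 1 := ⟨t - 1, by have := ht.pos; omega⟩
        have hs : ¬ Odd s := by
          intro h
          exact (Nat.not_even_iff_odd.2 ht) h.add_one
        have h2 : Flip_lab w (s + 1) = w.getD s 0 := by
          unfold Flip_lab
          rw [if_pos ht, Nat.add_sub_cancel]
        have h4 : Flip_lab w s = w.getD s 0 := by
          unfold Flip_lab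
          rw [if_neg hs]
        have h5 : h j • (fun x => Flip_g w (f, s + 1) • x) x ∈
            Flip_T w E (Flip_nx w f s, s) := by
          refine ⟨x, hx, ?_⟩
          show Flip_g w (Flip_nx w f s, s) • x = h j • Flip_g w (f, s + 1) • x
          rw [smul_smul, ← hj', h2, Flip_back w f hp'.1]
        have h6 : (Flip_nx w f s, s) ∈ Flip_idx w :=
          (Flip_mem_idx w _).2 ⟨Flip_nx_mem w f hp'.1 s, le_trans (Nat.le_succ s) hp'.2⟩
        rw [hin _ h6 _ h5]
        show some (Flip_nx w f s (Flip_lab w s)) = some j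
        rw [h4, Flip_nx_self, ← h2, hj']
    · have hy' : ∀ p ∈ Flip_idx w, y ∉ Flip_T w E p := fun p hp hyp => hy ⟨p, hp, hyp⟩
      rw [hout y hy'] at hj
      have hz : M.m (h j • y) = some j := M.sym y j hj
      have hback : h j • h j • y = y := by
        rw [smul_smul, h_mul_self, one_smul]
      have hzout : ∀ p ∈ Flip_idx w, h j • y ∉ Flip_T w E p := by
        rintro ⟨f, t⟩ hp ⟨x, hx, hxy⟩
        have hp' := (Flip_mem_idx w _).1 hp
        have h1 : h j • y = F f • pth w t • x := by
          have : Flip_g w (f, t) • x = h j • y := hxy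
          rw [← this, smul_smul]
          rfl
        have h2 : M.m (h j • y) = (M.m (pth w t • x)).map f := by
          rw [h1, M.equi f hp'.1]
        rw [hz] at h2
        rcases Nat.eq_zero_or_pos t with rfl | h0
        · have h3 : pth w 0 • x = x := by
            show (1 : O3) • x = x
            rw [one_smul]
          rw [h3, hnone x hx] at h2
          simp at h2
        · rcases lt_or_eq_of_le hp'.2 with hlt | heq
          · rw [path_facts M w x (haug x hx) t h0 hlt] at h2
            rcases Nat.even_or_odd t with ht | ht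
            · obtain ⟨s, rfl⟩ : ∃ s, t = s + 1 := ⟨t - 1, by omega⟩
              rw [if_neg (Nat.not_odd_iff_even.2 ht), Nat.add_sub_cancel] at h2
              have hj' : f (w.getD s 0) = j := (Option.some.inj h2).symm
              have h6 : (Flip_nx w f s, s) ∈ Flip_idx w :=
                (Flip_mem_idx w _).2 ⟨Flip_nx_mem w f hp'.1 s, le_trans (Nat.le_succ s) hp'.2⟩
              refine hy' _ h6 ⟨x, hx, ?_⟩
              show Flip_g w (Flip_nx w f s, s) • x = y
              have hxy' : Flip_g w (f, s + 1) • x = h j • y := hxy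
              rw [← hback, ← hxy', smul_smul, ← hj', Flip_back w f hp'.1]
            · rw [if_pos ht] at h2
              have hj' : f (w.getD t 0) = j := (Option.some.inj h2).symm
              have h6 : (Flip_nx w f t, t + 1) ∈ Flip_idx w :=
                (Flip_mem_idx w _).2 ⟨Flip_nx_mem w f hp'.1 t, hlt⟩
              refine hy' _ h6 ⟨x, hx, ?_⟩
              show Flip_g w (Flip_nx w f t, t + 1) • x = y
              have hxy' : Flip_g w (f, t) • x = h j • y := hxy
              rw [← hback, ← hxy', smul_smul, ← hj', Flip_step w f hp'.1]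
          · have heq' : t = w.length := heq
            subst heq'
            rw [path_end M w x (haug x hx)] at h2
            simp at h2
      rw [hout _ hzout]
      exact hz

private theorem Flip_aux (M : PM) (w : List (Fin 5)) (hpos : nu {x | M.m x = none ∧ Aug M w x} ≠ 0) :
    ∃ M' : PM, un M' < un M ∧ un M' + 2 / (w.length + 1) * dd M M' ≤ un M := by
  classical
  set P : Set S2 := {x | M.m x = none ∧ Aug M w x} with hPdef
  have hPm : MeasurableSet P := by
    have h1 : P = M.m ⁻¹' {none} ∩ {x | Aug M w x} := by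
      ext x
      rfl
    rw [h1]
    exact (M.meas none).inter (meas_Aug M w)
  obtain ⟨E, hEP, hE, hE0, hEd⟩ := small_set P hPm hpos ((Flip_idx w).image (Flip_g w))
  obtain ⟨x0, hx0⟩ : E.Nonempty := by
    by_contra hne
    rw [Set.not_nonempty_iff_eq_empty] at hne
    rw [hne, measure_empty] at hE0
    exact hE0 rfl
  have hodd : Odd w.length := path_odd M w x0 (hEP hx0).2
  have hlet := path_letters M w x0 (hEP hx0).2
  have hdisj : ∀ p ∈ Flip_idx w, ∀ q ∈ Flip_idx w, p ≠ q →
      Disjoint (Flip_T w E p) (Flip_T w E q) := by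
    intro p hp q hq hpq
    refine hEd _ (Finset.mem_image_of_mem _ hp) _ (Finset.mem_image_of_mem _ hq) ?_
    intro hg
    have := pth_inj w hlet p.1 q.1 ((Flip_mem_idx w p).1 hp).1 ((Flip_mem_idx w q).1 hq).1
      p.2 q.2 ((Flip_mem_idx w p).1 hp).2 ((Flip_mem_idx w q).1 hq).2 hg
    exact hpq (Prod.ext this.1 this.2)
  obtain ⟨M', hin, hout⟩ := Flip_main M w E hE hodd (fun x hx => (hEP hx).1)
    (fun x hx => (hEP hx).2) hdisj
  -- the measure of `E`
  have he : 0 < nu.real E := by
    rw [Measure.real]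
    exact ENNReal.toReal_pos hE0 (measure_ne_top _ _)
  set K : Finset (S5) :=
    Finset.univ.filter fun f => f ∈ A5 with hK
  have hidx : Flip_idx w = K ×ˢ Finset.range (w.length + 1) := by
    ext p
    rw [Flip_mem_idx, Finset.mem_product, hK, Finset.mem_filter, Finset.mem_range,
      Nat.lt_succ_iff]
    simp
  have hKpos : 0 < K.card := by
    refine Finset.card_pos.2 ⟨1, ?_⟩
    rw [hK, Finset.mem_filter]
    exact ⟨Finset.mem_univ _, Subgroup.one_mem _⟩
  -- the distance
  have hdd : dd M M' ≤ K.card * (w.length + 1) * nu.real E := by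
    have h1 : {x | M.m x ≠ M'.m x} ⊆ ⋃ p ∈ Flip_idx w, Flip_T w E p := by
      intro x hx
      by_contra hn
      refine hx ((hout x ?_).symm)
      intro p hp hxp
      exact hn (Set.mem_biUnion hp hxp)
    have h2 : dd M M' ≤ nu.real (⋃ p ∈ Flip_idx w, Flip_T w E p) :=
      measureReal_mono h1 (measure_ne_top _ _)
    have h3 : nu.real (⋃ p ∈ Flip_idx w, Flip_T w E p) ≤
        ∑ p ∈ Flip_idx w, nu.real (Flip_T w E p) := measureReal_biUnion_finset_le _ _
    have h4 : ∑ p ∈ Flip_idx w, nu.real (Flip_T w E p) =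
        K.card * (w.length + 1) * nu.real E := by
      rw [Finset.sum_congr rfl fun p _ => Flip_T_nu w E hE p, Finset.sum_const, hidx,
        Finset.card_product, Finset.card_range, nsmul_eq_mul]
      push_cast
      ring
    exact h2.trans (h3.trans h4.le)
  -- the unmatched points
  have hun : un M' + 2 * K.card * nu.real E ≤ un M := by
    set J : Finset (S5 × ℕ) := K ×ˢ {0, w.length} with hJ
    have hJsub : ∀ p ∈ J, p ∈ Flip_idx w := by
      intro p hp
      rw [hJ, Finset.mem_product, Finset.mem_insert, Finset.mem_singleton] at hp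
      rw [hidx, Finset.mem_product, Finset.mem_range]
      refine ⟨hp.1, ?_⟩
      rcases hp.2 with h | h <;> omega
    have hJalt : ∀ p ∈ J, p.1 ∈ A5 := by
      intro p hp
      exact ((Flip_mem_idx w p).1 (hJsub p hp)).1
    have h1 : {x | M'.m x = none} ∪ (⋃ p ∈ J, Flip_T w E p) ⊆ {x | M.m x = none} := by
      rintro x (hx | hx)
      · have h2 : ∀ p ∈ Flip_idx w, x ∉ Flip_T w E p := by
          intro p hp hxp
          have h3 : M'.m x = none := hx
          rw [hin p hp x hxp] at h3
          simp at h3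
        have h3 : M'.m x = none := hx
        rw [hout x h2] at h3
        exact h3
      · obtain ⟨p, hp, hxp⟩ := Set.mem_iUnion₂.1 hx
        obtain ⟨y, hy, rfl⟩ := hxp
        have h3 : (fun x => Flip_g w p • x) y = F p.1 • pth w p.2 • y := by
          show Flip_g w p • y = F p.1 • pth w p.2 • y
          rw [smul_smul]
          rfl
        show M.m ((fun x => Flip_g w p • x) y) = none
        rw [h3, M.equi p.1 (hJalt p hp)]
        have h4 : M.m (pth w p.2 • y) = none := by
          rw [hJ, Finset.mem_product, Finset.mem_insert, Finset.mem_singleton] at hp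
          rcases hp.2 with h | h
          · rw [h]
            show M.m ((1 : O3) • y) = none
            rw [one_smul]
            exact (hEP hy).1
          · rw [h]
            exact path_end M w y (hEP hy).2
        rw [h4]
        rfl
    have h2 : Disjoint {x | M'.m x = none} (⋃ p ∈ J, Flip_T w E p) := by
      rw [Set.disjoint_left]
      intro x hx hx'
      obtain ⟨p, hp, hxp⟩ := Set.mem_iUnion₂.1 hx'
      have h3 : M'.m x = none := hx
      rw [hin p (hJsub p hp) x hxp] at h3
      simp at h3
    have h3 : nu.real (⋃ p ∈ J, Flip_T w E p) = 2 * K.card * nu.real E := by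
      rw [measureReal_biUnion_finset (fun p hp q hq hpq => hdisj p (hJsub p hp) q (hJsub q hq) hpq)
        (fun p _ => Flip_T_meas w E hE p),
        Finset.sum_congr rfl fun p _ => Flip_T_nu w E hE p, Finset.sum_const, hJ,
        Finset.card_product, Finset.card_pair hodd.pos.ne, nsmul_eq_mul]
      push_cast
      ring
    have h4 : nu.real ({x | M'.m x = none} ∪ (⋃ p ∈ J, Flip_T w E p)) =
        nu.real {x | M'.m x = none} + nu.real (⋃ p ∈ J, Flip_T w E p) :=
      measureReal_union h2 (Finset.measurableSet_biUnion _ fun p _ => Flip_T_meas w E hE p)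
        (measure_ne_top _ _) (measure_ne_top _ _)
    have h5 : nu.real ({x | M'.m x = none} ∪ (⋃ p ∈ J, Flip_T w E p)) ≤
        nu.real {x | M.m x = none} := measureReal_mono h1 (measure_ne_top _ _)
    rw [h4, h3] at h5
    exact h5
  have hKr : (0 : ℝ) < K.card := by exact_mod_cast hKpos
  refine ⟨M', ?_, ?_⟩
  · have : 0 < 2 * (K.card : ℝ) * nu.real E := by positivity
    linarith
  · have hn : (0 : ℝ) < (w.length : ℝ) + 1 := by positivity
    have h1 : 2 / ((w.length : ℝ) + 1) * dd M M' ≤
        2 / ((w.length : ℝ) + 1) * (K.card * (w.length + 1) * nu.real E) :=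
      mul_le_mul_of_nonneg_left hdd (by positivity)
    have h2 : 2 / ((w.length : ℝ) + 1) * (K.card * (w.length + 1) * nu.real E) =
        2 * K.card * nu.real E := by
      field_simp
    rw [h2] at h1
    linarith

theorem flip (M : PM) (l : List (Fin 5)) (hpos : nu {x | M.m x = none ∧ Aug M l x} ≠ 0) :
    ∃ M' : PM, un M' < un M ∧ un M' + 2 / (l.length + 1) * dd M M' ≤ un M :=
  Flip_aux M l hpos

end Pool.Agent.MP_f406e2_lc_Q5
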