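import Mathlib
import Pool.Agent.Lib.MP_f406e2_lc_Q5.Gap
import Pool.Agent.Lib.MP_f406e2_lc_Q5.Mixing
import Pool.Agent.Lib.MP_f406e2_lc_Q5.Perfect
import Pool.Agent.Lib.MP_f406e2_lc_Q5.OrbL

/-!
# Q5, module Final: the division

As `QD.Final`. `M_gam`: `M.m ((gam i)⁻¹ • x) = some 0 ↔ M.m x = some i`: for `od i = false` by
`equi` and `sg i 0 = i`; for `od i = true`: `(gam i)⁻¹ = F (t i * sg i)⁻¹ * h i`,
`(t i * sg i) 0 = t i i = i`, and `M.m (h i • x) = some i ↔ M.m x = some i` (`sym`, `h_mul_self`).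
-/

set_option autoImplicit false

noncomputable section

namespace Pool.Agent.MP_f406e2_lc_Q5

open MeasureTheory
open Pool.Agent.MP_f406e2_lc_QD (E3 S2 O3 nu mat tr cr mp)

/-- the countable group -/
def Gam : Set O3 := {g | ∃ f ∈ A5, ∃ l, g = F f * wd l}

lemma Gam_countable : Gam.Countable := by
  have h1 : Gam ⊆ Set.range fun p : S5 × List (Fin 5) => F p.1 * wd p.2 := by
    rintro g ⟨f, _, l, rfl⟩
    exact ⟨(f, l), rfl⟩
  exact (Set.countable_range _).mono h1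

lemma Gam_one : (1 : O3) ∈ Gam := ⟨1, Subgroup.one_mem _, [], by rw [F_one, wd_nil, mul_one]⟩

lemma Gam_mul {g g' : O3} (hg : g ∈ Gam) (hg' : g' ∈ Gam) : g * g' ∈ Gam := by
  obtain ⟨f, hf, l, rfl⟩ := hg
  obtain ⟨f', hf', l', rfl⟩ := hg'
  obtain ⟨f'', hf'', l'', h1, _⟩ := pos_mul f f' hf hf' l l'
  exact ⟨f'', hf'', l'', h1⟩

lemma Gam_inv {g : O3} (hg : g ∈ Gam) : g⁻¹ ∈ Gam := by
  obtain ⟨f, hf, l, rfl⟩ := hg
  obtain ⟨f', hf', l', h1, _⟩ := pos_inv f hf l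
  exact ⟨f', hf', l', h1⟩

lemma Gam_F {f : S5} (hf : f ∈ A5) : F f ∈ Gam := ⟨f, hf, [], by rw [wd_nil, mul_one]⟩

lemma Gam_h (j : Fin 5) : h j ∈ Gam :=
  ⟨1, Subgroup.one_mem _, [j], by rw [F_one, wd_cons, wd_nil, mul_one, one_mul]⟩

lemma ev_mem (i : Fin 5) (hi : od i = true) : t i * sg i ∈ A5 := by
  rw [Equiv.Perm.mem_alternatingGroup, Equiv.Perm.sign_mul, t_sign, sign_sg, if_pos hi]
  rfl

lemma sg_mem (i : Fin 5) (hi : od i = false) : sg i ∈ A5 := by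
  rw [Equiv.Perm.mem_alternatingGroup, sign_sg, if_neg (by simp [hi])]

lemma ev_zero (i : Fin 5) : (t i * sg i) 0 = i := by
  revert i
  decide

lemma sg_zero (i : Fin 5) : sg i 0 = i := by
  revert i
  decide

lemma Gam_gam (i : Fin 5) : gam i ∈ Gam := by
  rw [gam]
  split_ifs with hi
  · exact Gam_mul (Gam_h i) (Gam_F (ev_mem i hi))
  · exact Gam_F (sg_mem i (by simpa using hi))

lemma Gam_det {g : O3} (hg : g ∈ Gam) : (mat g).det = 1 := by
  obtain ⟨f, hf, l, rfl⟩ := hg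
  rw [Pool.Agent.MP_f406e2_lc_QD.mat_mul, Matrix.det_mul, mat_F f hf, mat_wd, one_mul]

lemma smul_h (j : Fin 5) (x : S2) : h j • h j • x = x := by
  rw [← mul_smul, h_mul_self, one_smul]

lemma M_h (M : PM) (j : Fin 5) (y : S2) : M.m (h j • y) = some j ↔ M.m y = some j := by
  constructor
  · intro h1
    have h2 := M.sym (h j • y) j h1
    rwa [smul_h] at h2
  · exact M.sym y j

lemma M_F (M : PM) (f : S5) (hf : f ∈ A5) (y : S2) :
    M.m ((F f)⁻¹ • y) = some 0 ↔ M.m y = some (f 0) := by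
  have h1 : M.m y = (M.m ((F f)⁻¹ • y)).map f := by
    rw [← M.equi f hf, smul_inv_smul]
  constructor
  · intro h2
    rw [h1, h2, Option.map_some]
  · intro h2
    rw [h2] at h1
    cases h3 : M.m ((F f)⁻¹ • y) with
    | none => rw [h3] at h1; simp at h1
    | some a =>
      rw [h3, Option.map_some, Option.some_inj] at h1
      rw [f.injective h1]

lemma M_gam (M : PM) (i : Fin 5) (y : S2) : M.m ((gam i)⁻¹ • y) = some 0 ↔ M.m y = some i := by
  rw [gam]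
  split_ifs with hi
  · rw [mul_inv_rev, mul_smul, M_F M _ (ev_mem i hi), ev_zero, h_inv, M_h]
  · rw [M_F M _ (sg_mem i (by simpa using hi)), sg_zero]

theorem ae_part : ∃ A B : Set S2, MeasurableSet A ∧ nu B = 0 ∧
    ∀ x ∉ B, ∃! i : Fin 5, (gam i)⁻¹ • x ∈ A := by
  obtain ⟨lam, h0, h5, hgap⟩ := gap
  obtain ⟨M, hM⟩ := perfect lam (mixing_of_gap lam h0 h5 hgap)
  refine ⟨M.m ⁻¹' {some 0}, {x | M.m x = none}, M.meas _, hM, fun x hx => ?_⟩
  obtain ⟨i, hi⟩ := Option.ne_none_iff_exists'.1 hx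
  refine ⟨i, (M_gam M i x).2 hi, fun j hj => ?_⟩
  have h1 := (M_gam M j x).1 hj
  rw [hi, Option.some_inj] at h1
  exact h1.symm

/-- points in the same orbit -/
def orbS : Setoid S2 where
  r x y := ∃ g ∈ Gam, y = g • x
  iseqv := {
    refl := fun x => ⟨1, Gam_one, (one_smul _ x).symm⟩
    symm := by
      rintro x y ⟨g, hg, rfl⟩
      exact ⟨g⁻¹, Gam_inv hg, (inv_smul_smul g x).symm⟩
    trans := by
      rintro x y z ⟨g, hg, rfl⟩ ⟨g', hg', rfl⟩
      exact ⟨g' * g, Gam_mul hg' hg, (mul_smul g' g x).symm⟩ }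

/-- a representative of the orbit -/
def rep (x : S2) : S2 := (Quotient.mk orbS x).out

lemma rep_rel (x : S2) : ∃ g ∈ Gam, x = g • rep x :=
  Quotient.exact (s := orbS) (Quotient.out_eq (Quotient.mk orbS x))

lemma rep_smul (g : O3) (hg : g ∈ Gam) (x : S2) : rep (g • x) = rep x := by
  have h1 : Quotient.mk orbS (g • x) = Quotient.mk orbS x :=
    (Quotient.sound (s := orbS) ⟨g, hg, rfl⟩).symm
  rw [rep, rep, h1]

theorem exact_part : ∃ A : Set S2, ∀ x, ∃! i : Fin 5, (gam i)⁻¹ • x ∈ A := by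
  choose A hA using exact_orbit
  refine ⟨{y | y ∈ A (rep y)}, fun x => ?_⟩
  obtain ⟨g, ⟨f, hf, l, rfl⟩, hx⟩ := rep_rel x
  have h1 : ∀ i, (gam i)⁻¹ • x ∈ {y | y ∈ A (rep y)} ↔
      (gam i)⁻¹ • ((F f * wd l) • rep x) ∈ A (rep x) := by
    intro i
    rw [Set.mem_ofPred_eq, rep_smul _ (Gam_inv (Gam_gam i))]
    rw [← hx]
  simp only [h1]
  exact hA (rep x) f hf l

theorem main : ∃ A : Set S2, NullMeasurableSet A nu ∧ ∀ x, ∃! i : Fin 5, (gam i)⁻¹ • x ∈ A := by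
  obtain ⟨A₁, B, hA₁, hB, h1⟩ := ae_part
  obtain ⟨A₂, h2⟩ := exact_part
  set N : Set S2 := ⋃ g ∈ Gam, (fun x : S2 => g • x) ⁻¹' B with hN
  have hN0 : nu N = 0 := by
    rw [hN, measure_biUnion_null_iff Gam_countable]
    intro g _
    exact (mp g).quasiMeasurePreserving.preimage_null hB
  have hNinv : ∀ g ∈ Gam, ∀ x, g • x ∈ N ↔ x ∈ N := by
    have key : ∀ g ∈ Gam, ∀ x, x ∈ N → g • x ∈ N := by
      intro g hg x hx
      rw [hN, Set.mem_iUnion₂] at hx ⊢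
      obtain ⟨g', hg', hx'⟩ := hx
      refine ⟨g' * g⁻¹, Gam_mul hg' (Gam_inv hg), ?_⟩
      change (g' * g⁻¹) • g • x ∈ B
      rw [mul_smul, inv_smul_smul]
      exact hx'
    intro g hg x
    refine ⟨fun hx => ?_, key g hg x⟩
    have h3 := key g⁻¹ (Gam_inv hg) _ hx
    rwa [inv_smul_smul] at h3
  have hBN : B ⊆ N := by
    intro x hx
    rw [hN, Set.mem_iUnion₂]
    exact ⟨1, Gam_one, by
      change (1 : O3) • x ∈ B
      rwa [one_smul]⟩
  refine ⟨(A₁ \ N) ∪ (A₂ ∩ N), ?_, fun x => ?_⟩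
  · have h3 : (A₁ \ N ∪ A₂ ∩ N : Set S2) =ᵐ[nu] A₁ := by
      have h4 : ∀ᵐ x ∂nu, x ∉ N := measure_eq_zero_iff_ae_notMem.1 hN0
      filter_upwards [h4] with x hx
      apply propext
      constructor
      · rintro (h5 | h5)
        · exact h5.1
        · exact absurd h5.2 hx
      · intro h5
        exact Or.inl ⟨h5, hx⟩
    exact (hA₁.nullMeasurableSet).congr h3.symm
  · by_cases hx : x ∈ N
    · have h3 : ∀ i, (gam i)⁻¹ • x ∈ A₁ \ N ∪ A₂ ∩ N ↔ (gam i)⁻¹ • x ∈ A₂ := by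
        intro i
        have h4 : (gam i)⁻¹ • x ∈ N := (hNinv _ (Gam_inv (Gam_gam i)) x).2 hx
        constructor
        · rintro (h5 | h5)
          · exact absurd h4 h5.2
          · exact h5.1
        · intro h5
          exact Or.inr ⟨h5, h4⟩
      simp only [h3]
      exact h2 x
    · have h3 : ∀ i, (gam i)⁻¹ • x ∈ A₁ \ N ∪ A₂ ∩ N ↔ (gam i)⁻¹ • x ∈ A₁ := by
        intro i
        have h4 : (gam i)⁻¹ • x ∉ N := fun h5 => hx ((hNinv _ (Gam_inv (Gam_gam i)) x).1 h5)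
        constructor
        · rintro (h5 | h5)
          · exact h5.1
          · exact absurd h5.2 h4
        · intro h5
          exact Or.inl ⟨h5, h4⟩
      simp only [h3]
      exact h1 x fun h4 => hx (hBN h4)

end Pool.Agent.MP_f406e2_lc_Q5
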