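import Pool.Agent.Lib.MP_f406e2_lc_Q5.CircleO

/-!
# Q5, module SphereO: points of `ℤ[φ]³` on a sphere

A sphere `x² + y² + z² = m`, `m` a totally positive element of `ℤ[φ]` of norm `N`, carries at most
`3072 N^(5/6)` points with coordinates in `ℤ[φ]`: the first coordinate is in a box with sides
`2 √m₁`, `2 √m₂`, so it takes at most `4 √N + 2 ≤ 6 √N` values (`box_le`), and for each of them
`circle_le` applies (or there is only one point).
-/

set_option autoImplicit false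

open Real

namespace Pool.Agent.MP_f406e2_lc_Q5

private theorem sq_add_zero {x y : ℝ} (h : x ^ 2 + y ^ 2 = 0) : x = 0 ∧ y = 0 := by
  have h1 : x ^ 2 = 0 := by linarith only [h, sq_nonneg x, sq_nonneg y]
  have h2 : y ^ 2 = 0 := by linarith only [h, sq_nonneg x, sq_nonneg y]
  exact ⟨pow_eq_zero_iff (two_ne_zero) |>.1 h1, pow_eq_zero_iff (two_ne_zero) |>.1 h2⟩

/-- Points on a sphere. -/
theorem sphere_le {m : ℝ × ℝ} (hm : m ∈ OO) (h1 : 0 < m.1) (h2 : 0 < m.2)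
    (P : Finset ((ℝ × ℝ) × (ℝ × ℝ) × (ℝ × ℝ)))
    (hP : ∀ p ∈ P, p.1 ∈ OO ∧ p.2.1 ∈ OO ∧ p.2.2 ∈ OO ∧
      p.1 ^ 2 + p.2.1 ^ 2 + p.2.2 ^ 2 = m) :
    (P.card : ℝ) ≤ 3072 * (m.1 * m.2) ^ (5 / 6 : ℝ) := by
  classical
  have h0 : m ≠ 0 := by
    intro h
    rw [h] at h1
    exact lt_irrefl _ h1
  have hN0 : 0 < m.1 * m.2 := mul_pos h1 h2
  have hN : 1 ≤ m.1 * m.2 := by
    have := OO_norm hm h0
    rwa [abs_of_pos hN0] at this
  have hA1 : (1 : ℝ) ≤ (m.1 * m.2) ^ (1 / 3 : ℝ) := Real.one_le_rpow hN (by norm_num)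
  have hA0 : (0 : ℝ) ≤ 512 * (m.1 * m.2) ^ (1 / 3 : ℝ) := by positivity
  have hc1 : ∀ p ∈ P, p.1.1 ^ 2 + p.2.1.1 ^ 2 + p.2.2.1 ^ 2 = m.1 := by
    intro p hp
    have h := congrArg Prod.fst (hP p hp).2.2.2
    rwa [Prod.fst_add, Prod.fst_add, Prod.pow_fst, Prod.pow_fst, Prod.pow_fst] at h
  have hc2 : ∀ p ∈ P, p.1.2 ^ 2 + p.2.1.2 ^ 2 + p.2.2.2 ^ 2 = m.2 := by
    intro p hp
    have h := congrArg Prod.snd (hP p hp).2.2.2
    rwa [Prod.snd_add, Prod.snd_add, Prod.pow_snd, Prod.pow_snd, Prod.pow_snd] at h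
  -- the fibres
  have hfib : ∀ a ∈ P.image Prod.fst, (P.filter fun p => p.1 = a).card ≤
      ⌊512 * (m.1 * m.2) ^ (1 / 3 : ℝ)⌋₊ := by
    intro a ha
    apply Nat.le_floor
    obtain ⟨p₀, hp₀, hpa⟩ := Finset.mem_image.1 ha
    have haO : a ∈ OO := hpa ▸ (hP p₀ hp₀).1
    obtain ⟨n, hn⟩ : ∃ n : ℝ × ℝ, n = m - a ^ 2 := ⟨_, rfl⟩
    have hnO : n ∈ OO := hn ▸ OO.sub_mem hm (OO.pow_mem haO 2)
    have hn1 : n.1 = m.1 - a.1 ^ 2 := by rw [hn, Prod.fst_sub, Prod.pow_fst]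
    have hn2 : n.2 = m.2 - a.2 ^ 2 := by rw [hn, Prod.snd_sub, Prod.pow_snd]
    have hn1' : 0 ≤ n.1 := by
      have := hc1 p₀ hp₀
      rw [hpa] at this
      rw [hn1]
      linarith only [this, sq_nonneg p₀.2.1.1, sq_nonneg p₀.2.2.1]
    have hn2' : 0 ≤ n.2 := by
      have := hc2 p₀ hp₀
      rw [hpa] at this
      rw [hn2]
      linarith only [this, sq_nonneg p₀.2.1.2, sq_nonneg p₀.2.2.2]
    have hinj : Set.InjOn (Prod.snd : (ℝ × ℝ) × (ℝ × ℝ) × (ℝ × ℝ) → (ℝ × ℝ) × (ℝ × ℝ))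
        (P.filter fun p => p.1 = a) := by
      intro p hp p' hp' h
      have h1 := (Finset.mem_filter.1 hp).2
      have h2 := (Finset.mem_filter.1 hp').2
      exact Prod.ext (h1.trans h2.symm) h
    have hcard := Finset.card_image_of_injOn hinj
    rw [← hcard]
    have hQ : ∀ r ∈ (P.filter fun p => p.1 = a).image
        (Prod.snd : (ℝ × ℝ) × (ℝ × ℝ) × (ℝ × ℝ) → (ℝ × ℝ) × (ℝ × ℝ)),
        r.1 ∈ OO ∧ r.2 ∈ OO ∧ r.1 ^ 2 + r.2 ^ 2 = n := by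
      intro r hr
      obtain ⟨p, hp, hpr⟩ := Finset.mem_image.1 hr
      obtain ⟨hp1, hp2⟩ := Finset.mem_filter.1 hp
      obtain ⟨_, g1, g2, g3⟩ := hP p hp1
      rw [hp2] at g3
      rw [← hpr, hn, ← g3]
      refine ⟨g1, g2, ?_⟩
      ring
    rcases hn1'.eq_or_lt with h3 | h3
    · have hn0 : n = 0 := OO_fst hnO h3.symm
      have h4 : (P.filter fun p => p.1 = a).image
          (Prod.snd : (ℝ × ℝ) × (ℝ × ℝ) × (ℝ × ℝ) → (ℝ × ℝ) × (ℝ × ℝ)) ⊆ {0} := by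
        intro r hr
        obtain ⟨_, _, h5⟩ := hQ r hr
        rw [hn0] at h5
        have h6 := congrArg Prod.fst h5
        have h7 := congrArg Prod.snd h5
        rw [Prod.fst_add, Prod.pow_fst, Prod.pow_fst, Prod.fst_zero] at h6
        rw [Prod.snd_add, Prod.pow_snd, Prod.pow_snd, Prod.snd_zero] at h7
        obtain ⟨z1, z2⟩ := sq_add_zero h6
        obtain ⟨z3, z4⟩ := sq_add_zero h7
        rw [Finset.mem_singleton]
        exact Prod.ext (Prod.ext z1 z3) (Prod.ext z2 z4)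
      have h8 := Finset.card_le_card h4
      rw [Finset.card_singleton] at h8
      have h9 : (((P.filter fun p => p.1 = a).image
          (Prod.snd : (ℝ × ℝ) × (ℝ × ℝ) × (ℝ × ℝ) → (ℝ × ℝ) × (ℝ × ℝ))).card : ℝ) ≤ 1 := by
        exact_mod_cast h8
      linarith only [h9, hA1]
    · have h3' : 0 < n.2 := by
        rcases hn2'.eq_or_lt with h4 | h4
        · exfalso
          have := OO_snd hnO h4.symm
          rw [this, Prod.fst_zero] at h3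
          exact lt_irrefl _ h3
        · exact h4
      have h4 := circle_le hnO h3 h3' _ hQ
      have h5 : n.1 * n.2 ≤ m.1 * m.2 := by
        apply mul_le_mul _ _ h3'.le h1.le
        · rw [hn1]
          linarith only [sq_nonneg a.1]
        · rw [hn2]
          linarith only [sq_nonneg a.2]
      have h6 : (n.1 * n.2) ^ (1 / 3 : ℝ) ≤ (m.1 * m.2) ^ (1 / 3 : ℝ) :=
        Real.rpow_le_rpow (by positivity) h5 (by norm_num)
      linarith only [h4, h6]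
  have hmain := Finset.card_le_mul_card_image (f := Prod.fst) P _ hfib
  -- the first coordinates
  have hbox : ((P.image Prod.fst).card : ℝ) ≤ 2 * √m.1 * (2 * √m.2) + 2 := by
    refine box_le (a₁ := -√m.1) (a₂ := -√m.2) (by positivity) (by positivity) _ ?_
    intro a ha
    obtain ⟨p, hp, hpa⟩ := Finset.mem_image.1 ha
    have g1 : |a.1| ≤ √m.1 := by
      apply Real.abs_le_sqrt
      rw [← hpa, ← hc1 p hp]
      linarith only [sq_nonneg p.2.1.1, sq_nonneg p.2.2.1]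
    have g2 : |a.2| ≤ √m.2 := by
      apply Real.abs_le_sqrt
      rw [← hpa, ← hc2 p hp]
      linarith only [sq_nonneg p.2.1.2, sq_nonneg p.2.2.2]
    rw [abs_le] at g1 g2
    refine ⟨hpa ▸ (hP p hp).1, ⟨g1.1, ?_⟩, g2.1, ?_⟩
    · linarith only [g1.2]
    · linarith only [g2.2]
  have hbox2 : ((P.image Prod.fst).card : ℝ) ≤ 6 * (m.1 * m.2) ^ (1 / 2 : ℝ) := by
    rw [← Real.sqrt_eq_rpow, Real.sqrt_mul h1.le]
    have h3 : 1 ≤ √m.1 * √m.2 := by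
      rw [← Real.sqrt_mul h1.le]
      exact Real.one_le_sqrt.2 hN
    linarith only [hbox, h3]
  have hfl : (⌊512 * (m.1 * m.2) ^ (1 / 3 : ℝ)⌋₊ : ℝ) ≤ 512 * (m.1 * m.2) ^ (1 / 3 : ℝ) :=
    Nat.floor_le hA0
  have hmain' : (P.card : ℝ) ≤ (⌊512 * (m.1 * m.2) ^ (1 / 3 : ℝ)⌋₊ : ℝ) *
      ((P.image Prod.fst).card : ℝ) := by exact_mod_cast hmain
  have hpow : (m.1 * m.2) ^ (5 / 6 : ℝ) =
      (m.1 * m.2) ^ (1 / 3 : ℝ) * (m.1 * m.2) ^ (1 / 2 : ℝ) := by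
    rw [← Real.rpow_add hN0]
    norm_num
  calc (P.card : ℝ) ≤ (⌊512 * (m.1 * m.2) ^ (1 / 3 : ℝ)⌋₊ : ℝ) *
        ((P.image Prod.fst).card : ℝ) := hmain'
    _ ≤ (512 * (m.1 * m.2) ^ (1 / 3 : ℝ)) * (6 * (m.1 * m.2) ^ (1 / 2 : ℝ)) :=
        mul_le_mul hfl hbox2 (by positivity) hA0
    _ = 3072 * (m.1 * m.2) ^ (5 / 6 : ℝ) := by
        rw [hpow]
        ring

end Pool.Agent.MP_f406e2_lc_Q5
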